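import Pool.Agent.H.MP_ef93d4_co.h56.FrameA

/-!
# Two adapted frames agree on the common orthogonal plane
-/

namespace Pool.Agent.OrthoFan

open Set Filter Topology Module

variable {E : Type*} [NormedAddCommGroup E] [InnerProductSpace ℝ E] {ι : Type*}

/-- A point of the closure `B l` is on the same side of (or on) the hyperplanes of any two points
of a preconnected subset of `B l`. -/
theorem same_sign {s : Finset ι} {V : ι → Set E} (hG : SymCov s V) {l : ι} {A : Set E}
    (hA : IsPreconnected A) (hAl : A ⊆ Bs V l) {u u' : E} (hu : u ∈ A) (hu' : u' ∈ A) {v : E}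
    (hv : v ∈ Bs V l) : 0 ≤ inner ℝ v u * inner ℝ v u' := by
  by_contra hneg
  push Not at hneg
  have hO : IsOpen {v : E | inner ℝ v u * inner ℝ v u' < 0} :=
    isOpen_lt (by fun_prop) continuous_const
  obtain ⟨w, hw, hw1, hwl⟩ := mem_closure_iff.1 hv _ hO hneg
  have hwV : w ∈ V l := by
    rcases hwl with h | h
    · exact h
    · have := hG.sym l _ h
      rwa [neg_neg] at this
  obtain ⟨x, hx, hwx⟩ := pre_cross hA hu hu' hw
  have := hG.toGoodCov.orthB (hAl hx) hwV hw1
  rw [real_inner_comm] at this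
  exact this hwx

theorem quad2 {f g f' g' : ℝ} (hff : 0 < f * f') (hgg : 0 < g * g') (hfg : f * g < 0)
    (h : ∀ p q : ℝ, 0 ≤ p → 0 ≤ q → 0 ≤ (p * f + q * g) * (p * f' + q * g')) :
    f * g' = g * f' := by
  have hf0 : f ≠ 0 := by
    rintro rfl
    simp at hff
  have hg0 : g ≠ 0 := by
    rintro rfl
    simp at hgg
  have h1 : g * f' < 0 := by
    have h2 : (g * f') * f ^ 2 = (f * g) * (f * f') := by ring
    have h3 : (g * f') * f ^ 2 < 0 := by
      rw [h2]
      exact mul_neg_of_neg_of_pos hfg hff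
    have h4 : 0 < f ^ 2 := by positivity
    by_contra h5
    push Not at h5
    have := mul_nonneg h5 h4.le
    linarith
  have h2 : g' * f < 0 := by
    have h2 : (g' * f) * g ^ 2 = (f * g) * (g * g') := by ring
    have h3 : (g' * f) * g ^ 2 < 0 := by
      rw [h2]
      exact mul_neg_of_neg_of_pos hfg hgg
    have h4 : 0 < g ^ 2 := by positivity
    by_contra h5
    push Not at h5
    have := mul_nonneg h5 h4.le
    linarith
  have h3 := h (-(g * f' + g' * f)) (2 * (f * f')) (by linarith) (by linarith)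
  have h4 : (-(g * f' + g' * f) * f + 2 * (f * f') * g) *
      (-(g * f' + g' * f) * f' + 2 * (f * f') * g') = -((f * f') * (g * f' - g' * f) ^ 2) := by
    ring
  rw [h4] at h3
  have h5 : (f * f') * (g * f' - g' * f) ^ 2 ≤ 0 := by linarith
  have h6 : (g * f' - g' * f) ^ 2 = 0 := by
    have h7 := sq_nonneg (g * f' - g' * f)
    by_contra hne
    have h8 : 0 < (g * f' - g' * f) ^ 2 := lt_of_le_of_ne h7 (Ne.symm hne)
    have := mul_pos hff h8
    linarith
  have h7 : g * f' - g' * f = 0 := pow_eq_zero_iff (two_ne_zero) |>.1 h6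
  linarith

/-- Either the coordinates have the same sign or the two vectors are parallel. -/
theorem quad3 {f g h f' g' h' : ℝ} (hff : 0 < f * f') (hgg : 0 < g * g') (hhh : 0 < h * h')
    (H : ∀ p q r : ℝ, 0 ≤ p → 0 ≤ q → 0 ≤ r →
      0 ≤ (p * f + q * g + r * h) * (p * f' + q * g' + r * h')) :
    (0 < f * g ∧ 0 < g * h ∧ 0 < f * h) ∨ (f * g' = g * f' ∧ g * h' = h * g' ∧ f * h' = h * f') := by
  have hf0 : f ≠ 0 := by
    rintro rfl
    simp at hff
  have hg0 : g ≠ 0 := by
    rintro rfl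
    simp at hgg
  have hh0 : h ≠ 0 := by
    rintro rfl
    simp at hhh
  have hf0' : f' ≠ 0 := by
    rintro rfl
    simp at hff
  have hg0' : g' ≠ 0 := by
    rintro rfl
    simp at hgg
  have hh0' : h' ≠ 0 := by
    rintro rfl
    simp at hhh
  have K1 : f * g < 0 → f * g' = g * f' := fun hn => quad2 hff hgg hn (fun p q hp hq => by
    have := H p q 0 hp hq le_rfl
    simpa using this)
  have K2 : g * h < 0 → g * h' = h * g' := fun hn => quad2 hgg hhh hn (fun p q hp hq => by
    have := H 0 p q le_rfl hp hq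
    simpa using this)
  have K3 : f * h < 0 → f * h' = h * f' := fun hn => quad2 hff hhh hn (fun p q hp hq => by
    have := H p 0 q hp le_rfl hq
    simpa using this)
  rcases lt_or_gt_of_ne (mul_ne_zero hf0 hg0) with h1 | h1 <;>
  rcases lt_or_gt_of_ne (mul_ne_zero hg0 hh0) with h2 | h2 <;>
  rcases lt_or_gt_of_ne (mul_ne_zero hf0 hh0) with h3 | h3
  · exact Or.inr ⟨K1 h1, K2 h2, K3 h3⟩
  · right
    have e1 := K1 h1
    have e2 := K2 h2
    refine ⟨e1, e2, ?_⟩
    have : g' * (f * h' - h * f') = 0 := by linear_combination h' * e1 + f' * e2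
    have := (mul_eq_zero.1 this).resolve_left hg0'
    linarith
  · right
    have e1 := K1 h1
    have e3 := K3 h3
    refine ⟨e1, ?_, e3⟩
    have : f' * (g * h' - h * g') = 0 := by linear_combination (-h') * e1 + g' * e3
    have := (mul_eq_zero.1 this).resolve_left hf0'
    linarith
  · exfalso
    -- `fg < 0`, `gh > 0`, `fh > 0`
    have : (f * g) * (g * h) * (f * h) = (f * g * h) ^ 2 := by ring
    have h4 : (f * g) * (g * h) < 0 := mul_neg_of_neg_of_pos h1 h2
    have h5 : (f * g) * (g * h) * (f * h) < 0 := mul_neg_of_neg_of_pos h4 h3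
    have h6 := sq_nonneg (f * g * h)
    linarith
  · right
    have e2 := K2 h2
    have e3 := K3 h3
    refine ⟨?_, e2, e3⟩
    have : h' * (f * g' - g * f') = 0 := by linear_combination g' * e3 - f' * e2
    have := (mul_eq_zero.1 this).resolve_left hh0'
    linarith
  · exfalso
    have : (f * g) * (g * h) * (f * h) = (f * g * h) ^ 2 := by ring
    have h4 : (f * g) * (g * h) < 0 := mul_neg_of_pos_of_neg h1 h2
    have h5 : (f * g) * (g * h) * (f * h) < 0 := mul_neg_of_neg_of_pos h4 h3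
    have h6 := sq_nonneg (f * g * h)
    linarith
  · exfalso
    have : (f * g) * (g * h) * (f * h) = (f * g * h) ^ 2 := by ring
    have h4 : 0 < (f * g) * (g * h) := mul_pos h1 h2
    have h5 : (f * g) * (g * h) * (f * h) < 0 := mul_neg_of_pos_of_neg h4 h3
    have h6 := sq_nonneg (f * g * h)
    linarith
  · exact Or.inl ⟨h1, h2, h3⟩

section

variable [FiniteDimensional ℝ E]

/-- If `u` has only nonzero coordinates in the first frame and the half-open segment
`u + t m` lies in the closed cone `S` of the second frame, then `u` lies in the open cone pair `S`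
of the first frame. -/
theorem agree (hE : finrank ℝ E = 4) {s : Finset ι} {V : ι → Set E} (hG : SymCov s V)
    {e : Fin 4 → ι} {x1 x2 : E} {F1 F2 : Fin 3 → E} (hF1 : Fr x1 F1) (hF2 : Fr x2 F2)
    (hW1 : Wad V e F1) (hW2 : Wad V e F2) {u m : E} (hu1 : inner ℝ u x1 = 0)
    (hu2 : inner ℝ u x2 = 0) (hm1 : inner ℝ m x1 = 0) (hm2 : inner ℝ m x2 = 0)
    (hind : ∀ p q : ℝ, p • u + q • m = 0 → p = 0 ∧ q = 0)
    (hne : ∀ i, inner ℝ u (F1 i) ≠ 0) {S : Fin 3 → Bool}
    (hS : ∀ᶠ t : ℝ in 𝓝[>] 0, ∀ i, 0 ≤ sgn (S i) * inner ℝ (u + t • m) (F2 i)) :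
    (∀ i, 0 < sgn (S i) * inner ℝ u (F1 i)) ∨ (∀ i, sgn (S i) * inner ℝ u (F1 i) < 0) := by
  have hev : ∀ᶠ t : ℝ in 𝓝[>] 0, ∀ i, 0 < inner ℝ u (F1 i) * inner ℝ (u + t • m) (F1 i) := by
    rw [eventually_all]
    intro i
    have hc : Continuous (fun t : ℝ => inner ℝ u (F1 i) * inner ℝ (u + t • m) (F1 i)) := by
      fun_prop
    have h0 : 0 < inner ℝ u (F1 i) * inner ℝ (u + (0 : ℝ) • m) (F1 i) := by
      rw [zero_smul, add_zero]
      exact mul_self_pos.2 (hne i)
    exact ((hc.tendsto 0).eventually (lt_mem_nhds h0)).filter_mono nhdsWithin_le_nhds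
  obtain ⟨ε, ⟨hε1, hε2⟩, hε3⟩ := ((hev.and hS).and self_mem_nhdsWithin).exists
  have hε : 0 < ε := hε3
  have hS0 : ∀ i, 0 ≤ sgn (S i) * inner ℝ u (F2 i) := by
    intro i
    have hc : Continuous (fun t : ℝ => sgn (S i) * inner ℝ (u + t • m) (F2 i)) := by fun_prop
    have ht := (hc.tendsto 0).mono_left (nhdsWithin_le_nhds (s := Ioi 0))
    simp only [zero_smul, add_zero] at ht
    exact ge_of_tendsto ht (hS.mono (fun t ht => ht i))
  set u' := u + ε • m with hu'
  have hu'1 : inner ℝ u' x1 = 0 := by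
    rw [hu', inner_add_left, real_inner_smul_left, hu1, hm1]
    ring
  have hu'2 : inner ℝ u' x2 = 0 := by
    rw [hu', inner_add_left, real_inner_smul_left, hu2, hm2]
    ring
  have hind' : ∀ p q : ℝ, p • u + q • u' = 0 → p = 0 ∧ q = 0 := by
    intro p q h
    have h1 : (p + q) • u + (q * ε) • m = 0 := by
      rw [← h, hu', smul_add, add_smul, smul_smul]
      abel
    obtain ⟨h2, h3⟩ := hind _ _ h1
    have h4 : q = 0 := (mul_eq_zero.1 h3).resolve_right hε.ne'
    exact ⟨by linarith, h4⟩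
  have hu0 : u ≠ 0 := by
    intro h
    have := (hind 1 0 (by rw [h]; simp)).1
    norm_num at this
  have hu'0 : u' ≠ 0 := by
    intro h
    have := (hind' 0 1 (by rw [h]; simp)).2
    norm_num at this
  -- the arc
  set C : Set E := {w | ∃ p q : ℝ, 0 ≤ p ∧ 0 ≤ q ∧ 0 < p + q ∧ w = p • u + q • u'} with hC
  have hCc : Convex ℝ C := by
    rintro _ ⟨p, q, hp, hq, hpq, rfl⟩ _ ⟨p', q', hp', hq', hpq', rfl⟩ a b ha hb hab
    refine ⟨a * p + b * p', a * q + b * q', by positivity, by positivity, ?_, ?_⟩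
    · have h1 : a * p + b * p' + (a * q + b * q') = a * (p + q) + b * (p' + q') := by ring
      rw [h1]
      rcases eq_or_lt_of_le ha with h | h
      · rw [← h, zero_mul, zero_add]
        have : b = 1 := by linarith
        rw [this, one_mul]
        exact hpq'
      · have h2 := mul_pos h hpq
        have h3 := mul_nonneg hb hpq'.le
        linarith
    · module
  have hC0 : (0 : E) ∉ C := by
    rintro ⟨p, q, hp, hq, hpq, h⟩
    obtain ⟨h1, h2⟩ := hind' p q h.symm
    rw [h1, h2] at hpq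
    norm_num at hpq
  have hA := cone_pre hCc hC0 (by
    rintro _ ⟨p, q, hp, hq, hpq, rfl⟩ r hr
    refine ⟨r * p, r * q, by positivity, by positivity, ?_, ?_⟩
    · rw [← mul_add]
      exact mul_pos hr hpq
    · module)
  set A : Set E := {w : E | ‖w‖ = 1 ∧ w ∈ C} with hAd
  have hAB : A ⊆ Bs V (e (idx S)) := by
    rintro w ⟨hw1, p, q, hp, hq, hpq, hw⟩
    have hwx : inner ℝ w x2 = 0 := by
      rw [hw, inner_add_left, real_inner_smul_left, real_inner_smul_left, hu2, hu'2]
      ring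
    have hexp := hF2.expand0 hE hwx
    rw [hexp]
    refine hW2 S _ ?_ ?_
    · intro i
      have : sgn (S i) * inner ℝ w (F2 i) = p * (sgn (S i) * inner ℝ u (F2 i)) +
          q * (sgn (S i) * inner ℝ u' (F2 i)) := by
        rw [hw, inner_add_left, real_inner_smul_left, real_inner_smul_left]
        ring
      rw [this]
      exact add_nonneg (mul_nonneg hp (hS0 i)) (mul_nonneg hq (hε2 i))
    · rw [← hF2.norm_sum, ← hexp, hw1, one_pow]
  have huA : ‖u‖⁻¹ • u ∈ A := by
    have := inv_pos.2 (norm_pos_iff.2 hu0)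
    exact ⟨norm_unit hu0, ‖u‖⁻¹, 0, this.le, le_rfl, by linarith, by simp⟩
  have hu'A : ‖u'‖⁻¹ • u' ∈ A := by
    have := inv_pos.2 (norm_pos_iff.2 hu'0)
    exact ⟨norm_unit hu'0, 0, ‖u'‖⁻¹, le_rfl, this.le, by linarith, by simp⟩
  have key : ∀ v ∈ Bs V (e (idx S)), 0 ≤ inner ℝ v u * inner ℝ v u' := by
    intro v hv
    have h1 := same_sign hG hA hAB huA hu'A hv
    rw [inner_smul_right, inner_smul_right] at h1
    have h2 : ‖u‖⁻¹ * inner ℝ v u * (‖u'‖⁻¹ * inner ℝ v u') =
        (‖u‖⁻¹ * ‖u'‖⁻¹) * (inner ℝ v u * inner ℝ v u') := by ring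
    rw [h2] at h1
    exact nonneg_of_mul_nonneg_right h1
      (mul_pos (inv_pos.2 (norm_pos_iff.2 hu0)) (inv_pos.2 (norm_pos_iff.2 hu'0)))
  have H : ∀ p q r : ℝ, 0 ≤ p → 0 ≤ q → 0 ≤ r →
      0 ≤ (p * (sgn (S 0) * inner ℝ u (F1 0)) + q * (sgn (S 1) * inner ℝ u (F1 1)) +
        r * (sgn (S 2) * inner ℝ u (F1 2))) * (p * (sgn (S 0) * inner ℝ u' (F1 0)) +
        q * (sgn (S 1) * inner ℝ u' (F1 1)) + r * (sgn (S 2) * inner ℝ u' (F1 2))) := by
    intro p q r hp hq hr
    set Y : Fin 3 → ℝ := ![p * sgn (S 0), q * sgn (S 1), r * sgn (S 2)] with hY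
    have hYi : ∀ z : E, inner ℝ (∑ i, Y i • F1 i) z = p * (sgn (S 0) * inner ℝ z (F1 0)) +
        q * (sgn (S 1) * inner ℝ z (F1 1)) + r * (sgn (S 2) * inner ℝ z (F1 2)) := by
      intro z
      rw [Fin.sum_univ_three, real_inner_comm z]
      simp only [inner_add_right, inner_smul_right, hY, Matrix.cons_val_zero,
        Matrix.cons_val_one, Matrix.cons_val]
      ring
    rw [← hYi u, ← hYi u']
    by_cases h0 : ∑ i, Y i • F1 i = 0
    · rw [h0, inner_zero_left, inner_zero_left, mul_zero]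
    · have h1 := hW1.cone hF1 (S := S) (Y := Y) (by
        intro i
        fin_cases i
        · show 0 ≤ sgn (S 0) * (p * sgn (S 0))
          have : sgn (S 0) * (p * sgn (S 0)) = p * (sgn (S 0) * sgn (S 0)) := by ring
          rw [this, sgn_sq, mul_one]
          exact hp
        · show 0 ≤ sgn (S 1) * (q * sgn (S 1))
          have : sgn (S 1) * (q * sgn (S 1)) = q * (sgn (S 1) * sgn (S 1)) := by ring
          rw [this, sgn_sq, mul_one]
          exact hq
        · show 0 ≤ sgn (S 2) * (r * sgn (S 2))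
          have : sgn (S 2) * (r * sgn (S 2)) = r * (sgn (S 2) * sgn (S 2)) := by ring
          rw [this, sgn_sq, mul_one]
          exact hr) h0
      have h2 := key _ h1
      rw [real_inner_smul_left, real_inner_smul_left] at h2
      set ρ := ‖∑ i, Y i • F1 i‖⁻¹ with hρ
      have hρ0 : 0 < ρ := inv_pos.2 (norm_pos_iff.2 h0)
      have h3 : ρ * inner ℝ (∑ i, Y i • F1 i) u * (ρ * inner ℝ (∑ i, Y i • F1 i) u') =
          ρ ^ 2 * (inner ℝ (∑ i, Y i • F1 i) u * inner ℝ (∑ i, Y i • F1 i) u') := by ring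
      rw [h3] at h2
      exact nonneg_of_mul_nonneg_right h2 (by positivity)
  have hss : ∀ i, 0 < sgn (S i) * inner ℝ u (F1 i) * (sgn (S i) * inner ℝ u' (F1 i)) := by
    intro i
    have : sgn (S i) * inner ℝ u (F1 i) * (sgn (S i) * inner ℝ u' (F1 i)) =
        (sgn (S i) * sgn (S i)) * (inner ℝ u (F1 i) * inner ℝ u' (F1 i)) := by ring
    rw [this, sgn_sq, one_mul]
    exact hε1 i
  rcases quad3 (hss 0) (hss 1) (hss 2) H with ⟨h1, h2, h3⟩ | ⟨h1, h2, h3⟩
  · rcases lt_trichotomy (sgn (S 0) * inner ℝ u (F1 0)) 0 with h | h | h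
    · right
      have k1 := neg_of_mul_pos_right h1 h.le
      have k2 := neg_of_mul_pos_right h3 h.le
      intro i
      fin_cases i
      · exact h
      · exact k1
      · exact k2
    · rw [h, zero_mul] at h1
      exact absurd h1 (lt_irrefl _)
    · left
      have k1 := pos_of_mul_pos_right h1 h.le
      have k2 := pos_of_mul_pos_right h3 h.le
      intro i
      fin_cases i
      · exact h
      · exact k1
      · exact k2
  · exfalso
    -- the two vectors are parallel
    have canc : ∀ i j, sgn (S i) * inner ℝ u (F1 i) * (sgn (S j) * inner ℝ u' (F1 j)) =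
        sgn (S j) * inner ℝ u (F1 j) * (sgn (S i) * inner ℝ u' (F1 i)) →
        inner ℝ u (F1 i) * inner ℝ u' (F1 j) = inner ℝ u (F1 j) * inner ℝ u' (F1 i) := by
      intro i j h
      have h4 : (sgn (S i) * sgn (S j)) * (inner ℝ u (F1 i) * inner ℝ u' (F1 j)) =
          (sgn (S i) * sgn (S j)) * (inner ℝ u (F1 j) * inner ℝ u' (F1 i)) := by
        linear_combination h
      exact mul_left_cancel₀ (mul_ne_zero (sgn_ne _) (sgn_ne _)) h4
    have e1 := canc 0 1 h1
    have e3 := canc 0 2 h3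
    have hz : inner ℝ u' (F1 0) • u - inner ℝ u (F1 0) • u' = 0 := by
      have h0 : inner ℝ (inner ℝ u' (F1 0) • u - inner ℝ u (F1 0) • u') x1 = 0 := by
        rw [inner_sub_left, real_inner_smul_left, real_inner_smul_left, hu1, hu'1]
        ring
      rw [hF1.expand0 hE h0]
      refine Finset.sum_eq_zero (fun i _ => ?_)
      have : inner ℝ (inner ℝ u' (F1 0) • u - inner ℝ u (F1 0) • u') (F1 i) = 0 := by
        rw [inner_sub_left, real_inner_smul_left, real_inner_smul_left]
        fin_cases i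
        · show inner ℝ u' (F1 0) * inner ℝ u (F1 0) - inner ℝ u (F1 0) * inner ℝ u' (F1 0) = 0
          ring
        · show inner ℝ u' (F1 0) * inner ℝ u (F1 1) - inner ℝ u (F1 0) * inner ℝ u' (F1 1) = 0
          rw [e1]
          ring
        · show inner ℝ u' (F1 0) * inner ℝ u (F1 2) - inner ℝ u (F1 0) * inner ℝ u' (F1 2) = 0
          rw [e3]
          ring
      rw [this, zero_smul]
    have h4 := (hind' (inner ℝ u' (F1 0)) (-inner ℝ u (F1 0)) (by
      rw [neg_smul, ← sub_eq_add_neg]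
      exact hz)).2
    exact hne 0 (by linarith)

/-- In dimension four there is a unit vector orthogonal to three given ones. -/
theorem exists_orth3 (hE : 4 ≤ finrank ℝ E) (a b c : E) :
    ∃ e : E, ‖e‖ = 1 ∧ inner ℝ e a = 0 ∧ inner ℝ e b = 0 ∧ inner ℝ e c = 0 := by
  classical
  let K : Submodule ℝ E := Submodule.span ℝ (({a, b, c} : Finset E) : Set E)
  have h1 : finrank ℝ K ≤ 3 := by
    have h := finrank_span_finset_le_card (R := ℝ) ({a, b, c} : Finset E)
    exact h.trans Finset.card_le_three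
  have h2 := Submodule.finrank_add_finrank_orthogonal K
  have h3 : 0 < finrank ℝ Kᗮ := by omega
  have h4 : Kᗮ ≠ ⊥ := by
    intro h
    rw [h] at h3
    simp at h3
  obtain ⟨v, hv, hv0⟩ := Submodule.exists_mem_ne_zero_of_ne_bot h4
  have key : ∀ z ∈ ({a, b, c} : Finset E), inner ℝ (‖v‖⁻¹ • v) z = 0 := by
    intro z hz
    have := (Submodule.mem_orthogonal' K v).1 hv z (Submodule.subset_span (by exact_mod_cast hz))
    rw [real_inner_smul_left, this, mul_zero]
  exact ⟨‖v‖⁻¹ • v, norm_unit hv0, key a (by simp), key b (by simp), key c (by simp)⟩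

/-- The plane orthogonal to two vectors. -/
def Mp (x1 x2 : E) : Submodule ℝ E where
  carrier := {u | inner ℝ u x1 = 0 ∧ inner ℝ u x2 = 0}
  add_mem' := by
    rintro a b ⟨h1, h2⟩ ⟨h3, h4⟩
    exact ⟨by rw [inner_add_left, h1, h3, add_zero], by rw [inner_add_left, h2, h4, add_zero]⟩
  zero_mem' := ⟨inner_zero_left _, inner_zero_left _⟩
  smul_mem' := by
    rintro c a ⟨h1, h2⟩
    exact ⟨by rw [real_inner_smul_left, h1, mul_zero], by rw [real_inner_smul_left, h2, mul_zero]⟩

theorem mem_Mp {x1 x2 u : E} : u ∈ Mp x1 x2 ↔ inner ℝ u x1 = 0 ∧ inner ℝ u x2 = 0 := Iff.rfl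

omit [FiniteDimensional ℝ E] in
theorem generic {κ : Type*} [Finite κ] (p : Submodule ℝ E) (w : κ → E)
    (h : ∀ i, ∃ u ∈ p, inner ℝ u (w i) ≠ 0) : ∃ d ∈ p, ∀ i, inner ℝ d (w i) ≠ 0 := by
  obtain ⟨d, hd, hdi⟩ := Module.Dual.exists_forall_mem_ne_zero_of_forall_exists p
    (fun i => (innerₗ E (w i) : E →ₗ[ℝ] ℝ)) (by
      intro i
      obtain ⟨u, hu, h2⟩ := h i
      refine ⟨u, hu, ?_⟩
      rw [innerₗ_apply_apply, real_inner_comm]
      exact h2)
  refine ⟨d, hd, fun i => ?_⟩
  have := hdi i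
  rw [innerₗ_apply_apply, real_inner_comm] at this
  exact this

omit [FiniteDimensional ℝ E] in
theorem generic_near {κ : Type*} [Finite κ] {w : κ → E} (u : E) {d : E}
    (h : ∀ i, inner ℝ d (w i) ≠ 0) : ∀ᶠ t : ℝ in 𝓝[>] 0, ∀ i, inner ℝ (u + t • d) (w i) ≠ 0 := by
  rw [eventually_all]
  intro i
  by_cases h0 : inner ℝ u (w i) = 0
  · filter_upwards [self_mem_nhdsWithin] with t ht
    have ht0 : 0 < t := ht
    rw [inner_add_left, real_inner_smul_left, h0, zero_add]
    exact mul_ne_zero ht0.ne' (h i)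
  · have hc : Continuous (fun t : ℝ => inner ℝ (u + t • d) (w i)) := by fun_prop
    have h1 : inner ℝ (u + (0 : ℝ) • d) (w i) ≠ 0 := by
      rw [zero_smul, add_zero]
      exact h0
    exact ((hc.tendsto 0).eventually_ne h1).filter_mono nhdsWithin_le_nhds

/-- If all six coordinates are nonzero functionals on the common plane, the products of
coordinates have the same sign there. -/
theorem products (hE : finrank ℝ E = 4) {s : Finset ι} {V : ι → Set E} (hG : SymCov s V)
    {e : Fin 4 → ι} {x1 x2 : E} {F1 F2 : Fin 3 → E} (hF1 : Fr x1 F1) (hF2 : Fr x2 F2)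
    (hW1 : Wad V e F1) (hW2 : Wad V e F2) (h1 : ∀ i, ∃ u ∈ Mp x1 x2, inner ℝ u (F1 i) ≠ 0)
    (h2 : ∀ i, ∃ u ∈ Mp x1 x2, inner ℝ u (F2 i) ≠ 0) {u : E} (hu : u ∈ Mp x1 x2) (i j : Fin 3) :
    0 ≤ inner ℝ u (F1 i) * inner ℝ u (F1 j) * (inner ℝ u (F2 i) * inner ℝ u (F2 j)) := by
  obtain ⟨d, hd, hdi⟩ := generic (Mp x1 x2) (fun k : Fin 3 ⊕ Fin 3 => Sum.elim F1 F2 k) (by
    rintro (k | k)
    · exact h1 k
    · exact h2 k)
  have hev := generic_near (w := fun k : Fin 3 ⊕ Fin 3 => Sum.elim F1 F2 k) u hdi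
  have hc : Continuous (fun t : ℝ => inner ℝ (u + t • d) (F1 i) * inner ℝ (u + t • d) (F1 j) *
      (inner ℝ (u + t • d) (F2 i) * inner ℝ (u + t • d) (F2 j))) := by fun_prop
  have ht := (hc.tendsto 0).mono_left (nhdsWithin_le_nhds (s := Ioi 0))
  simp only [zero_smul, add_zero] at ht
  refine ge_of_tendsto ht (hev.mono ?_)
  intro t hti
  -- the generic case
  have hut : u + t • d ∈ Mp x1 x2 := (Mp x1 x2).add_mem hu ((Mp x1 x2).smul_mem t hd)
  set w := u + t • d with hw
  have hw1 : ∀ k, inner ℝ w (F1 k) ≠ 0 := fun k => hti (Sum.inl k)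
  have hw2 : ∀ k, inner ℝ w (F2 k) ≠ 0 := fun k => hti (Sum.inr k)
  clear_value w
  choose S hS using fun k => exists_sgn (hw2 k)
  obtain ⟨m, hm, hmw, hm1, hm2⟩ := exists_orth3 (by rw [hE]) w x1 x2
  have hw0 : w ≠ 0 := by
    rintro rfl
    exact hw1 0 (inner_zero_left _)
  have hmm : inner ℝ m m = 1 := by rw [real_inner_self_eq_norm_sq, hm, one_pow]
  have hwm : inner ℝ w m = 0 := by rw [real_inner_comm]; exact hmw
  have hind : ∀ p q : ℝ, p • w + q • m = 0 → p = 0 ∧ q = 0 := by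
    intro p q h
    have e1 := congrArg (fun z => inner ℝ z m) h
    simp only [inner_add_left, real_inner_smul_left, inner_zero_left, hmm, hwm] at e1
    have e2 := congrArg (fun z => inner ℝ z w) h
    simp only [inner_add_left, real_inner_smul_left, inner_zero_left, hmw,
      real_inner_self_eq_norm_sq] at e2
    have h3 : 0 < ‖w‖ ^ 2 := by
      have := norm_pos_iff.2 hw0
      positivity
    refine ⟨?_, by linarith⟩
    have : p * ‖w‖ ^ 2 = 0 := by linarith
    exact (mul_eq_zero.1 this).resolve_right h3.ne'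
  have hSe : ∀ᶠ t : ℝ in 𝓝[>] 0, ∀ i, 0 ≤ sgn (S i) * inner ℝ (w + t • m) (F2 i) := by
    rw [eventually_all]
    intro k
    have hc : Continuous (fun t : ℝ => sgn (S k) * inner ℝ (w + t • m) (F2 k)) := by fun_prop
    have h0 : 0 < sgn (S k) * inner ℝ (w + (0 : ℝ) • m) (F2 k) := by
      rw [zero_smul, add_zero]
      exact hS k
    exact (((hc.tendsto 0).eventually (lt_mem_nhds h0)).filter_mono nhdsWithin_le_nhds).mono
      (fun _ h => h.le)
  have hag := agree hE hG hF1 hF2 hW1 hW2 hut.1 hut.2 hm1 hm2 hind hw1 hSe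
  have e1 : inner ℝ w (F1 i) * inner ℝ w (F1 j) * (inner ℝ w (F2 i) * inner ℝ w (F2 j)) =
      (sgn (S i) * inner ℝ w (F1 i)) * (sgn (S j) * inner ℝ w (F1 j)) *
      ((sgn (S i) * inner ℝ w (F2 i)) * (sgn (S j) * inner ℝ w (F2 j))) := by
    have hi := sgn_sq (S i)
    have hj := sgn_sq (S j)
    linear_combination (-(inner ℝ w (F1 i) * inner ℝ w (F1 j) * (inner ℝ w (F2 i) *
      inner ℝ w (F2 j)))) * ((sgn (S j) * sgn (S j)) * hi + hj)
  rw [e1]
  refine mul_nonneg ?_ (mul_pos (hS i) (hS j)).le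
  rcases hag with h | h
  · exact (mul_pos (h i) (h j)).le
  · exact (mul_pos_of_neg_of_neg (h i) (h j)).le

end

end Pool.Agent.OrthoFan
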