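import Pool.Agent.H.MP_ef93d4_co.h56.OpenCover

/-!
# Colour classes with the property of Baire
-/

namespace Pool.Agent.OrthoFan

open Set Filter Topology Module

/-- The unit sphere as a space. -/
abbrev Sph (E : Type*) [NormedAddCommGroup E] [InnerProductSpace ℝ E] : Type _ :=
  Metric.sphere (0 : E) 1

/-- The space of ordered orthonormal pairs. -/
abbrev Stief (E : Type*) [NormedAddCommGroup E] [InnerProductSpace ℝ E] : Type _ :=
  {p : Sph E × Sph E // inner ℝ (p.1 : E) (p.2 : E) = 0}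

variable {E : Type*} [NormedAddCommGroup E] [InnerProductSpace ℝ E]

theorem sph_compact [FiniteDimensional ℝ E] : CompactSpace (Sph E) :=
  isCompact_iff_compactSpace.1 (isCompact_sphere _ _)

theorem stief_compact [FiniteDimensional ℝ E] : CompactSpace (Stief E) := by
  have := sph_compact (E := E)
  apply isCompact_iff_compactSpace.1
  apply IsClosed.isCompact
  exact isClosed_eq ((continuous_subtype_val.comp continuous_fst).inner
    (continuous_subtype_val.comp continuous_snd)) continuous_const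

theorem fst_open : IsOpenMap (fun p : Stief E => p.1.1) := by
  intro G hG
  rw [isOpen_iff_mem_nhds]
  rintro x ⟨⟨⟨x', y⟩, hxy⟩, hpG, rfl⟩
  obtain ⟨O, hO, rfl⟩ := isOpen_induced_iff.1 hG
  have h1 : O ∈ 𝓝 (x', y) := hO.mem_nhds hpG
  obtain ⟨A, hA, B, hB, hAB⟩ := mem_nhds_prod_iff.1 h1
  obtain ⟨B', hB', hBB⟩ := (mem_nhds_subtype _ _ _).1 hB
  have hy : ‖(y : E)‖ = 1 := mem_sphere_zero_iff_norm.1 y.2
  have h2 : ∀ᶠ w : Sph E in 𝓝 x', sec (y : E) (w : E) ∈ B' :=
    (continuous_subtype_val.tendsto x').eventually ((sec_tendsto hy hxy) hB')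
  have h3 : ∀ᶠ w : Sph E in 𝓝 x', ‖sec (y : E) (w : E)‖ = 1 :=
    (continuous_subtype_val.tendsto x').eventually (sec_norm hy hxy)
  filter_upwards [h2, h3, hA] with w hw2 hw3 hw1
  refine ⟨⟨⟨w, ⟨sec (y : E) (w : E), mem_sphere_zero_iff_norm.2 hw3⟩⟩,
    sec_inner (mem_sphere_zero_iff_norm.1 w.2)⟩, ?_, rfl⟩
  exact hAB (Set.mk_mem_prod hw1 (hBB hw2))

theorem snd_open : IsOpenMap (fun p : Stief E => p.1.2) := by
  let f : Stief E → Stief E := fun p => ⟨(p.1.2, p.1.1), by
    have := p.2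
    rwa [real_inner_comm]⟩
  have hf : Continuous f := by
    refine Continuous.subtype_mk ?_ _
    exact (continuous_snd.comp continuous_subtype_val).prodMk
      (continuous_fst.comp continuous_subtype_val)
  have hff : ∀ p, f (f p) = p := fun p => rfl
  have hfo : IsOpenMap f := by
    intro G hG
    have : f '' G = f ⁻¹' G := by
      ext p
      constructor
      · rintro ⟨q, hq, rfl⟩
        exact hq
      · intro hp
        exact ⟨f p, hp, hff p⟩
    rw [this]
    exact hG.preimage hf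
  exact fst_open.comp hfo

theorem orth_of_residual [FiniteDimensional ℝ E] {A U : Set (Sph E)} (hU : IsOpen U)
    (hAU : A =ᶠ[residual (Sph E)] U)
    (hA : ∀ x ∈ A, ∀ y ∈ A, inner ℝ (x : E) (y : E) ≠ 0) :
    ∀ x ∈ U, ∀ y ∈ U, inner ℝ (x : E) (y : E) ≠ 0 := by
  intro x hx y hy h0
  have := stief_compact (E := E)
  have hR : {z : Sph E | z ∈ A ↔ z ∈ U} ∈ residual (Sph E) := Filter.eventuallyEq_set.1 hAU
  have hc1 : Continuous (fun p : Stief E => p.1.1) := continuous_fst.comp continuous_subtype_val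
  have hc2 : Continuous (fun p : Stief E => p.1.2) := continuous_snd.comp continuous_subtype_val
  have h1 := tendsto_residual_of_isOpenMap hc1 (fst_open (E := E)) hR
  have h2 := tendsto_residual_of_isOpenMap hc2 (snd_open (E := E)) hR
  have hd := dense_of_mem_residual (inter_mem h1 h2)
  have ho : IsOpen ((fun p : Stief E => p.1.1) ⁻¹' U ∩ (fun p : Stief E => p.1.2) ⁻¹' U) :=
    (hU.preimage hc1).inter (hU.preimage hc2)
  obtain ⟨q, ⟨hq1, hq2⟩, hq3, hq4⟩ := hd.inter_open_nonempty _ ho ⟨⟨(x, y), h0⟩, hx, hy⟩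
  exact hA _ (hq3.2 hq1) _ (hq4.2 hq2) q.2

theorem baire_classes (d : ℕ) [FiniteDimensional ℝ E] (hE : finrank ℝ E = d + 1) {m : ℕ}
    (c : Sph E → Fin m) (hc : ∀ i, BaireMeasurableSet (c ⁻¹' {i}))
    (hcol : ∀ x y : Sph E, inner ℝ (x : E) (y : E) = 0 → c x ≠ c y) :
    2 + d * (d + 1) ≤ 2 * m := by
  have := sph_compact (E := E)
  choose U hUo hUc using fun i => (hc i).residualEq_isOpen
  choose V hV hVU using fun i => isOpen_induced_iff.1 (hUo i)
  have hG : GoodCov (Finset.univ : Finset (Fin m)) V := by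
    refine ⟨hV, ?_, ?_⟩
    · intro i x hx y hy hx1 hy1
      have h1 := orth_of_residual (hUo i) (hUc i) (by
        intro a ha b hb h0
        exact hcol a b h0 ((show c a = i from ha).trans (show c b = i from hb).symm))
      refine h1 ⟨x, mem_sphere_zero_iff_norm.2 hx1⟩ ?_ ⟨y, mem_sphere_zero_iff_norm.2 hy1⟩ ?_
      · rw [← hVU i]
        exact hx
      · rw [← hVU i]
        exact hy
    · rintro O hO ⟨y, hyO, hy1⟩
      have hR : (⋂ i : Fin m, {z : Sph E | z ∈ c ⁻¹' {i} ↔ z ∈ U i}) ∈ residual (Sph E) :=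
        Filter.iInter_mem.2 (fun i => Filter.eventuallyEq_set.1 (hUc i))
      obtain ⟨z, hz1, hz2⟩ := (dense_of_mem_residual hR).inter_open_nonempty
        (((↑) : Sph E → E) ⁻¹' O) (hO.preimage continuous_subtype_val)
        ⟨⟨y, mem_sphere_zero_iff_norm.2 hy1⟩, hyO⟩
      refine ⟨z, hz1, mem_sphere_zero_iff_norm.1 z.2, c z, Finset.mem_univ _, ?_⟩
      have h3 : z ∈ U (c z) := (mem_iInter.1 hz2 (c z)).1 rfl
      rw [← hVU] at h3
      exact h3
  have h := open_cover d hE Finset.univ V hG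
  rwa [Finset.card_univ, Fintype.card_fin] at h

end Pool.Agent.OrthoFan
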