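import Mathlib

/-!
# Mod 2 chains of ordered simplices

A simplex is a list of points, a chain is a formal sum modulo 2 of lists.
-/

namespace Pool.Agent.OrthoFan

open Finset

/-- Chains modulo 2 of ordered simplices (lists of points). -/
abbrev Ch (V : Type*) := List V →₀ ZMod 2

variable {V : Type*}

/-- The chain of one simplex. -/
noncomputable def one (l : List V) : Ch V := Finsupp.single l 1

/-- The linear extension of a map on simplices. -/
noncomputable def lin {W : Type*} [AddCommGroup W] [Module (ZMod 2) W] (f : List V → W) :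
    Ch V →ₗ[ZMod 2] W := Finsupp.linearCombination (ZMod 2) f

theorem lin_one {W : Type*} [AddCommGroup W] [Module (ZMod 2) W] (f : List V → W) (l : List V) :
    lin f (one l) = f l := by
  unfold lin one
  rw [Finsupp.linearCombination_single, one_smul]

theorem self_add {W : Type*} [AddCommGroup W] [Module (ZMod 2) W] (x : W) : x + x = 0 := by
  have h : x + x = ((1 : ZMod 2) + 1) • x := by rw [add_smul, one_smul]
  rw [h]
  have : ((1 : ZMod 2) + 1) = 0 := by decide
  rw [this, zero_smul]

theorem hom_ext {W : Type*} [AddCommGroup W] [Module (ZMod 2) W] {f g : Ch V →ₗ[ZMod 2] W}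
    (h : ∀ l, f (one l) = g (one l)) : f = g := by
  apply Finsupp.lhom_ext'
  intro l
  apply LinearMap.ext_ring
  exact h l

/-- Chains all of whose simplices satisfy `P`. -/
def On (P : List V → Prop) (c : Ch V) : Prop := ∀ l ∈ c.support, P l

theorem On.add {P : List V → Prop} {c c' : Ch V} (h : On P c) (h' : On P c') : On P (c + c') := by
  classical
  intro l hl
  rcases Finset.mem_union.1 (Finsupp.support_add hl) with h1 | h1
  · exact h l h1
  · exact h' l h1

theorem On.zero {P : List V → Prop} : On P (0 : Ch V) := by
  intro l hl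
  simp at hl

theorem On.one {P : List V → Prop} {l : List V} (h : P l) : On P (one l) := by
  intro l' hl'
  unfold OrthoFan.one at hl'
  rw [Finsupp.mem_support_single] at hl'
  rw [hl'.1]
  exact h

theorem On.mono {P Q : List V → Prop} (h : ∀ l, P l → Q l) {c : Ch V} (hc : On P c) : On Q c :=
  fun l hl => h l (hc l hl)

/-- Induction over the chains whose simplices satisfy `P`. -/
theorem On.induct {P : List V → Prop} {M : Ch V → Prop} (h0 : M 0)
    (h1 : ∀ l, P l → M (OrthoFan.one l)) (h2 : ∀ c c', M c → M c' → M (c + c')) {c : Ch V}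
    (hc : On P c) : M c := by
  classical
  have h : c = ∑ l ∈ c.support, OrthoFan.one l := by
    conv_lhs => rw [← Finsupp.sum_single c]
    unfold Finsupp.sum OrthoFan.one
    apply Finset.sum_congr rfl
    intro l hl
    have : c l = 1 := by
      have h3 := Finsupp.mem_support_iff.1 hl
      revert h3
      generalize c l = z
      revert z
      decide
    rw [this]
  rw [h]
  have : ∀ s : Finset (List V), (∀ l ∈ s, P l) → M (∑ l ∈ s, OrthoFan.one l) := by
    intro s
    induction s using Finset.induction_on with
    | empty => intro _; simpa using h0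
    | insert a s ha ih =>
      intro hs
      rw [Finset.sum_insert ha]
      exact h2 _ _ (h1 a (hs a (Finset.mem_insert_self a s)))
        (ih (fun l hl => hs l (Finset.mem_insert_of_mem hl)))
  exact this _ hc

theorem lin_congr {W : Type*} [AddCommGroup W] [Module (ZMod 2) W] {P : List V → Prop}
    {f g : Ch V →ₗ[ZMod 2] W} (h : ∀ l, P l → f (one l) = g (one l)) {c : Ch V} (hc : On P c) :
    f c = g c := by
  refine On.induct (M := fun c => f c = g c) ?_ h ?_ hc
  · simp
  · intro a b ha hb
    rw [map_add, map_add, ha, hb]

theorem On.map {P Q : List V → Prop} {f : Ch V →ₗ[ZMod 2] Ch V}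
    (h : ∀ l, P l → On Q (f (OrthoFan.one l))) {c : Ch V} (hc : On P c) : On Q (f c) := by
  refine On.induct (M := fun c => On Q (f c)) ?_ h ?_ hc
  · simpa using On.zero
  · intro a b ha hb
    rw [map_add]
    exact ha.add hb

/-- The cone with apex `b`. -/
noncomputable def cone (b : V) : Ch V →ₗ[ZMod 2] Ch V := lin (fun l => one (b :: l))

theorem cone_one (b : V) (l : List V) : cone b (one l) = one (b :: l) := lin_one _ _

/-- The boundary of a simplex. -/
noncomputable def bd : List V → Ch V
  | [] => 0
  | b :: l => one l + cone b (bd l)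

/-- The boundary. -/
noncomputable def D : Ch V →ₗ[ZMod 2] Ch V := lin bd

theorem D_one (l : List V) : D (one l) = bd l := lin_one _ _

theorem D_cone (b : V) (c : Ch V) : D (cone b c) = c + cone b (D c) := by
  have h : (D ∘ₗ cone b : Ch V →ₗ[ZMod 2] Ch V) = LinearMap.id + cone b ∘ₗ D := by
    apply hom_ext
    intro l
    simp only [LinearMap.comp_apply, LinearMap.add_apply, LinearMap.id_apply, cone_one, D_one]
    rfl
  exact LinearMap.congr_fun h c

theorem D_bd (l : List V) : D (bd l) = 0 := by
  induction l with
  | nil => simp [bd]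
  | cons b l ih =>
    rw [bd, map_add, D_one, D_cone, ih, map_zero, add_zero, self_add]

theorem D_D (c : Ch V) : D (D c) = 0 := by
  have h : (D ∘ₗ D : Ch V →ₗ[ZMod 2] Ch V) = 0 := by
    apply hom_ext
    intro l
    simp only [LinearMap.comp_apply, LinearMap.zero_apply, D_one, D_bd]
  exact LinearMap.congr_fun h c

/-- Every simplex of the boundary is a sublist with one point less. -/
theorem bd_on (l : List V) : On (fun t => t.Sublist l ∧ t.length + 1 = l.length) (bd l) := by
  induction l with
  | nil => exact On.zero
  | cons b l ih =>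
    rw [bd]
    refine (On.one ⟨List.sublist_cons_self b l, rfl⟩).add ?_
    refine On.map ?_ ih
    intro t ht
    rw [cone_one]
    refine On.one ⟨ht.1.cons_cons b, ?_⟩
    simp only [List.length_cons]
    omega

/-- The negation of simplices. -/
noncomputable def nu [Neg V] : Ch V →ₗ[ZMod 2] Ch V := lin (fun l => one (l.map (fun x => -x)))

theorem nu_one [Neg V] (l : List V) : nu (one l) = one (l.map (fun x => -x)) := lin_one _ _

theorem nu_cone [Neg V] (b : V) (c : Ch V) : nu (cone b c) = cone (-b) (nu c) := by
  have h : (nu ∘ₗ cone b : Ch V →ₗ[ZMod 2] Ch V) = cone (-b) ∘ₗ nu := by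
    apply hom_ext
    intro l
    simp only [LinearMap.comp_apply, cone_one, nu_one, List.map_cons]
  exact LinearMap.congr_fun h c

theorem nu_bd [Neg V] (l : List V) : nu (bd l) = bd (l.map (fun x => -x)) := by
  induction l with
  | nil => simp [bd]
  | cons b l ih => rw [bd, map_add, nu_one, nu_cone, ih, List.map_cons, bd]

theorem nu_D [Neg V] (c : Ch V) : nu (D c) = D (nu c) := by
  have h : (nu ∘ₗ D : Ch V →ₗ[ZMod 2] Ch V) = D ∘ₗ nu := by
    apply hom_ext
    intro l
    simp only [LinearMap.comp_apply, D_one, nu_one, nu_bd]
  exact LinearMap.congr_fun h c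

theorem nu_nu [InvolutiveNeg V] (c : Ch V) : nu (nu c) = c := by
  have h : (nu ∘ₗ nu : Ch V →ₗ[ZMod 2] Ch V) = LinearMap.id := by
    apply hom_ext
    intro l
    simp only [LinearMap.comp_apply, nu_one, List.map_map, LinearMap.id_apply]
    congr 1
    conv_rhs => rw [← List.map_id l]
    congr 1
    funext x
    simp
  exact LinearMap.congr_fun h c

end Pool.Agent.OrthoFan
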