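import Pool.Agent.H.MP_ef93d4_co.h56.Top

/-!
# Nondegenerate continua
-/

namespace Pool.Agent.OrthoFan

open Set Filter Topology

variable {E : Type*} [TopologicalSpace E]

/-- A nondegenerate continuum. -/
structure Conti (P : Set E) : Prop where
  comp : IsCompact P
  pre : IsPreconnected P
  nd : ∃ x ∈ P, ∃ y ∈ P, x ≠ y

theorem nbhd_not_td {X : Type*} [TopologicalSpace X] [CompactSpace X] [T2Space X]
    [PreconnectedSpace X] {x x' : X} {L : Set X} (hLc : IsClosed L) (hx : x ∈ interior L)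
    (hx' : x' ∉ L) : ¬ TotallyDisconnectedSpace L := by
  intro hLtd
  have hLcomp : CompactSpace L := isCompact_iff_compactSpace.1 hLc.isCompact
  have hxL : x ∈ L := interior_subset hx
  obtain ⟨V, hVc, hxV, hVsub⟩ := compact_exists_isClopen_in_isOpen
    (X := L) (x := ⟨x, hxL⟩) (U := ((↑) : L → X) ⁻¹' interior L)
    (isOpen_interior.preimage continuous_subtype_val) hx
  have hVcl : IsClosed (((↑) : L → X) '' V) := hLc.isClosedMap_subtype_val _ hVc.1
  have hVop : IsOpen (((↑) : L → X) '' V) := by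
    obtain ⟨G, hG, hGV⟩ := isOpen_induced_iff.1 hVc.2
    have : ((↑) : L → X) '' V = G ∩ interior L := by
      ext z
      constructor
      · rintro ⟨w, hw, rfl⟩
        refine ⟨?_, hVsub hw⟩
        rw [← hGV] at hw
        exact hw
      · rintro ⟨h1, h2⟩
        refine ⟨⟨z, interior_subset h2⟩, ?_, rfl⟩
        rw [← hGV]
        exact h1
    rw [this]
    exact hG.inter isOpen_interior
  have huniv := (show IsClopen (((↑) : L → X) '' V) from ⟨hVcl, hVop⟩).eq_univ
    ⟨x, ⟨⟨x, hxL⟩, hxV, rfl⟩⟩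
  have : x' ∈ ((↑) : L → X) '' V := by
    rw [huniv]
    trivial
  obtain ⟨w, _, hw⟩ := this
  rw [← hw] at hx'
  exact hx' w.2

/-- A closed set that is not totally disconnected contains a continuum. -/
theorem exists_conti_of_not_td [T2Space E] {K : Set E} (hK : IsCompact K)
    (h : ¬ IsTotallyDisconnected K) : ∃ P ⊆ K, Conti P := by
  unfold IsTotallyDisconnected at h
  push Not at h
  obtain ⟨C, hCK, hC, hns⟩ := h
  obtain ⟨x, hx, y, hy, hxy⟩ := hns
  have hcl : closure C ⊆ K := closure_minimal hCK hK.isClosed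
  exact ⟨closure C, hcl, hK.of_isClosed_subset isClosed_closure hcl, hC.closure,
    x, subset_closure hx, y, subset_closure hy, hxy⟩

/-- Inside an open set that meets it a continuum contains a continuum. -/
theorem Conti.loc [T2Space E] {P : Set E} (hP : Conti P) {O : Set E} (hO : IsOpen O)
    (hPO : (P ∩ O).Nonempty) : ∃ P' ⊆ P ∩ O, Conti P' := by
  obtain ⟨x, hxP, hxO⟩ := hPO
  have hPs : CompactSpace P := isCompact_iff_compactSpace.1 hP.comp
  have hPp : PreconnectedSpace P := isPreconnected_iff_preconnectedSpace.1 hP.pre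
  obtain ⟨x', hx'P, hne⟩ : ∃ x' ∈ P, x' ≠ x := by
    obtain ⟨a, ha, b, hb, hab⟩ := hP.nd
    by_cases h : a = x
    · exact ⟨b, hb, fun h' => hab (h.trans h'.symm)⟩
    · exact ⟨a, ha, h⟩
  set U : Set P := ((↑) : P → E) ⁻¹' (O ∩ {x'}ᶜ) with hU
  have hUo : IsOpen U := (hO.inter isOpen_compl_singleton).preimage continuous_subtype_val
  have hxU : (⟨x, hxP⟩ : P) ∈ U := ⟨hxO, fun h => hne h.symm⟩
  obtain ⟨L, hLn, hLc, hLU⟩ := exists_mem_nhds_isClosed_subset (hUo.mem_nhds hxU)
  have hntd := nbhd_not_td (X := P) (x := ⟨x, hxP⟩) (x' := ⟨x', hx'P⟩) hLc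
    (mem_interior_iff_mem_nhds.2 hLn) (fun h => (hLU h).2 rfl)
  have hK : IsCompact (((↑) : P → E) '' L) :=
    hLc.isCompact.image continuous_subtype_val
  have hKn : ¬ IsTotallyDisconnected (((↑) : P → E) '' L) := by
    intro htd
    apply hntd
    refine ⟨?_⟩
    intro D _ hD a ha b hb
    have h1 : (fun z : L => ((z : P) : E)) '' D ⊆ ((↑) : P → E) '' L := by
      rintro _ ⟨z, _, rfl⟩
      exact ⟨z, z.2, rfl⟩
    have h2 : IsPreconnected ((fun z : L => ((z : P) : E)) '' D) :=
      hD.image _ (continuous_subtype_val.comp continuous_subtype_val).continuousOn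
    have h3 := htd _ h1 h2 (mem_image_of_mem _ ha) (mem_image_of_mem _ hb)
    exact Subtype.ext (Subtype.ext h3)
  obtain ⟨P', hP'K, hP'⟩ := exists_conti_of_not_td hK hKn
  refine ⟨P', fun z hz => ?_, hP'⟩
  obtain ⟨w, hw, rfl⟩ := hP'K hz
  exact ⟨w.2, (hLU hw).1⟩

/-- A continuum covered by countably many closed sets: one of them contains a continuum. -/
theorem Conti.cover [T2Space E] {P : Set E} (hP : Conti P) {κ : Type*} [Countable κ]
    (D : κ → Set E) (hD : ∀ k, IsClosed (D k)) (hcov : P ⊆ ⋃ k, D k) :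
    ∃ k, ∃ P' ⊆ P ∩ D k, Conti P' := by
  by_contra hcon
  push Not at hcon
  have htd : ∀ k, IsTotallyDisconnected (P ∩ D k) := by
    intro k
    by_contra h
    obtain ⟨P', h1, h2⟩ := exists_conti_of_not_td (hP.comp.inter_right (hD k)) h
    exact hcon k P' h1 h2
  have hPs : CompactSpace P := isCompact_iff_compactSpace.1 hP.comp
  have h1 : TotallyDisconnectedSpace P := by
    refine td_of_cover (fun k => ((↑) : P → E) ⁻¹' D k)
      (fun k => (hD k).preimage continuous_subtype_val) ?_ ?_
    · rw [← preimage_iUnion, eq_univ_iff_forall]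
      intro x
      exact hcov x.2
    · intro k C hC hCp a ha b hb
      have h2 : ((↑) : P → E) '' C ⊆ P ∩ D k := by
        rintro _ ⟨z, hz, rfl⟩
        exact ⟨z.2, hC hz⟩
      have h3 : IsPreconnected (((↑) : P → E) '' C) :=
        hCp.image _ continuous_subtype_val.continuousOn
      exact Subtype.ext (htd k _ h2 h3 (mem_image_of_mem _ ha) (mem_image_of_mem _ hb))
  obtain ⟨x, hx, y, hy, hxy⟩ := hP.nd
  have hPp : PreconnectedSpace P := isPreconnected_iff_preconnectedSpace.1 hP.pre
  have h2 := h1.isTotallyDisconnected_univ univ (subset_univ _) isPreconnected_univ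
    (mem_univ (⟨x, hx⟩ : P)) (mem_univ (⟨y, hy⟩ : P))
  exact hxy (congrArg Subtype.val h2)

/-- A continuous map from a continuum into a totally disconnected set is constant. -/
theorem Conti.const {P : Set E} (hP : Conti P) {F : Type*} [TopologicalSpace F] {T : Set F}
    (hT : IsTotallyDisconnected T) {f : E → F} (hf : ContinuousOn f P) (hfT : ∀ x ∈ P, f x ∈ T) :
    ∀ x ∈ P, ∀ y ∈ P, f x = f y := by
  intro x hx y hy
  have h1 : f '' P ⊆ T := by
    rintro _ ⟨z, hz, rfl⟩
    exact hfT z hz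
  exact hT _ h1 (hP.pre.image f hf) (mem_image_of_mem f hx) (mem_image_of_mem f hy)

end Pool.Agent.OrthoFan
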