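import Pool.Agent.H.MP_ef93d4_co.h56.Tile

/-!
# The crossing lemma
-/

namespace Pool.Agent.OrthoFan

open Set Filter Topology Module

variable {E : Type*} [NormedAddCommGroup E] [InnerProductSpace ℝ E]

/-- A set that is missed by a dense family of hyperplanes from an open family of hyperplanes, the
open family meeting the orthogonal complement of each point of the set. -/
def Swept (W : Set E) : Prop :=
  ∃ Ω : Set E, IsOpen Ω ∧ (∀ q ∈ W, ∃ y ∈ Ω, inner ℝ q y = 0) ∧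
    ∀ O : Set E, IsOpen O → (O ∩ Ω).Nonempty → ∃ y ∈ O ∩ Ω, ∀ w ∈ W, inner ℝ w y ≠ 0

theorem norm_unit {y : E} (hy : y ≠ 0) : ‖‖y‖⁻¹ • y‖ = 1 := by
  rw [norm_smul, norm_inv, norm_norm, inv_mul_cancel₀ (norm_pos_iff.2 hy).ne']

theorem Wset_swept {Z : Set E} (hZ : Thin Z) (q : E) {r : ℝ} (hr : 0 < r) :
    Swept (Wset Z q r) := by
  have hcont : ContinuousOn (fun y : E => dist (‖y‖⁻¹ • y) q) {y | y ≠ 0} := by
    have h1 : ContinuousOn (fun y : E => ‖y‖⁻¹ • y) {y | y ≠ 0} := by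
      refine ContinuousOn.smul ?_ continuousOn_id
      refine ContinuousOn.inv₀ continuous_norm.continuousOn ?_
      intro y hy
      exact (norm_pos_iff.2 hy).ne'
    exact (continuous_id.dist continuous_const).comp_continuousOn h1
  have hΩ : IsOpen {y : E | y ≠ 0 ∧ dist (‖y‖⁻¹ • y) q < r} :=
    hcont.isOpen_inter_preimage isOpen_ne (isOpen_Iio (a := r))
  refine ⟨_, hΩ, ?_, ?_⟩
  · rintro w ⟨_, ⟨y, hy1, hwy, hyq⟩, _⟩
    refine ⟨y, ⟨?_, ?_⟩, hwy⟩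
    · intro h
      rw [h, norm_zero] at hy1
      norm_num at hy1
    · rw [hy1, inv_one, one_smul]
      linarith
  · rintro O hO ⟨y1, hy1O, hy1⟩
    have hpos : 0 < ‖y1‖ := norm_pos_iff.2 hy1.1
    have hmem : ‖y1‖⁻¹ • y1 ∈ (fun z : E => ‖y1‖ • z) ⁻¹'
        (O ∩ {y : E | y ≠ 0 ∧ dist (‖y‖⁻¹ • y) q < r}) := by
      rw [mem_preimage, smul_smul, mul_inv_cancel₀ hpos.ne', one_smul]
      exact ⟨hy1O, hy1⟩
    obtain ⟨z, hz, hz1, hzZ⟩ := hZ ((fun z : E => ‖y1‖ • z) ⁻¹'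
      (O ∩ {y : E | y ≠ 0 ∧ dist (‖y‖⁻¹ • y) q < r}))
      ((hO.inter hΩ).preimage (continuous_const_smul _)) ⟨_, hmem, norm_unit hy1.1⟩
    refine ⟨‖y1‖ • z, hz, ?_⟩
    intro w hw h0
    rw [inner_smul_right] at h0
    have h1 : inner ℝ w z = 0 := (mul_eq_zero.1 h0).resolve_left hpos.ne'
    have h2 : ‖‖y1‖ • z‖⁻¹ • (‖y1‖ • z) = z := by
      rw [norm_smul, norm_norm, hz1, mul_one, smul_smul, inv_mul_cancel₀ hpos.ne', one_smul]
    have h3 := hz.2.2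
    rw [h2] at h3
    exact hzZ (hw.2.2 z hz1 h1 h3)

theorem Swept.restrict [FiniteDimensional ℝ E] {W : Set E} (hW : Swept W) (H : Submodule ℝ E) :
    Swept (((↑) : H → E) ⁻¹' W) := by
  obtain ⟨Ω, hΩ, h1, h2⟩ := hW
  have hop : IsOpenMap (H.orthogonalProjectionOnto : E → H) := by
    apply ContinuousLinearMap.isOpenMap
    intro y
    exact ⟨y, by simp⟩
  have hin : ∀ (w : H) (y : E), inner ℝ w (H.orthogonalProjectionOnto y) = inner ℝ (w : E) y := by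
    intro w y
    exact Submodule.inner_orthogonalProjectionOnto_eq_of_mem_left w y
  refine ⟨H.orthogonalProjectionOnto '' Ω, hop Ω hΩ, ?_, ?_⟩
  · intro q hq
    obtain ⟨y, hy, hqy⟩ := h1 q hq
    exact ⟨_, mem_image_of_mem _ hy, by rw [hin]; exact hqy⟩
  · rintro O hO ⟨_, hzO, y, hy, rfl⟩
    obtain ⟨y', ⟨hy'O, hy'Ω⟩, hy'⟩ := h2 (H.orthogonalProjectionOnto ⁻¹' O)
      (hO.preimage H.orthogonalProjectionOnto.continuous) ⟨y, hzO, hy⟩
    exact ⟨_, ⟨hy'O, mem_image_of_mem _ hy'Ω⟩, fun w hw => by rw [hin]; exact hy' w hw⟩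

/-- Great spheres through a given point move continuously with the (not normalised) normal. -/
theorem near_orth {y v : E} (hy : y ≠ 0) (hv : ‖v‖ = 1) (h : inner ℝ y v = 0) {O : Set E}
    (hO : O ∈ 𝓝 v) : ∀ᶠ y' in 𝓝 y, ∃ v' ∈ O, ‖v'‖ = 1 ∧ inner ℝ y' v' = 0 := by
  have hpos := norm_pos_iff.2 hy
  have h0 : inner ℝ (‖y‖⁻¹ • y) v = 0 := by rw [inner_smul_left, h, mul_zero]
  have hc : Tendsto (fun y' : E => ‖y'‖⁻¹ • y') (𝓝 y) (𝓝 (‖y‖⁻¹ • y)) := by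
    have : ContinuousAt (fun y' : E => ‖y'‖⁻¹ • y') y :=
      ContinuousAt.smul (ContinuousAt.inv₀ continuous_norm.continuousAt hpos.ne') continuousAt_id
    exact this.tendsto
  have h1 := hc.eventually ((sec_tendsto hv h0) hO)
  have h2 := hc.eventually (sec_norm hv h0)
  have h3 : ∀ᶠ y' in 𝓝 y, y' ≠ 0 := isOpen_ne.mem_nhds hy
  filter_upwards [h1, h2, h3] with y' hy1 hy2 hy3
  refine ⟨sec v (‖y'‖⁻¹ • y'), hy1, hy2, ?_⟩
  have h4 := sec_inner (y := v) (norm_unit hy3)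
  rw [inner_smul_left] at h4
  exact (mul_eq_zero.1 h4).resolve_left (by
    simpa using hy3)

/-- Two hyperplanes through a point, with independent normals: moving them a little they still
meet in a point of the sphere near the point. -/
theorem near_orth2 {q y z : E} (hq : ‖q‖ = 1) (hy : inner ℝ q y = 0) (hz : inner ℝ q z = 0)
    (hΔ : ‖y‖ ^ 2 * ‖z‖ ^ 2 - (inner ℝ y z) ^ 2 ≠ 0) {O : Set E} (hO : O ∈ 𝓝 q) :
    ∀ᶠ p in 𝓝 (y, z), ∃ w ∈ O, ‖w‖ = 1 ∧ inner ℝ p.1 w = 0 ∧ inner ℝ p.2 w = 0 := by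
  let Δ : E × E → ℝ := fun p => ‖p.1‖ ^ 2 * ‖p.2‖ ^ 2 - (inner ℝ p.1 p.2) ^ 2
  let A : E × E → ℝ := fun p => (inner ℝ q p.1 * ‖p.2‖ ^ 2 - inner ℝ q p.2 * inner ℝ p.1 p.2) / Δ p
  let B : E × E → ℝ := fun p => (inner ℝ q p.2 * ‖p.1‖ ^ 2 - inner ℝ q p.1 * inner ℝ p.1 p.2) / Δ p
  let g : E × E → E := fun p => q - A p • p.1 - B p • p.2
  have hΔc : ContinuousAt Δ (y, z) := by
    have : Continuous Δ := by
      show Continuous (fun p : E × E => ‖p.1‖ ^ 2 * ‖p.2‖ ^ 2 - (inner ℝ p.1 p.2) ^ 2)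
      fun_prop
    exact this.continuousAt
  have hΔ0 : Δ (y, z) ≠ 0 := hΔ
  have hAc : ContinuousAt A (y, z) := by
    refine ContinuousAt.div ?_ hΔc hΔ0
    have : Continuous (fun p : E × E => inner ℝ q p.1 * ‖p.2‖ ^ 2 -
        inner ℝ q p.2 * inner ℝ p.1 p.2) := by fun_prop
    exact this.continuousAt
  have hBc : ContinuousAt B (y, z) := by
    refine ContinuousAt.div ?_ hΔc hΔ0
    have : Continuous (fun p : E × E => inner ℝ q p.2 * ‖p.1‖ ^ 2 -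
        inner ℝ q p.1 * inner ℝ p.1 p.2) := by fun_prop
    exact this.continuousAt
  have hgc : ContinuousAt g (y, z) :=
    (continuousAt_const.sub (hAc.smul continuousAt_fst)).sub (hBc.smul continuousAt_snd)
  have hA0 : A (y, z) = 0 := by
    show (inner ℝ q y * ‖z‖ ^ 2 - inner ℝ q z * inner ℝ y z) / Δ (y, z) = 0
    rw [hy, hz]
    simp
  have hB0 : B (y, z) = 0 := by
    show (inner ℝ q z * ‖y‖ ^ 2 - inner ℝ q y * inner ℝ y z) / Δ (y, z) = 0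
    rw [hy, hz]
    simp
  have hg0 : g (y, z) = q := by
    show q - A (y, z) • y - B (y, z) • z = q
    rw [hA0, hB0, zero_smul, zero_smul, sub_zero, sub_zero]
  have hNc : Tendsto (fun p => ‖g p‖⁻¹ • g p) (𝓝 (y, z)) (𝓝 q) := by
    have h1 : ContinuousAt (fun p => ‖g p‖⁻¹ • g p) (y, z) := by
      refine ContinuousAt.smul (ContinuousAt.inv₀ hgc.norm ?_) hgc
      rw [hg0, hq]
      exact one_ne_zero
    have h2 := h1.tendsto
    rwa [hg0, hq, inv_one, one_smul] at h2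
  have h1 : ∀ᶠ p in 𝓝 (y, z), ‖g p‖⁻¹ • g p ∈ O := hNc hO
  have h2 : ∀ᶠ p in 𝓝 (y, z), 0 < ‖g p‖ := by
    have h3 : Tendsto (fun p => ‖g p‖) (𝓝 (y, z)) (𝓝 1) := by
      have := hgc.norm.tendsto
      rwa [hg0, hq] at this
    exact h3.eventually (lt_mem_nhds (by norm_num))
  have h3 : ∀ᶠ p in 𝓝 (y, z), Δ p ≠ 0 := hΔc.eventually_ne hΔ0
  filter_upwards [h1, h2, h3] with p hp1 hp2 hp3
  have e1 : inner ℝ p.1 (g p) = 0 := by
    show inner ℝ p.1 (q - A p • p.1 - B p • p.2) = 0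
    rw [inner_sub_right, inner_sub_right, inner_smul_right, inner_smul_right,
      real_inner_self_eq_norm_sq, real_inner_comm q p.1]
    have hA : A p * Δ p = inner ℝ q p.1 * ‖p.2‖ ^ 2 - inner ℝ q p.2 * inner ℝ p.1 p.2 :=
      div_mul_cancel₀ _ hp3
    have hB : B p * Δ p = inner ℝ q p.2 * ‖p.1‖ ^ 2 - inner ℝ q p.1 * inner ℝ p.1 p.2 :=
      div_mul_cancel₀ _ hp3
    have h4 : (inner ℝ q p.1 - A p * ‖p.1‖ ^ 2 - B p * inner ℝ p.1 p.2) * Δ p = 0 := by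
      have : (inner ℝ q p.1 - A p * ‖p.1‖ ^ 2 - B p * inner ℝ p.1 p.2) * Δ p =
          inner ℝ q p.1 * Δ p - (A p * Δ p) * ‖p.1‖ ^ 2 - (B p * Δ p) * inner ℝ p.1 p.2 := by ring
      rw [this, hA, hB]
      show inner ℝ q p.1 * (‖p.1‖ ^ 2 * ‖p.2‖ ^ 2 - (inner ℝ p.1 p.2) ^ 2) - _ - _ = 0
      ring
    exact (mul_eq_zero.1 h4).resolve_right hp3
  have e2 : inner ℝ p.2 (g p) = 0 := by
    show inner ℝ p.2 (q - A p • p.1 - B p • p.2) = 0
    rw [inner_sub_right, inner_sub_right, inner_smul_right, inner_smul_right,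
      real_inner_self_eq_norm_sq, real_inner_comm q p.2, real_inner_comm p.1 p.2]
    have hA : A p * Δ p = inner ℝ q p.1 * ‖p.2‖ ^ 2 - inner ℝ q p.2 * inner ℝ p.1 p.2 :=
      div_mul_cancel₀ _ hp3
    have hB : B p * Δ p = inner ℝ q p.2 * ‖p.1‖ ^ 2 - inner ℝ q p.1 * inner ℝ p.1 p.2 :=
      div_mul_cancel₀ _ hp3
    have h4 : (inner ℝ q p.2 - A p * inner ℝ p.1 p.2 - B p * ‖p.2‖ ^ 2) * Δ p = 0 := by
      have : (inner ℝ q p.2 - A p * inner ℝ p.1 p.2 - B p * ‖p.2‖ ^ 2) * Δ p =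
          inner ℝ q p.2 * Δ p - (A p * Δ p) * inner ℝ p.1 p.2 - (B p * Δ p) * ‖p.2‖ ^ 2 := by ring
      rw [this, hA, hB]
      show inner ℝ q p.2 * (‖p.1‖ ^ 2 * ‖p.2‖ ^ 2 - (inner ℝ p.1 p.2) ^ 2) - _ - _ = 0
      ring
    exact (mul_eq_zero.1 h4).resolve_right hp3
  refine ⟨‖g p‖⁻¹ • g p, hp1, norm_unit (norm_pos_iff.1 hp2), ?_, ?_⟩
  · rw [inner_smul_right, e1, mul_zero]
  · rw [inner_smul_right, e2, mul_zero]

/-- Vectors orthogonal to two given ones. -/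
theorem exists_orth2 [FiniteDimensional ℝ E] (hE : 3 ≤ finrank ℝ E) (a b : E) :
    ∃ e : E, ‖e‖ = 1 ∧ inner ℝ a e = 0 ∧ inner ℝ b e = 0 := by
  classical
  let K : Submodule ℝ E := Submodule.span ℝ ({a, b} : Set E)
  have h1 : finrank ℝ K ≤ 2 := by
    have := finrank_span_le_card (R := ℝ) ({a, b} : Set E)
    refine this.trans ?_
    rw [Set.toFinset_card]
    have : ({a, b} : Set E) = (({a, b} : Finset E) : Set E) := by simp
    calc Fintype.card ({a, b} : Set E) ≤ 2 := by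
          rw [← Set.toFinset_card]
          refine (Finset.card_le_card ?_).trans (Finset.card_le_two (a := a) (b := b))
          intro x hx
          simpa using hx
      _ = 2 := rfl
  have h2 := Submodule.finrank_add_finrank_orthogonal K
  have h3 : 0 < finrank ℝ Kᗮ := by omega
  have h4 : Kᗮ ≠ ⊥ := by
    intro h
    rw [h] at h3
    simp at h3
  obtain ⟨v, hv, hv0⟩ := Submodule.exists_mem_ne_zero_of_ne_bot h4
  have ha : inner ℝ a v = 0 := (Submodule.mem_orthogonal K v).1 hv a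
    (Submodule.subset_span (by simp))
  have hb : inner ℝ b v = 0 := (Submodule.mem_orthogonal K v).1 hv b
    (Submodule.subset_span (by simp))
  exact ⟨‖v‖⁻¹ • v, norm_unit hv0, by rw [inner_smul_right, ha, mul_zero],
    by rw [inner_smul_right, hb, mul_zero]⟩

/-- The normalised segment between two points of a small cap stays in the cap. -/
theorem cap_path {q v w y : E} {ρ : ℝ} (hρ1 : ρ ≤ 1) (hq : ‖q‖ = 1) (hv : ‖v‖ = 1)
    (hw : ‖w‖ = 1) (hvq : dist v q < ρ) (hwq : dist w q < ρ) (hvy : inner ℝ y v = 0)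
    (hwy : inner ℝ y w = 0) :
    ∃ Y : Set E, IsPreconnected Y ∧ v ∈ Y ∧ w ∈ Y ∧
      ∀ u ∈ Y, ‖u‖ = 1 ∧ dist u q < ρ ∧ inner ℝ y u = 0 := by
  have hρ0 : 0 < ρ := lt_of_le_of_lt dist_nonneg hvq
  have hd : ∀ u : E, ‖u‖ = 1 → (dist u q < ρ ↔ 1 - ρ ^ 2 / 2 < inner ℝ u q) := by
    intro u hu
    have h1 : dist u q ^ 2 = 2 - 2 * inner ℝ u q := by
      rw [dist_eq_norm, norm_sub_sq_real, hu, hq]
      ring
    constructor
    · intro h
      have h2 : dist u q ^ 2 < ρ ^ 2 := by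
        have := dist_nonneg (x := u) (y := q)
        nlinarith
      linarith
    · intro h
      have h2 : dist u q ^ 2 < ρ ^ 2 := by linarith
      exact lt_of_pow_lt_pow_left₀ 2 hρ0.le h2
  let g : ℝ → E := fun t => (1 - t) • v + t • w
  have hgc : Continuous g := by
    show Continuous (fun t : ℝ => (1 - t) • v + t • w)
    fun_prop
  have hgq : ∀ t ∈ Icc (0 : ℝ) 1, 1 - ρ ^ 2 / 2 < inner ℝ (g t) q := by
    intro t ht
    show 1 - ρ ^ 2 / 2 < inner ℝ ((1 - t) • v + t • w) q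
    rw [inner_add_left, real_inner_smul_left, real_inner_smul_left]
    have h1 := (hd v hv).1 hvq
    have h2 := (hd w hw).1 hwq
    rcases eq_or_lt_of_le ht.1 with h | h
    · rw [← h]
      linarith
    · nlinarith [ht.2]
  have hκ : 0 ≤ 1 - ρ ^ 2 / 2 := by nlinarith
  have hgn : ∀ t ∈ Icc (0 : ℝ) 1, ‖g t‖ ≤ 1 := by
    intro t ht
    calc ‖g t‖ ≤ ‖(1 - t) • v‖ + ‖t • w‖ := norm_add_le _ _
      _ = (1 - t) + t := by
        rw [norm_smul, norm_smul, hv, hw, Real.norm_eq_abs, Real.norm_eq_abs,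
          abs_of_nonneg (by linarith [ht.2]), abs_of_nonneg ht.1, mul_one, mul_one]
      _ = 1 := by ring
  have hg0 : ∀ t ∈ Icc (0 : ℝ) 1, g t ≠ 0 := by
    intro t ht h
    have := hgq t ht
    rw [h, inner_zero_left] at this
    linarith
  refine ⟨(fun t => ‖g t‖⁻¹ • g t) '' Icc 0 1, ?_, ?_, ?_, ?_⟩
  · refine isPreconnected_Icc.image _ ?_
    refine ContinuousOn.smul (ContinuousOn.inv₀ hgc.norm.continuousOn ?_) hgc.continuousOn
    intro t ht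
    exact (norm_pos_iff.2 (hg0 t ht)).ne'
  · refine ⟨0, by simp, ?_⟩
    show ‖(1 - (0 : ℝ)) • v + (0 : ℝ) • w‖⁻¹ • ((1 - (0 : ℝ)) • v + (0 : ℝ) • w) = v
    rw [sub_zero, one_smul, zero_smul, add_zero, hv, inv_one, one_smul]
  · refine ⟨1, by simp, ?_⟩
    show ‖(1 - (1 : ℝ)) • v + (1 : ℝ) • w‖⁻¹ • ((1 - (1 : ℝ)) • v + (1 : ℝ) • w) = w
    rw [sub_self, one_smul, zero_smul, zero_add, hw, inv_one, one_smul]
  · rintro _ ⟨t, ht, rfl⟩
    have h1 := norm_unit (hg0 t ht)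
    refine ⟨h1, (hd _ h1).2 ?_, ?_⟩
    · rw [real_inner_smul_left]
      have h2 := hgq t ht
      have h3 := hgn t ht
      have h4 : 0 < ‖g t‖ := norm_pos_iff.2 (hg0 t ht)
      have h5 : 1 ≤ ‖g t‖⁻¹ := (one_le_inv₀ h4).2 h3
      nlinarith
    · rw [inner_smul_right]
      have : inner ℝ y (g t) = 0 := by
        show inner ℝ y ((1 - t) • v + t • w) = 0
        rw [inner_add_right, inner_smul_right, inner_smul_right, hvy, hwy]
        ring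
      rw [this, mul_zero]

/-- **Crossing lemma.** -/
theorem crossing [FiniteDimensional ℝ E] (hE : 3 ≤ finrank ℝ E) {κ : Type*} [Countable κ]
    (W : κ → Set E) (hWc : ∀ k, IsClosed (W k)) (hWs : ∀ k, Swept (W k)) {G A B : Set E}
    (hG : IsOpen G) (hA : IsClosed A) (hB : IsClosed B)
    (hcov : ∀ u ∈ G, ‖u‖ = 1 → u ∈ A ∨ u ∈ B)
    (hW : ∀ u ∈ G, ‖u‖ = 1 → u ∈ A → u ∈ B → ∃ k, u ∈ W k)
    (hlB : ∀ u ∈ G, ‖u‖ = 1 → u ∈ A → u ∈ B → u ∈ closure {v | ‖v‖ = 1 ∧ v ∉ B})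
    (hlA : ∀ u ∈ G, ‖u‖ = 1 → u ∈ A → u ∈ B → u ∈ closure {v | ‖v‖ = 1 ∧ v ∉ A}) :
    ∀ u ∈ G, ‖u‖ = 1 → ¬ (u ∈ A ∧ u ∈ B) := by
  rintro u0 hu0 hu01 ⟨hu0A, hu0B⟩
  obtain ⟨ρ0, hρ0, hball0⟩ := Metric.isOpen_iff.1 hG u0 hu0
  set ρ := ρ0 / 2 with hρ
  have hρp : 0 < ρ := by linarith
  have hcb : Metric.closedBall u0 ρ ⊆ G := by
    refine Subset.trans ?_ hball0
    exact Metric.closedBall_subset_ball (by linarith)
  set K : Set E := {u | ‖u‖ = 1} ∩ (Metric.closedBall u0 ρ ∩ (A ∩ B)) with hK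
  have hKc : IsCompact K := by
    apply sphere_comp
    · exact (isClosed_eq continuous_norm continuous_const).inter
        (Metric.isClosed_closedBall.inter (hA.inter hB))
    · exact fun x hx => hx.1
  have hKs : CompactSpace K := isCompact_iff_compactSpace.1 hKc
  have hdense := dense_iUnion_interior_of_closed (f := fun k => ((↑) : K → E) ⁻¹' W k)
    (fun k => (hWc k).preimage continuous_subtype_val) (by
      rw [eq_univ_iff_forall]
      rintro ⟨u, hu1, hu2, hu3, hu4⟩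
      obtain ⟨k, hk⟩ := hW u (hcb hu2) hu1 hu3 hu4
      exact mem_iUnion.2 ⟨k, hk⟩)
  have hU0o : IsOpen (((↑) : K → E) ⁻¹' Metric.ball u0 ρ) :=
    Metric.isOpen_ball.preimage continuous_subtype_val
  obtain ⟨q, hqball, hqi⟩ := hdense.inter_open_nonempty _ hU0o
    ⟨⟨u0, hu01, Metric.mem_closedBall_self hρp.le, hu0A, hu0B⟩, Metric.mem_ball_self hρp⟩
  obtain ⟨k, hqk⟩ := mem_iUnion.1 hqi
  obtain ⟨O, hO, hOsub⟩ := isOpen_induced_iff.1 (isOpen_interior (s := ((↑) : K → E) ⁻¹' W k))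
  have hqO : (q : E) ∈ O := by
    have : q ∈ ((↑) : K → E) ⁻¹' O := by
      rw [hOsub]
      exact hqk
    exact this
  have hq1 : ‖(q : E)‖ = 1 := q.2.1
  have hqW0 := interior_subset hqk
  have hqW : (q : E) ∈ W k := hqW0
  obtain ⟨r, hr, hballr⟩ := Metric.isOpen_iff.1 (hO.inter Metric.isOpen_ball) (q : E) ⟨hqO, hqball⟩
  -- a small radius
  set σ := min r 1 with hσ
  have hσ0 : 0 < σ := lt_min hr one_pos
  have hσ1 : σ ≤ 1 := min_le_right _ _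
  have hloc : ∀ v, ‖v‖ = 1 → dist v (q : E) < σ → v ∈ G ∧ (v ∈ A → v ∈ B → v ∈ W k) := by
    intro v hv hd
    have h1 : v ∈ O ∩ Metric.ball u0 ρ := hballr (by
      rw [Metric.mem_ball]
      exact lt_of_lt_of_le hd (min_le_left _ _))
    have h2 : v ∈ G := hcb (Metric.ball_subset_closedBall h1.2)
    refine ⟨h2, fun hvA hvB => ?_⟩
    have h3 : v ∈ K := ⟨hv, Metric.ball_subset_closedBall h1.2, hvA, hvB⟩
    have h4 : (⟨v, h3⟩ : K) ∈ ((↑) : K → E) ⁻¹' O := h1.1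
    rw [hOsub] at h4
    have h5 := interior_subset h4
    exact h5
  obtain ⟨Ω, hΩ, hΩ1, hΩ2⟩ := hWs k
  -- a nonzero normal in `Ω`
  obtain ⟨y, hyΩ, hqy, hy0⟩ : ∃ y ∈ Ω, inner ℝ (q : E) y = 0 ∧ y ≠ 0 := by
    obtain ⟨y, hy, hqy⟩ := hΩ1 q hqW
    by_cases h0 : y = 0
    · obtain ⟨e, he1, he2, _⟩ := exists_orth2 hE (q : E) (q : E)
      have hc : Tendsto (fun t : ℝ => t • e) (𝓝[>] 0) (𝓝 0) := by
        have : Continuous (fun t : ℝ => t • e) := by fun_prop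
        have h := this.tendsto 0
        simp only [zero_smul] at h
        exact h.mono_left nhdsWithin_le_nhds
      have h1 : ∀ᶠ t in 𝓝[>] (0 : ℝ), t • e ∈ Ω := hc (hΩ.mem_nhds (h0 ▸ hy))
      obtain ⟨t, ht1, ht2⟩ := (h1.and self_mem_nhdsWithin).exists
      refine ⟨t • e, ht1, by rw [inner_smul_right, he2, mul_zero], ?_⟩
      intro h
      rcases smul_eq_zero.1 h with h | h
      · exact (ne_of_gt ht2) h
      · rw [h, norm_zero] at he1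
        norm_num at he1
    · exact ⟨y, hy, hqy, h0⟩
  obtain ⟨z, hzΩ, hqz, hΔ⟩ : ∃ z ∈ Ω, inner ℝ (q : E) z = 0 ∧
      ‖y‖ ^ 2 * ‖z‖ ^ 2 - (inner ℝ y z) ^ 2 ≠ 0 := by
    obtain ⟨e, he1, he2, he3⟩ := exists_orth2 hE (q : E) y
    have hc : Tendsto (fun t : ℝ => y + t • e) (𝓝[>] 0) (𝓝 y) := by
      have : Continuous (fun t : ℝ => y + t • e) := by fun_prop
      have h := this.tendsto 0
      simp only [zero_smul, add_zero] at h
      exact h.mono_left nhdsWithin_le_nhds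
    have h1 : ∀ᶠ t in 𝓝[>] (0 : ℝ), y + t • e ∈ Ω := hc (hΩ.mem_nhds hyΩ)
    obtain ⟨t, ht1, ht2⟩ := (h1.and self_mem_nhdsWithin).exists
    have ht2' : 0 < t := ht2
    refine ⟨y + t • e, ht1, by rw [inner_add_right, inner_smul_right, he2, hqy]; ring, ?_⟩
    have e1 : ‖y + t • e‖ ^ 2 = ‖y‖ ^ 2 + t ^ 2 := by
      rw [norm_add_sq_real, inner_smul_right, he3, norm_smul, he1, Real.norm_eq_abs, mul_one,
        sq_abs]
      ring
    have e2 : inner ℝ y (y + t • e) = ‖y‖ ^ 2 := by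
      rw [inner_add_right, inner_smul_right, he3, real_inner_self_eq_norm_sq]
      ring
    rw [e1, e2]
    have h3 : 0 < ‖y‖ := norm_pos_iff.2 hy0
    have : ‖y‖ ^ 2 * (‖y‖ ^ 2 + t ^ 2) - (‖y‖ ^ 2) ^ 2 = ‖y‖ ^ 2 * t ^ 2 := by ring
    rw [this]
    positivity
  have hz0 : z ≠ 0 := by
    intro h
    rw [h] at hΔ
    simp at hΔ
  have hqnb : Metric.ball (q : E) σ ∈ 𝓝 (q : E) := Metric.ball_mem_nhds _ hσ0
  have hpair := near_orth2 hq1 hqy hqz hΔ hqnb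
  rw [nhds_prod_eq] at hpair
  obtain ⟨N0, hN0, N1, hN1, hN⟩ := (Filter.mem_prod_iff).1 hpair
  have hqG : (q : E) ∈ G := (hloc q hq1 (by rw [dist_self]; exact hσ0)).1
  have hqA : (q : E) ∈ A := q.2.2.2.1
  have hqB : (q : E) ∈ B := q.2.2.2.2
  -- choose hyperplanes
  have choose_plane : ∀ (y : E) (N C : Set E), y ∈ Ω → y ≠ 0 → inner ℝ (q : E) y = 0 → N ∈ 𝓝 y →
      IsClosed C → (q : E) ∈ closure {v | ‖v‖ = 1 ∧ v ∉ C} →
      ∃ y' ∈ N, (∀ w ∈ W k, inner ℝ w y' ≠ 0) ∧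
        ∃ v, ‖v‖ = 1 ∧ v ∉ C ∧ dist v (q : E) < σ ∧ inner ℝ y' v = 0 := by
    intro y N C hyΩ hy0 hqy hN hC hcl
    obtain ⟨N', hN'N, hN'o, hyN'⟩ := mem_nhds_iff.1 hN
    have h1 : ∃ᶠ v in 𝓝 (q : E), ‖v‖ = 1 ∧ v ∉ C := mem_closure_iff_frequently.1 hcl
    have hc : Tendsto (fun v : E => y - (inner ℝ y v) • v) (𝓝 (q : E)) (𝓝 y) := by
      have : Continuous (fun v : E => y - (inner ℝ y v) • v) := by fun_prop
      have h := this.tendsto (q : E)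
      rwa [real_inner_comm, hqy, zero_smul, sub_zero] at h
    have h2 : ∀ᶠ v in 𝓝 (q : E), y - (inner ℝ y v) • v ∈ Ω ∩ N' ∩ {y | y ≠ 0} :=
      hc (Filter.inter_mem (Filter.inter_mem (hΩ.mem_nhds hyΩ) (hN'o.mem_nhds hyN'))
        (isOpen_ne.mem_nhds hy0))
    have h3 : ∀ᶠ v in 𝓝 (q : E), v ∈ Metric.ball (q : E) σ := hqnb
    obtain ⟨v, ⟨hv1, hvC⟩, ⟨⟨hv2, hv2N⟩, hv20⟩, hv3⟩ := (h1.and_eventually (h2.and h3)).exists
    set y1 := y - (inner ℝ y v) • v with hy1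
    have hy1v : inner ℝ y1 v = 0 := by
      rw [hy1, inner_sub_left, real_inner_smul_left, real_inner_self_eq_norm_sq, hv1]
      ring
    have hOv : Metric.ball (q : E) σ ∩ Cᶜ ∈ 𝓝 v :=
      (Metric.isOpen_ball.inter hC.isOpen_compl).mem_nhds ⟨hv3, hvC⟩
    have h4 := near_orth hv20 hv1 hy1v hOv
    obtain ⟨M, hM, hMo, hyM⟩ := mem_nhds_iff.1 h4
    obtain ⟨y', ⟨⟨hy'M, hy'N⟩, _⟩, hy'W⟩ := hΩ2 (M ∩ N') (hMo.inter hN'o)
      ⟨y1, ⟨hyM, hv2N⟩, hv2⟩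
    obtain ⟨v', hv'O, hv'1, hv'y⟩ := hM hy'M
    exact ⟨y', hN'N hy'N, hy'W, v', hv'1, hv'O.2, Metric.mem_ball.1 hv'O.1, hv'y⟩
  -- along such a hyperplane, near `q`, one stays outside `C`
  have stay : ∀ (C C' : Set E) (y v w : E), IsClosed C → IsClosed C' →
      (∀ u ∈ G, ‖u‖ = 1 → u ∈ C ∨ u ∈ C') → (∀ u, u ∈ C → u ∈ C' → u ∈ A ∧ u ∈ B) →
      (∀ w ∈ W k, inner ℝ w y ≠ 0) → ‖v‖ = 1 → v ∉ C → dist v (q : E) < σ → inner ℝ y v = 0 →
      ‖w‖ = 1 → dist w (q : E) < σ → inner ℝ y w = 0 → w ∉ C := by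
    intro C C' y v w hC hC' hCC hAB hy hv hvC hvq hvy hw hwq hwy hwC
    obtain ⟨Y, hYp, hvY, hwY, hY⟩ := cap_path hσ1 hq1 hv hw hvq hwq hvy hwy
    have hsub : Y ⊆ C ∪ C' := by
      intro u hu
      obtain ⟨h1, h2, _⟩ := hY u hu
      exact hCC u (hloc u h1 h2).1 h1
    obtain ⟨u, huY, huC, huC'⟩ := (isPreconnected_closed_iff.1 hYp) C C' hC hC' hsub
      ⟨w, hwY, hwC⟩ ⟨v, hvY, (hCC v (hloc v hv hvq).1 hv).resolve_left hvC⟩
    obtain ⟨h1, h2, h3⟩ := hY u huY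
    obtain ⟨huA, huB⟩ := hAB u huC huC'
    have h4 := hy u ((hloc u h1 h2).2 huA huB)
    rw [real_inner_comm] at h4
    exact h4 h3
  obtain ⟨y', hy'N, hy'W, v, hv1, hvB, hvq, hy'v⟩ :=
    choose_plane y N0 B hyΩ hy0 hqy hN0 hB (hlB q hqG hq1 hqA hqB)
  obtain ⟨z', hz'N, hz'W, u, hu1, huA, huq, hz'u⟩ :=
    choose_plane z N1 A hzΩ hz0 hqz hN1 hA (hlA q hqG hq1 hqA hqB)
  obtain ⟨w, hwq, hw1, hy'w, hz'w⟩ := hN (Set.mk_mem_prod hy'N hz'N)
  have hwq' := Metric.mem_ball.1 hwq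
  have hwB : w ∉ B := stay B A y' v w hB hA (fun u h1 h2 => (hcov u h1 h2).symm)
    (fun u h1 h2 => ⟨h2, h1⟩) hy'W hv1 hvB hvq hy'v hw1 hwq' hy'w
  have hwA : w ∉ A := stay A B z' u w hA hB hcov (fun u h1 h2 => ⟨h1, h2⟩) hz'W hu1 huA huq hz'u
    hw1 hwq' hz'w
  rcases hcov w (hloc w hw1 hwq').1 hw1 with h | h
  · exact hwA h
  · exact hwB h

end Pool.Agent.OrthoFan
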