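import Pool.Agent.H.MP_ef93d4_co.h56.Last
import Pool.Agent.H.MP_ef93d4_co.h56.BaireCl
import Pool.Agent.H.MP_ef93d4_co.Upper

/-!
# Baire and Borel colourings in dimension four and more
-/

namespace Pool.Agent.OrthoFan

open Set Filter Topology Module

/-- No good covering of the three-dimensional sphere with seven sets. -/
theorem no_seven_good {E : Type*} [NormedAddCommGroup E] [InnerProductSpace ℝ E]
    [FiniteDimensional ℝ E] (hE : finrank ℝ E = 4) {ι : Type*} {s : Finset ι} (hs : s.card = 7)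
    {U : ι → Set E} (hG : GoodCov s U) : False := by
  let f := (s.equivFinOfCardEq hs).symm
  have hG' : GoodCov (Finset.univ : Finset (Fin 7)) (fun j => U (f j)) := by
    refine ⟨fun j => hG.op _, fun j => hG.orth _, ?_⟩
    intro O hO hex
    obtain ⟨y, h1, h2, i, hi, h3⟩ := hG.dense O hO hex
    refine ⟨y, h1, h2, f.symm ⟨i, hi⟩, Finset.mem_univ _, ?_⟩
    show y ∈ U (f (f.symm ⟨i, hi⟩))
    rw [Equiv.apply_symm_apply]
    exact h3
  exact no_seven hE (by simp) hG'.toSym

/-- Open sets without orthogonal pairs with union dense in the sphere of a space of dimension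
`d + 1 ≥ 4`: there are at least `2 + d (d + 1) / 2` of them. -/
theorem open_cover4 (d : ℕ) (hd : 3 ≤ d) {E : Type*} [NormedAddCommGroup E]
    [InnerProductSpace ℝ E] [FiniteDimensional ℝ E] (hE : finrank ℝ E = d + 1) {ι : Type*}
    (s : Finset ι) (U : ι → Set E) (hG : GoodCov s U) : 4 + d * (d + 1) ≤ 2 * s.card := by
  classical
  induction d, hd using Nat.le_induction generalizing E s with
  | base =>
    have h7 := open_cover 3 hE s U hG
    by_contra hlt
    have h8 : s.card = 7 := by omega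
    exact no_seven_good hE h8 hG
  | succ d hd ih =>
    obtain ⟨x, hx, ⟨t, hts, htc, hxB⟩, hdense⟩ := exists_nonfacial hE (by omega) hG
    have hx0 : x ≠ 0 := by
      intro h
      rw [h, norm_zero] at hx
      norm_num at hx
    have hfr : finrank ℝ (ℝ ∙ x)ᗮ = d + 1 := by
      have h1 := Submodule.finrank_add_finrank_orthogonal (ℝ ∙ x)
      rw [finrank_span_singleton hx0, hE] at h1
      omega
    have hxy : ∀ y : (ℝ ∙ x)ᗮ, inner ℝ x (y : E) = 0 := by
      intro y
      have := y.2
      rw [Submodule.mem_orthogonal_singleton_iff_inner_right] at this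
      exact this
    have hih := ih hfr (s \ t) (fun i => ((↑) : (ℝ ∙ x)ᗮ → E) ⁻¹' U i)
      ⟨fun i => (hG.op i).preimage continuous_subtype_val,
        fun i y hy z hz hy1 hz1 => hG.orth i _ hy _ hz hy1 hz1, by
        intro O hO hex
        obtain ⟨O', hO', rfl⟩ := isOpen_induced_iff.1 hO
        obtain ⟨y, hyO, hy1⟩ := hex
        obtain ⟨z, hzO, hz1, hxz, i, hi, hzi⟩ := hdense O' hO' ⟨y, hyO, hy1, hxy y⟩
        have hzmem : z ∈ (ℝ ∙ x)ᗮ := by
          rw [Submodule.mem_orthogonal_singleton_iff_inner_right]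
          exact hxz
        refine ⟨⟨z, hzmem⟩, hzO, hz1, i, ?_, hzi⟩
        rw [Finset.mem_sdiff]
        refine ⟨hi, fun hit => ?_⟩
        exact Bs_orth hG.op hG.orth (hxB i hit) hzi hz1 hxz⟩
    rw [Finset.card_sdiff_of_subset hts, htc] at hih
    have hle : t.card ≤ s.card := Finset.card_le_card hts
    rw [htc] at hle
    have : (d + 1) * (d + 1 + 1) = d * (d + 1) + 2 * (d + 1) := by ring
    omega

/-- From Baire classes to a good covering. -/
theorem baire_good {E : Type*} [NormedAddCommGroup E] [InnerProductSpace ℝ E]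
    [FiniteDimensional ℝ E] {m : ℕ} (c : Sph E → Fin m)
    (hc : ∀ i, BaireMeasurableSet (c ⁻¹' {i}))
    (hcol : ∀ x y : Sph E, inner ℝ (x : E) (y : E) = 0 → c x ≠ c y) :
    ∃ V : Fin m → Set E, GoodCov (Finset.univ : Finset (Fin m)) V := by
  have := sph_compact (E := E)
  choose U hUo hUc using fun i => (hc i).residualEq_isOpen
  choose V hV hVU using fun i => isOpen_induced_iff.1 (hUo i)
  refine ⟨V, hV, ?_, ?_⟩
  · intro i x hx y hy hx1 hy1
    have h1 := orth_of_residual (hUo i) (hUc i) (by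
      intro a ha b hb h0
      exact hcol a b h0 ((show c a = i from ha).trans (show c b = i from hb).symm))
    refine h1 ⟨x, mem_sphere_zero_iff_norm.2 hx1⟩ ?_ ⟨y, mem_sphere_zero_iff_norm.2 hy1⟩ ?_
    · rw [← hVU i]
      exact hx
    · rw [← hVU i]
      exact hy
  · rintro O hO ⟨y, hyO, hy1⟩
    have hR : (⋂ i : Fin m, {z : Sph E | z ∈ c ⁻¹' {i} ↔ z ∈ U i}) ∈ residual (Sph E) :=
      Filter.iInter_mem.2 (fun i => Filter.eventuallyEq_set.1 (hUc i))
    obtain ⟨z, hz1, hz2⟩ := (dense_of_mem_residual hR).inter_open_nonempty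
      (((↑) : Sph E → E) ⁻¹' O) (hO.preimage continuous_subtype_val)
      ⟨⟨y, mem_sphere_zero_iff_norm.2 hy1⟩, hyO⟩
    refine ⟨z, hz1, mem_sphere_zero_iff_norm.1 z.2, c z, Finset.mem_univ _, ?_⟩
    have h3 : z ∈ U (c z) := (mem_iInter.1 hz2 (c z)).1 rfl
    rw [← hVU] at h3
    exact h3

/-- Baire classes in dimension `d + 1 ≥ 4`. -/
theorem baire_classes4 (d : ℕ) (hd : 3 ≤ d) {E : Type*} [NormedAddCommGroup E]
    [InnerProductSpace ℝ E] [FiniteDimensional ℝ E] (hE : finrank ℝ E = d + 1) {m : ℕ}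
    (c : Sph E → Fin m) (hc : ∀ i, BaireMeasurableSet (c ⁻¹' {i}))
    (hcol : ∀ x y : Sph E, inner ℝ (x : E) (y : E) = 0 → c x ≠ c y) :
    4 + d * (d + 1) ≤ 2 * m := by
  obtain ⟨V, hG⟩ := baire_good c hc hcol
  have h := open_cover4 d hd hE Finset.univ V hG
  rwa [Finset.card_univ, Fintype.card_fin] at h

/-! ### The Borel colouring -/

section

open Pool.Agent.OrthoChi

/-- Extension of the coordinates by zero. -/
noncomputable def cof {d : ℕ} (x : Sph (EuclideanSpace ℝ (Fin d))) (i : ℕ) : ℝ :=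
  if h : i < d then (x : EuclideanSpace ℝ (Fin d)) ⟨i, h⟩ else 0

theorem cof_meas {d : ℕ} (i : ℕ) :
    Measurable (fun x : Sph (EuclideanSpace ℝ (Fin d)) => cof x i) := by
  unfold cof
  by_cases h : i < d
  · simp only [h, dif_pos]
    fun_prop
  · simp only [h, dif_neg, not_false_iff]
    exact measurable_const

theorem sq_meas {d : ℕ} {g : Sph (EuclideanSpace ℝ (Fin d)) → Bool} (hg : Measurable g) (k : ℕ) :
    Measurable (fun x : Sph (EuclideanSpace ℝ (Fin d)) => Pool.Agent.OrthoChi.sq (cof x) d (g x) k) := by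
  induction k with
  | zero => exact hg
  | succ k ih =>
    simp only [Pool.Agent.OrthoChi.sq]
    refine Measurable.ite ?_ ih ?_
    · exact measurableSet_eq_fun (cof_meas _) measurable_const
    · exact measurable_to_bool (by
        have : (fun x : Sph (EuclideanSpace ℝ (Fin d)) => decide (0 < cof x (d - (k + 1)))) ⁻¹'
            {true} = {x | 0 < cof x (d - (k + 1))} := by
          ext x
          simp
        rw [this]
        exact measurableSet_lt measurable_const (cof_meas _))

theorem tq_meas {d : ℕ} (k : ℕ) :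
    Measurable (fun x : Sph (EuclideanSpace ℝ (Fin d)) => tq (cof x) d k) := by
  have h0 : Measurable (fun x : Sph (EuclideanSpace ℝ (Fin d)) => s0 (cof x) d) :=
    sq_meas measurable_const d
  have h1 : Measurable (fun x : Sph (EuclideanSpace ℝ (Fin d)) =>
      Pool.Agent.OrthoChi.sq (cof x) d (!(s0 (cof x) d)) k) := by
    refine sq_meas ?_ k
    exact (measurable_from_top (f := not)).comp h0
  have h2 : Measurable (fun p : Bool × Bool => xor p.1 p.2) := measurable_of_countable _
  exact h2.comp (h1.prodMk h0)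

theorem cof_ne {d : ℕ} (x : Sph (EuclideanSpace ℝ (Fin d))) : ∃ i, i < d ∧ cof x i ≠ 0 := by
  by_contra hcon
  push Not at hcon
  have h0 : (x : EuclideanSpace ℝ (Fin d)) = 0 := by
    ext i
    have := hcon i i.2
    simpa [cof, i.2] using this
  have h1 := mem_sphere_zero_iff_norm.1 x.2
  rw [h0, norm_zero] at h1
  norm_num at h1

theorem sum_cof {d : ℕ} (x y : Sph (EuclideanSpace ℝ (Fin d))) :
    ∑ i ∈ Finset.range d, cof x i * cof y i =
      inner ℝ (x : EuclideanSpace ℝ (Fin d)) (y : EuclideanSpace ℝ (Fin d)) := by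
  rw [Finset.sum_range]
  simp only [PiLp.inner_apply, RCLike.inner_apply, conj_trivial, cof, Fin.is_lt, dif_pos,
    Fin.eta]
  exact Finset.sum_congr rfl (fun i _ => mul_comm _ _)

/-- A Borel colouring of the sphere in dimension `d` with `2 ^ (d - 1)` colours. -/
theorem borel_colouring (d : ℕ) : ∃ c : Sph (EuclideanSpace ℝ (Fin d)) → Fin (2 ^ (d - 1)),
    (∀ i, @MeasurableSet _ (borel _) (c ⁻¹' {i})) ∧
    ∀ x y : Sph (EuclideanSpace ℝ (Fin d)),
      inner ℝ (x : EuclideanSpace ℝ (Fin d)) (y : EuclideanSpace ℝ (Fin d)) = 0 → c x ≠ c y := by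
  have hcard : Fintype.card (Fin (d - 1) → Bool) = 2 ^ (d - 1) := by
    rw [Fintype.card_fun, Fintype.card_bool, Fintype.card_fin]
  let ε := Fintype.equivFinOfCardEq hcard
  have hm : Measurable (fun x : Sph (EuclideanSpace ℝ (Fin d)) =>
      ε (fun i : Fin (d - 1) => tq (cof x) d ((i : ℕ) + 1))) := by
    have h1 : Measurable (fun x : Sph (EuclideanSpace ℝ (Fin d)) =>
        (fun i : Fin (d - 1) => tq (cof x) d ((i : ℕ) + 1))) :=
      measurable_pi_lambda _ (fun i => tq_meas _)
    exact (measurable_of_countable ε).comp h1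
  refine ⟨fun x => ε (fun i : Fin (d - 1) => tq (cof x) d ((i : ℕ) + 1)), ?_, ?_⟩
  · intro i
    have h2 := hm (measurableSet_singleton i)
    have h3 : (inferInstance : MeasurableSpace (Sph (EuclideanSpace ℝ (Fin d)))) = borel _ :=
      BorelSpace.measurable_eq
    rw [← h3]
    exact h2
  · intro x y hxy heq
    have heq' := ε.injective heq
    refine sum_ne_zero (cof x) (cof y) d (cof_ne x) (cof_ne y) ?_ ((sum_cof x y).trans hxy)
    intro k hk1 hk2
    have h1 := congrFun heq' ⟨k - 1, by omega⟩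
    have h2 : k - 1 + 1 = k := by omega
    simpa only [h2] using h1

end

end Pool.Agent.OrthoFan
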