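import Pool.Agent.H.MP_ef93d4_co.h56.Sector

/-!
# Four colours on the two-dimensional sphere: quarter circles over the equator
-/

namespace Pool.Agent.OrthoFan

open Set Filter Topology Module

variable {E : Type*} [NormedAddCommGroup E] [InnerProductSpace ℝ E] {ι : Type*}

/-- `m` has a neighbourhood all of whose quarter circles towards the pole `a` have colour `j`. -/
def Om (V : ι → Set E) (a : E) (j : ι) (m : E) : Prop :=
  ∃ O : Set E, IsOpen O ∧ m ∈ O ∧ ∀ m' ∈ O, inner ℝ m' a = 0 →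
    ∀ s t : ℝ, 0 < s → 0 < t → ‖s • m' + t • a‖ = 1 → s • m' + t • a ∈ V j

/-- Tilting a unit vector a little. -/
theorem tilt (p q : E) (hp : ‖p‖ = 1) :
    Tendsto (fun ε : ℝ => ‖p + ε • q‖⁻¹ • (p + ε • q)) (𝓝[>] 0) (𝓝 p) := by
  have hg : Continuous (fun ε : ℝ => p + ε • q) := by fun_prop
  have h1 : ContinuousAt (fun ε : ℝ => ‖p + ε • q‖⁻¹ • (p + ε • q)) 0 := by
    refine ContinuousAt.smul (ContinuousAt.inv₀ hg.norm.continuousAt ?_) hg.continuousAt
    simp [hp]
  have h2 := h1.tendsto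
  simp only [zero_smul, add_zero, hp, inv_one, one_smul] at h2
  exact h2.mono_left nhdsWithin_le_nhds

theorem Om_of_sub (V : ι → Set E) {a x1 x2 m : E} {k : ι} (ha : ‖a‖ = 1)
    (h1a : inner ℝ x1 a = 0) (h2a : inner ℝ x2 a = 0)
    (h : {u : E | ‖u‖ = 1 ∧ 0 < inner ℝ u x1 ∧ inner ℝ u x2 < 0 ∧ 0 < inner ℝ u a} ⊆ V k)
    (hm1 : 0 < inner ℝ m x1) (hm2 : inner ℝ m x2 < 0) : Om V a k m := by
  refine ⟨{u : E | 0 < inner ℝ u x1 ∧ inner ℝ u x2 < 0}, ?_, ⟨hm1, hm2⟩, ?_⟩
  · have hc1 : Continuous (fun v : E => inner ℝ v x1) := by fun_prop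
    have hc2 : Continuous (fun v : E => inner ℝ v x2) := by fun_prop
    exact (isOpen_lt continuous_const hc1).inter (isOpen_lt hc2 continuous_const)
  · rintro m' ⟨hm1', hm2'⟩ hma s t hs ht hn
    apply h
    have haa : inner ℝ a a = 1 := by rw [real_inner_self_eq_norm_sq, ha, one_pow]
    have hax1 : inner ℝ a x1 = 0 := by rw [real_inner_comm]; exact h1a
    have hax2 : inner ℝ a x2 = 0 := by rw [real_inner_comm]; exact h2a
    refine ⟨hn, ?_, ?_, ?_⟩
    · rw [inner_add_left, real_inner_smul_left, real_inner_smul_left, hax1, mul_zero, add_zero]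
      exact mul_pos hs hm1'
    · rw [inner_add_left, real_inner_smul_left, real_inner_smul_left, hax2, mul_zero, add_zero]
      exact mul_neg_of_pos_of_neg hs hm2'
    · rw [inner_add_left, real_inner_smul_left, real_inner_smul_left, hma, haa, mul_zero, zero_add,
        mul_one]
      exact ht

theorem Om_of_sub' (V : ι → Set E) {a x1 x2 m : E} {k : ι} (ha : ‖a‖ = 1)
    (h1a : inner ℝ x1 a = 0) (h2a : inner ℝ x2 a = 0)
    (h : {u : E | ‖u‖ = 1 ∧ inner ℝ u x1 < 0 ∧ 0 < inner ℝ u x2 ∧ 0 < inner ℝ u a} ⊆ V k)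
    (hm1 : inner ℝ m x1 < 0) (hm2 : 0 < inner ℝ m x2) : Om V a k m := by
  refine Om_of_sub V ha h2a h1a (fun u hu => h ⟨hu.1, hu.2.2.1, hu.2.1, hu.2.2.2⟩) hm2 hm1

section

variable [FiniteDimensional ℝ E]

/-- The vectors of the circle between two points. -/
theorem arc_pre (x1 x2 a : E) :
    IsPreconnected {u : E | ‖u‖ = 1 ∧ inner ℝ u a = 0 ∧ 0 < inner ℝ u x1 ∧ inner ℝ u x2 < 0} := by
  apply cone_pre (C := {u : E | inner ℝ u a = 0 ∧ 0 < inner ℝ u x1 ∧ inner ℝ u x2 < 0})
  · rintro u ⟨p1, p2, p3⟩ v ⟨q1, q2, q3⟩ s t hs0 ht0 hst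
    simp only [mem_setOf_eq, inner_add_left, real_inner_smul_left]
    rcases eq_or_lt_of_le hs0 with h | h
    · rw [← h, zero_add] at hst
      rw [← h, hst]
      simp only [zero_mul, one_mul, zero_add]
      exact ⟨q1, q2, q3⟩
    · refine ⟨?_, ?_, ?_⟩
      · rw [p1, q1]
        ring
      · have := mul_pos h p2
        have := mul_nonneg ht0 q2.le
        linarith
      · have := mul_neg_of_pos_of_neg h p3
        have := mul_nonpos_of_nonneg_of_nonpos ht0 q3.le
        linarith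
  · rintro ⟨_, h, _⟩
    rw [inner_zero_left] at h
    exact lt_irrefl _ h
  · rintro u ⟨p1, p2, p3⟩ r hr
    simp only [mem_setOf_eq, real_inner_smul_left]
    exact ⟨by rw [p1, mul_zero], mul_pos hr p2, mul_neg_of_pos_of_neg hr p3⟩

theorem two_sectors (hE : finrank ℝ E = 3) {s : Finset ι} {V : ι → Set E} (hG : RegCov s V)
    {i j k l : ι} (hi : i ∈ s) (hj : j ∈ s) (hk : k ∈ s) (hl : l ∈ s) (hij : i ≠ j) (hkl : k ≠ l)
    (hs : ∀ m ∈ s, m = i ∨ m = j ∨ m = k ∨ m = l) {P : Set E} (hP : IsPreconnected P)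
    (hPi : P ⊆ Bs V i) (hPj : P ⊆ Bs V j) {x1 x2 a : E} (h1 : x1 ∈ P) (h2 : x2 ∈ P)
    (hn1 : ‖x1‖ = 1) (hn2 : ‖x2‖ = 1) (hne : x2 ≠ x1) (hne' : x2 ≠ -x1) (ha : ‖a‖ = 1)
    (h1a : inner ℝ x1 a = 0) (h2a : inner ℝ x2 a = 0) :
    (∃ m : E, ‖m‖ = 1 ∧ inner ℝ m a = 0 ∧ ((Om V a k m ∧ Om V a l (-m)) ∨
      (Om V a l m ∧ Om V a k (-m)))) ∧
    ((Om V a i (‖x1 + x2‖⁻¹ • (x1 + x2)) ∧ Om V a j (-(‖x1 + x2‖⁻¹ • (x1 + x2)))) ∨
      (Om V a j (‖x1 + x2‖⁻¹ • (x1 + x2)) ∧ Om V a i (-(‖x1 + x2‖⁻¹ • (x1 + x2))))) := by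
  have hsec := sector hE hG hk hl hkl hs hP hPi hPj h1 h2 hn1 hn2 hne hne' ha h1a h2a
  have hc1 : inner ℝ x1 x2 < 1 := (inner_lt_one_iff_real_of_norm_eq_one hn1 hn2).2 hne.symm
  have hc2 : -1 < inner ℝ x1 x2 := by
    have h3 : inner ℝ x1 (-x2) < 1 :=
      (inner_lt_one_iff_real_of_norm_eq_one hn1 (by rwa [norm_neg])).2 (fun h => hne' (by
        rw [h, neg_neg]))
    rw [inner_neg_right] at h3
    linarith
  have hx12 : x1 - x2 ≠ 0 := sub_ne_zero.2 hne.symm
  have hx12' : x1 + x2 ≠ 0 := fun h => hne' (by rw [eq_neg_iff_add_eq_zero, add_comm]; exact h)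
  set m : E := ‖x1 - x2‖⁻¹ • (x1 - x2) with hm
  set x0 : E := ‖x1 + x2‖⁻¹ • (x1 + x2) with hx0
  have hm1 : ‖m‖ = 1 := norm_unit hx12
  have hx01 : ‖x0‖ = 1 := norm_unit hx12'
  have hpos : 0 < ‖x1 - x2‖⁻¹ := inv_pos.2 (norm_pos_iff.2 hx12)
  have hpos' : 0 < ‖x1 + x2‖⁻¹ := inv_pos.2 (norm_pos_iff.2 hx12')
  set q := ‖x1 - x2‖⁻¹ * (1 - inner ℝ x1 x2) with hq
  set p := ‖x1 + x2‖⁻¹ * (1 + inner ℝ x1 x2) with hp
  have hq0 : 0 < q := mul_pos hpos (by linarith)
  have hp0 : 0 < p := mul_pos hpos' (by linarith)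
  have hmx1 : inner ℝ m x1 = q := by
    rw [hm, real_inner_smul_left, inner_sub_left, real_inner_self_eq_norm_sq, hn1,
      real_inner_comm x1 x2, one_pow]
  have hmx2 : inner ℝ m x2 = -q := by
    rw [hm, real_inner_smul_left, inner_sub_left, real_inner_self_eq_norm_sq, hn2, hq]
    ring
  have hx0x1 : inner ℝ x0 x1 = p := by
    rw [hx0, real_inner_smul_left, inner_add_left, real_inner_self_eq_norm_sq, hn1,
      real_inner_comm x1 x2, one_pow]
  have hx0x2 : inner ℝ x0 x2 = p := by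
    rw [hx0, real_inner_smul_left, inner_add_left, real_inner_self_eq_norm_sq, hn2, hp]
    ring
  have hma : inner ℝ m a = 0 := by
    rw [hm, real_inner_smul_left, inner_sub_left, h1a, h2a]
    ring
  have hx0a : inner ℝ x0 a = 0 := by
    rw [hx0, real_inner_smul_left, inner_add_left, h1a, h2a]
    ring
  have hmx0 : inner ℝ m x0 = 0 := by
    rw [hm, hx0, real_inner_smul_left, inner_smul_right, inner_sub_left, inner_add_right,
      inner_add_right, real_inner_self_eq_norm_sq, real_inner_self_eq_norm_sq, hn1, hn2,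
      real_inner_comm x1 x2]
    ring
  have hmm : inner ℝ m m = 1 := by rw [real_inner_self_eq_norm_sq, hm1, one_pow]
  have hx0x0 : inner ℝ x0 x0 = 1 := by rw [real_inner_self_eq_norm_sq, hx01, one_pow]
  clear_value m x0
  constructor
  · refine ⟨m, hm1, hma, ?_⟩
    rcases hsec with ⟨hA, hB⟩ | ⟨hA, hB⟩
    · left
      exact ⟨Om_of_sub V ha h1a h2a hA (by rw [hmx1]; exact hq0) (by rw [hmx2]; linarith),
        Om_of_sub' V ha h1a h2a hB (by rw [inner_neg_left, hmx1]; linarith)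
          (by rw [inner_neg_left, hmx2]; linarith)⟩
    · right
      exact ⟨Om_of_sub V ha h1a h2a hA (by rw [hmx1]; exact hq0) (by rw [hmx2]; linarith),
        Om_of_sub' V ha h1a h2a hB (by rw [inner_neg_left, hmx1]; linarith)
          (by rw [inner_neg_left, hmx2]; linarith)⟩
  · -- the arc of the equator
    set P' : Set E := {u : E | ‖u‖ = 1 ∧ inner ℝ u a = 0 ∧ 0 < inner ℝ u x1 ∧ inner ℝ u x2 < 0}
      with hP'
    have hP'pre : IsPreconnected P' := arc_pre x1 x2 a
    have haa : inner ℝ a a = 1 := by rw [real_inner_self_eq_norm_sq, ha, one_pow]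
    have hax1 : inner ℝ a x1 = 0 := by rw [real_inner_comm]; exact h1a
    have hax2 : inner ℝ a x2 = 0 := by rw [real_inner_comm]; exact h2a
    have hup : ∀ (c : ι), {u : E | ‖u‖ = 1 ∧ 0 < inner ℝ u x1 ∧ inner ℝ u x2 < 0 ∧
        0 < inner ℝ u a} ⊆ V c → P' ⊆ Bs V c := by
      rintro c hA u ⟨hu1, hua, hux1, hux2⟩
      have ht := tilt u a hu1
      refine mem_closure_of_tendsto ht ?_
      filter_upwards [self_mem_nhdsWithin] with ε hε
      have hε' : 0 < ε := hε
      have hne0 : u + ε • a ≠ 0 := by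
        intro h
        have := congrArg (fun z => inner ℝ z x1) h
        simp only [inner_add_left, real_inner_smul_left, hax1, inner_zero_left] at this
        linarith
      have hps := inv_pos.2 (norm_pos_iff.2 hne0)
      refine ⟨norm_unit hne0, Or.inl (hA ⟨norm_unit hne0, ?_, ?_, ?_⟩)⟩
      · rw [real_inner_smul_left, inner_add_left, real_inner_smul_left, hax1, mul_zero, add_zero]
        exact mul_pos hps hux1
      · rw [real_inner_smul_left, inner_add_left, real_inner_smul_left, hax2, mul_zero, add_zero]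
        exact mul_neg_of_pos_of_neg hps hux2
      · rw [real_inner_smul_left, inner_add_left, real_inner_smul_left, hua, haa, zero_add, mul_one]
        exact mul_pos hps hε'
    have hdown : ∀ (c : ι), {u : E | ‖u‖ = 1 ∧ inner ℝ u x1 < 0 ∧ 0 < inner ℝ u x2 ∧
        0 < inner ℝ u a} ⊆ V c → P' ⊆ Bs V c := by
      rintro c hA u ⟨hu1, hua, hux1, hux2⟩
      have ht := (tilt (-u) a (by rwa [norm_neg])).neg
      rw [neg_neg] at ht
      refine mem_closure_of_tendsto ht ?_
      filter_upwards [self_mem_nhdsWithin] with ε hε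
      have hε' : 0 < ε := hε
      have hne0 : -u + ε • a ≠ 0 := by
        intro h
        have := congrArg (fun z => inner ℝ z x1) h
        simp only [inner_add_left, real_inner_smul_left, hax1, inner_zero_left, inner_neg_left]
          at this
        linarith
      have hps := inv_pos.2 (norm_pos_iff.2 hne0)
      refine ⟨by rw [norm_neg]; exact norm_unit hne0, Or.inr ?_⟩
      rw [neg_neg]
      refine hA ⟨norm_unit hne0, ?_, ?_, ?_⟩
      · rw [real_inner_smul_left, inner_add_left, real_inner_smul_left, hax1, mul_zero, add_zero,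
          inner_neg_left]
        exact mul_neg_of_pos_of_neg hps (by linarith)
      · rw [real_inner_smul_left, inner_add_left, real_inner_smul_left, hax2, mul_zero, add_zero,
          inner_neg_left]
        exact mul_pos hps (by linarith)
      · rw [real_inner_smul_left, inner_add_left, real_inner_smul_left, inner_neg_left, hua, haa,
          neg_zero, zero_add, mul_one]
        exact mul_pos hps hε'
    have hPkl : P' ⊆ Bs V k ∧ P' ⊆ Bs V l := by
      rcases hsec with ⟨hA, hB⟩ | ⟨hA, hB⟩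
      · exact ⟨hup k hA, hdown l hB⟩
      · exact ⟨hdown k hB, hup l hA⟩
    -- two points of the arc
    set ε := q / (2 * p) with hε
    have hε0 : 0 < ε := by positivity
    have hεp : ε * p = q / 2 := by
      rw [hε]
      field_simp
    have hnr : ‖m + ε • x0‖ ^ 2 = 1 + ε ^ 2 := by
      rw [norm_add_sq_real, inner_smul_right, hmx0, norm_smul ε x0, hm1, hx01, Real.norm_eq_abs,
        mul_one, sq_abs]
      ring
    have hnr' : ‖m - ε • x0‖ ^ 2 = 1 + ε ^ 2 := by
      rw [norm_sub_sq_real, inner_smul_right, hmx0, norm_smul ε x0, hm1, hx01, Real.norm_eq_abs,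
        mul_one, sq_abs]
      ring
    have hne1 : m + ε • x0 ≠ 0 := by
      intro h
      rw [h, norm_zero] at hnr
      nlinarith
    have hne2 : m - ε • x0 ≠ 0 := by
      intro h
      rw [h, norm_zero] at hnr'
      nlinarith
    have hp1 := inv_pos.2 (norm_pos_iff.2 hne1)
    have hp2 := inv_pos.2 (norm_pos_iff.2 hne2)
    set m1 := ‖m + ε • x0‖⁻¹ • (m + ε • x0) with hm1d
    set m2 := ‖m - ε • x0‖⁻¹ • (m - ε • x0) with hm2d
    have hx0m : inner ℝ x0 m = 0 := by rw [real_inner_comm]; exact hmx0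
    have hm1P : m1 ∈ P' := by
      refine ⟨norm_unit hne1, ?_, ?_, ?_⟩
      · rw [hm1d, real_inner_smul_left, inner_add_left, real_inner_smul_left, hma, hx0a]
        ring
      · rw [hm1d, real_inner_smul_left, inner_add_left, real_inner_smul_left, hmx1, hx0x1]
        exact mul_pos hp1 (by nlinarith)
      · rw [hm1d, real_inner_smul_left, inner_add_left, real_inner_smul_left, hmx2, hx0x2]
        exact mul_neg_of_pos_of_neg hp1 (by nlinarith)
    have hm2P : m2 ∈ P' := by
      refine ⟨norm_unit hne2, ?_, ?_, ?_⟩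
      · rw [hm2d, real_inner_smul_left, inner_sub_left, real_inner_smul_left, hma, hx0a]
        ring
      · rw [hm2d, real_inner_smul_left, inner_sub_left, real_inner_smul_left, hmx1, hx0x1]
        exact mul_pos hp2 (by nlinarith)
      · rw [hm2d, real_inner_smul_left, inner_sub_left, real_inner_smul_left, hmx2, hx0x2]
        exact mul_neg_of_pos_of_neg hp2 (by nlinarith)
    have hx0m1 : inner ℝ x0 m1 = ‖m + ε • x0‖⁻¹ * ε := by
      rw [hm1d, inner_smul_right, inner_add_right, inner_smul_right, hx0m, hx0x0]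
      ring
    have hx0m2 : inner ℝ x0 m2 = -(‖m - ε • x0‖⁻¹ * ε) := by
      rw [hm2d, inner_smul_right, inner_sub_right, inner_smul_right, hx0m, hx0x0]
      ring
    have hmm1 : inner ℝ m m1 = ‖m + ε • x0‖⁻¹ := by
      rw [hm1d, inner_smul_right, inner_add_right, inner_smul_right, hmm, hmx0]
      ring
    have hmm2 : inner ℝ m m2 = ‖m - ε • x0‖⁻¹ := by
      rw [hm2d, inner_smul_right, inner_sub_right, inner_smul_right, hmm, hmx0]
      ring
    have hpp1 : 0 < ‖m + ε • x0‖⁻¹ * ε := mul_pos hp1 hε0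
    have hpp2 : 0 < ‖m - ε • x0‖⁻¹ * ε := mul_pos hp2 hε0
    have hsec2 := sector hE hG hi hj hij (i := k) (j := l) (by
        intro c hc
        rcases hs c hc with h | h | h | h
        · exact Or.inr (Or.inr (Or.inl h))
        · exact Or.inr (Or.inr (Or.inr h))
        · exact Or.inl h
        · exact Or.inr (Or.inl h)) hP'pre hPkl.1 hPkl.2 hm1P hm2P hm1P.1 hm2P.1 (by
        intro h
        rw [h] at hx0m2
        linarith) (by
        intro h
        rw [h, inner_neg_right] at hmm2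
        linarith) ha hm1P.2.1 hm2P.2.1
    rcases hsec2 with ⟨hA, hB⟩ | ⟨hA, hB⟩
    · left
      exact ⟨Om_of_sub V ha hm1P.2.1 hm2P.2.1 hA (by rw [hx0m1]; exact hpp1)
          (by rw [hx0m2]; linarith),
        Om_of_sub' V ha hm1P.2.1 hm2P.2.1 hB (by rw [inner_neg_left, hx0m1]; linarith)
          (by rw [inner_neg_left, hx0m2]; linarith)⟩
    · right
      exact ⟨Om_of_sub V ha hm1P.2.1 hm2P.2.1 hA (by rw [hx0m1]; exact hpp1)
          (by rw [hx0m2]; linarith),
        Om_of_sub' V ha hm1P.2.1 hm2P.2.1 hB (by rw [inner_neg_left, hx0m1]; linarith)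
          (by rw [inner_neg_left, hx0m2]; linarith)⟩

/-- The equator lies in no open colour class. -/
theorem equator_Z {s : Finset ι} {V : ι → Set E} (hG : RegCov s V) {a : E} (ha : ‖a‖ = 1)
    (hex : ∀ j ∈ s, ∃ e : E, ‖e‖ = 1 ∧ inner ℝ e a = 0 ∧ Om V a j e) {m : E} (hm : ‖m‖ = 1)
    (hma : inner ℝ m a = 0) {j : ι} (hj : j ∈ s) : m ∉ V j := by
  have haa : inner ℝ a a = 1 := by rw [real_inner_self_eq_norm_sq, ha, one_pow]
  obtain ⟨e, he, hea, O, hO, heO, hOV⟩ := hex j hj
  have hae : inner ℝ a e = 0 := by rw [real_inner_comm]; exact hea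
  have key : ∀ m' : E, ‖m'‖ = 1 → inner ℝ m' a = 0 → inner ℝ m' e < 0 → m' ∉ V j := by
    intro m' hm' hm'a hm'e hmV
    have ht := (tilt m' a hm').eventually ((hG.op j).mem_nhds hmV)
    obtain ⟨ε, hε1, hε2⟩ := (ht.and self_mem_nhdsWithin).exists
    have hε0 : 0 < ε := hε2
    set δ := ε / (-inner ℝ m' e) with hδ
    have hδ0 : 0 < δ := div_pos hε0 (by linarith)
    have hδe : δ * inner ℝ m' e = -ε := by
      rw [hδ]
      have : inner ℝ m' e ≠ 0 := hm'e.ne
      field_simp
    have hne0 : δ • e + (1 : ℝ) • a ≠ 0 := by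
      intro h
      have := congrArg (fun z => inner ℝ z a) h
      simp only [inner_add_left, real_inner_smul_left, hea, haa, inner_zero_left] at this
      norm_num at this
    have hps := inv_pos.2 (norm_pos_iff.2 hne0)
    have hw : ‖δ • e + (1 : ℝ) • a‖⁻¹ • (δ • e + (1 : ℝ) • a) ∈ V j := by
      have h1 := hOV e heO hea (‖δ • e + (1 : ℝ) • a‖⁻¹ * δ) (‖δ • e + (1 : ℝ) • a‖⁻¹ * 1)
        (mul_pos hps hδ0) (by rw [mul_one]; exact hps) (by
          rw [mul_smul, mul_smul, ← smul_add]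
          exact norm_unit hne0)
      rwa [mul_smul, mul_smul, ← smul_add] at h1
    have hne1 : m' + ε • a ≠ 0 := by
      intro h
      have := congrArg (fun z => inner ℝ z a) h
      simp only [inner_add_left, real_inner_smul_left, hm'a, haa, inner_zero_left] at this
      linarith
    refine hG.orth j _ hε1 _ hw (norm_unit hne1) (norm_unit hne0) ?_
    have ham' : inner ℝ a e = 0 := hae
    rw [real_inner_smul_left, inner_smul_right, inner_add_left, inner_add_right, inner_add_right,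
      inner_smul_right, inner_smul_right, real_inner_smul_left, real_inner_smul_left,
      inner_smul_right, inner_smul_right, hm'a, haa, ham', hδe]
    ring
  intro hmV
  rcases lt_trichotomy (inner ℝ m e) 0 with h | h | h
  · exact key m hm hma h hmV
  · -- tilt away from `e`
    have ht := (tilt m (-e) hm).eventually ((hG.op j).mem_nhds hmV)
    obtain ⟨ε, hε1, hε2⟩ := (ht.and self_mem_nhdsWithin).exists
    have hε0 : 0 < ε := hε2
    have hne1 : m + ε • (-e) ≠ 0 := by
      intro h0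
      have := congrArg (fun z => inner ℝ z m) h0
      simp only [inner_add_left, real_inner_smul_left, inner_neg_left,
        real_inner_self_eq_norm_sq, hm, inner_zero_left, real_inner_comm m e, h] at this
      norm_num at this
    have hps := inv_pos.2 (norm_pos_iff.2 hne1)
    refine key _ (norm_unit hne1) ?_ ?_ hε1
    · rw [real_inner_smul_left, inner_add_left, real_inner_smul_left, inner_neg_left, hma, hea]
      ring
    · rw [real_inner_smul_left, inner_add_left, real_inner_smul_left, inner_neg_left, h,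
        real_inner_self_eq_norm_sq, he]
      exact mul_neg_of_pos_of_neg hps (by nlinarith)
  · refine key (-m) (by rw [norm_neg]; exact hm) (by rw [inner_neg_left, hma, neg_zero]) ?_
      (hG.sym j _ hmV)
    rw [inner_neg_left]
    linarith

/-- The circle orthogonal to `a` is a continuum. -/
theorem circle_conti (hE : finrank ℝ E = 3) {a : E} (ha : ‖a‖ = 1) :
    Conti {m : E | ‖m‖ = 1 ∧ inner ℝ m a = 0} := by
  have ha0 : a ≠ 0 := by
    intro h
    rw [h, norm_zero] at ha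
    norm_num at ha
  refine ⟨?_, ?_, ?_⟩
  · apply sphere_comp
    · exact (isClosed_eq continuous_norm continuous_const).inter
        (isClosed_eq (by fun_prop) continuous_const)
    · exact fun x hx => hx.1
  · have hfr : finrank ℝ (ℝ ∙ a)ᗮ = 2 := by
      have h1 := Submodule.finrank_add_finrank_orthogonal (ℝ ∙ a)
      rw [finrank_span_singleton ha0, hE] at h1
      omega
    have hrank : 1 < Module.rank ℝ (ℝ ∙ a)ᗮ := by
      rw [← finrank_eq_rank, hfr]
      norm_num
    have hpre := isPreconnected_sphere hrank (0 : (ℝ ∙ a)ᗮ) 1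
    have : {m : E | ‖m‖ = 1 ∧ inner ℝ m a = 0} =
        ((↑) : (ℝ ∙ a)ᗮ → E) '' Metric.sphere (0 : (ℝ ∙ a)ᗮ) 1 := by
      ext m
      constructor
      · rintro ⟨h1, h2⟩
        have hmem : m ∈ (ℝ ∙ a)ᗮ := by
          rw [Submodule.mem_orthogonal_singleton_iff_inner_left]
          exact h2
        exact ⟨⟨m, hmem⟩, mem_sphere_zero_iff_norm.2 h1, rfl⟩
      · rintro ⟨⟨m, hmem⟩, h1, rfl⟩
        rw [Submodule.mem_orthogonal_singleton_iff_inner_left] at hmem
        exact ⟨mem_sphere_zero_iff_norm.1 h1, hmem⟩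
    rw [this]
    exact hpre.image _ continuous_subtype_val.continuousOn
  · obtain ⟨e, he, hae, _⟩ := exists_orth2 (by rw [hE]) a a
    refine ⟨e, ⟨he, by rw [real_inner_comm]; exact hae⟩, -e, ⟨by rw [norm_neg]; exact he, by
      rw [inner_neg_left, real_inner_comm, hae, neg_zero]⟩, ?_⟩
    intro h
    have h2 : inner ℝ e e = -inner ℝ e e := by
      nth_rewrite 1 [h]
      rw [inner_neg_left]
    rw [real_inner_self_eq_norm_sq, he] at h2
    norm_num at h2

theorem others {s : Finset ι} (hs : s.card = 4) {i j : ι} (hi : i ∈ s) (hj : j ∈ s)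
    (hij : i ≠ j) : ∃ k ∈ s, ∃ l ∈ s, k ≠ l ∧ k ≠ i ∧ k ≠ j ∧ l ≠ i ∧ l ≠ j ∧
      ∀ m ∈ s, m = i ∨ m = j ∨ m = k ∨ m = l := by
  classical
  have h1 : (s \ {i, j}).card = 2 := by
    rw [Finset.card_sdiff_of_subset (by
      intro x hx
      rcases Finset.mem_insert.1 hx with rfl | hx
      · exact hi
      · rw [Finset.mem_singleton.1 hx]
        exact hj), hs, Finset.card_pair hij]
  obtain ⟨k, l, hkl, h2⟩ := Finset.card_eq_two.1 h1
  have hk : k ∈ s \ {i, j} := by rw [h2]; simp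
  have hl : l ∈ s \ {i, j} := by rw [h2]; simp
  simp only [Finset.mem_sdiff, Finset.mem_insert, Finset.mem_singleton, not_or] at hk hl
  refine ⟨k, hk.1, l, hl.1, hkl, hk.2.1, hk.2.2, hl.2.1, hl.2.2, ?_⟩
  intro m hm
  by_cases hmi : m = i
  · exact Or.inl hmi
  by_cases hmj : m = j
  · exact Or.inr (Or.inl hmj)
  have : m ∈ s \ {i, j} := by simp [hm, hmi, hmj]
  rw [h2] at this
  simp only [Finset.mem_insert, Finset.mem_singleton] at this
  exact Or.inr (Or.inr this)

theorem Om_dense (hE : finrank ℝ E = 3) {s : Finset ι} (hs : s.card = 4) {V : ι → Set E}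
    (hG : RegCov s V) {a : E} (ha : ‖a‖ = 1)
    (hex : ∀ j ∈ s, ∃ e : E, ‖e‖ = 1 ∧ inner ℝ e a = 0 ∧ Om V a j e) {O : Set E} (hO : IsOpen O)
    {q : E} (hqO : q ∈ O) (hq : ‖q‖ = 1) (hqa : inner ℝ q a = 0) :
    ∃ m ∈ O, ‖m‖ = 1 ∧ inner ℝ m a = 0 ∧ ∃ j ∈ s, Om V a j m := by
  obtain ⟨r, hr, hball⟩ := Metric.isOpen_iff.1 hO q hqO
  set ρ := min r 1 with hρ
  have hρ0 : 0 < ρ := lt_min hr one_pos
  have hρ1 : ρ ≤ 1 := min_le_right _ _
  have hballρ : Metric.ball q ρ ⊆ O := (Metric.ball_subset_ball (min_le_left _ _)).trans hball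
  obtain ⟨P, hPs, hP⟩ := (circle_conti hE ha).loc (Metric.isOpen_ball (x := q) (ε := ρ))
    ⟨q, ⟨hq, hqa⟩, Metric.mem_ball_self hρ0⟩
  obtain ⟨⟨⟨⟨i, hi⟩, ⟨j, hj⟩⟩, hij0⟩, P', hP's, hP'⟩ := hP.cover
    (κ := {p : {x // x ∈ s} × {x // x ∈ s} // p.1 ≠ p.2})
    (fun p => Bs V (p.1.1 : ι) ∩ Bs V (p.1.2 : ι))
    (fun p => (Bs_closed V _).inter (Bs_closed V _)) (by
      intro m hm
      have hmC := (hPs hm).1
      obtain ⟨i, hi, hmi⟩ := hG.toGoodCov.cover hmC.1
      have hnot := equator_Z hG ha hex hmC.1 hmC.2 hi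
      have : ∃ j ∈ s, j ≠ i ∧ m ∈ Bs V j := by
        by_contra hcon
        push Not at hcon
        exact hnot (hG.reg i hi m hmC.1 (fun j hj hji => hcon j hj hji))
      obtain ⟨j, hj, hji, hmj⟩ := this
      exact mem_iUnion.2 ⟨⟨(⟨i, hi⟩, ⟨j, hj⟩), fun h => hji (congrArg Subtype.val h).symm⟩,
        hmi, hmj⟩)
  have hij : i ≠ j := fun h => hij0 (Subtype.ext h)
  obtain ⟨x1, hx1, x2, hx2, hne⟩ := hP'.nd
  have hx1b := hPs (hP's hx1).1
  have hx2b := hPs (hP's hx2).1
  have hd1 : dist x1 q < ρ := Metric.mem_ball.1 hx1b.2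
  have hd2 : dist x2 q < ρ := Metric.mem_ball.1 hx2b.2
  have hd : ∀ u : E, ‖u‖ = 1 → (dist u q < ρ ↔ 1 - ρ ^ 2 / 2 < inner ℝ u q) := by
    intro u hu
    have h1 : dist u q ^ 2 = 2 - 2 * inner ℝ u q := by
      rw [dist_eq_norm, norm_sub_sq_real, hu, hq]
      ring
    constructor
    · intro h
      have h2 : dist u q ^ 2 < ρ ^ 2 := by
        have := dist_nonneg (x := u) (y := q)
        nlinarith
      linarith
    · intro h
      have h2 : dist u q ^ 2 < ρ ^ 2 := by linarith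
      exact lt_of_pow_lt_pow_left₀ 2 hρ0.le h2
  have hi1 := (hd x1 hx1b.1.1).1 hd1
  have hi2 := (hd x2 hx2b.1.1).1 hd2
  have hκ : 0 < 1 - ρ ^ 2 / 2 := by nlinarith
  have hne' : x2 ≠ -x1 := by
    intro h
    rw [h, inner_neg_left] at hi2
    linarith
  obtain ⟨k, hk, l, hl, hkl, _, _, _, _, hall⟩ := others hs hi hj hij
  have htwo := (two_sectors hE hG hi hj hk hl hij hkl hall hP'.pre
    (fun x hx => (hP's hx).2.1) (fun x hx => (hP's hx).2.2) hx1 hx2 hx1b.1.1 hx2b.1.1 hne.symm hne'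
    ha hx1b.1.2 hx2b.1.2).2
  have hx12 : x1 + x2 ≠ 0 := fun h => hne' (by rw [eq_neg_iff_add_eq_zero, add_comm]; exact h)
  have hn := norm_unit hx12
  refine ⟨‖x1 + x2‖⁻¹ • (x1 + x2), hballρ ?_, hn, ?_, ?_⟩
  · rw [Metric.mem_ball, hd _ hn, real_inner_smul_left, inner_add_left]
    have h1 : ‖x1 + x2‖ ≤ 2 := by
      refine (norm_add_le _ _).trans ?_
      rw [hx1b.1.1, hx2b.1.1]
      norm_num
    have h2 : 0 < ‖x1 + x2‖ := norm_pos_iff.2 hx12
    rw [inv_mul_eq_div, lt_div_iff₀ h2]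
    nlinarith
  · rw [real_inner_smul_left, inner_add_left, hx1b.1.2, hx2b.1.2]
    ring
  · rcases htwo with h | h
    · exact ⟨i, hi, h.1⟩
    · exact ⟨j, hj, h.1⟩

end

end Pool.Agent.OrthoFan
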