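import Pool.Agent.H.MP_ef93d4_co.h56.Octa

/-!
# Ky Fan's theorem for closed sets (multiplicity form)
-/

namespace Pool.Agent.OrthoFan

open Set

theorem oct_compact (n : ℕ) : IsCompact {x : Fin (n + 1) → ℝ | ∑ j, |x j| = 1} := by
  apply Metric.isCompact_of_isClosed_isBounded
  · exact isClosed_eq (by fun_prop) continuous_const
  · refine (Metric.isBounded_closedBall (x := (0 : Fin (n + 1) → ℝ)) (r := 1)).subset ?_
    intro x hx
    rw [mem_closedBall_zero_iff, pi_norm_le_iff_of_nonneg (by norm_num)]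
    intro j
    rw [Real.norm_eq_abs]
    have hx' : ∑ j, |x j| = 1 := hx
    rw [← hx']
    exact Finset.single_le_sum (f := fun j => |x j|) (fun i _ => abs_nonneg _) (Finset.mem_univ j)

theorem fan_octa (n : ℕ) {ι : Type*} [Fintype ι] (C : ι → Set (Fin (n + 1) → ℝ))
    (hcl : ∀ i, IsClosed (C i)) (hdis : ∀ i x, x ∈ C i → -x ∉ C i)
    (hcov : ∀ x : Fin (n + 1) → ℝ, ∑ j, |x j| = 1 → ∃ i, x ∈ C i ∨ -x ∈ C i) :
    ∃ x : Fin (n + 1) → ℝ, ∃ s : Finset ι, s.card = n + 1 ∧ ∀ i ∈ s, x ∈ C i ∨ -x ∈ C i := by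
  classical
  have hne : Nonempty ι := by
    have h1 : ev (n + 1) 0 ∈ Fc (fun _ : Fin (n + 1) => true) := ev_mem (by omega) _ rfl
    obtain ⟨i, _⟩ := hcov _ (Fc_abs _ h1)
    exact ⟨i⟩
  let e := Fintype.equivFin ι
  let I : (Fin (n + 1) → ℝ) → Set ι := fun x => {i | x ∈ C i ∨ -x ∈ C i}
  let G : Set ι → ι := fun J => if h : J.Nonempty then h.some else Classical.arbitrary ι
  have hG : ∀ J : Set ι, J.Nonempty → G J ∈ J := by
    intro J hJ
    have : G J = hJ.some := dif_pos hJ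
    rw [this]
    exact hJ.some_mem
  have hI : ∀ x, I (-x) = I x := by
    intro x
    ext i
    show (-x ∈ C i ∨ -(-x) ∈ C i) ↔ (x ∈ C i ∨ -x ∈ C i)
    rw [neg_neg, or_comm]
  have hIm : ∀ x : Fin (n + 1) → ℝ, ∑ j, |x j| = 1 →
      (x ∈ C (G (I x)) ∨ -x ∈ C (G (I x))) := by
    intro x hx
    exact hG (I x) (hcov x hx)
  let f : (Fin (n + 1) → ℝ) → ℕ := fun x => 2 * (e (G (I x)) : ℕ) + (if x ∈ C (G (I x)) then 0 else 1)
  have hf2 : ∀ x, f x / 2 = (e (G (I x)) : ℕ) := by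
    intro x
    show (2 * (e (G (I x)) : ℕ) + (if x ∈ C (G (I x)) then 0 else 1)) / 2 = _
    split_ifs <;> omega
  have hf : ∀ x : Fin (n + 1) → ℝ, ∑ j, |x j| = 1 → f (-x) = fl (f x) := by
    intro x hx
    have h1 := hIm x hx
    have h2 : f (-x) = 2 * (e (G (I x)) : ℕ) + (if -x ∈ C (G (I x)) then 0 else 1) := by
      show 2 * (e (G (I (-x))) : ℕ) + (if -x ∈ C (G (I (-x))) then 0 else 1) = _
      rw [hI x]
    have h3 : f x = 2 * (e (G (I x)) : ℕ) + (if x ∈ C (G (I x)) then 0 else 1) := rfl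
    rw [h2, h3]
    unfold fl
    rcases h1 with h1 | h1
    · have h4 := hdis _ _ h1
      rw [if_neg h4, if_pos h1]
      split_ifs <;> omega
    · have h4 : x ∉ C (G (I x)) := fun h => hdis _ _ h h1
      rw [if_pos h1, if_neg h4]
      split_ifs <;> omega
  let c : (Fin (n + 1) → ℝ) → Set (Fin (n + 1) → ℝ) := fun x =>
    (⋃ i ∈ {i | x ∉ C i}, C i)ᶜ ∩ (⋃ i ∈ {i | -x ∉ C i}, (fun y => -y) ⁻¹' C i)ᶜ
  have hc : ∀ x y, y ∈ c x → ∀ i, (y ∈ C i → x ∈ C i) ∧ (-y ∈ C i → -x ∈ C i) := by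
    rintro x y ⟨h1, h2⟩ i
    constructor
    · intro h3
      by_contra h4
      exact h1 (mem_iUnion₂.2 ⟨i, h4, h3⟩)
    · intro h3
      by_contra h4
      exact h2 (mem_iUnion₂.2 ⟨i, h4, h3⟩)
  have hco : ∀ x, IsOpen (c x) := by
    intro x
    refine IsOpen.inter ?_ ?_
    · exact (Set.Finite.isClosed_biUnion (Set.toFinite _) (fun i _ => hcl i)).isOpen_compl
    · exact (Set.Finite.isClosed_biUnion (Set.toFinite _)
        (fun i _ => (hcl i).preimage continuous_neg)).isOpen_compl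
  have hcc : {x : Fin (n + 1) → ℝ | ∑ j, |x j| = 1} ⊆ ⋃ x, c x := by
    intro x _
    refine mem_iUnion.2 ⟨x, ?_, ?_⟩
    · intro h
      obtain ⟨i, h1, h2⟩ := mem_iUnion₂.1 h
      exact h1 h2
    · intro h
      obtain ⟨i, h1, h2⟩ := mem_iUnion₂.1 h
      exact h1 h2
  obtain ⟨δ, hδ, hball⟩ := lebesgue_number_lemma_of_metric (oct_compact n) hco hcc
  obtain ⟨l, hl1, hl2, hl3⟩ := fan_small n f hf δ hδ
  have key : ∀ y ∈ l, ∃ x, ∀ z ∈ l, z ∈ c x := by
    intro y hy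
    obtain ⟨x, hx⟩ := hball y (hl1 y hy)
    refine ⟨x, fun z hz => hx ?_⟩
    rw [Metric.mem_ball]
    exact hl2 z hz y hy
  rcases hl3 with ⟨y, hy, z, hz, h1, h2⟩ | ⟨h1, h2⟩
  · exfalso
    obtain ⟨x, hx⟩ := key y hy
    rw [hf2, hf2] at h1
    have h3 : G (I y) = G (I z) := e.injective (Fin.ext h1)
    have hy1 := hIm y (hl1 y hy)
    have hz1 := hIm z (hl1 z hz)
    have hfy : f y = 2 * (e (G (I z)) : ℕ) + (if y ∈ C (G (I z)) then 0 else 1) := by
      rw [← h3]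
    have hfz : f z = 2 * (e (G (I z)) : ℕ) + (if z ∈ C (G (I z)) then 0 else 1) := rfl
    rw [h3] at hy1
    have hxy := hc x y (hx y hy) (G (I z))
    have hxz := hc x z (hx z hz) (G (I z))
    by_cases hyC : y ∈ C (G (I z))
    · have hzC : z ∉ C (G (I z)) := by
        intro hzC
        rw [hfy, hfz, if_pos hyC, if_pos hzC] at h2
        exact h2 rfl
      have hz2 := hz1.resolve_left hzC
      exact hdis _ x (hxy.1 hyC) (hxz.2 hz2)
    · have hzC : z ∈ C (G (I z)) := by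
        by_contra hzC
        rw [hfy, hfz, if_neg hyC, if_neg hzC] at h2
        exact h2 rfl
      have hy2 := hy1.resolve_left hyC
      exact hdis _ x (hxz.1 hzC) (hxy.2 hy2)
  · have hne' : l ≠ [] := by
      intro h
      rw [h] at h1
      simp at h1
    obtain ⟨y, hy⟩ := List.exists_mem_of_ne_nil l hne'
    obtain ⟨x, hx⟩ := key y hy
    have h3 : (l.map (fun x => G (I x))).Nodup := by
      have : (l.map (fun x => f x / 2)) = (l.map (fun x => G (I x))).map (fun i => (e i : ℕ)) := by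
        rw [List.map_map]
        apply List.map_congr_left
        intro z _
        exact hf2 z
      rw [this] at h2
      exact List.Nodup.of_map _ h2
    refine ⟨x, (l.map (fun x => G (I x))).toFinset, ?_, ?_⟩
    · rw [List.toFinset_card_of_nodup h3, List.length_map, h1]
    · intro i hi
      rw [List.mem_toFinset, List.mem_map] at hi
      obtain ⟨z, hz, rfl⟩ := hi
      have hz1 := hIm z (hl1 z hz)
      have hxz := hc x z (hx z hz) (G (I z))
      exact hz1.imp hxz.1 hxz.2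

/-- **Ky Fan's theorem** (multiplicity form): if the unit sphere of a real normed space of
dimension `n + 1` is covered by the sets `C i` and `-C i`, with `C i` closed and not meeting
`-C i`, then some point lies in `C i ∪ -C i` for `n + 1` different indices `i`. -/
theorem fan_sphere {E : Type*} [NormedAddCommGroup E] [NormedSpace ℝ E] [FiniteDimensional ℝ E]
    (n : ℕ) (hE : Module.finrank ℝ E = n + 1) {ι : Type*} [Fintype ι] (C : ι → Set E)
    (hcl : ∀ i, IsClosed (C i)) (hdis : ∀ i x, ‖x‖ = 1 → x ∈ C i → -x ∉ C i)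
    (hcov : ∀ x : E, ‖x‖ = 1 → ∃ i, x ∈ C i ∨ -x ∈ C i) :
    ∃ x : E, ‖x‖ = 1 ∧ ∃ s : Finset ι, s.card = n + 1 ∧ ∀ i ∈ s, x ∈ C i ∨ -x ∈ C i := by
  have hfr : Module.finrank ℝ (Fin (n + 1) → ℝ) = Module.finrank ℝ E := by
    rw [hE, Module.finrank_fin_fun]
  let Φ : (Fin (n + 1) → ℝ) ≃L[ℝ] E := ContinuousLinearEquiv.ofFinrankEq hfr
  let g : (Fin (n + 1) → ℝ) → E := fun x => ‖Φ x‖⁻¹ • Φ x
  have hne : ∀ x : Fin (n + 1) → ℝ, ∑ j, |x j| = 1 → Φ x ≠ 0 := by
    intro x hx h0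
    have : x = 0 := Φ.map_eq_zero_iff.1 h0
    rw [this] at hx
    simp at hx
  have hg1 : ∀ x : Fin (n + 1) → ℝ, ∑ j, |x j| = 1 → ‖g x‖ = 1 := by
    intro x hx
    have h1 := norm_pos_iff.2 (hne x hx)
    show ‖‖Φ x‖⁻¹ • Φ x‖ = 1
    rw [norm_smul, norm_inv, norm_norm, inv_mul_cancel₀ h1.ne']
  have hgn : ∀ x, g (-x) = -g x := by
    intro x
    show ‖Φ (-x)‖⁻¹ • Φ (-x) = -(‖Φ x‖⁻¹ • Φ x)
    rw [map_neg, norm_neg, smul_neg]
  have hgc : ContinuousOn g {x : Fin (n + 1) → ℝ | ∑ j, |x j| = 1} := by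
    refine ContinuousOn.smul ?_ Φ.continuous.continuousOn
    refine ContinuousOn.inv₀ (Φ.continuous.norm.continuousOn) ?_
    intro x hx
    exact (norm_pos_iff.2 (hne x hx)).ne'
  have hsum : ∀ x : Fin (n + 1) → ℝ, ∑ j, |(-x) j| = ∑ j, |x j| := by
    intro x
    simp
  obtain ⟨x, s, hs, hx⟩ := fan_octa n (fun i => {x : Fin (n + 1) → ℝ | ∑ j, |x j| = 1} ∩ g ⁻¹' C i)
    (fun i => hgc.preimage_isClosed_of_isClosed (oct_compact n).isClosed (hcl i))
    (by
      rintro i x ⟨h1, h2⟩ ⟨h3, h4⟩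
      rw [mem_preimage] at h2 h4
      rw [hgn] at h4
      exact hdis i (g x) (hg1 x h1) h2 h4)
    (by
      intro x hx
      obtain ⟨i, hi⟩ := hcov (g x) (hg1 x hx)
      refine ⟨i, ?_⟩
      rcases hi with hi | hi
      · exact Or.inl ⟨hx, hi⟩
      · refine Or.inr ⟨?_, ?_⟩
        · show ∑ j, |(-x) j| = 1
          rw [hsum, hx]
        · rw [mem_preimage, hgn]
          exact hi)
  have hsne : s.Nonempty := by
    rw [← Finset.card_pos, hs]
    omega
  obtain ⟨i0, hi0⟩ := hsne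
  have hx1 : ∑ j, |x j| = 1 := by
    rcases hx i0 hi0 with h | h
    · exact h.1
    · have := h.1
      have h' : ∑ j, |(-x) j| = 1 := this
      rwa [hsum] at h'
  refine ⟨g x, hg1 x hx1, s, hs, ?_⟩
  intro i hi
  rcases hx i hi with h | h
  · exact Or.inl h.2
  · right
    rw [← hgn]
    exact h.2

end Pool.Agent.OrthoFan
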