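import Pool.Agent.H.MP_ef93d4_co.h56.Turn

/-!
# A fixed axis
-/

namespace Pool.Agent.OrthoFan

open Set Filter Topology Module

variable {E : Type*} [NormedAddCommGroup E] [InnerProductSpace ℝ E] {ι : Type*}

/-- A continuum has two points that are not opposite. -/
theorem Conti.two {P : Set E} (hP : Conti P) : ∃ x1 ∈ P, ∃ x2 ∈ P, x2 ≠ x1 ∧ x2 ≠ -x1 := by
  obtain ⟨x, hx, y, hy, hxy⟩ := hP.nd
  by_cases h : y = -x
  · obtain ⟨P', hP's, hP'⟩ := hP.loc (O := {y}ᶜ) isOpen_compl_singleton ⟨x, hx, hxy⟩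
    obtain ⟨z, hz, w, hw, hzw⟩ := hP'.nd
    by_cases hzx : z = x
    · refine ⟨x, hx, w, (hP's hw).1, ?_, ?_⟩
      · intro h2
        exact hzw (hzx.trans h2.symm)
      · rw [← h]
        exact (hP's hw).2
    · refine ⟨x, hx, z, (hP's hz).1, hzx, ?_⟩
      rw [← h]
      exact (hP's hz).2
  · exact ⟨x, hx, y, hy, hxy.symm, h⟩

theorem idx_swap0 : ∀ S : Fin 3 → Bool, Equiv.swap (1 : Fin 4) 3 (idx S) =
    idx (S ∘ Equiv.swap (0 : Fin 3) 2) := by decide

theorem idx_swap1 : ∀ S : Fin 3 → Bool, Equiv.swap (2 : Fin 4) 3 (idx S) =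
    idx (S ∘ Equiv.swap (1 : Fin 3) 2) := by decide

theorem idx_swap2 : ∀ S : Fin 3 → Bool, Equiv.refl (Fin 4) (idx S) =
    idx (S ∘ Equiv.swap (2 : Fin 3) 2) := by decide

theorem idx_not : ∀ S : Fin 3 → Bool, idx (fun i => !S i) = idx S := by decide

theorem exists_perm (i : Fin 3) : ∃ σ : Equiv.Perm (Fin 4), ∀ S : Fin 3 → Bool,
    σ (idx S) = idx (S ∘ Equiv.swap i 2) := by
  fin_cases i
  · exact ⟨_, idx_swap0⟩
  · exact ⟨_, idx_swap1⟩
  · exact ⟨_, idx_swap2⟩

theorem Wad.neg {V : ι → Set E} {e : Fin 4 → ι} {F : Fin 3 → E} (h : Wad V e F) :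
    Wad V e (fun i => -F i) := by
  intro S Y hY hY1
  have h1 := h (fun i => !S i) (fun i => -Y i) (by
    intro i
    rw [sgn_not]
    have := hY i
    linarith) (by
    simpa using hY1)
  rw [idx_not] at h1
  have h2 : ∑ i, -Y i • F i = ∑ i, Y i • -F i :=
    Finset.sum_congr rfl (fun i _ => by rw [neg_smul, smul_neg])
  rw [h2] at h1
  exact h1

theorem Fr.neg {x : E} {F : Fin 3 → E} (h : Fr x F) : Fr x (fun i => -F i) where
  nx := h.nx
  nF := fun i => by rw [norm_neg]; exact h.nF i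
  xF := fun i => by rw [inner_neg_right, h.xF, neg_zero]
  FF := fun i j hij => by rw [inner_neg_left, inner_neg_right, h.FF i j hij]; simp

theorem Wad.swap {V : ι → Set E} {e : Fin 4 → ι} {F : Fin 3 → E} (h : Wad V e F) (i : Fin 3)
    {σ : Equiv.Perm (Fin 4)} (hσ : ∀ S : Fin 3 → Bool, σ (idx S) = idx (S ∘ Equiv.swap i 2)) :
    Wad V (e ∘ σ) (F ∘ Equiv.swap i 2) := by
  intro S Y hY hY1
  have h1 := h (S ∘ Equiv.swap i 2) (Y ∘ Equiv.swap i 2) (fun j => hY _) (by
    rw [← hY1]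
    exact Equiv.sum_comp (Equiv.swap i 2) (fun j => Y j ^ 2))
  rw [← hσ] at h1
  have h2 : ∑ j, (Y ∘ Equiv.swap i 2) j • F j = ∑ j, Y j • (F ∘ Equiv.swap i 2) j := by
    rw [← Equiv.sum_comp (Equiv.swap i 2) (fun j => Y j • (F ∘ Equiv.swap i 2) j)]
    refine Finset.sum_congr rfl (fun j _ => ?_)
    simp only [Function.comp_apply, Equiv.swap_apply_self]
  rw [h2] at h1
  exact h1

theorem Fr.swap {x : E} {F : Fin 3 → E} (h : Fr x F) (i : Fin 3) :
    Fr x (F ∘ Equiv.swap i 2) where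
  nx := h.nx
  nF := fun _ => h.nF _
  xF := fun _ => h.xF _
  FF := fun j k hjk => h.FF _ _ (fun h' => hjk ((Equiv.swap i 2).injective h'))

/-- Every axis, with each sign, can be made the last vector of a frame. -/
theorem axis_last {V : ι → Set E} {e : Fin 4 → ι} {x : E} {F : Fin 3 → E} (hF : Fr x F)
    (hW : Wad V e F) {i : Fin 3} {w : E} (hw : w = F i ∨ w = -F i) :
    ∃ (σ : Equiv.Perm (Fin 4)) (F' : Fin 3 → E), F' 2 = w ∧ Fr x F' ∧ Wad V (e ∘ σ) F' := by
  obtain ⟨σ, hσ⟩ := exists_perm i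
  rcases hw with h | h
  · exact ⟨σ, F ∘ Equiv.swap i 2, by simp [h], hF.swap i, hW.swap i hσ⟩
  · exact ⟨σ, fun j => -(F ∘ Equiv.swap i 2) j, by simp [h], (hF.swap i).neg, (hW.swap i hσ).neg⟩

section

variable [FiniteDimensional ℝ E]

/-- A vector is determined up to sign when it is a unit vector on the line of `w`. -/
theorem unit_line {v w : E} (hv : ‖v‖ = 1) (hw : ‖w‖ = 1) (h : v = inner ℝ v w • w) :
    w = v ∨ w = -v := by
  have h1 : |inner ℝ v w| = 1 := by
    have := congrArg norm h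
    rw [norm_smul, hv, hw, mul_one, Real.norm_eq_abs] at this
    exact this.symm
  rcases (abs_eq (by norm_num)).1 h1 with h2 | h2
  · left
    rw [h2, one_smul] at h
    exact h.symm
  · right
    rw [h2, neg_smul, one_smul] at h
    rw [h, neg_neg]

/-- In a plane: a vector orthogonal to two points that are not opposite is orthogonal to the
plane. -/
theorem plane_alg {a b p q r s : ℝ} (h1 : p * a + q * b = 0) (h2 : r * a + s * b = 0)
    (hp : p ^ 2 + q ^ 2 = 1) (hr : r ^ 2 + s ^ 2 = 1) (hne : ¬ (r = p ∧ s = q))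
    (hne' : ¬ (r = -p ∧ s = -q)) : a = 0 ∧ b = 0 := by
  have hdet : p * s - q * r ≠ 0 := by
    intro h
    have h3 : (p * r + q * s) ^ 2 = 1 := by
      have : (p * r + q * s) ^ 2 = (p ^ 2 + q ^ 2) * (r ^ 2 + s ^ 2) - (p * s - q * r) ^ 2 := by ring
      rw [this, hp, hr, h]
      ring
    have h4 : r = (p * r + q * s) * p := by linear_combination (-r) * hp + (-q) * h
    have h5 : s = (p * r + q * s) * q := by linear_combination (-s) * hp + p * h
    rcases sq_eq_one_iff.1 h3 with h6 | h6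
    · rw [h6] at h4 h5
      exact hne ⟨by linarith, by linarith⟩
    · rw [h6] at h4 h5
      exact hne' ⟨by linarith, by linarith⟩
  constructor
  · have : (p * s - q * r) * a = 0 := by linear_combination s * h1 - q * h2
    exact (mul_eq_zero.1 this).resolve_left hdet
  · have : (p * s - q * r) * b = 0 := by linear_combination (-r) * h1 + p * h2
    exact (mul_eq_zero.1 this).resolve_left hdet

theorem Conti.other {P : Set E} (hP : Conti P) (x : E) : ∃ y ∈ P, y ≠ x ∧ y ≠ -x := by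
  obtain ⟨x1, hx1, x2, hx2, h1, h2⟩ := hP.two
  by_cases h3 : x1 = x
  · exact ⟨x2, hx2, h3 ▸ h1, h3 ▸ h2⟩
  · by_cases h4 : x1 = -x
    · refine ⟨x2, hx2, ?_, h4 ▸ h1⟩
      rw [h4, neg_neg] at h2
      exact h2
    · exact ⟨x1, hx1, h3, h4⟩

/-- The planar case. -/
theorem planar_case (hE : finrank ℝ E = 4) {s : Finset ι} {V : ι → Set E} (hG : SymCov s V)
    {T : Set E} (hTc : IsClosed T) (hTd : IsTotallyDisconnected T) (hT1 : ∀ v ∈ T, ‖v‖ = 1)
    (hTn : ∀ v ∈ T, -v ∈ T) {P : Set E} {e0 : Fin 4 → ι}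
    (hfr : ∀ σ : Equiv.Perm (Fin 4), ∀ x ∈ P, ∃ F, Fr x F ∧ Wad V (e0 ∘ σ) F)
    (hT : ∀ (σ : Equiv.Perm (Fin 4)) (F : Fin 3 → E), Wad V (e0 ∘ σ) F → ∀ i, F i ∈ T)
    {n1 n2 : E} {P2 : Set E} (hn1 : ‖n1‖ = 1) (hn2 : ‖n2‖ = 1) (hn : inner ℝ n1 n2 = 0)
    (hP2 : Conti P2) (hP2P : P2 ⊆ P) (hpl : ∀ x ∈ P2, inner ℝ x n1 = 0 ∧ inner ℝ x n2 = 0) :
    ∃ (w : E) (σ : Equiv.Perm (Fin 4)) (P' : Set E), Conti P' ∧ P' ⊆ P ∧
      (∀ x ∈ P', ∃ F, F 2 = w ∧ Fr x F ∧ Wad V (e0 ∘ σ) F) ∧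
      (∀ x ∈ P', ∀ v ∈ T, inner ℝ x v = 0 → ∃ y ∈ P', ∀ p q : ℝ, y ≠ p • x + q • v) := by
  have hn' : inner ℝ n2 n1 = 0 := by rw [real_inner_comm]; exact hn
  obtain ⟨z1, hz1, hz1n1, hz1n2, _⟩ := exists_orth3 (by rw [hE]) n1 n2 n2
  obtain ⟨z2, hz2, hz2n1, hz2n2, hz21⟩ := exists_orth3 (by rw [hE]) n1 n2 z1
  have hz12 : inner ℝ z1 z2 = 0 := by rw [real_inner_comm]; exact hz21
  have hz11 : inner ℝ z1 z1 = 1 := by rw [real_inner_self_eq_norm_sq, hz1, one_pow]
  have hz22 : inner ℝ z2 z2 = 1 := by rw [real_inner_self_eq_norm_sq, hz2, one_pow]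
  have hB : Fr z1 ![z2, n1, n2] := by
    refine ⟨hz1, ?_, ?_, ?_⟩
    · intro i
      fin_cases i
      · exact hz2
      · exact hn1
      · exact hn2
    · intro i
      fin_cases i
      · exact hz12
      · exact hz1n1
      · exact hz1n2
    · have h1 : inner ℝ n1 z2 = 0 := by rw [real_inner_comm]; exact hz2n1
      have h2 : inner ℝ n2 z2 = 0 := by rw [real_inner_comm]; exact hz2n2
      intro i j hij
      fin_cases i <;> fin_cases j <;> first
        | exact absurd rfl hij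
        | exact hz2n1
        | exact hz2n2
        | exact hn
        | exact hn'
        | exact h1
        | exact h2
  have pexp : ∀ z : E, inner ℝ z n1 = 0 → inner ℝ z n2 = 0 →
      z = inner ℝ z z1 • z1 + inner ℝ z z2 • z2 := by
    intro z h1 h2
    have h3 := hB.expand hE z
    rw [Fin.sum_univ_three] at h3
    simp only [Matrix.cons_val_zero, Matrix.cons_val_one, Matrix.cons_val] at h3
    rw [h1, h2, zero_smul, zero_smul, add_zero, add_zero] at h3
    exact h3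
  have pnorm : ∀ z : E, ‖z‖ = 1 → inner ℝ z n1 = 0 → inner ℝ z n2 = 0 →
      inner ℝ z z1 ^ 2 + inner ℝ z z2 ^ 2 = 1 := by
    intro z hz h1 h2
    have h3 := hB.parseval hE z
    rw [Fin.sum_univ_three] at h3
    simp only [Matrix.cons_val_zero, Matrix.cons_val_one, Matrix.cons_val] at h3
    rw [h1, h2, hz] at h3
    linarith
  set τ : E → E := fun x => inner ℝ x z1 • z2 - inner ℝ x z2 • z1 with hτ
  have hτc : Continuous τ := by
    rw [hτ]
    fun_prop
  have hτ1 : ∀ x, inner ℝ (τ x) z1 = -inner ℝ x z2 := by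
    intro x
    show inner ℝ (inner ℝ x z1 • z2 - inner ℝ x z2 • z1) z1 = _
    rw [inner_sub_left, real_inner_smul_left, real_inner_smul_left, hz21, hz11]
    ring
  have hτ2 : ∀ x, inner ℝ (τ x) z2 = inner ℝ x z1 := by
    intro x
    show inner ℝ (inner ℝ x z1 • z2 - inner ℝ x z2 • z1) z2 = _
    rw [inner_sub_left, real_inner_smul_left, real_inner_smul_left, hz12, hz22]
    ring
  have hτn1 : ∀ x, inner ℝ (τ x) n1 = 0 := by
    intro x
    show inner ℝ (inner ℝ x z1 • z2 - inner ℝ x z2 • z1) n1 = _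
    rw [inner_sub_left, real_inner_smul_left, real_inner_smul_left, hz2n1, hz1n1]
    ring
  have hτn2 : ∀ x, inner ℝ (τ x) n2 = 0 := by
    intro x
    show inner ℝ (inner ℝ x z1 • z2 - inner ℝ x z2 • z1) n2 = _
    rw [inner_sub_left, real_inner_smul_left, real_inner_smul_left, hz2n2, hz1n2]
    ring
  have hP2u : ∀ x ∈ P2, ‖x‖ = 1 := by
    intro x hx
    obtain ⟨F, hF, _⟩ := hfr (Equiv.refl _) x (hP2P hx)
    exact hF.nx
  have hτx : ∀ x ∈ P2, inner ℝ (τ x) x = 0 := by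
    intro x hx
    have h1 := pexp x (hpl x hx).1 (hpl x hx).2
    nth_rewrite 2 [h1]
    rw [inner_add_right, inner_smul_right, inner_smul_right, hτ1, hτ2]
    ring
  have hτu : ∀ x ∈ P2, ‖τ x‖ = 1 := by
    intro x hx
    have h1 := pnorm x (hP2u x hx) (hpl x hx).1 (hpl x hx).2
    have h2 : inner ℝ (τ x) (τ x) = 1 := by
      have h3 : inner ℝ (τ x) (τ x) = inner ℝ x z1 * inner ℝ (τ x) z2 -
          inner ℝ x z2 * inner ℝ (τ x) z1 := by
        show inner ℝ (τ x) (inner ℝ x z1 • z2 - inner ℝ x z2 • z1) = _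
        rw [inner_sub_right, inner_smul_right, inner_smul_right]
      rw [h3, hτ1, hτ2]
      linarith
    rw [real_inner_self_eq_norm_sq] at h2
    have h3 := norm_nonneg (τ x)
    nlinarith
  -- the tangent vector is not everywhere in `T`
  obtain ⟨x0, hx0, hx0T⟩ : ∃ x ∈ P2, τ x ∉ T := by
    by_contra hcon
    push Not at hcon
    obtain ⟨x, hx, y, hy, hxy⟩ := hP2.nd
    apply hxy
    have h1 := hP2.const hTd hτc.continuousOn hcon x hx y hy
    have h2 := hτ1 x
    rw [h1, hτ1 y] at h2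
    have h3 := hτ2 x
    rw [h1, hτ2 y] at h3
    rw [pexp x (hpl x hx).1 (hpl x hx).2, pexp y (hpl y hy).1 (hpl y hy).2, h3]
    have h4 : inner ℝ x z2 = inner ℝ y z2 := by linarith
    rw [h4]
  obtain ⟨P3, hP3s, hP3⟩ := hP2.loc (O := τ ⁻¹' Tᶜ) (hTc.isOpen_compl.preimage hτc)
    ⟨x0, hx0, hx0T⟩
  have hP3P : P3 ⊆ P := fun x hx => hP2P (hP3s hx).1
  -- an axis orthogonal to the plane
  have axis_perp : ∀ (σ : Equiv.Perm (Fin 4)), ∀ x ∈ P3, ∀ F : Fin 3 → E, Fr x F →
      Wad V (e0 ∘ σ) F → ∃ i, inner ℝ (F i) z1 = 0 ∧ inner ℝ (F i) z2 = 0 := by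
    intro σ x hx F hF hW
    obtain ⟨i, P', hP's, hP'⟩ := hP3.cover (fun i : Fin 3 => {y : E | inner ℝ y (F i) = 0})
      (fun i => isClosed_eq (by fun_prop) continuous_const) (by
      intro y hy
      obtain ⟨i, hi⟩ := prod_zero hE hG hTc hTd hP3 (fun z hz => hfr σ z (hP3P hz))
        (fun F' hW' i => ⟨hT σ F' hW' i, hTn _ (hT σ F' hW' i)⟩) hF hW hy
      exact mem_iUnion.2 ⟨i, hi⟩)
    obtain ⟨x1, hx1, x2, hx2, hne, hne'⟩ := hP'.two
    have hx1P := (hP3s (hP's hx1).1).1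
    have hx2P := (hP3s (hP's hx2).1).1
    have e1 := pexp x1 (hpl x1 hx1P).1 (hpl x1 hx1P).2
    have e2 := pexp x2 (hpl x2 hx2P).1 (hpl x2 hx2P).2
    have k1 : inner ℝ x1 z1 * inner ℝ (F i) z1 + inner ℝ x1 z2 * inner ℝ (F i) z2 = 0 := by
      have h := (hP's hx1).2
      have h' : inner ℝ x1 (F i) = 0 := h
      rw [e1, inner_add_left, real_inner_smul_left, real_inner_smul_left, real_inner_comm (F i) z1,
        real_inner_comm (F i) z2] at h'
      exact h'
    have k2 : inner ℝ x2 z1 * inner ℝ (F i) z1 + inner ℝ x2 z2 * inner ℝ (F i) z2 = 0 := by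
      have h := (hP's hx2).2
      have h' : inner ℝ x2 (F i) = 0 := h
      rw [e2, inner_add_left, real_inner_smul_left, real_inner_smul_left, real_inner_comm (F i) z1,
        real_inner_comm (F i) z2] at h'
      exact h'
    refine ⟨i, plane_alg k1 k2 (pnorm x1 (hP2u x1 hx1P) (hpl x1 hx1P).1 (hpl x1 hx1P).2)
      (pnorm x2 (hP2u x2 hx2P) (hpl x2 hx2P).1 (hpl x2 hx2P).2) ?_ ?_⟩
    · rintro ⟨h1, h2⟩
      apply hne
      rw [e2, h1, h2, ← e1]
    · rintro ⟨h1, h2⟩
      apply hne'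
      rw [e2, h1, h2]
      nth_rewrite 3 [e1]
      module
  -- the base point
  obtain ⟨x1, hx1, _⟩ := hP3.nd
  have hx1P2 := (hP3s hx1).1
  obtain ⟨F0, hF0, hW0⟩ := hfr (Equiv.refl _) x1 (hP3P hx1)
  obtain ⟨i0, hi0⟩ := axis_perp (Equiv.refl _) x1 hx1 F0 hF0 hW0
  obtain ⟨σ1, F1, hF12, hF1, hW1'⟩ := axis_last hF0 hW0 (i := i0) (Or.inl rfl)
  have hW1 : Wad V (e0 ∘ σ1) F1 := hW1'
  have hperp : inner ℝ (F1 2) z1 = 0 ∧ inner ℝ (F1 2) z2 = 0 := by
    rw [hF12]
    exact hi0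
  have perp_of : ∀ f : E, inner ℝ f z1 = 0 → inner ℝ f z2 = 0 → ∀ z : E, inner ℝ z n1 = 0 →
      inner ℝ z n2 = 0 → inner ℝ f z = 0 := by
    intro f h1 h2 z h3 h4
    rw [pexp z h3 h4, inner_add_right, inner_smul_right, inner_smul_right, h1, h2]
    ring
  set t1 := τ x1 with ht1
  have ht1u : ‖t1‖ = 1 := hτu x1 hx1P2
  have ht1x : inner ℝ t1 x1 = 0 := hτx x1 hx1P2
  have ht1F : inner ℝ t1 (F1 2) = 0 := by
    rw [real_inner_comm]
    exact perp_of _ hperp.1 hperp.2 _ (hτn1 _) (hτn2 _)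
  have ht1e : t1 = inner ℝ t1 (F1 0) • F1 0 + inner ℝ t1 (F1 1) • F1 1 := by
    have h1 := hF1.expand0 hE ht1x
    rw [Fin.sum_univ_three, ht1F, zero_smul, add_zero] at h1
    exact h1
  have hFT : ∀ i, F1 i ∈ T := fun i => hT σ1 F1 hW1 i
  have ht1T : t1 ∉ T := (hP3s hx1).2
  set β := inner ℝ t1 (F1 0) with hβ
  set γ := inner ℝ t1 (F1 1) with hγ
  have notT : ∀ i, t1 = inner ℝ t1 (F1 i) • F1 i → False := by
    intro i h
    rcases unit_line ht1u (hF1.nF i) h with h' | h'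
    · exact ht1T (h' ▸ hFT i)
    · apply ht1T
      have := hTn _ (hFT i)
      rw [h', neg_neg] at this
      exact this
  have hβ0 : β ≠ 0 := by
    intro h
    apply notT 1
    rw [← hγ]
    nth_rewrite 1 [ht1e]
    rw [h, zero_smul, zero_add]
  have hγ0 : γ ≠ 0 := by
    intro h
    apply notT 0
    rw [← hβ]
    nth_rewrite 1 [ht1e]
    rw [h, zero_smul, add_zero]
  have hβγ : β ^ 2 + γ ^ 2 = 1 := by
    have h1 := hF1.parseval hE t1
    rw [Fin.sum_univ_three, ht1F, ht1u, ht1x, ← hβ, ← hγ] at h1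
    linarith
  clear_value β γ
  set m1 := γ • F1 0 - β • F1 1 with hm1
  have hm1x : inner ℝ m1 x1 = 0 := by
    rw [hm1, inner_sub_left, real_inner_smul_left, real_inner_smul_left, hF1.Fx, hF1.Fx]
    ring
  have hm10 : inner ℝ m1 (F1 0) = γ := by
    rw [hm1, inner_sub_left, real_inner_smul_left, real_inner_smul_left, hF1.Fi,
      hF1.FF 1 0 (by decide)]
    ring
  have hm11 : inner ℝ m1 (F1 1) = -β := by
    rw [hm1, inner_sub_left, real_inner_smul_left, real_inner_smul_left, hF1.Fi,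
      hF1.FF 0 1 (by decide)]
    ring
  have hm12 : inner ℝ m1 (F1 2) = 0 := by
    rw [hm1, inner_sub_left, real_inner_smul_left, real_inner_smul_left, hF1.FF 0 2 (by decide),
      hF1.FF 1 2 (by decide)]
    ring
  have hm1t : inner ℝ m1 t1 = 0 := by
    rw [ht1e, inner_add_right, inner_smul_right, inner_smul_right, hm10, hm11]
    ring
  have hm1m : inner ℝ m1 m1 = 1 := by
    nth_rewrite 2 [hm1]
    rw [inner_sub_right, inner_smul_right, inner_smul_right, hm10, hm11]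
    linarith
  have hm1u : ‖m1‖ = 1 := by
    rw [real_inner_self_eq_norm_sq] at hm1m
    have h3 := norm_nonneg m1
    nlinarith
  clear_value m1
  have hC : Fr x1 ![t1, m1, F1 2] := by
    refine ⟨hF1.nx, ?_, ?_, ?_⟩
    · intro i
      fin_cases i
      · exact ht1u
      · exact hm1u
      · exact hF1.nF 2
    · intro i
      fin_cases i
      · show inner ℝ x1 t1 = 0
        rw [real_inner_comm]; exact ht1x
      · show inner ℝ x1 m1 = 0
        rw [real_inner_comm]; exact hm1x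
      · exact hF1.xF 2
    · have h1 : inner ℝ t1 m1 = 0 := by rw [real_inner_comm]; exact hm1t
      have h2 : inner ℝ (F1 2) m1 = 0 := by rw [real_inner_comm]; exact hm12
      have h3 : inner ℝ (F1 2) t1 = 0 := by rw [real_inner_comm]; exact ht1F
      intro i j hij
      fin_cases i <;> fin_cases j <;> first
        | exact absurd rfl hij
        | exact hm1t
        | exact hm12
        | exact ht1F
        | exact h1
        | exact h2
        | exact h3
  have hxp := pexp x1 (hpl x1 hx1P2).1 (hpl x1 hx1P2).2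
  have hxn := pnorm x1 (hP2u x1 hx1P2) (hpl x1 hx1P2).1 (hpl x1 hx1P2).2
  have hz1e : z1 = inner ℝ x1 z1 • x1 - inner ℝ x1 z2 • t1 := by
    have h1 : inner ℝ x1 z1 • x1 - inner ℝ x1 z2 • t1 =
        (inner ℝ x1 z1 ^ 2 + inner ℝ x1 z2 ^ 2) • z1 := by
      nth_rewrite 2 [hxp]
      show _ - inner ℝ x1 z2 • (inner ℝ x1 z1 • z2 - inner ℝ x1 z2 • z1) = _
      module
    rw [h1, hxn, one_smul]
  have hz2e : z2 = inner ℝ x1 z2 • x1 + inner ℝ x1 z1 • t1 := by
    have h1 : inner ℝ x1 z2 • x1 + inner ℝ x1 z1 • t1 =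
        (inner ℝ x1 z1 ^ 2 + inner ℝ x1 z2 ^ 2) • z2 := by
      nth_rewrite 2 [hxp]
      show _ + inner ℝ x1 z1 • (inner ℝ x1 z1 • z2 - inner ℝ x1 z2 • z1) = _
      module
    rw [h1, hxn, one_smul]
  have hm1z1 : inner ℝ m1 z1 = 0 := by
    rw [hz1e, inner_sub_right, inner_smul_right, inner_smul_right, hm1x, hm1t]
    ring
  have hm1z2 : inner ℝ m1 z2 = 0 := by
    rw [hz2e, inner_add_right, inner_smul_right, inner_smul_right, hm1x, hm1t]
    ring
  -- the key claim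
  have claim : ∀ x2 ∈ P3, ∀ F2 : Fin 3 → E, Fr x2 F2 → Wad V (e0 ∘ σ1) F2 → ∀ i2 : Fin 3,
      inner ℝ (F2 i2) z1 = 0 → inner ℝ (F2 i2) z2 = 0 →
      (F1 2 = F2 i2 ∨ F1 2 = -F2 i2) ∨ (m1 = F2 i2 ∨ m1 = -F2 i2) := by
    intro x2 hx2 F2 hF2 hW2 i2 hv1 hv2
    have hx2P2 := (hP3s hx2).1
    have hvx : inner ℝ (F2 i2) x1 = 0 :=
      perp_of _ hv1 hv2 _ (hpl x1 hx1P2).1 (hpl x1 hx1P2).2
    have hvt : inner ℝ (F2 i2) t1 = 0 := perp_of _ hv1 hv2 _ (hτn1 _) (hτn2 _)
    have hve := hC.expand0 hE hvx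
    rw [Fin.sum_univ_three] at hve
    simp only [Matrix.cons_val_zero, Matrix.cons_val_one, Matrix.cons_val] at hve
    rw [hvt, zero_smul, zero_add] at hve
    have hvn := hC.parseval hE (F2 i2)
    rw [Fin.sum_univ_three] at hvn
    simp only [Matrix.cons_val_zero, Matrix.cons_val_one, Matrix.cons_val] at hvn
    rw [hvt, hvx, hF2.nF] at hvn
    by_cases hs0 : inner ℝ (F2 i2) m1 = 0
    · left
      rw [hs0, zero_smul, zero_add] at hve
      exact unit_line (hF2.nF i2) (hF1.nF 2) hve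
    by_cases ht0 : inner ℝ (F2 i2) (F1 2) = 0
    · right
      rw [ht0, zero_smul, add_zero] at hve
      exact unit_line (hF2.nF i2) hm1u hve
    exfalso
    set p := inner ℝ (F2 i2) m1 with hp
    set q := inner ℝ (F2 i2) (F1 2) with hq
    have hpq : p ^ 2 + q ^ 2 = 1 := by linarith
    have hne : ∀ i, inner ℝ (F2 i2) (F1 i) ≠ 0 := by
      have h0 : inner ℝ (F2 i2) (F1 0) = p * γ := by
        rw [hve, inner_add_left, real_inner_smul_left, real_inner_smul_left, hm10,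
          hF1.FF 2 0 (by decide)]
        ring
      have h1 : inner ℝ (F2 i2) (F1 1) = p * -β := by
        rw [hve, inner_add_left, real_inner_smul_left, real_inner_smul_left, hm11,
          hF1.FF 2 1 (by decide)]
        ring
      intro i
      fin_cases i
      · exact h0 ▸ mul_ne_zero hs0 hγ0
      · exact h1 ▸ mul_ne_zero hs0 (neg_ne_zero.2 hβ0)
      · exact ht0
    set m2 := p • F1 2 - q • m1 with hm2
    have hm2v : inner ℝ m2 (F2 i2) = 0 := by
      rw [hm2, inner_sub_left, real_inner_smul_left, real_inner_smul_left, real_inner_comm (F2 i2),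
        real_inner_comm (F2 i2) m1, ← hp, ← hq]
      ring
    have hm2z : ∀ z : E, inner ℝ z n1 = 0 → inner ℝ z n2 = 0 → inner ℝ m2 z = 0 := by
      intro z h1 h2
      rw [hm2, inner_sub_left, real_inner_smul_left, real_inner_smul_left,
        perp_of _ hperp.1 hperp.2 z h1 h2, perp_of _ hm1z1 hm1z2 z h1 h2]
      ring
    have hm2x1 := hm2z x1 (hpl x1 hx1P2).1 (hpl x1 hx1P2).2
    have hm2x2 := hm2z x2 (hpl x2 hx2P2).1 (hpl x2 hx2P2).2
    have hm2F : inner ℝ m2 (F1 2) = p := by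
      rw [hm2, inner_sub_left, real_inner_smul_left, real_inner_smul_left, hF1.Fi, hm12]
      ring
    have hm2m : inner ℝ m2 m1 = -q := by
      rw [hm2, inner_sub_left, real_inner_smul_left, real_inner_smul_left, hm1m,
        real_inner_comm m1 (F1 2), hm12]
      ring
    have hm22 : inner ℝ m2 m2 = 1 := by
      nth_rewrite 2 [hm2]
      rw [inner_sub_right, inner_smul_right, inner_smul_right, hm2F, hm2m]
      linarith
    clear_value m2
    have hvm2 : inner ℝ (F2 i2) m2 = 0 := by rw [real_inner_comm]; exact hm2v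
    have hind : ∀ m : E, (m = m2 ∨ m = -m2) → ∀ a b : ℝ, a • F2 i2 + b • m = 0 → a = 0 ∧ b = 0 := by
      intro m hm a b h
      have e1 := congrArg (fun z => inner ℝ z (F2 i2)) h
      have e2 := congrArg (fun z => inner ℝ z m2) h
      rcases hm with rfl | rfl
      · simp only [inner_add_left, real_inner_smul_left, inner_zero_left, hm2v, hvm2, hm22,
          hF2.Fi] at e1 e2
        exact ⟨by linarith, by linarith⟩
      · simp only [inner_add_left, real_inner_smul_left, inner_zero_left, inner_neg_left, hm2v,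
          hvm2, hm22, hF2.Fi] at e1 e2
        exact ⟨by linarith, by linarith⟩
    have hSe : ∀ k, ∃ b : Bool, (k = i2 → b = true) ∧ 0 ≤ sgn b * inner ℝ m2 (F2 k) := by
      intro k
      by_cases hk : k = i2
      · exact ⟨true, fun _ => rfl, by rw [hk, hm2v, mul_zero]⟩
      · rcases le_total 0 (inner ℝ m2 (F2 k)) with h | h
        · exact ⟨true, fun h' => absurd h' hk, by simpa using h⟩
        · exact ⟨false, fun h' => absurd h' hk, by simpa using h⟩
    choose S hS using hSe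
    have hag1 := agree hE hG hF1 hF2 hW1 hW2 (u := F2 i2) (m := m2) hvx (hF2.Fx i2) hm2x1 hm2x2
      (hind m2 (Or.inl rfl)) hne (S := S) (by
        filter_upwards [self_mem_nhdsWithin] with t ht
        have ht0 : 0 < t := ht
        intro k
        rw [inner_add_left, real_inner_smul_left]
        by_cases hk : k = i2
        · rw [hk, hF2.Fi, hm2v, (hS i2).1 rfl]
          simp
        · rw [hF2.FF i2 k (Ne.symm hk)]
          have : sgn (S k) * (0 + t * inner ℝ m2 (F2 k)) = t * (sgn (S k) * inner ℝ m2 (F2 k)) := by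
            ring
          rw [this]
          exact mul_nonneg ht0.le (hS k).2)
    have hag2 := agree hE hG hF1 hF2 hW1 hW2 (u := F2 i2) (m := -m2) hvx (hF2.Fx i2)
      (by rw [inner_neg_left, hm2x1, neg_zero]) (by rw [inner_neg_left, hm2x2, neg_zero])
      (hind (-m2) (Or.inr rfl)) hne (S := fun k => if k = i2 then true else !S k) (by
        filter_upwards [self_mem_nhdsWithin] with t ht
        have ht0 : 0 < t := ht
        intro k
        rw [inner_add_left, real_inner_smul_left, inner_neg_left]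
        by_cases hk : k = i2
        · rw [if_pos hk, hk, hF2.Fi, hm2v]
          simp
        · rw [if_neg hk, hF2.FF i2 k (Ne.symm hk), sgn_not]
          have : -sgn (S k) * (0 + t * -inner ℝ m2 (F2 k)) =
              t * (sgn (S k) * inner ℝ m2 (F2 k)) := by
            ring
          rw [this]
          exact mul_nonneg ht0.le (hS k).2)
    obtain ⟨j, hj⟩ : ∃ j : Fin 3, j ≠ i2 := by
      by_cases h : i2 = 0
      · exact ⟨1, by rw [h]; decide⟩
      · exact ⟨0, fun h' => h h'.symm⟩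
    have hSi := (hS i2).1 rfl
    rcases hag1 with h | h <;> rcases hag2 with h' | h'
    · have e1 := h j
      have e2 := h' j
      rw [if_neg hj, sgn_not] at e2
      linarith
    · have e1 := h i2
      have e2 := h' i2
      rw [if_pos rfl] at e2
      rw [hSi] at e1
      linarith
    · have e1 := h i2
      have e2 := h' i2
      rw [if_pos rfl] at e2
      rw [hSi] at e1
      linarith
    · have e1 := h j
      have e2 := h' j
      rw [if_neg hj, sgn_not] at e2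
      linarith
  -- the covering
  obtain ⟨⟨b, ρ⟩, P4, hP4s, hP4⟩ := hP3.cover
    (fun k : Bool × Equiv.Perm (Fin 4) => {x : E | ∃ F ∈ {F : Fin 3 → E | F 2 =
      if k.1 then F1 2 else m1}, Fr x F ∧ Wad V ((e0 ∘ σ1) ∘ k.2) F})
    (fun k => wad_closed V _ (isClosed_eq (continuous_apply 2) continuous_const)) (by
      intro x2 hx2
      obtain ⟨F2, hF2, hW2⟩ := hfr σ1 x2 (hP3P hx2)
      obtain ⟨i2, h1, h2⟩ := axis_perp σ1 x2 hx2 F2 hF2 hW2
      rcases claim x2 hx2 F2 hF2 hW2 i2 h1 h2 with h | h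
      · obtain ⟨ρ, F', h3, h4, h5⟩ := axis_last hF2 hW2 h
        refine mem_iUnion.2 ⟨(true, ρ), F', ?_, h4, h5⟩
        simpa using h3
      · obtain ⟨ρ, F', h3, h4, h5⟩ := axis_last hF2 hW2 h
        refine mem_iUnion.2 ⟨(false, ρ), F', ?_, h4, h5⟩
        simpa using h3)
  refine ⟨if b then F1 2 else m1, ρ.trans σ1, P4, hP4, fun x hx => hP3P (hP4s hx).1, ?_, ?_⟩
  · intro x hx
    obtain ⟨F, h1, h2, h3⟩ := (hP4s hx).2
    exact ⟨F, h1, h2, h3⟩
  · intro x hx v hvT hxv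
    by_contra hcon
    push Not at hcon
    have hxP3 := (hP4s hx).1
    have hxP2 := (hP3s hxP3).1
    have hxu := hP2u x hxP2
    obtain ⟨y, hy, hyx, hyx'⟩ := hP4.other x
    have hyP2 := (hP3s (hP4s hy).1).1
    obtain ⟨p, q, hpq⟩ := hcon y hy
    have hq0 : q ≠ 0 := by
      intro h
      rw [h, zero_smul, add_zero] at hpq
      have h1 : |p| = 1 := by
        have := congrArg norm hpq
        rw [norm_smul, hxu, hP2u y hyP2, mul_one, Real.norm_eq_abs] at this
        exact this.symm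
      rcases (abs_eq (by norm_num)).1 h1 with h2 | h2
      · rw [h2, one_smul] at hpq
        exact hyx hpq
      · rw [h2, neg_smul, one_smul] at hpq
        exact hyx' hpq
    have hvn : ∀ n : E, inner ℝ x n = 0 → inner ℝ y n = 0 → inner ℝ v n = 0 := by
      intro n h1 h2
      rw [hpq, inner_add_left, real_inner_smul_left, real_inner_smul_left, h1, mul_zero,
        zero_add] at h2
      exact (mul_eq_zero.1 h2).resolve_left hq0
    have hv1 := hvn n1 (hpl x hxP2).1 (hpl y hyP2).1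
    have hv2 := hvn n2 (hpl x hxP2).2 (hpl y hyP2).2
    have hD : Fr x ![τ x, n1, n2] := by
      refine ⟨hxu, ?_, ?_, ?_⟩
      · intro i
        fin_cases i
        · exact hτu x hxP2
        · exact hn1
        · exact hn2
      · intro i
        fin_cases i
        · show inner ℝ x (τ x) = 0
          rw [real_inner_comm]; exact hτx x hxP2
        · exact (hpl x hxP2).1
        · exact (hpl x hxP2).2
      · have h1 : inner ℝ n1 (τ x) = 0 := by rw [real_inner_comm]; exact hτn1 x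
        have h2 : inner ℝ n2 (τ x) = 0 := by rw [real_inner_comm]; exact hτn2 x
        intro i j hij
        fin_cases i <;> fin_cases j <;> first
          | exact absurd rfl hij
          | exact hτn1 x
          | exact hτn2 x
          | exact hn
          | exact hn'
          | exact h1
          | exact h2
    have hvx : inner ℝ v x = 0 := by rw [real_inner_comm]; exact hxv
    have hve := hD.expand0 hE hvx
    rw [Fin.sum_univ_three] at hve
    simp only [Matrix.cons_val_zero, Matrix.cons_val_one, Matrix.cons_val] at hve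
    rw [hv1, hv2, zero_smul, zero_smul, add_zero, add_zero] at hve
    have hnT : τ x ∉ T := (hP3s hxP3).2
    rcases unit_line (hT1 v hvT) (hτu x hxP2) hve with h | h
    · exact hnT (h ▸ hvT)
    · exact hnT (h ▸ hTn v hvT)

/-- The spatial case. -/
theorem spatial_case (hE : finrank ℝ E = 4) {s : Finset ι} {V : ι → Set E} (hG : SymCov s V)
    {T : Set E} (hTc : IsClosed T) (hTd : IsTotallyDisconnected T)
    (hTn : ∀ v ∈ T, -v ∈ T) {P : Set E} (hP : Conti P) {e0 : Fin 4 → ι}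
    (hfr : ∀ σ : Equiv.Perm (Fin 4), ∀ x ∈ P, ∃ F, Fr x F ∧ Wad V (e0 ∘ σ) F)
    (hT : ∀ (σ : Equiv.Perm (Fin 4)) (F : Fin 3 → E), Wad V (e0 ∘ σ) F → ∀ i, F i ∈ T)
    (hA : ∀ (n1 n2 : E) (P2 : Set E), ‖n1‖ = 1 → ‖n2‖ = 1 → inner ℝ n1 n2 = 0 → Conti P2 →
      P2 ⊆ P → ¬ ∀ x ∈ P2, inner ℝ x n1 = 0 ∧ inner ℝ x n2 = 0) :
    ∃ (w : E) (σ : Equiv.Perm (Fin 4)) (P' : Set E), Conti P' ∧ P' ⊆ P ∧
      (∀ x ∈ P', ∃ F, F 2 = w ∧ Fr x F ∧ Wad V (e0 ∘ σ) F) ∧
      (∀ x ∈ P', ∀ v ∈ T, inner ℝ x v = 0 → ∃ y ∈ P', ∀ p q : ℝ, y ≠ p • x + q • v) := by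
  obtain ⟨x1, hx1, _⟩ := hP.nd
  obtain ⟨F1, hF1, hW1⟩ := hfr (Equiv.refl _) x1 hx1
  have cov : ∀ P2 : Set E, Conti P2 → P2 ⊆ P → ∀ x (F : Fin 3 → E), Fr x F →
      Wad V (e0 ∘ Equiv.refl _) F → ∃ i, ∃ P' ⊆ P2 ∩ {y : E | inner ℝ y (F i) = 0}, Conti P' := by
    intro P2 hP2 hP2P x F hF hW
    exact hP2.cover (fun i : Fin 3 => {y : E | inner ℝ y (F i) = 0})
      (fun i => isClosed_eq (by fun_prop) continuous_const) (by
      intro y hy
      obtain ⟨i, hi⟩ := prod_zero hE hG hTc hTd hP2 (fun z hz => hfr (Equiv.refl _) z (hP2P hz))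
        (fun F' hW' i => ⟨hT _ F' hW' i, hTn _ (hT _ F' hW' i)⟩) hF hW hy
      exact mem_iUnion.2 ⟨i, hi⟩)
  obtain ⟨i, P1, hP1s, hP1⟩ := cov P hP Subset.rfl x1 F1 hF1 hW1
  have hP1P : P1 ⊆ P := fun x hx => (hP1s hx).1
  set w := F1 i with hw
  have hwu : ‖w‖ = 1 := hF1.nF i
  have hww : inner ℝ w w = 1 := by rw [real_inner_self_eq_norm_sq, hwu, one_pow]
  obtain ⟨ρ, P2, hP2s, hP2⟩ := hP1.cover
    (fun k : Equiv.Perm (Fin 4) => {x : E | ∃ F ∈ {F : Fin 3 → E | F 2 = w}, Fr x F ∧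
      Wad V ((e0 ∘ Equiv.refl _) ∘ k) F})
    (fun k => wad_closed V _ (isClosed_eq (continuous_apply 2) continuous_const)) (by
      intro x hx
      obtain ⟨F, hF, hW⟩ := hfr (Equiv.refl _) x (hP1P hx)
      obtain ⟨j, P', hP's, hP'⟩ := cov P1 hP1 hP1P x F hF hW
      have hcase : w = F j ∨ w = -F j := by
        by_contra hcon
        set z := F j - inner ℝ (F j) w • w with hz
        have hz0 : z ≠ 0 := by
          intro h
          apply hcon
          exact unit_line (hF.nF j) hwu (sub_eq_zero.1 h)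
        have hzw : inner ℝ w z = 0 := by
          rw [hz, inner_sub_right, inner_smul_right, hww, real_inner_comm]
          ring
        refine hA w (‖z‖⁻¹ • z) P' hwu (norm_unit hz0) ?_ hP' (fun y hy => hP1P (hP's hy).1) ?_
        · rw [inner_smul_right, hzw, mul_zero]
        · intro y hy
          have h1 : inner ℝ y w = 0 := (hP1s (hP's hy).1).2
          have h2 : inner ℝ y (F j) = 0 := (hP's hy).2
          refine ⟨h1, ?_⟩
          rw [inner_smul_right, hz, inner_sub_right, inner_smul_right, h1, h2]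
          ring
      obtain ⟨ρ, F', h3, h4, h5⟩ := axis_last hF hW hcase
      exact mem_iUnion.2 ⟨ρ, F', h3, h4, h5⟩)
  refine ⟨w, ρ, P2, hP2, fun x hx => hP1P (hP2s hx).1, ?_, ?_⟩
  · intro x hx
    obtain ⟨F, h1, h2, h3⟩ := (hP2s hx).2
    exact ⟨F, h1, h2, h3⟩
  · intro x hx v hvT hxv
    by_contra hcon
    push Not at hcon
    obtain ⟨n1, hn1, hn1x, hn1v, _⟩ := exists_orth3 (by rw [hE]) x v v
    obtain ⟨n2, hn2, hn2x, hn2v, hn21⟩ := exists_orth3 (by rw [hE]) x v n1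
    refine hA n1 n2 P2 hn1 hn2 (by rw [real_inner_comm]; exact hn21) hP2
      (fun x hx => hP1P (hP2s hx).1) ?_
    intro y hy
    obtain ⟨p, q, hpq⟩ := hcon y hy
    rw [hpq, inner_add_left, real_inner_smul_left, real_inner_smul_left, inner_add_left,
      real_inner_smul_left, real_inner_smul_left, real_inner_comm n1 x, real_inner_comm n1 v,
      real_inner_comm n2 x, real_inner_comm n2 v, hn1x, hn1v, hn2x, hn2v]
    constructor <;> ring

/-- A subcontinuum on which all points have frames with a common last axis. -/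
theorem fixed_axis (hE : finrank ℝ E = 4) {s : Finset ι} {V : ι → Set E} (hG : SymCov s V)
    {T : Set E} (hTc : IsClosed T) (hTd : IsTotallyDisconnected T) (hT1 : ∀ v ∈ T, ‖v‖ = 1)
    (hTn : ∀ v ∈ T, -v ∈ T) {P : Set E} (hP : Conti P) {e0 : Fin 4 → ι}
    (hfr : ∀ σ : Equiv.Perm (Fin 4), ∀ x ∈ P, ∃ F, Fr x F ∧ Wad V (e0 ∘ σ) F)
    (hT : ∀ (σ : Equiv.Perm (Fin 4)) (F : Fin 3 → E), Wad V (e0 ∘ σ) F → ∀ i, F i ∈ T) :
    ∃ (w : E) (σ : Equiv.Perm (Fin 4)) (P' : Set E), Conti P' ∧ P' ⊆ P ∧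
      (∀ x ∈ P', ∃ F, F 2 = w ∧ Fr x F ∧ Wad V (e0 ∘ σ) F) ∧
      (∀ x ∈ P', ∀ v ∈ T, inner ℝ x v = 0 → ∃ y ∈ P', ∀ p q : ℝ, y ≠ p • x + q • v) := by
  by_cases hB : ∃ (n1 n2 : E) (P2 : Set E), ‖n1‖ = 1 ∧ ‖n2‖ = 1 ∧ inner ℝ n1 n2 = 0 ∧
      Conti P2 ∧ P2 ⊆ P ∧ ∀ x ∈ P2, inner ℝ x n1 = 0 ∧ inner ℝ x n2 = 0
  · obtain ⟨n1, n2, P2, h1, h2, h3, h4, h5, h6⟩ := hB
    exact planar_case hE hG hTc hTd hT1 hTn hfr hT h1 h2 h3 h4 h5 h6
  · push Not at hB
    refine spatial_case hE hG hTc hTd hTn hP hfr hT ?_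
    intro n1 n2 P2 h1 h2 h3 h4 h5 h6
    obtain ⟨x, hx, h7⟩ := hB n1 n2 P2 h1 h2 h3 h4 h5
    exact h7 (h6 x hx).1 (h6 x hx).2

end

end Pool.Agent.OrthoFan
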