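import Pool.Agent.H.MP_ef93d4_co.h56.Rigid

/-!
# Adapted frames at points of a continuum in three closures, dimension four
-/

namespace Pool.Agent.OrthoFan

open Set Filter Topology Module

variable {E : Type*} [NormedAddCommGroup E] [InnerProductSpace ℝ E] {ι : Type*}

/-- The sign of a Boolean. -/
noncomputable def sgn (b : Bool) : ℝ := if b then 1 else -1

@[simp] theorem sgn_true : sgn true = 1 := rfl
@[simp] theorem sgn_false : sgn false = -1 := by simp [sgn]

theorem sgn_sq (b : Bool) : sgn b * sgn b = 1 := by cases b <;> simp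

theorem sgn_ne (b : Bool) : sgn b ≠ 0 := by cases b <;> simp

theorem sgn_not (b : Bool) : sgn (!b) = -sgn b := by cases b <;> simp

theorem exists_sgn {y : ℝ} (hy : y ≠ 0) : ∃ b : Bool, 0 < sgn b * y := by
  rcases lt_or_gt_of_ne hy with h | h
  · exact ⟨false, by simp; exact h⟩
  · exact ⟨true, by simp; exact h⟩

/-- The octant pair of a sign pattern. -/
def idx (S : Fin 3 → Bool) : Fin 4 :=
  if S 0 = S 1 then (if S 1 = S 2 then 0 else 3) else (if S 1 = S 2 then 1 else 2)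

theorem idx_surj (i : Fin 3) (k : Fin 4) : ∃ S : Fin 3 → Bool, S i = true ∧ idx S = k := by
  revert i k
  decide

theorem oct_idx {S : Fin 3 → Bool} {Y : Fin 3 → ℝ} (h : ∀ i, 0 < sgn (S i) * Y i) {k : Fin 4}
    (hk : oct k (Y 0) (Y 1) (Y 2)) : k = idx S := by
  have h01 := mul_pos (h 0) (h 1)
  have h12 := mul_pos (h 1) (h 2)
  have h02 := mul_pos (h 0) (h 2)
  cases h0 : S 0 <;> cases h1 : S 1 <;> cases h2 : S 2 <;>
    simp only [h0, h1, h2, sgn_true, sgn_false, neg_mul, one_mul, mul_neg, neg_neg] at h01 h12 h02 <;>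
    fin_cases k <;> simp [idx, h0, h1, h2] <;>
    (obtain ⟨p, q, r⟩ := hk; linarith)

/-- An orthonormal frame of the hyperplane orthogonal to the unit vector `x`. -/
structure Fr (x : E) (F : Fin 3 → E) : Prop where
  nx : ‖x‖ = 1
  nF : ∀ i, ‖F i‖ = 1
  xF : ∀ i, inner ℝ x (F i) = 0
  FF : ∀ i j, i ≠ j → inner ℝ (F i) (F j) = 0

theorem Fr.xx {x : E} {F : Fin 3 → E} (h : Fr x F) : inner ℝ x x = 1 := by
  rw [real_inner_self_eq_norm_sq, h.nx, one_pow]

theorem Fr.Fi {x : E} {F : Fin 3 → E} (h : Fr x F) (i : Fin 3) : inner ℝ (F i) (F i) = 1 := by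
  rw [real_inner_self_eq_norm_sq, h.nF, one_pow]

theorem Fr.Fx {x : E} {F : Fin 3 → E} (h : Fr x F) (i : Fin 3) : inner ℝ (F i) x = 0 := by
  rw [real_inner_comm]; exact h.xF i

theorem Fr.li {x : E} {F : Fin 3 → E} (h : Fr x F) : Orthonormal ℝ ![x, F 0, F 1, F 2] := by
  constructor
  · intro i
    fin_cases i
    · exact h.nx
    · exact h.nF 0
    · exact h.nF 1
    · exact h.nF 2
  · intro i j hij
    fin_cases i <;> fin_cases j <;> first
      | exact absurd rfl hij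
      | exact h.xF _
      | exact h.Fx _
      | exact h.FF _ _ (by decide)

theorem Fr.expand [FiniteDimensional ℝ E] (hE : finrank ℝ E = 4) {x : E} {F : Fin 3 → E}
    (h : Fr x F) (y : E) : y = inner ℝ y x • x + ∑ i, inner ℝ y (F i) • F i := by
  have hcard : Fintype.card (Fin 4) = finrank ℝ E := by rw [hE, Fintype.card_fin]
  have hsp := h.li.linearIndependent.span_eq_top_of_card_eq_finrank' hcard
  let b := OrthonormalBasis.mk h.li hsp.ge
  have h1 := b.sum_repr' y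
  rw [Fin.sum_univ_four] at h1
  simp only [b, OrthonormalBasis.coe_mk, Matrix.cons_val_zero, Matrix.cons_val_one,
    Matrix.cons_val] at h1
  rw [Fin.sum_univ_three, real_inner_comm x y, real_inner_comm (F 0) y, real_inner_comm (F 1) y,
    real_inner_comm (F 2) y]
  nth_rewrite 1 [← h1]
  abel

theorem Fr.expand0 [FiniteDimensional ℝ E] (hE : finrank ℝ E = 4) {x : E} {F : Fin 3 → E}
    (h : Fr x F) {y : E} (hy : inner ℝ y x = 0) : y = ∑ i, inner ℝ y (F i) • F i := by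
  have := h.expand hE y
  rw [hy, zero_smul, zero_add] at this
  exact this

theorem Fr.inner_sum {x : E} {F : Fin 3 → E} (h : Fr x F) (Y Z : Fin 3 → ℝ) :
    inner ℝ (∑ i, Y i • F i) (∑ i, Z i • F i) = ∑ i, Y i * Z i := by
  rw [Fin.sum_univ_three, Fin.sum_univ_three, Fin.sum_univ_three]
  simp only [inner_add_left, inner_add_right, real_inner_smul_left, inner_smul_right, h.Fi,
    h.FF 0 1 (by decide), h.FF 0 2 (by decide), h.FF 1 2 (by decide), h.FF 1 0 (by decide),
    h.FF 2 0 (by decide), h.FF 2 1 (by decide)]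
  ring

theorem Fr.norm_sum {x : E} {F : Fin 3 → E} (h : Fr x F) (Y : Fin 3 → ℝ) :
    ‖∑ i, Y i • F i‖ ^ 2 = ∑ i, Y i ^ 2 := by
  rw [← real_inner_self_eq_norm_sq, h.inner_sum]
  simp only [sq]

theorem Fr.norm_one {x : E} {F : Fin 3 → E} (h : Fr x F) {Y : Fin 3 → ℝ}
    (hY : ∑ i, Y i ^ 2 = 1) : ‖∑ i, Y i • F i‖ = 1 := by
  have h1 := h.norm_sum Y
  rw [hY] at h1
  have h2 := norm_nonneg (∑ i, Y i • F i)
  nlinarith

theorem Fr.coord {x : E} {F : Fin 3 → E} (h : Fr x F) (Y : Fin 3 → ℝ) (j : Fin 3) :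
    inner ℝ (∑ i, Y i • F i) (F j) = Y j := by
  rw [Fin.sum_univ_three]
  simp only [inner_add_left, real_inner_smul_left]
  fin_cases j
  · show Y 0 * inner ℝ (F 0) (F 0) + Y 1 * inner ℝ (F 1) (F 0) + Y 2 * inner ℝ (F 2) (F 0) = Y 0
    rw [h.Fi, h.FF 1 0 (by decide), h.FF 2 0 (by decide)]
    ring
  · show Y 0 * inner ℝ (F 0) (F 1) + Y 1 * inner ℝ (F 1) (F 1) + Y 2 * inner ℝ (F 2) (F 1) = Y 1
    rw [h.Fi, h.FF 0 1 (by decide), h.FF 2 1 (by decide)]
    ring
  · show Y 0 * inner ℝ (F 0) (F 2) + Y 1 * inner ℝ (F 1) (F 2) + Y 2 * inner ℝ (F 2) (F 2) = Y 2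
    rw [h.Fi, h.FF 0 2 (by decide), h.FF 1 2 (by decide)]
    ring

theorem Fr.x_sum {x : E} {F : Fin 3 → E} (h : Fr x F) (Y : Fin 3 → ℝ) :
    inner ℝ x (∑ i, Y i • F i) = 0 := by
  rw [Fin.sum_univ_three]
  simp only [inner_add_right, inner_smul_right, h.xF]
  ring

/-- Weakly adapted frames: closed octants lie in the closures. -/
def Wad (V : ι → Set E) (e : Fin 4 → ι) (F : Fin 3 → E) : Prop :=
  ∀ (S : Fin 3 → Bool) (Y : Fin 3 → ℝ), (∀ i, 0 ≤ sgn (S i) * Y i) → ∑ i, Y i ^ 2 = 1 →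
    ∑ i, Y i • F i ∈ Bs V (e (idx S))

theorem Wad.axis {V : ι → Set E} {e : Fin 4 → ι} {F : Fin 3 → E} (h : Wad V e F) (i : Fin 3)
    (k : Fin 4) : F i ∈ Bs V (e k) := by
  obtain ⟨S, hS, hk⟩ := idx_surj i k
  have := h S (fun j => if j = i then 1 else 0) (by
    intro j
    by_cases hj : j = i
    · rw [hj, hS]
      simp
    · simp [hj]) (by
    simp)
  rw [hk] at this
  simpa using this

/-- In a weakly adapted frame all vectors of a closed cone normalise to the closure. -/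
theorem Wad.cone {V : ι → Set E} {e : Fin 4 → ι} {x : E} {F : Fin 3 → E} (hF : Fr x F)
    (h : Wad V e F) {S : Fin 3 → Bool} {Y : Fin 3 → ℝ} (hY : ∀ i, 0 ≤ sgn (S i) * Y i)
    (h0 : ∑ i, Y i • F i ≠ 0) :
    ‖∑ i, Y i • F i‖⁻¹ • ∑ i, Y i • F i ∈ Bs V (e (idx S)) := by
  set r := ‖∑ i, Y i • F i‖⁻¹ with hr
  have hr0 : 0 < r := inv_pos.2 (norm_pos_iff.2 h0)
  have h1 := h S (fun i => r * Y i) (by
    intro i
    have : sgn (S i) * (r * Y i) = r * (sgn (S i) * Y i) := by ring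
    rw [this]
    exact mul_nonneg hr0.le (hY i)) (by
    have h2 : ∑ i, (r * Y i) ^ 2 = r ^ 2 * ∑ i, Y i ^ 2 := by
      rw [Finset.mul_sum]
      exact Finset.sum_congr rfl (fun i _ => by ring)
    have h3 : 0 < ‖∑ i, Y i • F i‖ := norm_pos_iff.2 h0
    rw [h2, ← hF.norm_sum, hr, ← mul_pow, inv_mul_cancel₀ h3.ne', one_pow])
  have h2 : ∑ i, (r * Y i) • F i = r • ∑ i, Y i • F i := by
    rw [Finset.smul_sum]
    exact Finset.sum_congr rfl (fun i _ => by rw [mul_smul])
  rw [h2] at h1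
  exact h1

section

variable [FiniteDimensional ℝ E]

theorem onto_of_card {t : Finset ι} (ht : t.card = 4) {e : Fin 4 → ι}
    (he : Function.Injective e) (hes : ∀ i, e i ∈ t) {j : ι} (hj : j ∈ t) : ∃ k, e k = j := by
  classical
  have hcard : Fintype.card t = Fintype.card (Fin 4) := by simp [ht]
  have b1 : Function.Bijective (fun i : Fin 4 => (⟨e i, hes i⟩ : t)) := by
    rw [Fintype.bijective_iff_injective_and_card]
    exact ⟨fun x y hxy => he (congrArg Subtype.val hxy), hcard.symm⟩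
  obtain ⟨k, hk⟩ := b1.2 ⟨j, hj⟩
  exact ⟨k, congrArg Subtype.val hk⟩

/-- Rigidity on the great sphere orthogonal to a nonfacial point. -/
theorem exists_adp [DecidableEq ι] (hE : finrank ℝ E = 4) {s : Finset ι} {V : ι → Set E} (hG : SymCov s V)
    {t : Finset ι} (hst : (s \ t).card = 4) {e : Fin 4 → ι} (he : Function.Injective e)
    (hes : ∀ i, e i ∈ s \ t) {x : E} (hx : ‖x‖ = 1) (hn : Nonfac s V x)
    (hxt : ∀ i ∈ t, x ∈ Bs V i) :
    ∃ F : Fin 3 → E, Fr x F ∧ Adp V e {u | inner ℝ x u = 0} (F 0) (F 1) (F 2) := by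
  have hx0 : x ≠ 0 := by
    intro h
    rw [h, norm_zero] at hx
    norm_num at hx
  have hfr : finrank ℝ (ℝ ∙ x)ᗮ = 3 := by
    have h1 := Submodule.finrank_add_finrank_orthogonal (ℝ ∙ x)
    rw [finrank_span_singleton hx0, hE] at h1
    omega
  have hxy : ∀ y : (ℝ ∙ x)ᗮ, inner ℝ x (y : E) = 0 := by
    intro y
    have := y.2
    rw [Submodule.mem_orthogonal_singleton_iff_inner_right] at this
    exact this
  have hS : SymCov (s \ t) (fun i => ((↑) : (ℝ ∙ x)ᗮ → E) ⁻¹' V i) := by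
    refine ⟨⟨fun i => (hG.op i).preimage continuous_subtype_val,
      fun i y hy z hz hy1 hz1 => hG.orth i _ hy _ hz hy1 hz1, ?_⟩, ?_, ?_⟩
    · intro O hO hex
      obtain ⟨O', hO', rfl⟩ := isOpen_induced_iff.1 hO
      obtain ⟨y, hyO, hy1⟩ := hex
      obtain ⟨z, hzO, hz1, hxz, i, hi, hzi⟩ := hn O' hO' ⟨y, hyO, hy1, hxy y⟩
      have hzmem : z ∈ (ℝ ∙ x)ᗮ := by
        rw [Submodule.mem_orthogonal_singleton_iff_inner_right]
        exact hxz
      refine ⟨⟨z, hzmem⟩, hzO, hz1, i, ?_, hzi⟩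
      rw [Finset.mem_sdiff]
      exact ⟨hi, fun hit => hG.toGoodCov.orthB (hxt i hit) hzi hz1 hxz⟩
    · intro i y hy
      exact hG.sym i _ hy
    · intro i hi j hj hij y hy h1 h2
      exact hG.disj i (Finset.mem_sdiff.1 hi).1 j (Finset.mem_sdiff.1 hj).1 hij _ hy h1 h2
  obtain ⟨a, b, c, hF, hA⟩ := rigid hfr hst hS he hes
  refine ⟨![(a : E), b, c], ⟨hx, ?_, ?_, ?_⟩, ?_⟩
  · intro i
    fin_cases i
    · exact hF.na
    · exact hF.nb
    · exact hF.nc
  · intro i
    fin_cases i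
    · exact hxy a
    · exact hxy b
    · exact hxy c
  · have h1 : inner ℝ (a : E) (b : E) = 0 := hF.ab
    have h2 : inner ℝ (b : E) (c : E) = 0 := hF.bc
    have h3 : inner ℝ (a : E) (c : E) = 0 := hF.ac
    have h1' : inner ℝ (b : E) (a : E) = 0 := by rw [real_inner_comm]; exact h1
    have h2' : inner ℝ (c : E) (b : E) = 0 := by rw [real_inner_comm]; exact h2
    have h3' : inner ℝ (c : E) (a : E) = 0 := by rw [real_inner_comm]; exact h3
    intro i j hij
    fin_cases i <;> fin_cases j <;> first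
      | exact absurd rfl hij
      | exact h1
      | exact h2
      | exact h3
      | exact h1'
      | exact h2'
      | exact h3'
  · intro i u hu hu1 huV
    have hmem : u ∈ (ℝ ∙ x)ᗮ := by
      rw [Submodule.mem_orthogonal_singleton_iff_inner_right]
      exact hu
    exact hA i ⟨u, hmem⟩ (mem_univ _) hu1 huV

theorem wad_of_adp [DecidableEq ι] (hE : finrank ℝ E = 4) {s : Finset ι} {V : ι → Set E}
    (hG : SymCov s V) {t : Finset ι} (hst : (s \ t).card = 4) {e : Fin 4 → ι}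
    (he : Function.Injective e) (hes : ∀ i, e i ∈ s \ t) {x : E} (hn : Nonfac s V x)
    (hxt : ∀ i ∈ t, x ∈ Bs V i) {F : Fin 3 → E} (hF : Fr x F)
    (hA : Adp V e {u | inner ℝ x u = 0} (F 0) (F 1) (F 2)) : Wad V e F := by
  have strict : ∀ (S : Fin 3 → Bool) (Y : Fin 3 → ℝ), (∀ i, 0 < sgn (S i) * Y i) →
      ∑ i, Y i ^ 2 = 1 → ∑ i, Y i • F i ∈ Bs V (e (idx S)) := by
    intro S Y hY hY1
    unfold Bs
    rw [mem_closure_iff]
    intro O hO huO
    have hO2 : IsOpen (⋂ i : Fin 3, {v : E | 0 < sgn (S i) * inner ℝ v (F i)}) := by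
      refine isOpen_iInter_of_finite (fun i => ?_)
      exact isOpen_lt continuous_const (by fun_prop)
    obtain ⟨v, ⟨hvO, hv2⟩, hv1, hxv, j, hj, hvj⟩ := hn _ (hO.inter hO2) ⟨∑ i, Y i • F i,
      ⟨huO, mem_iInter.2 (fun i => by
        show 0 < sgn (S i) * inner ℝ (∑ i, Y i • F i) (F i)
        rw [hF.coord]
        exact hY i)⟩, hF.norm_one hY1, hF.x_sum Y⟩
    have hjt : j ∈ s \ t := by
      rw [Finset.mem_sdiff]
      exact ⟨hj, fun hjt => hG.toGoodCov.orthB (hxt j hjt) hvj hv1 hxv⟩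
    obtain ⟨k, rfl⟩ := onto_of_card hst he hes hjt
    have hk := hA k v hxv hv1 hvj
    have hkS := oct_idx (S := S) (Y := fun i => inner ℝ v (F i)) (fun i => mem_iInter.1 hv2 i) hk
    rw [← hkS]
    exact ⟨v, hvO, hv1, Or.inl hvj⟩
  intro S Y hY hY1
  have hcont : Continuous (fun ε : ℝ => ∑ i, (Y i + ε * sgn (S i)) • F i) := by fun_prop
  have hn1 : ‖∑ i, Y i • F i‖ = 1 := hF.norm_one hY1
  have ht : Tendsto (fun ε : ℝ => ‖∑ i, (Y i + ε * sgn (S i)) • F i‖⁻¹ •
      ∑ i, (Y i + ε * sgn (S i)) • F i) (𝓝[>] 0) (𝓝 (∑ i, Y i • F i)) := by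
    have h1 := hcont.tendsto 0
    simp only [zero_mul, add_zero] at h1
    have h2 : Tendsto (fun ε : ℝ => ‖∑ i, (Y i + ε * sgn (S i)) • F i‖⁻¹) (𝓝 0) (𝓝 1) := by
      have h3 := (h1.norm).inv₀ (by rw [hn1]; norm_num)
      rw [hn1, inv_one] at h3
      exact h3
    have h3 := h2.smul h1
    rw [one_smul] at h3
    exact h3.mono_left nhdsWithin_le_nhds
  refine (Bs_closed V (e (idx S))).mem_of_tendsto ht ?_
  filter_upwards [self_mem_nhdsWithin] with ε hε
  have hε0 : 0 < ε := hε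
  have hpos : ∀ i, 0 < sgn (S i) * (Y i + ε * sgn (S i)) := by
    intro i
    have : sgn (S i) * (Y i + ε * sgn (S i)) = sgn (S i) * Y i + ε * (sgn (S i) * sgn (S i)) := by
      ring
    rw [this, sgn_sq]
    have := hY i
    linarith
  have hne : ∑ i, (Y i + ε * sgn (S i)) • F i ≠ 0 := by
    intro h
    have h1 := hF.coord (fun i => Y i + ε * sgn (S i)) 0
    rw [h, inner_zero_left] at h1
    have h2 := hpos 0
    rw [← h1, mul_zero] at h2
    exact lt_irrefl _ h2
  set r := ‖∑ i, (Y i + ε * sgn (S i)) • F i‖⁻¹ with hr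
  have hr0 : 0 < r := inv_pos.2 (norm_pos_iff.2 hne)
  have h1 := strict S (fun i => r * (Y i + ε * sgn (S i))) (by
    intro i
    have : sgn (S i) * (r * (Y i + ε * sgn (S i))) = r * (sgn (S i) * (Y i + ε * sgn (S i))) := by
      ring
    rw [this]
    exact mul_pos hr0 (hpos i)) (by
    have h2 : ∑ i, (r * (Y i + ε * sgn (S i))) ^ 2 = r ^ 2 * ∑ i, (Y i + ε * sgn (S i)) ^ 2 := by
      rw [Finset.mul_sum]
      exact Finset.sum_congr rfl (fun i _ => by ring)
    have h3 : 0 < ‖∑ i, (Y i + ε * sgn (S i)) • F i‖ := norm_pos_iff.2 hne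
    rw [h2, ← hF.norm_sum, hr, ← mul_pow, inv_mul_cancel₀ h3.ne', one_pow])
  have h2 : ∑ i, (r * (Y i + ε * sgn (S i))) • F i = r • ∑ i, (Y i + ε * sgn (S i)) • F i := by
    rw [Finset.smul_sum]
    exact Finset.sum_congr rfl (fun i _ => by rw [mul_smul])
  rw [h2] at h1
  exact h1

/-- The points with a weakly adapted frame in a closed set of frames form a closed set. -/
theorem wad_closed (V : ι → Set E) (e : Fin 4 → ι) {C : Set (Fin 3 → E)} (hC : IsClosed C) :
    IsClosed {x : E | ∃ F ∈ C, Fr x F ∧ Wad V e F} := by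
  have hK : IsCompact {p : E × (Fin 3 → E) | p.2 ∈ C ∧ Fr p.1 p.2 ∧ Wad V e p.2} := by
    have hcl : IsClosed {p : E × (Fin 3 → E) | p.2 ∈ C ∧ Fr p.1 p.2 ∧ Wad V e p.2} := by
      have h1 : IsClosed {p : E × (Fin 3 → E) | p.2 ∈ C} := hC.preimage continuous_snd
      have h2 : IsClosed {p : E × (Fin 3 → E) | Fr p.1 p.2} := by
        have : {p : E × (Fin 3 → E) | Fr p.1 p.2} = {p | ‖p.1‖ = 1} ∩
            ((⋂ i, {p | ‖p.2 i‖ = 1}) ∩ ((⋂ i, {p | inner ℝ p.1 (p.2 i) = 0}) ∩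
              ⋂ i, ⋂ j, ⋂ (_ : i ≠ j), {p | inner ℝ (p.2 i) (p.2 j) = 0})) := by
          ext p
          simp only [mem_inter_iff, mem_iInter]
          constructor
          · intro h
            exact ⟨h.nx, h.nF, h.xF, h.FF⟩
          · rintro ⟨h1, h2, h3, h4⟩
            exact ⟨h1, h2, h3, h4⟩
        rw [this]
        refine IsClosed.inter ?_ (IsClosed.inter ?_ (IsClosed.inter ?_ ?_))
        · exact isClosed_eq (by fun_prop) continuous_const
        · exact isClosed_iInter (fun i => isClosed_eq (by fun_prop) continuous_const)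
        · exact isClosed_iInter (fun i => isClosed_eq (by fun_prop) continuous_const)
        · exact isClosed_iInter (fun i => isClosed_iInter (fun j => isClosed_iInter (fun _ =>
            isClosed_eq (by fun_prop) continuous_const)))
      have h3 : IsClosed {p : E × (Fin 3 → E) | Wad V e p.2} := by
        have : {p : E × (Fin 3 → E) | Wad V e p.2} = ⋂ (S : Fin 3 → Bool), ⋂ (Y : Fin 3 → ℝ),
            ⋂ (_ : ∀ i, 0 ≤ sgn (S i) * Y i), ⋂ (_ : ∑ i, Y i ^ 2 = 1),
              (fun p : E × (Fin 3 → E) => ∑ i, Y i • p.2 i) ⁻¹' Bs V (e (idx S)) := by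
          ext p
          simp only [mem_iInter]
          exact Iff.rfl
        rw [this]
        exact isClosed_iInter (fun S => isClosed_iInter (fun Y => isClosed_iInter (fun _ =>
          isClosed_iInter (fun _ => (Bs_closed V _).preimage (by fun_prop)))))
      exact h1.inter (h2.inter h3)
    refine Metric.isCompact_of_isClosed_isBounded hcl ?_
    refine (Metric.isBounded_closedBall (x := (0 : E × (Fin 3 → E))) (r := 1)).subset ?_
    rintro ⟨x, F⟩ ⟨_, hF, _⟩
    rw [mem_closedBall_zero_iff]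
    rw [Prod.norm_def]
    refine max_le hF.nx.le ?_
    rw [pi_norm_le_iff_of_nonneg (by norm_num)]
    intro i
    exact (hF.nF i).le
  have himg := hK.image continuous_fst
  have : {x : E | ∃ F ∈ C, Fr x F ∧ Wad V e F} =
      Prod.fst '' {p : E × (Fin 3 → E) | p.2 ∈ C ∧ Fr p.1 p.2 ∧ Wad V e p.2} := by
    ext x
    constructor
    · rintro ⟨F, h1, h2, h3⟩
      exact ⟨(x, F), ⟨h1, h2, h3⟩, rfl⟩
    · rintro ⟨⟨y, F⟩, ⟨h1, h2, h3⟩, rfl⟩
      exact ⟨F, h1, h2, h3⟩
  rw [this]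
  exact himg.isClosed

/-- All points of a continuum in three closures have weakly adapted frames. -/
theorem wad_all [DecidableEq ι] (hE : finrank ℝ E = 4) {s : Finset ι} {V : ι → Set E}
    (hG : SymCov s V) {t : Finset ι} (hst : (s \ t).card = 4) {P : Set E} (hP : Conti P)
    (hP1 : ∀ x ∈ P, ‖x‖ = 1) (hPt : ∀ i ∈ t, P ⊆ Bs V i) {e : Fin 4 → ι}
    (he : Function.Injective e) (hes : ∀ i, e i ∈ s \ t) {x : E} (hx : x ∈ P) :
    ∃ F : Fin 3 → E, Fr x F ∧ Wad V e F := by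
  have h := hP.of_nonfac hG.toGoodCov hP1 (wad_closed V e isClosed_univ) (by
    intro y hy hyn
    obtain ⟨F, hF, hA⟩ := exists_adp hE hG hst he hes (hP1 y hy) hyn (fun i hi => hPt i hi hy)
    exact ⟨F, mem_univ _, hF, wad_of_adp hE hG hst he hes hyn (fun i hi => hPt i hi hy) hF hA⟩)
  obtain ⟨F, _, hF, hW⟩ := h hx
  exact ⟨F, hF, hW⟩

end

end Pool.Agent.OrthoFan
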