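import Pool.Agent.H.MP_ef93d4_co.h56.LemT

/-!
# No open colouring of the three-dimensional sphere with seven colours
-/

namespace Pool.Agent.OrthoFan

open Set Filter Topology Module

variable {E : Type*} [NormedAddCommGroup E] [InnerProductSpace ℝ E] {ι : Type*}

/-- A nondegenerate continuum has an obtuse angle. -/
theorem no_acute [FiniteDimensional ℝ E] {P : Set E} (hP : Conti P)
    (h : ∀ x ∈ P, ∀ y ∈ P, ∀ z ∈ P, 0 ≤ inner ℝ (y - x) (z - x)) : False := by
  obtain ⟨p, hp, p', hp', hpp⟩ := hP.nd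
  have hacc : AccPt p (𝓟 P) := hP.pre.preperfect_of_nontrivial ⟨p, hp, p', hp', hpp⟩ p hp
  have hne : NeBot (𝓝[≠] p ⊓ 𝓟 P) := hacc
  set f : E → E := fun x => ‖x - p‖⁻¹ • (x - p) with hf
  have hev0 : ∀ᶠ x in 𝓝[≠] p ⊓ 𝓟 P, x ∈ P ∧ x ≠ p := by
    have h1 : ∀ᶠ x in 𝓝[≠] p ⊓ 𝓟 P, x ∈ P := mem_inf_of_right (mem_principal_self P)
    have h2 : ∀ᶠ x in 𝓝[≠] p ⊓ 𝓟 P, x ≠ p := mem_inf_of_left self_mem_nhdsWithin
    exact h1.and h2
  have hsph : ∀ᶠ x in 𝓝[≠] p ⊓ 𝓟 P, f x ∈ Metric.sphere (0 : E) 1 := by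
    filter_upwards [hev0] with x hx
    rw [mem_sphere_zero_iff_norm]
    exact norm_unit (sub_ne_zero.2 hx.2)
  obtain ⟨v, hv, hcl⟩ := (isCompact_sphere (0 : E) 1).exists_mapClusterPt_of_frequently
    (l := 𝓝[≠] p ⊓ 𝓟 P) (f := f) hsph.frequently
  rw [mapClusterPt_iff_frequently] at hcl
  have hfr := hcl (Metric.ball v (1 / 4)) (Metric.ball_mem_nhds v (by norm_num))
  obtain ⟨x, hxb, hxP, hxp⟩ := (hfr.and_eventually hev0).exists
  have hd : 0 < ‖x - p‖ := norm_pos_iff.2 (sub_ne_zero.2 hxp)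
  have hsmall : ∀ᶠ z in 𝓝[≠] p ⊓ 𝓟 P, dist z p < ‖x - p‖ / 2 := by
    have h1 : ∀ᶠ z in 𝓝 p, dist z p < ‖x - p‖ / 2 := Metric.ball_mem_nhds p (by positivity)
    exact (h1.filter_mono nhdsWithin_le_nhds).filter_mono inf_le_left
  obtain ⟨z, hzb, ⟨hzP, hzp⟩, hzd⟩ := (hfr.and_eventually (hev0.and hsmall)).exists
  have hd' : 0 < ‖z - p‖ := norm_pos_iff.2 (sub_ne_zero.2 hzp)
  rw [dist_eq_norm] at hzd
  have hcos : 7 / 8 ≤ inner ℝ (f x) (f z) := by
    have h1 : ‖f x - f z‖ < 1 / 2 := by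
      rw [Metric.mem_ball] at hxb hzb
      have h2 := dist_triangle_right (f x) (f z) v
      rw [dist_eq_norm] at h2
      linarith
    have h2 := norm_sub_sq_real (f x) (f z)
    have h3 : ‖f x‖ = 1 := norm_unit (sub_ne_zero.2 hxp)
    have h4 : ‖f z‖ = 1 := norm_unit (sub_ne_zero.2 hzp)
    rw [h3, h4] at h2
    have h5 := norm_nonneg (f x - f z)
    nlinarith
  have hxe : x - p = ‖x - p‖ • f x := by
    show x - p = ‖x - p‖ • (‖x - p‖⁻¹ • (x - p))
    rw [smul_smul, mul_inv_cancel₀ hd.ne', one_smul]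
  have hze : z - p = ‖z - p‖ • f z := by
    show z - p = ‖z - p‖ • (‖z - p‖⁻¹ • (z - p))
    rw [smul_smul, mul_inv_cancel₀ hd'.ne', one_smul]
  have h1 := h z hzP p hp x hxP
  have h2 : inner ℝ (p - z) (x - z) = ‖z - p‖ ^ 2 - inner ℝ (z - p) (x - p) := by
    have e1 : p - z = -(z - p) := by abel
    have e2 : x - z = (x - p) - (z - p) := by abel
    rw [e1, e2, inner_neg_left, inner_sub_right, real_inner_self_eq_norm_sq]
    ring
  have h3 : inner ℝ (z - p) (x - p) = ‖z - p‖ * ‖x - p‖ * inner ℝ (f x) (f z) := by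
    rw [hxe, hze, real_inner_smul_left, inner_smul_right, real_inner_comm (f x) (f z), ← hxe, ← hze]
    ring
  rw [h2, h3] at h1
  have h4 : ‖z - p‖ * ‖x - p‖ * (7 / 8) ≤ ‖z - p‖ * ‖x - p‖ * inner ℝ (f x) (f z) :=
    mul_le_mul_of_nonneg_left hcos (by positivity)
  nlinarith

/-- The directions whose quarter circle to `w` lies in the closure `B j`. -/
def Ar (V : ι → Set E) (w : E) (j : ι) : Set E :=
  {u | ∀ p q : ℝ, 0 ≤ p → 0 ≤ q → p ^ 2 + q ^ 2 = 1 → p • u + q • w ∈ Bs V j}

theorem Ar_closed (V : ι → Set E) (w : E) (j : ι) : IsClosed (Ar V w j) := by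
  have : Ar V w j = ⋂ (p : ℝ), ⋂ (q : ℝ), ⋂ (_ : 0 ≤ p), ⋂ (_ : 0 ≤ q),
      ⋂ (_ : p ^ 2 + q ^ 2 = 1), (fun u : E => p • u + q • w) ⁻¹' Bs V j := by
    ext u
    simp only [mem_iInter]
    exact Iff.rfl
  rw [this]
  exact isClosed_iInter (fun p => isClosed_iInter (fun q => isClosed_iInter (fun _ =>
    isClosed_iInter (fun _ => isClosed_iInter (fun _ => (Bs_closed V j).preimage
      (by fun_prop))))))

theorem Ar_Bs {V : ι → Set E} {w u : E} {j : ι} (h : u ∈ Ar V w j) : u ∈ Bs V j := by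
  have := h 1 0 (by norm_num) le_rfl (by norm_num)
  simpa using this

/-- `u` and `-u` cannot both be directions for `j`. -/
theorem Ar_neg {s : Finset ι} {V : ι → Set E} (hG : SymCov s V) {w u : E} {j : ι}
    (h : u ∈ Ar V w j) (h' : -u ∈ Ar V w j) : False := by
  -- a point of the open set
  have huB := Ar_Bs h
  obtain ⟨y, hyV, hy1⟩ : ∃ y, y ∈ V j ∧ ‖y‖ = 1 := by
    obtain ⟨y, _, hy1, hy⟩ := mem_closure_iff.1 huB univ isOpen_univ trivial
    rcases hy with hy | hy
    · exact ⟨y, hy, hy1⟩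
    · exact ⟨-y, hy, by rwa [norm_neg]⟩
  -- the whole circle
  have circ : ∀ p q : ℝ, p ^ 2 + q ^ 2 = 1 → p • u + q • w ∈ Bs V j := by
    intro p q hpq
    rcases le_total 0 p with hp | hp <;> rcases le_total 0 q with hq | hq
    · exact h p q hp hq hpq
    · have h1 := h' p (-q) hp (by linarith) (by rw [neg_sq]; exact hpq)
      have h2 := Bs_neg h1
      have e : -(p • -u + -q • w) = p • u + q • w := by module
      rw [e] at h2
      exact h2
    · have h1 := h' (-p) q (by linarith) hq (by rw [neg_sq]; exact hpq)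
      have e : -p • -u + q • w = p • u + q • w := by module
      rw [e] at h1
      exact h1
    · have h1 := h (-p) (-q) (by linarith) (by linarith) (by rw [neg_sq, neg_sq]; exact hpq)
      have h2 := Bs_neg h1
      have e : -(-p • u + -q • w) = p • u + q • w := by module
      rw [e] at h2
      exact h2
  set a := inner ℝ u y with ha
  set b := inner ℝ w y with hb
  by_cases h0 : a ^ 2 + b ^ 2 = 0
  · have ha0 : a = 0 := by nlinarith [sq_nonneg a, sq_nonneg b]
    exact hG.toGoodCov.orthB huB hyV hy1 ha0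
  · have hpos : 0 < a ^ 2 + b ^ 2 :=
      lt_of_le_of_ne (by positivity) (Ne.symm h0)
    set r := (Real.sqrt (a ^ 2 + b ^ 2))⁻¹ with hr
    have hr2 : r ^ 2 * (a ^ 2 + b ^ 2) = 1 := by
      rw [hr, inv_pow, Real.sq_sqrt hpos.le, inv_mul_cancel₀ hpos.ne']
    have h1 := circ (r * b) (-(r * a)) (by linarith)
    apply hG.toGoodCov.orthB h1 hyV hy1
    rw [inner_add_left, real_inner_smul_left, real_inner_smul_left, ← ha, ← hb]
    ring

/-- Near a direction for `j` there are directions that are for no other colour. -/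
theorem Ar_near {s : Finset ι} {V : ι → Set E} (hG : SymCov s V) {w u : E} (hw : ‖w‖ = 1)
    (hu : ‖u‖ = 1) (huw : inner ℝ u w = 0) {j : ι} (hj : j ∈ s) (h : u ∈ Ar V w j) {O : Set E}
    (hO : IsOpen O) (huO : u ∈ O) :
    ∃ v ∈ O, ‖v‖ = 1 ∧ inner ℝ v w = 0 ∧ ∀ l ∈ s, l ≠ j → v ∉ Ar V w l := by
  have hww : inner ℝ w w = 1 := by rw [real_inner_self_eq_norm_sq, hw, one_pow]
  set r := (Real.sqrt 2)⁻¹ with hr
  have hr0 : 0 < r := inv_pos.2 (Real.sqrt_pos.2 (by norm_num))
  have hr2 : r ^ 2 + r ^ 2 = 1 := by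
    rw [hr, inv_pow, Real.sq_sqrt (by norm_num)]
    norm_num
  have hy0 := h r r hr0.le hr0.le hr2
  -- the projection
  have hprc : Continuous (fun y : E => y - inner ℝ y w • w) := by fun_prop
  have hpr0 : (fun y : E => y - inner ℝ y w • w) (r • u + r • w) = r • u := by
    show r • u + r • w - inner ℝ (r • u + r • w) w • w = r • u
    rw [inner_add_left, real_inner_smul_left, real_inner_smul_left, huw, hww]
    module
  have hne0 : r • u ≠ 0 := by
    intro h0
    have := congrArg norm h0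
    rw [norm_smul, hu, norm_zero, Real.norm_eq_abs, mul_one, abs_eq_zero] at this
    exact hr0.ne' this
  have hcont : ContinuousAt (fun y : E => ‖y - inner ℝ y w • w‖⁻¹ • (y - inner ℝ y w • w))
      (r • u + r • w) := by
    refine ContinuousAt.smul (ContinuousAt.inv₀ (hprc.norm.continuousAt) ?_) hprc.continuousAt
    have h1 : ‖(fun y : E => y - inner ℝ y w • w) (r • u + r • w)‖ ≠ 0 := by
      rw [hpr0]
      exact norm_ne_zero_iff.2 hne0
    exact h1
  have hval : (fun y : E => ‖y - inner ℝ y w • w‖⁻¹ • (y - inner ℝ y w • w)) (r • u + r • w) = u := by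
    show ‖(fun y : E => y - inner ℝ y w • w) (r • u + r • w)‖⁻¹ •
      ((fun y : E => y - inner ℝ y w • w) (r • u + r • w)) = u
    rw [hpr0, norm_smul, hu, Real.norm_eq_abs, abs_of_pos hr0, mul_one, smul_smul,
      inv_mul_cancel₀ hr0.ne', one_smul]
  have hev1 : ∀ᶠ y in 𝓝 (r • u + r • w), ‖y - inner ℝ y w • w‖⁻¹ • (y - inner ℝ y w • w) ∈ O := by
    have := hcont.eventually (hO.mem_nhds (by rw [hval]; exact huO))
    exact this
  have hev2 : ∀ᶠ y in 𝓝 (r • u + r • w), 0 < inner ℝ y w := by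
    have hc : Continuous (fun y : E => inner ℝ y w) := by fun_prop
    refine (hc.tendsto _).eventually (lt_mem_nhds ?_)
    rw [inner_add_left, real_inner_smul_left, real_inner_smul_left, huw, hww]
    linarith
  have hev3 : ∀ᶠ y in 𝓝 (r • u + r • w), y - inner ℝ y w • w ≠ 0 := by
    have hpr0' : r • u + r • w - inner ℝ (r • u + r • w) w • w = r • u := hpr0
    have h1 := hprc.tendsto (r • u + r • w)
    rw [hpr0'] at h1
    exact h1.eventually_ne hne0
  have hfr : ∃ᶠ y in 𝓝 (r • u + r • w), ‖y‖ = 1 ∧ (y ∈ V j ∨ -y ∈ V j) :=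
    mem_closure_iff_frequently.1 hy0
  obtain ⟨y, ⟨hy1, hyV'⟩, hyO, hyw, hyne⟩ :=
    (hfr.and_eventually (hev1.and (hev2.and hev3))).exists
  have hyV : y ∈ V j := by
    rcases hyV' with h | h
    · exact h
    · have := hG.sym j _ h
      rwa [neg_neg] at this
  refine ⟨_, hyO, norm_unit hyne, ?_, ?_⟩
  · rw [real_inner_smul_left, inner_sub_left, real_inner_smul_left, hww]
    ring
  · intro l hl hlj hAr
    have hn : 0 < ‖y - inner ℝ y w • w‖ := norm_pos_iff.2 hyne
    have h1 := hAr ‖y - inner ℝ y w • w‖ (inner ℝ y w) hn.le hyw.le (by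
      rw [norm_sub_sq_real, inner_smul_right, norm_smul, hw, hy1, Real.norm_eq_abs, mul_one, sq_abs]
      ring)
    rw [smul_smul, mul_inv_cancel₀ hn.ne', one_smul, sub_add_cancel] at h1
    exact hG.not_Bs hj hl (Ne.symm hlj) hyV h1

theorem exists_sgn' (y : ℝ) : ∃ b : Bool, 0 ≤ sgn b * y := by
  rcases le_total 0 y with h | h
  · exact ⟨true, by simpa using h⟩
  · exact ⟨false, by simpa using h⟩

section

variable [FiniteDimensional ℝ E]

/-- The region in which the directions are pairwise separated. -/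
def Gr (P : Set E) : Set E :=
  {u | (∃ x ∈ P, ∃ x' ∈ P, inner ℝ u x < 0 ∧ 0 < inner ℝ u x') ∧
    ∃ x1 ∈ P, ∃ x2 ∈ P, (∀ a b : ℝ, a • x1 + b • x2 = 0 → a = 0 ∧ b = 0) ∧
      u ∉ Submodule.span ℝ ({x1, x2} : Set E)}

theorem Gr_open (P : Set E) : IsOpen (Gr P) := by
  have h1 : IsOpen {u : E | ∃ x ∈ P, ∃ x' ∈ P, inner ℝ u x < 0 ∧ 0 < inner ℝ u x'} := by
    have : {u : E | ∃ x ∈ P, ∃ x' ∈ P, inner ℝ u x < 0 ∧ 0 < inner ℝ u x'} =
        ⋃ x ∈ P, ⋃ x' ∈ P, ({u : E | inner ℝ u x < 0} ∩ {u : E | 0 < inner ℝ u x'}) := by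
      ext u
      simp only [mem_iUnion, exists_prop]
      exact Iff.rfl
    rw [this]
    exact isOpen_biUnion (fun x _ => isOpen_biUnion (fun x' _ =>
      (isOpen_lt (by fun_prop) continuous_const).inter
        (isOpen_lt continuous_const (by fun_prop))))
  have h2 : IsOpen {u : E | ∃ x1 ∈ P, ∃ x2 ∈ P, (∀ a b : ℝ, a • x1 + b • x2 = 0 →
      a = 0 ∧ b = 0) ∧ u ∉ Submodule.span ℝ ({x1, x2} : Set E)} := by
    have : {u : E | ∃ x1 ∈ P, ∃ x2 ∈ P, (∀ a b : ℝ, a • x1 + b • x2 = 0 →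
        a = 0 ∧ b = 0) ∧ u ∉ Submodule.span ℝ ({x1, x2} : Set E)} =
        ⋃ x1 ∈ P, ⋃ x2 ∈ P, ⋃ (_ : ∀ a b : ℝ, a • x1 + b • x2 = 0 → a = 0 ∧ b = 0),
          (Submodule.span ℝ ({x1, x2} : Set E) : Set E)ᶜ := by
      ext u
      simp only [mem_iUnion, exists_prop]
      exact Iff.rfl
    rw [this]
    exact isOpen_biUnion (fun x1 _ => isOpen_biUnion (fun x2 _ => isOpen_iUnion (fun _ =>
      (Submodule.closed_of_finiteDimensional _).isOpen_compl)))
  exact h1.inter h2

theorem Gr_neg {P : Set E} {u : E} (h : u ∈ Gr P) : -u ∈ Gr P := by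
  obtain ⟨⟨x, hx, x', hx', h1, h2⟩, x1, hx1, x2, hx2, h3, h4⟩ := h
  refine ⟨⟨x', hx', x, hx, ?_, ?_⟩, x1, hx1, x2, hx2, h3, ?_⟩
  · rw [inner_neg_left]
    linarith
  · rw [inner_neg_left]
    linarith
  · intro h5
    apply h4
    have := (Submodule.span ℝ ({x1, x2} : Set E)).neg_mem h5
    rwa [neg_neg] at this

/-- The final contradiction from a continuum with a fixed last axis. -/
theorem last_step [DecidableEq ι] (hE : finrank ℝ E = 4) {s : Finset ι} {V : ι → Set E}
    (hG : SymCov s V) (hs : s.card = 7) {t : Finset ι} (hts : t ⊆ s) (htc : t.card = 3)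
    {P : Set E} (hP : Conti P) (hPt : ∀ i ∈ t, P ⊆ Bs V i) {e : Fin 4 → ι}
    (he : Function.Injective e) (hes : ∀ i, e i ∈ s \ t) {w : E}
    (hfr : ∀ x ∈ P, ∃ F : Fin 3 → E, F 2 = w ∧ Fr x F ∧ Wad V e F) {T : Set E}
    (hT : ∀ F : Fin 3 → E, Wad V e F → ∀ i, F i ∈ T)
    (hNT : ∀ x ∈ P, ∀ v ∈ T, inner ℝ x v = 0 → ∃ y ∈ P, ∀ p q : ℝ, y ≠ p • x + q • v) : False := by
  obtain ⟨x0, hx0, _⟩ := hP.nd
  have hwu : ‖w‖ = 1 := by
    obtain ⟨F, h1, hF, _⟩ := hfr x0 hx0
    rw [← h1]
    exact hF.nF 2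
  have hww : inner ℝ w w = 1 := by rw [real_inner_self_eq_norm_sq, hwu, one_pow]
  have hw0 : w ≠ 0 := by
    intro h
    rw [h, norm_zero] at hwu
    norm_num at hwu
  have hst : (s \ t).card = 4 := by rw [Finset.card_sdiff_of_subset hts, hs, htc]
  -- the covering
  have cov : ∀ u : E, ‖u‖ = 1 → inner ℝ u w = 0 → u ∈ Gr P → ∃ j ∈ s \ t, u ∈ Ar V w j := by
    rintro u hu huw ⟨⟨x, hx, x', hx', h1, h2⟩, _⟩
    obtain ⟨y, hy, huy⟩ := pre_cross hP.pre hx hx' (mul_neg_of_neg_of_pos h1 h2)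
    obtain ⟨F, hF2, hF, hW⟩ := hfr y hy
    have hexp := hF.expand0 hE huy
    rw [Fin.sum_univ_three, hF2, huw, zero_smul, add_zero] at hexp
    have hpar := hF.parseval hE u
    rw [Fin.sum_univ_three, hF2, huw, huy, hu] at hpar
    obtain ⟨b0, hb0⟩ := exists_sgn' (inner ℝ u (F 0))
    obtain ⟨b1, hb1⟩ := exists_sgn' (inner ℝ u (F 1))
    refine ⟨e (idx ![b0, b1, true]), hes _, ?_⟩
    intro p q hp hq hpq
    have h3 := hW ![b0, b1, true] ![p * inner ℝ u (F 0), p * inner ℝ u (F 1), q] (by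
      intro i
      fin_cases i
      · show 0 ≤ sgn b0 * (p * inner ℝ u (F 0))
        have : sgn b0 * (p * inner ℝ u (F 0)) = p * (sgn b0 * inner ℝ u (F 0)) := by ring
        rw [this]
        exact mul_nonneg hp hb0
      · show 0 ≤ sgn b1 * (p * inner ℝ u (F 1))
        have : sgn b1 * (p * inner ℝ u (F 1)) = p * (sgn b1 * inner ℝ u (F 1)) := by ring
        rw [this]
        exact mul_nonneg hp hb1
      · show 0 ≤ sgn true * q
        simpa using hq) (by
      rw [Fin.sum_univ_three]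
      simp only [Matrix.cons_val_zero, Matrix.cons_val_one, Matrix.cons_val]
      have h4 : inner ℝ u (F 0) ^ 2 + inner ℝ u (F 1) ^ 2 = 1 := by linarith
      calc (p * inner ℝ u (F 0)) ^ 2 + (p * inner ℝ u (F 1)) ^ 2 + q ^ 2 =
          p ^ 2 * (inner ℝ u (F 0) ^ 2 + inner ℝ u (F 1) ^ 2) + q ^ 2 := by ring
        _ = 1 := by rw [h4, mul_one]; exact hpq)
    rw [Fin.sum_univ_three] at h3
    simp only [Matrix.cons_val_zero, Matrix.cons_val_one, Matrix.cons_val] at h3
    rw [hF2] at h3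
    have h4 : (p * inner ℝ u (F 0)) • F 0 + (p * inner ℝ u (F 1)) • F 1 + q • w =
        p • u + q • w := by
      nth_rewrite 3 [hexp]
      module
    rw [h4] at h3
    exact h3
  -- points in two direction sets are facial
  have fac : ∀ u : E, ‖u‖ = 1 → inner ℝ u w = 0 → u ∈ Gr P → ∀ j ∈ s \ t, ∀ l ∈ s \ t, j ≠ l →
      u ∈ Ar V w j → u ∈ Ar V w l → ∃ k, u ∈ Wk s V k := by
    intro u hu huw huG j hj l hl hjl huj hul
    obtain ⟨m, hm, hum⟩ := cov (-u) (by rwa [norm_neg]) (by rw [inner_neg_left, huw, neg_zero])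
      (Gr_neg huG)
    have hmj : m ≠ j := by
      rintro rfl
      exact Ar_neg hG huj hum
    have hml : m ≠ l := by
      rintro rfl
      exact Ar_neg hG hul hum
    obtain ⟨_, x1, hx1, x2, hx2, hind, hspan⟩ := huG
    refine fac_mem hu (fun hun => ?_)
    refine lemma_T hE hG hs hts htc hP.pre hPt hu hun (t' := {j, l, m}) ?_ ?_ ?_ hx1 hx2 ?_
    · intro i hi
      simp only [Finset.mem_insert, Finset.mem_singleton] at hi
      rcases hi with rfl | rfl | rfl
      · exact hj
      · exact hl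
      · exact hm
    · rw [Finset.card_insert_of_notMem, Finset.card_insert_of_notMem, Finset.card_singleton]
      · simp only [Finset.mem_singleton]
        exact hml.symm
      · simp only [Finset.mem_insert, Finset.mem_singleton]
        rintro (h | h)
        · exact hjl h
        · exact hmj h.symm
    · intro i hi
      simp only [Finset.mem_insert, Finset.mem_singleton] at hi
      rcases hi with rfl | rfl | rfl
      · exact Ar_Bs huj
      · exact Ar_Bs hul
      · have := Bs_neg (Ar_Bs hum)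
        rwa [neg_neg] at this
    · intro p q r hpqr
      by_cases hp : p = 0
      · rw [hp, zero_smul, zero_add] at hpqr
        obtain ⟨h1, h2⟩ := hind q r hpqr
        exact ⟨hp, h1, h2⟩
      · exfalso
        apply hspan
        rw [Submodule.mem_span_pair]
        refine ⟨-(q / p), -(r / p), ?_⟩
        have h1 : u = p⁻¹ • (p • u + q • x1 + r • x2) + (-(q / p)) • x1 + (-(r / p)) • x2 := by
          rw [smul_add, smul_add, smul_smul, smul_smul, smul_smul, inv_mul_cancel₀ hp, one_smul,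
            div_eq_inv_mul, div_eq_inv_mul]
          module
        rw [hpqr, smul_zero, zero_add] at h1
        exact h1.symm
  -- the hyperplane orthogonal to `w`
  have hH3 : finrank ℝ (ℝ ∙ w)ᗮ = 3 := by
    have h1 := Submodule.finrank_add_finrank_orthogonal (ℝ ∙ w)
    rw [finrank_span_singleton hw0, hE] at h1
    omega
  have hmemH : ∀ y : E, y ∈ (ℝ ∙ w)ᗮ ↔ inner ℝ y w = 0 := by
    intro y
    rw [Submodule.mem_orthogonal_singleton_iff_inner_right, real_inner_comm]
  -- separation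
  have sep : ∀ u : E, ‖u‖ = 1 → inner ℝ u w = 0 → u ∈ Gr P → ∀ j ∈ s \ t, ∀ l ∈ s \ t, j ≠ l →
      u ∈ Ar V w j → u ∈ Ar V w l → False := by
    intro u hu huw huG j hj l hl hjl huj hul
    set A : Set (ℝ ∙ w)ᗮ := ((↑) : (ℝ ∙ w)ᗮ → E) ⁻¹' Ar V w j with hA
    set B : Set (ℝ ∙ w)ᗮ := ⋃ i ∈ ((s \ t).erase j : Set ι), ((↑) : (ℝ ∙ w)ᗮ → E) ⁻¹' Ar V w i
      with hB
    have memB : ∀ v : (ℝ ∙ w)ᗮ, v ∈ B ↔ ∃ i ∈ s \ t, i ≠ j ∧ (v : E) ∈ Ar V w i := by
      intro v
      rw [hB]
      simp only [mem_iUnion, Finset.mem_coe, Finset.mem_erase, mem_preimage, exists_prop]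
      constructor
      · rintro ⟨i, ⟨h1, h2⟩, h3⟩
        exact ⟨i, h2, h1, h3⟩
      · rintro ⟨i, h2, h1, h3⟩
        exact ⟨i, ⟨h1, h2⟩, h3⟩
    have near : ∀ v : (ℝ ∙ w)ᗮ, ‖v‖ = 1 → ∀ i ∈ s \ t, (v : E) ∈ Ar V w i →
        v ∈ closure {z : (ℝ ∙ w)ᗮ | ‖z‖ = 1 ∧ ∀ l ∈ s, l ≠ i → (z : E) ∉ Ar V w l} := by
      intro v hv i hi hvi
      rw [mem_closure_iff]
      intro O hO hvO
      obtain ⟨O', hO', rfl⟩ := isOpen_induced_iff.1 hO
      obtain ⟨z, hzO, hz1, hzw, hz⟩ := Ar_near hG hwu hv ((hmemH v).1 v.2)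
        (Finset.mem_sdiff.1 hi).1 hvi hO' hvO
      exact ⟨⟨z, (hmemH z).2 hzw⟩, hzO, hz1, hz⟩
    have hcr := crossing (by rw [hH3]) (fun k => ((↑) : (ℝ ∙ w)ᗮ → E) ⁻¹' Wk s V k)
      (fun k => (Wk_closed hG.toGoodCov k).preimage continuous_subtype_val)
      (fun k => (Wset_swept (Zs_thin hG.toGoodCov) _ (by positivity)).restrict _)
      (G := ((↑) : (ℝ ∙ w)ᗮ → E) ⁻¹' Gr P) (A := A) (B := B)
      ((Gr_open P).preimage continuous_subtype_val)
      ((Ar_closed V w j).preimage continuous_subtype_val)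
      ((Finset.finite_toSet _).isClosed_biUnion
        (fun i _ => (Ar_closed V w i).preimage continuous_subtype_val))
      (by
        intro v hvG hv
        obtain ⟨i, hi, hvi⟩ := cov v hv ((hmemH v).1 v.2) hvG
        by_cases hij : i = j
        · left
          rw [hij] at hvi
          exact hvi
        · right
          exact (memB v).2 ⟨i, hi, hij, hvi⟩)
      (by
        intro v hvG hv hvA hvB
        obtain ⟨i, hi, hij, hvi⟩ := (memB v).1 hvB
        exact fac v hv ((hmemH v).1 v.2) hvG j hj i hi (Ne.symm hij) hvA hvi)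
      (by
        intro v hvG hv hvA hvB
        refine closure_mono ?_ (near v hv j hj hvA)
        rintro z ⟨hz1, hz⟩
        refine ⟨hz1, fun hzB => ?_⟩
        obtain ⟨i, hi, hij, hzi⟩ := (memB z).1 hzB
        exact hz i (Finset.mem_sdiff.1 hi).1 hij hzi)
      (by
        intro v hvG hv hvA hvB
        obtain ⟨i, hi, hij, hvi⟩ := (memB v).1 hvB
        refine closure_mono ?_ (near v hv i hi hvi)
        rintro z ⟨hz1, hz⟩
        exact ⟨hz1, fun hzA => hz j (Finset.mem_sdiff.1 hj).1 (Ne.symm hij) hzA⟩)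
    exact hcr ⟨u, (hmemH u).2 huw⟩ huG hu ⟨huj, (memB _).2 ⟨l, hl, Ne.symm hjl, hul⟩⟩
  -- the first two axes at a point are outside the region
  have axis_side : ∀ x ∈ P, ∀ F : Fin 3 → E, F 2 = w → Fr x F → Wad V e F → ∀ i : Fin 3, i ≠ 2 →
      ∀ y ∈ P, ∀ y' ∈ P, 0 ≤ inner ℝ (F i) y * inner ℝ (F i) y' := by
    intro x hx F hF2 hF hW i hi
    have hnotG : F i ∉ Gr P := by
      intro hG'
      -- two colours
      have hAr : ∀ b : Bool, F i ∈ Ar V w (e (idx (fun k => if k = i then true else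
          if k = 2 then true else b))) := by
        intro b p q hp hq hpq
        have h1 := hW (fun k => if k = i then true else if k = 2 then true else b)
          (fun k => if k = i then p else if k = 2 then q else 0) (by
          intro k
          by_cases hk : k = i
          · simp only [hk, if_true, sgn_true, one_mul]
            exact hp
          · by_cases hk2 : k = 2
            · simp only [hk2, if_true, if_neg (Ne.symm hi), sgn_true, one_mul]
              exact hq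
            · simp [hk, hk2]) (by
          rw [Fin.sum_univ_three]
          fin_cases i
          · simp
            linarith
          · simp
            linarith
          · exact absurd rfl hi)
        have h2 : ∑ k, (if k = i then p else if k = 2 then q else 0) • F k = p • F i + q • w := by
          rw [Fin.sum_univ_three]
          fin_cases i
          · simp [hF2]
          · simp [hF2]
          · exact absurd rfl hi
        rw [h2] at h1
        exact h1
      refine sep (F i) (hF.nF i) ?_ hG' _ (hes _) _ (hes _) ?_ (hAr true) (hAr false)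
      · rw [← hF2]
        exact hF.FF i 2 hi
      · intro h
        have h1 := he h
        revert h1
        fin_cases i
        · decide
        · decide
        · exact absurd rfl hi
    obtain ⟨y, hy, hyn⟩ := hNT x hx (F i) (hT F hW i) (hF.xF i)
    have hside : ¬ ∃ z ∈ P, ∃ z' ∈ P, inner ℝ (F i) z < 0 ∧ 0 < inner ℝ (F i) z' := by
      intro hcon
      apply hnotG
      refine ⟨hcon, x, hx, y, hy, ?_, ?_⟩
      · intro a b hab
        by_cases hb : b = 0
        · rw [hb, zero_smul, add_zero] at hab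
          refine ⟨?_, hb⟩
          rcases smul_eq_zero.1 hab with h | h
          · exact h
          · exfalso
            have := hF.nx
            rw [h, norm_zero] at this
            norm_num at this
        · exfalso
          apply hyn (-(a / b)) 0
          have h1 : y = b⁻¹ • (a • x + b • y) + (-(a / b)) • x + (0 : ℝ) • F i := by
            rw [smul_add, smul_smul, smul_smul, inv_mul_cancel₀ hb, one_smul, div_eq_inv_mul]
            module
          rw [hab, smul_zero, zero_add] at h1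
          exact h1
      · intro hmem
        obtain ⟨a, b, hab⟩ := Submodule.mem_span_pair.1 hmem
        by_cases hb : b = 0
        · rw [hb, zero_smul, add_zero] at hab
          have h1 := congrArg (fun z => inner ℝ z (F i)) hab
          simp only [real_inner_smul_left, hF.xF, hF.Fi, mul_zero] at h1
          norm_num at h1
        · apply hyn (-(a / b)) b⁻¹
          rw [← hab, smul_add, smul_smul, smul_smul, inv_mul_cancel₀ hb, one_smul, div_eq_inv_mul]
          module
    intro z hz z' hz'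
    by_contra hneg
    push Not at hneg
    rcases mul_neg_iff.1 hneg with ⟨h1, h2⟩ | ⟨h1, h2⟩
    · exact hside ⟨z', hz', z, hz, h2, h1⟩
    · exact hside ⟨z, hz, z', hz', h1, h2⟩
  -- no obtuse angle
  refine no_acute hP ?_
  intro x hx y hy z hz
  obtain ⟨F, hF2, hF, hW⟩ := hfr x hx
  obtain ⟨Fy, hFy2, hFy, _⟩ := hfr y hy
  have hyw : inner ℝ y w = 0 := by
    rw [← hFy2]
    exact hFy.xF 2
  obtain ⟨Fz, _, hFz, _⟩ := hfr z hz
  have e1 := hF.expand hE y
  rw [Fin.sum_univ_three, hF2, hyw, zero_smul, add_zero] at e1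
  have e2 : inner ℝ y z = inner ℝ y x * inner ℝ x z + (inner ℝ y (F 0) * inner ℝ (F 0) z +
      inner ℝ y (F 1) * inner ℝ (F 1) z) := by
    nth_rewrite 1 [e1]
    rw [inner_add_left, inner_add_left, real_inner_smul_left, real_inner_smul_left,
      real_inner_smul_left]
  have e3 := axis_side x hx F hF2 hF hW 0 (by decide) y hy z hz
  have e4 := axis_side x hx F hF2 hF hW 1 (by decide) y hy z hz
  rw [real_inner_comm y (F 0)] at e3
  rw [real_inner_comm y (F 1)] at e4
  have e5 : inner ℝ (y - x) (z - x) = inner ℝ y z - inner ℝ y x - inner ℝ x z + 1 := by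
    rw [inner_sub_left, inner_sub_right, inner_sub_right, hF.xx]
    ring
  have e6 : inner ℝ y x ≤ 1 := by
    have := real_inner_le_norm y x
    rw [hF.nx, hFy.nx] at this
    linarith
  have e7 : inner ℝ x z ≤ 1 := by
    have := real_inner_le_norm x z
    rw [hF.nx, hFz.nx] at this
    linarith
  rw [e5, e2]
  nlinarith [mul_nonneg (sub_nonneg.2 e6) (sub_nonneg.2 e7)]

/-- **There is no symmetric disjoint open colouring of the three-dimensional sphere with seven
colours.** -/
theorem no_seven [DecidableEq ι] (hE : finrank ℝ E = 4) {s : Finset ι} (hs : s.card = 7)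
    {V : ι → Set E} (hG : SymCov s V) : False := by
  obtain ⟨t, hts, htc, P, hP, hP1, hPt⟩ := exists_multi (d := 3) hE (by norm_num) hG.toGoodCov
  have hst : (s \ t).card = 4 := by rw [Finset.card_sdiff_of_subset hts, hs, htc]
  obtain ⟨e0, he0, hes0⟩ := exists_enum hst
  have hTmem : ∀ (σ : Equiv.Perm (Fin 4)) (F : Fin 3 → E), Wad V (e0 ∘ σ) F → ∀ i,
      F i ∈ Tk s V 4 := by
    intro σ F hW i
    refine ⟨Bs_norm (hW.axis i 0), s \ t, ?_, ?_⟩
    · rw [Finset.mem_powersetCard]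
      exact ⟨Finset.sdiff_subset, hst⟩
    · intro j hj
      obtain ⟨k, hk⟩ := onto_of_card hst (e := e0 ∘ σ) (he0.comp σ.injective)
        (fun i => hes0 _) hj
      rw [← hk]
      exact hW.axis i k
  have hTneg : ∀ v ∈ Tk s V 4, -v ∈ Tk s V 4 := by
    rintro v ⟨h1, r, hr, h2⟩
    exact ⟨by rw [norm_neg]; exact h1, r, hr, fun i hi => Bs_neg (h2 i hi)⟩
  have hTd : IsTotallyDisconnected (Tk s V 4) :=
    Tk_td (d := 2) hE hG.toGoodCov (by rw [hs]; norm_num)
  have hfr : ∀ σ : Equiv.Perm (Fin 4), ∀ x ∈ P, ∃ F, Fr x F ∧ Wad V (e0 ∘ σ) F :=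
    fun σ x hx => wad_all hE hG hst hP hP1 hPt (he0.comp σ.injective) (fun i => hes0 _) hx
  obtain ⟨w, σ, P', hP', hP'P, hfr', hNT⟩ := fixed_axis hE hG (Tk_closed s V 4) hTd
    (fun v hv => hv.1) hTneg hP hfr hTmem
  exact last_step hE hG hs hts htc hP' (fun i hi x hx => hPt i hi (hP'P hx))
    (he0.comp σ.injective) (fun i => hes0 _) hfr' (fun F hW i => hTmem σ F hW i) hNT

end

end Pool.Agent.OrthoFan
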