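import Pool.Agent.H.MP_ef93d4_co.h56.Fix

/-!
# Points in three of the four remaining closures are facial
-/

namespace Pool.Agent.OrthoFan

open Set Filter Topology Module

variable {E : Type*} [NormedAddCommGroup E] [InnerProductSpace ℝ E] {ι : Type*}

theorem oct_closed (F : Fin 3 → E) (k : Fin 4) :
    IsClosed {z : E | oct k (inner ℝ z (F 0)) (inner ℝ z (F 1)) (inner ℝ z (F 2))} := by
  have c01 : Continuous (fun z : E => inner ℝ z (F 0) * inner ℝ z (F 1)) := by fun_prop
  have c12 : Continuous (fun z : E => inner ℝ z (F 1) * inner ℝ z (F 2)) := by fun_prop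
  have c02 : Continuous (fun z : E => inner ℝ z (F 0) * inner ℝ z (F 2)) := by fun_prop
  have N : ∀ {f : E → ℝ}, Continuous f → IsClosed {z | 0 ≤ f z} :=
    fun hf => isClosed_le continuous_const hf
  have M : ∀ {f : E → ℝ}, Continuous f → IsClosed {z | f z ≤ 0} :=
    fun hf => isClosed_le hf continuous_const
  fin_cases k
  · exact (N c01).inter ((N c12).inter (N c02))
  · exact (M c01).inter ((N c12).inter (M c02))
  · exact (M c01).inter ((M c12).inter (N c02))
  · exact (N c01).inter ((M c12).inter (M c02))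

theorem quad_par {ε a b c d : ℝ} (hε : ε ≠ 0)
    (h : ∀ t : ℝ, 0 ≤ ε * ((a + t * c) * (b + t * d))) : a * d = b * c := by
  have h1 := discrim_le_zero (a := ε * (c * d)) (b := ε * (a * d + b * c)) (c := ε * (a * b))
    (fun t => by
      have := h t
      calc (0 : ℝ) ≤ _ := this
        _ = _ := by ring)
  have h2 : discrim (ε * (c * d)) (ε * (a * d + b * c)) (ε * (a * b)) =
      ε ^ 2 * (a * d - b * c) ^ 2 := by
    unfold discrim
    ring
  rw [h2] at h1
  have h3 : 0 < ε ^ 2 := by positivity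
  have h4 : (a * d - b * c) ^ 2 = 0 := by
    have h5 := sq_nonneg (a * d - b * c)
    by_contra hne
    have h6 : 0 < (a * d - b * c) ^ 2 := lt_of_le_of_ne h5 (Ne.symm hne)
    have := mul_pos h3 h6
    linarith
  have h5 : a * d - b * c = 0 := pow_eq_zero_iff (two_ne_zero) |>.1 h4
  linarith

theorem oct_par {k : Fin 4} {y z : Fin 3 → ℝ}
    (h : ∀ t : ℝ, oct k (y 0 + t * z 0) (y 1 + t * z 1) (y 2 + t * z 2)) :
    y 0 * z 1 = y 1 * z 0 ∧ y 1 * z 2 = y 2 * z 1 ∧ y 0 * z 2 = y 2 * z 0 := by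
  fin_cases k
  · refine ⟨quad_par (one_ne_zero) fun t => ?_, quad_par (one_ne_zero) fun t => ?_,
      quad_par (one_ne_zero) fun t => ?_⟩ <;>
    (obtain ⟨p, q, r⟩ := h t; linarith)
  · refine ⟨quad_par (ε := -1) (by norm_num) fun t => ?_, quad_par (one_ne_zero) fun t => ?_,
      quad_par (ε := -1) (by norm_num) fun t => ?_⟩ <;>
    (obtain ⟨p, q, r⟩ := h t; linarith)
  · refine ⟨quad_par (ε := -1) (by norm_num) fun t => ?_,
      quad_par (ε := -1) (by norm_num) fun t => ?_, quad_par (one_ne_zero) fun t => ?_⟩ <;>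
    (obtain ⟨p, q, r⟩ := h t; linarith)
  · refine ⟨quad_par (one_ne_zero) fun t => ?_, quad_par (ε := -1) (by norm_num) fun t => ?_,
      quad_par (ε := -1) (by norm_num) fun t => ?_⟩ <;>
    (obtain ⟨p, q, r⟩ := h t; linarith)

theorem oct_scale {k : Fin 4} {r f g h : ℝ} (hr : 0 < r) (ho : oct k (r * f) (r * g) (r * h)) :
    oct k f g h := by
  have hr2 : 0 < r ^ 2 := by positivity
  have e1 : r * f * (r * g) = r ^ 2 * (f * g) := by ring
  have e2 : r * g * (r * h) = r ^ 2 * (g * h) := by ring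
  have e3 : r * f * (r * h) = r ^ 2 * (f * h) := by ring
  have P : ∀ {X : ℝ}, 0 ≤ r ^ 2 * X → 0 ≤ X := fun h => nonneg_of_mul_nonneg_right h hr2
  have N : ∀ {X : ℝ}, r ^ 2 * X ≤ 0 → X ≤ 0 := fun {X} h => by
    by_contra h'
    push Not at h'
    have := mul_pos hr2 h'
    linarith
  fin_cases k
  · obtain ⟨p, q, s⟩ := ho
    rw [e1] at p
    rw [e2] at q
    rw [e3] at s
    exact ⟨P p, P q, P s⟩
  · obtain ⟨p, q, s⟩ := ho
    rw [e1] at p
    rw [e2] at q
    rw [e3] at s
    exact ⟨N p, P q, N s⟩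
  · obtain ⟨p, q, s⟩ := ho
    rw [e1] at p
    rw [e2] at q
    rw [e3] at s
    exact ⟨N p, N q, P s⟩
  · obtain ⟨p, q, s⟩ := ho
    rw [e1] at p
    rw [e2] at q
    rw [e3] at s
    exact ⟨P p, N q, N s⟩

/-- An enumeration of a four element set. -/
theorem exists_enum {r : Finset ι} (hr : r.card = 4) :
    ∃ e : Fin 4 → ι, Function.Injective e ∧ ∀ i, e i ∈ r := by
  let f := (r.equivFinOfCardEq hr).symm
  exact ⟨fun i => (f i : ι), fun a b h => f.injective (Subtype.ext h), fun i => (f i).2⟩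

section

variable [FiniteDimensional ℝ E]

/-- **Lemma T.** -/
theorem lemma_T [DecidableEq ι] (hE : finrank ℝ E = 4) {s : Finset ι} {V : ι → Set E}
    (hG : SymCov s V) (hs : s.card = 7) {t : Finset ι} (hts : t ⊆ s) (htc : t.card = 3)
    {P : Set E} (hP : IsPreconnected P) (hPt : ∀ i ∈ t, P ⊆ Bs V i) {u : E} (hu : ‖u‖ = 1)
    (hun : Nonfac s V u) {t' : Finset ι} (ht' : t' ⊆ s \ t) (htc' : t'.card = 3)
    (hut : ∀ i ∈ t', u ∈ Bs V i) {x1 x2 : E} (hx1 : x1 ∈ P) (hx2 : x2 ∈ P)
    (hind : ∀ p q r : ℝ, p • u + q • x1 + r • x2 = 0 → p = 0 ∧ q = 0 ∧ r = 0) : False := by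
  have huu : inner ℝ u u = 1 := by rw [real_inner_self_eq_norm_sq, hu, one_pow]
  have ht's : t' ⊆ s := ht'.trans Finset.sdiff_subset
  have hst' : (s \ t').card = 4 := by
    rw [Finset.card_sdiff_of_subset ht's, hs, htc']
  have htst' : t ⊆ s \ t' := by
    intro i hi
    rw [Finset.mem_sdiff]
    exact ⟨hts hi, fun h => (Finset.mem_sdiff.1 (ht' h)).2 hi⟩
  have hn1 : ((s \ t') \ t).card = 1 := by
    rw [Finset.card_sdiff_of_subset htst', hst', htc]
  obtain ⟨n, hn⟩ := Finset.card_eq_one.1 hn1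
  obtain ⟨e', he', hes'⟩ := exists_enum hst'
  obtain ⟨F, hF, hA⟩ := exists_adp hE hG hst' he' hes' hu hun hut
  have hnmem : n ∈ s \ t' := by
    have : n ∈ (s \ t') \ t := by rw [hn]; simp
    exact (Finset.mem_sdiff.1 this).1
  obtain ⟨k0, hk0⟩ := onto_of_card hst' he' hes' hnmem
  -- the vector `v0`
  set y1 := x1 - inner ℝ x1 u • u with hy1
  set y2 := x2 - inner ℝ x2 u • u with hy2
  have hy1u : inner ℝ y1 u = 0 := by
    rw [hy1, inner_sub_left, real_inner_smul_left, huu]
    ring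
  have hy2u : inner ℝ y2 u = 0 := by
    rw [hy2, inner_sub_left, real_inner_smul_left, huu]
    ring
  have hpar : ‖y1‖ • y2 ≠ ‖y2‖ • y1 := by
    intro h
    have h1 : (‖y2‖ * inner ℝ x1 u - ‖y1‖ * inner ℝ x2 u) • u + (-‖y2‖) • x1 + ‖y1‖ • x2 = 0 := by
      have h2 : (‖y2‖ * inner ℝ x1 u - ‖y1‖ * inner ℝ x2 u) • u + (-‖y2‖) • x1 + ‖y1‖ • x2 =
          ‖y1‖ • y2 - ‖y2‖ • y1 := by
        rw [hy1, hy2]
        module
      rw [h2, h, sub_self]
    obtain ⟨_, h3, h4⟩ := hind _ _ _ h1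
    have h5 : y1 = 0 := norm_eq_zero.1 h4
    have h6 := hind (-inner ℝ x1 u) 1 0 (by
      have h7 : (-inner ℝ x1 u) • u + (1 : ℝ) • x1 + (0 : ℝ) • x2 = y1 := by
        rw [hy1]
        module
      rw [h7, h5])
    exact one_ne_zero h6.2.1
  have hstrict : inner ℝ y2 y1 < ‖y2‖ * ‖y1‖ := inner_lt_norm_mul_iff_real.2 hpar
  have hy1p : 0 < ‖y1‖ := by
    rcases eq_or_lt_of_le (norm_nonneg y1) with h | h
    · rw [← h, norm_eq_zero.1 h.symm, inner_zero_right, mul_zero] at hstrict
      exact absurd hstrict (lt_irrefl _)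
    · exact h
  have hy2p : 0 < ‖y2‖ := by
    rcases eq_or_lt_of_le (norm_nonneg y2) with h | h
    · rw [← h, norm_eq_zero.1 h.symm, inner_zero_left, zero_mul] at hstrict
      exact absurd hstrict (lt_irrefl _)
    · exact h
  have hx1y : ∀ z : E, inner ℝ z u = 0 → inner ℝ z x1 = inner ℝ z y1 := by
    intro z hz
    rw [hy1, inner_sub_right, inner_smul_right, hz]
    ring
  have hx2y : ∀ z : E, inner ℝ z u = 0 → inner ℝ z x2 = inner ℝ z y2 := by
    intro z hz
    rw [hy2, inner_sub_right, inner_smul_right, hz]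
    ring
  set v0 := ‖y1‖ • y2 - ‖y2‖ • y1 with hv0
  have hv0u : inner ℝ v0 u = 0 := by
    rw [hv0, inner_sub_left, real_inner_smul_left, real_inner_smul_left, hy1u, hy2u]
    ring
  have hv01 : inner ℝ v0 x1 < 0 := by
    rw [hx1y v0 hv0u, hv0, inner_sub_left, real_inner_smul_left, real_inner_smul_left,
      real_inner_self_eq_norm_sq]
    have : ‖y1‖ * inner ℝ y2 y1 - ‖y2‖ * ‖y1‖ ^ 2 = ‖y1‖ * (inner ℝ y2 y1 - ‖y2‖ * ‖y1‖) := by ring
    rw [this]
    exact mul_neg_of_pos_of_neg hy1p (by linarith)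
  have hv02 : 0 < inner ℝ v0 x2 := by
    rw [hx2y v0 hv0u, hv0, inner_sub_left, real_inner_smul_left, real_inner_smul_left,
      real_inner_self_eq_norm_sq, real_inner_comm y2 y1]
    have : ‖y1‖ * ‖y2‖ ^ 2 - ‖y2‖ * inner ℝ y2 y1 = ‖y2‖ * (‖y2‖ * ‖y1‖ - inner ℝ y2 y1) := by ring
    rw [this]
    exact mul_pos hy2p (by linarith)
  clear_value v0
  obtain ⟨vs, hvs, hvsu, hvs1, hvs2⟩ := exists_orth3 (by rw [hE]) u x1 x2
  -- coordinates lie in the closed octant pair
  have key : ∀ v : E, inner ℝ v u = 0 → inner ℝ v x1 < 0 → 0 < inner ℝ v x2 →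
      oct k0 (inner ℝ v (F 0)) (inner ℝ v (F 1)) (inner ℝ v (F 2)) := by
    intro v hvu hv1 hv2
    by_contra hno
    have hv0' : v ≠ 0 := by
      rintro rfl
      rw [inner_zero_left] at hv1
      exact lt_irrefl _ hv1
    set r := ‖v‖⁻¹ with hr
    have hr0 : 0 < r := inv_pos.2 (norm_pos_iff.2 hv0')
    have ho1 : IsOpen {z : E | oct k0 (inner ℝ z (F 0)) (inner ℝ z (F 1)) (inner ℝ z (F 2))}ᶜ :=
      (oct_closed F k0).isOpen_compl
    have ho2 : IsOpen {z : E | inner ℝ z x1 < 0} := isOpen_lt (by fun_prop) continuous_const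
    have ho3 : IsOpen {z : E | 0 < inner ℝ z x2} := isOpen_lt continuous_const (by fun_prop)
    obtain ⟨w, ⟨hw1, hw2, hw3⟩, hwn, hwu, i, hi, hwi⟩ := hun _ (ho1.inter (ho2.inter ho3))
      ⟨r • v, ⟨fun h => hno (by
        have h' : oct k0 (inner ℝ (r • v) (F 0)) (inner ℝ (r • v) (F 1))
          (inner ℝ (r • v) (F 2)) := h
        rw [real_inner_smul_left, real_inner_smul_left, real_inner_smul_left] at h'
        exact oct_scale hr0 h'), by
        show inner ℝ (r • v) x1 < 0
        rw [real_inner_smul_left]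
        exact mul_neg_of_pos_of_neg hr0 hv1, by
        show 0 < inner ℝ (r • v) x2
        rw [real_inner_smul_left]
        exact mul_pos hr0 hv2⟩, norm_unit hv0', by
        rw [inner_smul_right, real_inner_comm, hvu, mul_zero]⟩
    have hin : i = n := by
      have hit' : i ∉ t' := fun h => hG.toGoodCov.orthB (hut i h) hwi hwn hwu
      have hit : i ∉ t := by
        intro h
        have hw2' : inner ℝ w x1 < 0 := hw2
        have hw3' : 0 < inner ℝ w x2 := hw3
        obtain ⟨x, hx, hwx⟩ := pre_cross hP hx1 hx2 (mul_neg_of_neg_of_pos hw2' hw3')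
        have := hG.toGoodCov.orthB (hPt i h hx) hwi hwn
        rw [real_inner_comm] at this
        exact this hwx
      have : i ∈ (s \ t') \ t := Finset.mem_sdiff.2 ⟨Finset.mem_sdiff.2 ⟨hi, hit'⟩, hit⟩
      rw [hn] at this
      exact Finset.mem_singleton.1 this
    rw [hin, ← hk0] at hwi
    exact hw1 (hA k0 w hwu hwn hwi)
  have hpar2 := oct_par (k := k0) (y := fun i => inner ℝ v0 (F i)) (z := fun i => inner ℝ vs (F i))
    (fun t => by
      have h1 := key (v0 + t • vs)
        (by rw [inner_add_left, real_inner_smul_left, hv0u, hvsu]; ring)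
        (by rw [inner_add_left, real_inner_smul_left, hvs1]; linarith)
        (by rw [inner_add_left, real_inner_smul_left, hvs2]; linarith)
      simp only [inner_add_left, real_inner_smul_left] at h1
      exact h1)
  obtain ⟨h01, h12, h02⟩ := hpar2
  have hvs0 : vs = 0 := by
    refine hF.zero hE hvsu (fun m => ?_)
    have hz : inner ℝ vs (F m) • v0 - inner ℝ v0 (F m) • vs = 0 := by
      refine hF.zero hE ?_ (fun l => ?_)
      · rw [inner_sub_left, real_inner_smul_left, real_inner_smul_left, hv0u, hvsu]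
        ring
      · rw [inner_sub_left, real_inner_smul_left, real_inner_smul_left]
        have e01 : inner ℝ v0 (F 0) * inner ℝ vs (F 1) = inner ℝ v0 (F 1) * inner ℝ vs (F 0) := h01
        have e12 : inner ℝ v0 (F 1) * inner ℝ vs (F 2) = inner ℝ v0 (F 2) * inner ℝ vs (F 1) := h12
        have e02 : inner ℝ v0 (F 0) * inner ℝ vs (F 2) = inner ℝ v0 (F 2) * inner ℝ vs (F 0) := h02
        fin_cases m <;> fin_cases l <;>
          simp only [Fin.zero_eta, Fin.mk_one, Fin.reduceFinMk] <;> linarith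
    have h1 := congrArg (fun z => inner ℝ z x2) hz
    simp only [inner_sub_left, real_inner_smul_left, inner_zero_left, hvs2, mul_zero,
      sub_zero] at h1
    exact (mul_eq_zero.1 h1).resolve_right hv02.ne'
  rw [hvs0, norm_zero] at hvs
  norm_num at hvs

end

end Pool.Agent.OrthoFan
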