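import Pool.Agent.H.MP_ef93d4_co.h56.Fan

/-!
# Great spheres move continuously; facial poles
-/

namespace Pool.Agent.OrthoFan

open Set Filter Topology

variable {E : Type*} [NormedAddCommGroup E] [InnerProductSpace ℝ E]

/-- The point of the great sphere orthogonal to `w` that is nearest to `y`. -/
noncomputable def sec (y w : E) : E := ‖y - (inner ℝ w y) • w‖⁻¹ • (y - (inner ℝ w y) • w)

theorem sec_self {y w : E} (hy : ‖y‖ = 1) (h : inner ℝ w y = 0) : sec y w = y := by
  unfold sec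
  rw [h, zero_smul, sub_zero, hy, inv_one, one_smul]

theorem sec_inner {y w : E} (hw : ‖w‖ = 1) : inner ℝ w (sec y w) = 0 := by
  unfold sec
  rw [inner_smul_right, inner_sub_right, inner_smul_right, real_inner_self_eq_norm_sq, hw]
  ring

theorem sec_tendsto {y w : E} (hy : ‖y‖ = 1) (h : inner ℝ w y = 0) :
    Tendsto (sec y) (𝓝 w) (𝓝 y) := by
  have hc : ContinuousAt (sec y) w := by
    unfold sec
    have h1 : ContinuousAt (fun w : E => y - (inner ℝ w y) • w) w := by
      have : Continuous (fun w : E => y - (inner ℝ w y) • w) :=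
        continuous_const.sub ((continuous_id.inner continuous_const).smul continuous_id)
      exact this.continuousAt
    refine ContinuousAt.smul (ContinuousAt.inv₀ h1.norm ?_) h1
    rw [h, zero_smul, sub_zero, hy]
    exact one_ne_zero
  have := hc.tendsto
  rwa [sec_self hy h] at this

theorem sec_norm {y w : E} (hy : ‖y‖ = 1) (h : inner ℝ w y = 0) :
    ∀ᶠ w' in 𝓝 w, ‖sec y w'‖ = 1 := by
  have h1 : Tendsto (fun w' : E => ‖y - (inner ℝ w' y) • w'‖) (𝓝 w) (𝓝 1) := by
    have : Continuous (fun w : E => ‖y - (inner ℝ w y) • w‖) :=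
      (continuous_const.sub ((continuous_id.inner continuous_const).smul continuous_id)).norm
    have h2 := this.tendsto w
    rwa [h, zero_smul, sub_zero, hy] at h2
  have h3 : ∀ᶠ w' in 𝓝 w, (0 : ℝ) < ‖y - (inner ℝ w' y) • w'‖ :=
    h1.eventually (lt_mem_nhds (by norm_num))
  filter_upwards [h3] with w' hw'
  unfold sec
  rw [norm_smul, norm_inv, norm_norm, inv_mul_cancel₀ hw'.ne']

/-- The poles `x` whose great sphere, near `q`, is nonempty and lies in `Z`. -/
def Wset (Z : Set E) (q : E) (r : ℝ) : Set E :=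
  {x | ‖x‖ = 1 ∧ (∃ y, ‖y‖ = 1 ∧ inner ℝ x y = 0 ∧ dist y q ≤ r / 2) ∧
    ∀ y, ‖y‖ = 1 → inner ℝ x y = 0 → dist y q < r → y ∈ Z}

theorem Wset_closed [FiniteDimensional ℝ E] {Z : Set E} (hZ : IsClosed Z) (q : E) (r : ℝ) :
    IsClosed (Wset Z q r) := by
  have h1 : IsClosed {x : E | ∃ y, ‖y‖ = 1 ∧ inner ℝ x y = 0 ∧ dist y q ≤ r / 2} := by
    have hK : IsCompact {y : E | ‖y‖ = 1 ∧ dist y q ≤ r / 2} := by
      have hs : IsCompact (Metric.sphere (0 : E) 1) := isCompact_sphere _ _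
      refine hs.of_isClosed_subset ?_ ?_
      · exact (isClosed_eq continuous_norm continuous_const).inter
          (isClosed_le (continuous_id.dist continuous_const) continuous_const)
      · rintro y ⟨hy, _⟩
        rwa [mem_sphere_zero_iff_norm]
    have : CompactSpace {y : E | ‖y‖ = 1 ∧ dist y q ≤ r / 2} := isCompact_iff_compactSpace.1 hK
    have hcl : IsClosed {p : E × {y : E | ‖y‖ = 1 ∧ dist y q ≤ r / 2} |
        inner ℝ p.1 (p.2 : E) = 0} :=
      isClosed_eq (continuous_fst.inner (continuous_subtype_val.comp continuous_snd))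
        continuous_const
    have := isClosedMap_fst_of_compactSpace _ hcl
    convert this using 1
    ext x
    constructor
    · rintro ⟨y, hy1, hy2, hy3⟩
      exact ⟨(x, ⟨y, hy1, hy3⟩), hy2, rfl⟩
    · rintro ⟨⟨x', ⟨y, hy1, hy3⟩⟩, hy2, rfl⟩
      exact ⟨y, hy1, hy2, hy3⟩
  have h2 : IsClosed {x : E | ‖x‖ = 1 ∧ ∀ y, ‖y‖ = 1 → inner ℝ x y = 0 → dist y q < r → y ∈ Z} := by
    rw [isClosed_iff_frequently]
    intro x hx
    have hx1 : ‖x‖ = 1 := by
      have hcl : IsClosed {x : E | ‖x‖ = 1} := isClosed_eq continuous_norm continuous_const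
      exact (isClosed_iff_frequently.1 hcl) x (hx.mono (fun w hw => hw.1))
    refine ⟨hx1, fun y hy hxy hyq => ?_⟩
    by_contra hyZ
    have h3 : ∀ᶠ w in 𝓝 x, sec y w ∈ Metric.ball q r ∩ Zᶜ := by
      refine (sec_tendsto hy hxy) (IsOpen.mem_nhds ?_ ⟨?_, hyZ⟩)
      · exact Metric.isOpen_ball.inter hZ.isOpen_compl
      · rwa [Metric.mem_ball]
    obtain ⟨w, ⟨hw1, hw2⟩, hw3, hw4⟩ := (hx.and_eventually (h3.and (sec_norm hy hxy))).exists
    exact hw3.2 (hw2 _ hw4 (sec_inner hw1) (Metric.mem_ball.1 hw3.1))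
  convert h1.inter h2 using 1
  ext x
  constructor
  · rintro ⟨h3, h4, h5⟩
    exact ⟨h4, h3, h5⟩
  · rintro ⟨h4, h3, h5⟩
    exact ⟨h3, h4, h5⟩

/-- `Z` contains no relatively open part of the unit sphere. -/
def Thin (Z : Set E) : Prop := ∀ O : Set E, IsOpen O → (∃ y ∈ O, ‖y‖ = 1) → ∃ y ∈ O, ‖y‖ = 1 ∧ y ∉ Z

theorem Wset_sep {Z : Set E} (hZ : Thin Z) (q : E) {r : ℝ} (hr : 0 < r) {x x' : E}
    (hx : x ∈ Wset Z q r) (hx' : ‖x'‖ = 1) (hne : x ≠ x') :
    ∃ y, ‖y‖ = 1 ∧ dist y q < r ∧ y ∉ Z ∧ inner ℝ x y * inner ℝ x' y < 0 := by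
  obtain ⟨hx1, ⟨y0, hy0, hxy0, hy0q⟩, _⟩ := hx
  set c := inner ℝ x x' with hc
  have hc1 : c < 1 := by
    have := inner_lt_one_iff_real_of_norm_eq_one hx1 hx'
    exact this.2 hne
  set s := inner ℝ x' y0 with hs
  obtain ⟨τ, hτ0, hτs⟩ : ∃ τ : ℝ, τ ≠ 0 ∧ τ * s ≤ 0 := by
    rcases le_total 0 s with h | h
    · exact ⟨-1, by norm_num, by linarith⟩
    · exact ⟨1, by norm_num, by linarith⟩
  set O : Set E := {y | dist y q < r ∧ inner ℝ x y * inner ℝ x' y < 0} with hO
  have hOo : IsOpen O := by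
    refine IsOpen.inter ?_ ?_
    · exact isOpen_lt (continuous_id.dist continuous_const) continuous_const
    · have hc2 : Continuous (fun y : E => inner ℝ x y * inner ℝ x' y) :=
        (continuous_const.inner continuous_id).mul (continuous_const.inner continuous_id)
      exact isOpen_lt hc2 continuous_const
  have hex : ∃ y ∈ O, ‖y‖ = 1 := by
    let g : ℝ → E := fun ε => y0 + (ε * τ) • (x - x')
    have hg : Continuous g := by
      show Continuous (fun ε : ℝ => y0 + (ε * τ) • (x - x'))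
      fun_prop
    have hg0 : g 0 = y0 := by
      show y0 + ((0 : ℝ) * τ) • (x - x') = y0
      rw [zero_mul, zero_smul, add_zero]
    have hN : ContinuousAt (fun ε => ‖g ε‖⁻¹ • g ε) 0 := by
      refine ContinuousAt.smul (ContinuousAt.inv₀ hg.norm.continuousAt ?_) hg.continuousAt
      rw [hg0, hy0]
      exact one_ne_zero
    have hN0 : ‖g 0‖⁻¹ • g 0 = y0 := by rw [hg0, hy0, inv_one, one_smul]
    have h1 : ∀ᶠ ε in 𝓝 (0 : ℝ), dist (‖g ε‖⁻¹ • g ε) q < r := by
      have h2 : Tendsto (fun ε => dist (‖g ε‖⁻¹ • g ε) q) (𝓝 0) (𝓝 (dist y0 q)) := by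
        have := hN.tendsto
        rw [hN0] at this
        exact this.dist tendsto_const_nhds
      exact h2.eventually (gt_mem_nhds (by linarith))
    have h2 : ∀ᶠ ε in 𝓝 (0 : ℝ), 0 < ‖g ε‖ := by
      have h3 : Tendsto (fun ε => ‖g ε‖) (𝓝 0) (𝓝 1) := by
        have := hg.norm.tendsto 0
        rwa [hg0, hy0] at this
      exact h3.eventually (lt_mem_nhds (by norm_num))
    have h3 : ∀ᶠ ε in 𝓝[>] (0 : ℝ), (dist (‖g ε‖⁻¹ • g ε) q < r ∧ 0 < ‖g ε‖) ∧ 0 < ε :=
      ((h1.and h2).filter_mono nhdsWithin_le_nhds).and self_mem_nhdsWithin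
    obtain ⟨ε, ⟨h4, h5⟩, h6⟩ := h3.exists
    refine ⟨‖g ε‖⁻¹ • g ε, ⟨h4, ?_⟩, ?_⟩
    · have e1 : inner ℝ x (g ε) = ε * τ * (1 - c) := by
        show inner ℝ x (y0 + (ε * τ) • (x - x')) = _
        rw [inner_add_right, hxy0, inner_smul_right, inner_sub_right, real_inner_self_eq_norm_sq,
          hx1, ← hc]
        ring
      have e2 : inner ℝ x' (g ε) = s - ε * τ * (1 - c) := by
        show inner ℝ x' (y0 + (ε * τ) • (x - x')) = _
        rw [inner_add_right, ← hs, inner_smul_right, inner_sub_right, real_inner_self_eq_norm_sq,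
          hx', real_inner_comm x x', ← hc]
        ring
      rw [inner_smul_right, inner_smul_right, e1, e2]
      have h7 : 0 < ‖g ε‖⁻¹ := inv_pos.2 h5
      have h8 : ε * τ * (1 - c) * (s - ε * τ * (1 - c)) < 0 := by
        have h9 : ε * τ * (1 - c) * s = ε * (1 - c) * (τ * s) := by ring
        have h10 : ε * (1 - c) * (τ * s) ≤ 0 :=
          mul_nonpos_of_nonneg_of_nonpos (mul_nonneg h6.le (by linarith)) hτs
        have h11 : 0 < (ε * τ * (1 - c)) ^ 2 := by
          have h12 : ε * τ * (1 - c) ≠ 0 :=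
            mul_ne_zero (mul_ne_zero h6.ne' hτ0) (by linarith)
          positivity
        nlinarith
      have h13 : ‖g ε‖⁻¹ * (ε * τ * (1 - c)) * (‖g ε‖⁻¹ * (s - ε * τ * (1 - c))) =
          (‖g ε‖⁻¹) ^ 2 * (ε * τ * (1 - c) * (s - ε * τ * (1 - c))) := by ring
      rw [h13]
      exact mul_neg_of_pos_of_neg (by positivity) h8
    · rw [norm_smul, norm_inv, norm_norm, inv_mul_cancel₀ h5.ne']
  obtain ⟨y, hyO, hy1, hyZ⟩ := hZ O hOo hex
  exact ⟨y, hy1, hyO.1, hyZ, hyO.2⟩

theorem Wset_td {Z : Set E} (hZ : Thin Z) (q : E) {r : ℝ} (hr : 0 < r) :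
    IsTotallyDisconnected (Wset Z q r) := by
  intro C hC hpre x hx x' hx'
  by_contra hne
  obtain ⟨y, hy1, hyq, hyZ, hlt⟩ := Wset_sep hZ q hr (hC hx) (hC hx').1 hne
  have hnz : ∀ w ∈ C, inner ℝ w y ≠ 0 := by
    intro w hw h0
    exact hyZ ((hC hw).2.2 y hy1 h0 hyq)
  have hcont : ContinuousOn (fun w : E => inner ℝ w y) C :=
    (continuous_id.inner continuous_const).continuousOn
  have hzero : (0 : ℝ) ∈ (fun w : E => inner ℝ w y) '' C := by
    rcases lt_or_gt_of_ne (hnz x hx) with h | h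
    · have h' : 0 < inner ℝ x' y := by
        by_contra h2
        push Not at h2
        nlinarith
      exact hpre.intermediate_value hx hx' hcont ⟨h.le, h'.le⟩
    · have h' : inner ℝ x' y < 0 := by
        by_contra h2
        push Not at h2
        nlinarith
      exact hpre.intermediate_value hx' hx hcont ⟨h'.le, h.le⟩
  obtain ⟨w, hw, hw0⟩ := hzero
  exact hnz w hw hw0

end Pool.Agent.OrthoFan
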