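import Pool.Agent.H.MP_ef93d4_co.h56.Fan

/-!
# Closed covers of the sphere by sets without orthogonal pairs
-/

namespace Pool.Agent.OrthoFan

open Set Module

theorem closed_cover (d : ℕ) {E : Type*} [NormedAddCommGroup E] [InnerProductSpace ℝ E]
    [FiniteDimensional ℝ E] (hE : finrank ℝ E = d) {ι : Type*} (s : Finset ι) (A : ι → Set E)
    (hcl : ∀ i, IsClosed (A i))
    (horth : ∀ i, ∀ x ∈ A i, ∀ y ∈ A i, ‖x‖ = 1 → ‖y‖ = 1 → inner ℝ x y ≠ 0)
    (hcov : ∀ x : E, ‖x‖ = 1 → ∃ i ∈ s, x ∈ A i) : d * (d + 1) ≤ 2 * s.card := by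
  classical
  induction d generalizing E s with
  | zero => simp
  | succ d ih =>
    -- a base point in every set
    have hbase : ∀ i, ∃ a : E, (∃ y ∈ A i, ‖y‖ = 1) → a ∈ A i ∧ ‖a‖ = 1 := by
      intro i
      by_cases h : ∃ y ∈ A i, ‖y‖ = 1
      · obtain ⟨y, hy⟩ := h
        exact ⟨y, fun _ => hy⟩
      · exact ⟨0, fun h' => absurd h' h⟩
    choose a ha using hbase
    have hane : ∀ i (y : E), ‖y‖ = 1 → (y ∈ A i ∨ -y ∈ A i) → inner ℝ (a i) y ≠ 0 := by
      intro i y hy h
      rcases h with h | h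
      · obtain ⟨h1, h2⟩ := ha i ⟨y, h, hy⟩
        exact horth i _ h1 _ h h2 hy
      · obtain ⟨h1, h2⟩ := ha i ⟨-y, h, by rwa [norm_neg]⟩
        have h3 := horth i _ h1 _ h h2 (by rwa [norm_neg])
        rw [inner_neg_right] at h3
        exact fun h4 => h3 (by rw [h4, neg_zero])
    let C : s → Set E := fun i => {y | (y ∈ A i ∨ -y ∈ A i) ∧ 0 ≤ inner ℝ (a i) y}
    obtain ⟨x, hx, t, ht, hxt⟩ := fan_sphere d hE C
      (by
        intro i
        refine IsClosed.inter (IsClosed.union (hcl i) ((hcl i).preimage continuous_neg)) ?_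
        exact isClosed_le (g := fun y => inner ℝ (a i) y) continuous_const
          (continuous_const.inner continuous_id))
      (by
        rintro i y hy ⟨h1, h2⟩ ⟨_, h4⟩
        rw [inner_neg_right] at h4
        exact hane i y hy h1 (by linarith))
      (by
        intro y hy
        obtain ⟨i, hi, hyi⟩ := hcov y hy
        refine ⟨⟨i, hi⟩, ?_⟩
        rcases le_total 0 (inner ℝ (a i) y) with h | h
        · exact Or.inl ⟨Or.inl hyi, h⟩
        · refine Or.inr ⟨Or.inr (by rwa [neg_neg]), ?_⟩
          rw [inner_neg_right]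
          linarith)
    have hxA : ∀ i ∈ t, x ∈ A i ∨ -x ∈ A i := by
      intro i hi
      rcases hxt i hi with h | h
      · exact h.1
      · have := h.1
        rw [neg_neg] at this
        exact this.symm
    set t' : Finset ι := t.map ⟨Subtype.val, Subtype.val_injective⟩ with ht'
    have htc : t'.card = d + 1 := by rw [ht', Finset.card_map, ht]
    have hts : t' ⊆ s := by
      intro i hi
      rw [ht', Finset.mem_map] at hi
      obtain ⟨j, _, rfl⟩ := hi
      exact j.2
    have hx0 : x ≠ 0 := by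
      intro h
      rw [h, norm_zero] at hx
      norm_num at hx
    have hfr : finrank ℝ (ℝ ∙ x)ᗮ = d := by
      have h1 := Submodule.finrank_add_finrank_orthogonal (ℝ ∙ x)
      rw [finrank_span_singleton hx0, hE] at h1
      omega
    have hih := ih hfr (s \ t') (fun i => ((↑) : (ℝ ∙ x)ᗮ → E) ⁻¹' A i)
      (fun i => (hcl i).preimage continuous_subtype_val)
      (fun i y hy z hz hy1 hz1 => horth i _ hy _ hz hy1 hz1)
      (by
        intro y hy
        obtain ⟨i, hi, hyi⟩ := hcov (y : E) hy
        refine ⟨i, ?_, hyi⟩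
        rw [Finset.mem_sdiff]
        refine ⟨hi, ?_⟩
        intro hit
        rw [ht', Finset.mem_map] at hit
        obtain ⟨j, hj, hji⟩ := hit
        have hji' : (j : ι) = i := hji
        have h1 := hxA j hj
        rw [hji'] at h1
        have hxy : inner ℝ x (y : E) = 0 := by
          have := y.2
          rw [Submodule.mem_orthogonal_singleton_iff_inner_right] at this
          exact this
        rcases h1 with h1 | h1
        · exact horth i _ h1 _ hyi hx hy hxy
        · refine horth i _ h1 _ hyi (by rwa [norm_neg]) hy ?_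
          rw [inner_neg_left, hxy, neg_zero])
    rw [Finset.card_sdiff_of_subset hts, htc] at hih
    have hle : t'.card ≤ s.card := Finset.card_le_card hts
    rw [htc] at hle
    have : (d + 1) * (d + 1 + 1) = d * (d + 1) + 2 * (d + 1) := by ring
    omega

/-- Arbitrary colourings with fewer than `d (d + 1) / 2` colours have nearly orthogonal
monochromatic pairs. -/
theorem near_orthogonal (d : ℕ) {E : Type*} [NormedAddCommGroup E] [InnerProductSpace ℝ E]
    [FiniteDimensional ℝ E] (hE : finrank ℝ E = d) (m : ℕ) (hm : 2 * m < d * (d + 1))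
    (c : E → Fin m) (ε : ℝ) (hε : 0 < ε) :
    ∃ x y : E, ‖x‖ = 1 ∧ ‖y‖ = 1 ∧ c x = c y ∧ |inner ℝ x y| < ε := by
  by_contra hcon
  push Not at hcon
  have h := closed_cover d hE (Finset.univ : Finset (Fin m))
    (fun i => closure {x : E | ‖x‖ = 1 ∧ c x = i}) (fun i => isClosed_closure)
    (by
      intro i x hx y hy _ _ h0
      have hcl : IsClosed {p : E × E | ε ≤ |inner ℝ p.1 p.2|} :=
        isClosed_le continuous_const (by fun_prop)
      have hsub : {x : E | ‖x‖ = 1 ∧ c x = i} ×ˢ {x : E | ‖x‖ = 1 ∧ c x = i} ⊆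
          {p : E × E | ε ≤ |inner ℝ p.1 p.2|} := by
        rintro ⟨u, v⟩ ⟨hu, hv⟩
        exact hcon u v hu.1 hv.1 (hu.2.trans hv.2.symm)
      have h1 := closure_minimal hsub hcl
      rw [closure_prod_eq] at h1
      have h2 : ε ≤ |inner ℝ x y| := h1 (Set.mk_mem_prod hx hy)
      rw [h0, abs_zero] at h2
      linarith)
    (by
      intro x hx
      exact ⟨c x, Finset.mem_univ _, subset_closure ⟨hx, rfl⟩⟩)
  rw [Finset.card_univ, Fintype.card_fin] at h
  omega

end Pool.Agent.OrthoFan
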