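import Pool.Agent.H.MP_ef93d4_co.h56.Tile

/-!
# Points of multiplicity `d` in dimension `d + 1` do not form a totally disconnected set
-/

namespace Pool.Agent.OrthoFan

open Set Filter Topology Module

variable {E : Type*} [NormedAddCommGroup E] [InnerProductSpace ℝ E] {ι : Type*}

theorem Tk_not_td [FiniteDimensional ℝ E] {d : ℕ} (hE : finrank ℝ E = d + 1) (hd : 1 ≤ d)
    {s : Finset ι} {U : ι → Set E} (hG : GoodCov s U) : ¬ IsTotallyDisconnected (Tk s U d) := by
  classical
  intro htd
  set T : Set E := Tk s U d with hT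
  have hTcl : IsClosed T := Tk_closed s U d
  have hTnorm : ∀ x ∈ T, ‖x‖ = 1 := fun x hx => hx.1
  have hTneg : ∀ x ∈ T, -x ∈ T := by
    rintro x ⟨hx1, t, ht, hx⟩
    exact ⟨by rw [norm_neg]; exact hx1, t, ht, fun i hi => Bs_neg (hx i hi)⟩
  have hTcomp : IsCompact T := sphere_comp hTcl hTnorm
  have hTs : CompactSpace T := isCompact_iff_compactSpace.1 hTcomp
  have hTtd : TotallyDisconnectedSpace T := by
    refine ⟨?_⟩
    intro D _ hDp a ha b hb
    have h1 : ((↑) : T → E) '' D ⊆ T := by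
      rintro _ ⟨z, _, rfl⟩
      exact z.2
    have h2 : IsPreconnected (((↑) : T → E) '' D) :=
      hDp.image _ continuous_subtype_val.continuousOn
    exact Subtype.ext (htd _ h1 h2 (mem_image_of_mem _ ha) (mem_image_of_mem _ hb))
  obtain ⟨P, hPc, hPi⟩ := exists_split (X := T) (fun x => ⟨-(x : E), hTneg x x.2⟩)
    (by fun_prop) (fun x => Subtype.ext (neg_neg _)) (by
      intro x hx
      have h1 : -(x : E) = x := congrArg Subtype.val hx
      have h2 := hTnorm x x.2
      have h3 : (x : E) = 0 := by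
        have h4 : (x : E) + x = 0 := by
          nth_rewrite 1 [← h1]
          exact neg_add_cancel _
        have h5 : (2 : ℝ) • (x : E) = 0 := by rw [two_smul, h4]
        exact (smul_eq_zero.1 h5).resolve_left (by norm_num)
      rw [h3, norm_zero] at h2
      norm_num at h2)
  set P' : Set E := ((↑) : T → E) '' P with hP'
  have hP'cl : IsClosed P' := hTcl.isClosedMap_subtype_val _ hPc.1
  have hP'T : P' ⊆ T := by
    rintro _ ⟨z, _, rfl⟩
    exact z.2
  have hP'comp : IsCompact P' := hTcomp.of_isClosed_subset hP'cl hP'T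
  have hP'1 : ∀ x ∈ T, x ∈ P' ∨ -x ∈ P' := by
    intro x hx
    by_cases h : (⟨x, hx⟩ : T) ∈ P
    · exact Or.inl ⟨_, h, rfl⟩
    · right
      by_contra h2
      apply h
      rw [hPi]
      intro h3
      exact h2 ⟨_, h3, rfl⟩
  have hP'2 : ∀ x ∈ P', -x ∉ P' := by
    rintro _ ⟨x, hx, rfl⟩ ⟨y, hy, hxy⟩
    have : y = ⟨-(x : E), hTneg x x.2⟩ := Subtype.ext hxy
    rw [this] at hy
    exact (hPi x).1 hx hy
  have hdisj : Disjoint P' (-P') := by
    rw [Set.disjoint_left]
    intro x hx hx'
    exact hP'2 x hx hx'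
  obtain ⟨δ, hδ, hdδ⟩ := hdisj.exists_cthickenings hP'comp hP'cl.neg
  have hneg_cth : ∀ x, x ∈ Metric.cthickening δ (-P') ↔ -x ∈ Metric.cthickening δ P' := by
    intro x
    rw [Metric.mem_cthickening_iff, Metric.mem_cthickening_iff]
    have : Metric.infEDist x (-P') = Metric.infEDist (-x) P' := by
      have h1 : (-P' : Set E) = (fun y : E => -y) '' P' := by
        rw [Set.image_neg_eq_neg]
      have h2 : Metric.infEDist (-(-x)) ((fun y : E => -y) '' P') = Metric.infEDist (-x) P' :=
        Metric.infEDist_image (Φ := fun y : E => -y) (isometry_neg) 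
      rw [neg_neg] at h2
      rw [h1, h2]
    rw [this]
  -- base points
  have hbase : ∀ i, ∃ a : E, (∃ y ∈ Bs U i, True) → a ∈ U i ∧ ‖a‖ = 1 := by
    intro i
    by_cases h : ∃ y ∈ U i, ‖y‖ = 1
    · obtain ⟨y, hy⟩ := h
      exact ⟨y, fun _ => hy⟩
    · refine ⟨0, ?_⟩
      rintro ⟨y, hy, _⟩
      exfalso
      have hem : {x : E | ‖x‖ = 1 ∧ (x ∈ U i ∨ -x ∈ U i)} = ∅ := by
        rw [eq_empty_iff_forall_notMem]
        rintro z ⟨hz1, hz2 | hz2⟩
        · exact h ⟨z, hz2, hz1⟩
        · exact h ⟨-z, hz2, by rw [norm_neg]; exact hz1⟩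
      unfold Bs at hy
      rw [hem, closure_empty] at hy
      exact hy
  choose a ha using hbase
  have hane : ∀ i (y : E), y ∈ Bs U i → inner ℝ (a i) y ≠ 0 := by
    intro i y hy
    obtain ⟨h1, h2⟩ := ha i ⟨y, hy, trivial⟩
    rw [real_inner_comm]
    exact Bs_orth hG.op hG.orth hy h1 h2
  have hBcov : ∀ x : E, ‖x‖ = 1 → ∃ i ∈ s, x ∈ Bs U i := by
    intro x hx
    by_contra h
    push Not at h
    have hop : IsOpen (⋂ i ∈ s, (Bs U i)ᶜ) :=
      isOpen_biInter_finset (fun i _ => (Bs_closed U i).isOpen_compl)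
    obtain ⟨y, hy, hy1, i, hi, hyi⟩ := hG.dense _ hop ⟨x, mem_iInter₂.2 h, hx⟩
    exact (mem_iInter₂.1 hy i hi) (subset_closure ⟨hy1, Or.inl hyi⟩)
  let C : Option s → Set E := fun o => match o with
    | none => Metric.cthickening δ P'
    | some i => (Bs U i ∩ {y | 0 ≤ inner ℝ (a i) y}) ∩
        (Metric.thickening δ P' ∪ Metric.thickening δ (-P'))ᶜ
  have hsym : ∀ x, x ∈ Metric.thickening δ P' ∪ Metric.thickening δ (-P') →
      -x ∈ Metric.thickening δ P' ∪ Metric.thickening δ (-P') := by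
    have hnegt : ∀ x, x ∈ Metric.thickening δ P' → -x ∈ Metric.thickening δ (-P') := by
      intro x hx
      rw [Metric.mem_thickening_iff] at hx ⊢
      obtain ⟨z, hz, hxz⟩ := hx
      refine ⟨-z, by rwa [Set.neg_mem_neg], by rwa [dist_neg_neg]⟩
    have hnegt' : ∀ x, x ∈ Metric.thickening δ (-P') → -x ∈ Metric.thickening δ P' := by
      intro x hx
      rw [Metric.mem_thickening_iff] at hx ⊢
      obtain ⟨z, hz, hxz⟩ := hx
      exact ⟨-z, hz, by rwa [dist_neg_neg]⟩
    rintro x (hx | hx)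
    · exact Or.inr (hnegt x hx)
    · exact Or.inl (hnegt' x hx)
  obtain ⟨x, hx, t', ht', hxt⟩ := fan_sphere d hE C
    (by
      rintro (_ | i)
      · exact Metric.isClosed_cthickening
      · refine IsClosed.inter (IsClosed.inter (Bs_closed U i) ?_) ?_
        · exact isClosed_le (g := fun y => inner ℝ (a i) y) continuous_const
            (continuous_const.inner continuous_id)
        · exact (Metric.isOpen_thickening.union Metric.isOpen_thickening).isClosed_compl)
    (by
      rintro (_ | i) y hy h1 h2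
      · have h3 : y ∈ Metric.cthickening δ (-P') := (hneg_cth y).2 h2
        exact Set.disjoint_left.1 hdδ h1 h3
      · have h3 : 0 ≤ inner ℝ (a i) y := h1.1.2
        have h4 : 0 ≤ inner ℝ (a i) (-y) := h2.1.2
        rw [inner_neg_right] at h4
        exact hane i y h1.1.1 (by linarith))
    (by
      intro y hy
      by_cases hyt : y ∈ Metric.thickening δ P' ∪ Metric.thickening δ (-P')
      · refine ⟨none, ?_⟩
        rcases hyt with h | h
        · exact Or.inl (Metric.thickening_subset_cthickening _ _ h)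
        · exact Or.inr ((hneg_cth y).1 (Metric.thickening_subset_cthickening _ _ h))
      · obtain ⟨i, hi, hyi⟩ := hBcov y hy
        refine ⟨some ⟨i, hi⟩, ?_⟩
        rcases le_total 0 (inner ℝ (a i) y) with h | h
        · exact Or.inl ⟨⟨hyi, h⟩, hyt⟩
        · refine Or.inr ⟨⟨Bs_neg hyi, ?_⟩, ?_⟩
          · show 0 ≤ inner ℝ (a i) (-y)
            rw [inner_neg_right]
            linarith
          · intro h2
            apply hyt
            have := hsym _ h2
            rwa [neg_neg] at this)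
  -- the indices of the old sets
  set t : Finset ι := (t'.eraseNone).map ⟨Subtype.val, Subtype.val_injective⟩ with ht
  have htc : d ≤ t.card := by
    rw [ht, Finset.card_map]
    have h1 : t'.card ≤ t'.eraseNone.card + 1 := by
      have h2 : t' ⊆ insert none (t'.eraseNone.map Function.Embedding.some) := by
        intro o ho
        rcases o with _ | i
        · exact Finset.mem_insert_self _ _
        · refine Finset.mem_insert_of_mem ?_
          rw [Finset.mem_map]
          exact ⟨i, Finset.mem_eraseNone.2 ho, rfl⟩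
      calc t'.card ≤ _ := Finset.card_le_card h2
        _ ≤ (t'.eraseNone.map Function.Embedding.some).card + 1 := Finset.card_insert_le _ _
        _ = _ := by rw [Finset.card_map]
    omega
  have hts : t ⊆ s := by
    intro i hi
    rw [ht, Finset.mem_map] at hi
    obtain ⟨j, _, rfl⟩ := hi
    exact j.2
  have htx : ∀ i ∈ t, x ∈ Bs U i ∧ x ∉ Metric.thickening δ P' ∪ Metric.thickening δ (-P') := by
    intro i hi
    rw [ht, Finset.mem_map] at hi
    obtain ⟨j, hj, rfl⟩ := hi
    rw [Finset.mem_eraseNone] at hj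
    rcases hxt _ hj with h | h
    · exact ⟨h.1.1, h.2⟩
    · refine ⟨?_, fun h2 => h.2 (hsym _ h2)⟩
      have := Bs_neg h.1.1
      rwa [neg_neg] at this
  obtain ⟨t0, ht0, ht0c⟩ := Finset.exists_subset_card_eq htc
  have hxT : x ∈ T := by
    refine ⟨hx, t0, ?_, fun i hi => (htx i (ht0 hi)).1⟩
    rw [Finset.mem_powersetCard]
    exact ⟨ht0.trans hts, ht0c⟩
  have htne : t.Nonempty := by
    rw [← Finset.card_pos]
    omega
  obtain ⟨i, hi⟩ := htne
  apply (htx i hi).2
  rcases hP'1 x hxT with h | h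
  · exact Or.inl (Metric.self_subset_thickening hδ _ h)
  · right
    have h' : x ∈ -P' := h
    exact Metric.self_subset_thickening hδ _ h'


theorem exists_multi [FiniteDimensional ℝ E] {d : ℕ} (hE : finrank ℝ E = d + 1) (hd : 1 ≤ d)
    {s : Finset ι} {U : ι → Set E} (hG : GoodCov s U) :
    ∃ t ⊆ s, t.card = d ∧ ∃ P : Set E, Conti P ∧ (∀ x ∈ P, ‖x‖ = 1) ∧ ∀ i ∈ t, P ⊆ Bs U i := by
  obtain ⟨P, hPT, hP⟩ := exists_conti_of_not_td (sphere_comp (Tk_closed s U d) (fun x hx => hx.1))
    (Tk_not_td hE hd hG)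
  obtain ⟨t, P', hP's, hP'⟩ := hP.cover (κ := {t // t ∈ s.powersetCard d})
    (fun t => ⋂ i ∈ (t.1 : Set ι), Bs U i)
    (fun t => isClosed_biInter (fun i _ => Bs_closed U i)) (by
      intro x hx
      obtain ⟨_, t, ht, hxt⟩ := hPT hx
      exact mem_iUnion.2 ⟨⟨t, ht⟩, mem_iInter₂.2 (fun i hi => hxt i hi)⟩)
  obtain ⟨ht1, ht2⟩ := Finset.mem_powersetCard.1 t.2
  exact ⟨t.1, ht1, ht2, P', hP', fun x hx => (hPT (hP's hx).1).1,
    fun i hi x hx => mem_iInter₂.1 (hP's hx).2 i hi⟩

end Pool.Agent.OrthoFan
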