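import Pool.Agent.H.MP_ef93d4_co.h56.Subdiv

/-!
# Ky Fan's combinatorial theorem for fine subdivisions of the octahedral sphere
-/

namespace Pool.Agent.OrthoFan

/-- The `j`-th basis vector. -/
def ev (d j : ℕ) : Fin d → ℝ := fun i => if (i : ℕ) = j then 1 else 0

/-- A sign. -/
def sg (b : Bool) : ℝ := if b then 1 else -1

theorem sg_not (b : Bool) : sg (!b) = -sg b := by
  cases b <;> simp [sg]

theorem sg_abs (b : Bool) (x : ℝ) (h : 0 ≤ sg b * x) : sg b * x = |x| := by
  cases b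
  · simp only [sg] at h ⊢
    norm_num at h ⊢
    exact (abs_of_nonpos h).symm
  · simp only [sg] at h ⊢
    norm_num at h ⊢
    exact (abs_of_nonneg h).symm

/-- A closed facet of the octahedral sphere. -/
def Fc {d : ℕ} (s : Fin d → Bool) : Set (Fin d → ℝ) :=
  {x | (∀ j, 0 ≤ sg (s j) * x j) ∧ ∑ j, sg (s j) * x j = 1}

theorem Fc_convex {d : ℕ} (s : Fin d → Bool) : Convex ℝ (Fc s) := by
  intro x hx y hy a b ha hb hab
  refine ⟨fun j => ?_, ?_⟩
  · have h1 := mul_nonneg ha (hx.1 j)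
    have h2 := mul_nonneg hb (hy.1 j)
    simp only [Pi.add_apply, Pi.smul_apply, smul_eq_mul]
    nlinarith
  · have : ∀ j, sg (s j) * (a • x + b • y) j = a * (sg (s j) * x j) + b * (sg (s j) * y j) := by
      intro j
      simp only [Pi.add_apply, Pi.smul_apply, smul_eq_mul]
      ring
    simp only [this]
    rw [Finset.sum_add_distrib, ← Finset.mul_sum, ← Finset.mul_sum, hx.2, hy.2, mul_one, mul_one,
      hab]

theorem Fc_abs {d : ℕ} (s : Fin d → Bool) {x : Fin d → ℝ} (hx : x ∈ Fc s) :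
    ∑ j, |x j| = 1 := by
  rw [← hx.2]
  exact Finset.sum_congr rfl (fun j _ => (sg_abs _ _ (hx.1 j)).symm)

theorem Fc_dist {d : ℕ} (s : Fin d → Bool) {x y : Fin d → ℝ} (hx : x ∈ Fc s) (hy : y ∈ Fc s) :
    dist x y ≤ 2 := by
  rw [dist_pi_le_iff (by norm_num)]
  intro j
  have h1 : |x j| ≤ 1 := by
    rw [← Fc_abs s hx]
    exact Finset.single_le_sum (f := fun j => |x j|) (fun i _ => abs_nonneg _) (Finset.mem_univ j)
  have h2 : |y j| ≤ 1 := by
    rw [← Fc_abs s hy]
    exact Finset.single_le_sum (f := fun j => |y j|) (fun i _ => abs_nonneg _) (Finset.mem_univ j)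
  rw [Real.dist_eq]
  have := abs_sub (x j) (y j)
  linarith

/-- The octahedral chains. -/
noncomputable def oc (d : ℕ) : ℕ → Ch (Fin d → ℝ)
  | 0 => one []
  | 1 => one [ev d 0]
  | k + 2 => cone (ev d (k + 1)) (oc d (k + 1) + nu (oc d (k + 1)))

theorem oc_D_one (d : ℕ) : D (oc d 1) = one [] := by
  rw [oc, D_one, bd, bd, map_zero, add_zero]

theorem oc_succ (d k : ℕ) :
    oc d (k + 2) = cone (ev d (k + 1)) (oc d (k + 1) + nu (oc d (k + 1))) := rfl

theorem oc_D (d k : ℕ) : D (oc d (k + 2)) = oc d (k + 1) + nu (oc d (k + 1)) := by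
  have h0 : D (oc d (k + 1) + nu (oc d (k + 1))) = 0 := by
    induction k with
    | zero =>
      rw [map_add, ← nu_D, oc_D_one, nu_one, List.map_nil, self_add]
    | succ k ih =>
      have h1 : D (oc d (k + 2)) = oc d (k + 1) + nu (oc d (k + 1)) := by
        rw [oc_succ, D_cone, ih, map_zero, add_zero]
      rw [map_add, ← nu_D, h1, map_add, nu_nu,
        add_comm (nu (oc d (k + 1))) (oc d (k + 1))]
      exact self_add _
  rw [oc_succ, D_cone, h0, map_zero, add_zero]

/-- Simplices with `k` vertices in a facet, whose coordinates from the `k`-th on vanish. -/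
def Oc (d k : ℕ) (l : List (Fin d → ℝ)) : Prop :=
  l.length = k ∧ (∃ s : Fin d → Bool, ∀ v ∈ l, v ∈ Fc s) ∧
    ∀ v ∈ l, ∀ j : Fin d, k ≤ (j : ℕ) → v j = 0

theorem ev_mem {d k : ℕ} (hk : k < d) (s : Fin d → Bool) (hs : s ⟨k, hk⟩ = true) :
    ev d k ∈ Fc s := by
  refine ⟨fun j => ?_, ?_⟩
  · unfold ev
    split_ifs with h
    · have : j = ⟨k, hk⟩ := Fin.ext h
      rw [this, hs]
      simp [sg]
    · simp
  · rw [Finset.sum_eq_single ⟨k, hk⟩]
    · rw [hs]
      simp [sg, ev]
    · intro j _ hj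
      have : (j : ℕ) ≠ k := fun h => hj (Fin.ext h)
      simp [ev, this]
    · intro h
      exact absurd (Finset.mem_univ _) h

theorem nu_Oc {d k : ℕ} {c : Ch (Fin d → ℝ)} (hc : On (Oc d k) c) : On (Oc d k) (nu c) := by
  refine On.map ?_ hc
  rintro l ⟨h1, ⟨s, h2⟩, h3⟩
  rw [nu_one]
  refine On.one ⟨by simpa using h1, ⟨fun j => !(s j), ?_⟩, ?_⟩
  · intro v hv
    rw [List.mem_map] at hv
    obtain ⟨u, hu, rfl⟩ := hv
    have h4 := h2 u hu
    refine ⟨fun j => ?_, ?_⟩
    · rw [sg_not, Pi.neg_apply, neg_mul_neg]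
      exact h4.1 j
    · rw [← h4.2]
      refine Finset.sum_congr rfl (fun j _ => ?_)
      rw [sg_not, Pi.neg_apply, neg_mul_neg]
  · intro v hv j hj
    rw [List.mem_map] at hv
    obtain ⟨u, hu, rfl⟩ := hv
    rw [Pi.neg_apply, h3 u hu j hj, neg_zero]

theorem oc_Oc (d k : ℕ) (hk : k + 1 ≤ d) : On (Oc d (k + 1)) (oc d (k + 1)) := by
  induction k with
  | zero =>
    refine On.one ⟨rfl, ⟨fun _ => true, ?_⟩, ?_⟩
    · intro v hv
      rw [List.mem_singleton] at hv
      rw [hv]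
      exact ev_mem (by omega) _ rfl
    · intro v hv j hj
      rw [List.mem_singleton] at hv
      rw [hv]
      unfold ev
      rw [if_neg (by omega)]
  | succ k ih =>
    rw [oc]
    have h1 := (ih (by omega)).add (nu_Oc (ih (by omega)))
    refine On.map ?_ h1
    rintro l ⟨h1, ⟨s, h2⟩, h3⟩
    rw [cone_one]
    refine On.one ⟨by simp [h1], ⟨Function.update s ⟨k + 1, hk⟩ true, ?_⟩, ?_⟩
    · intro v hv
      rcases List.mem_cons.1 hv with rfl | hv
      · exact ev_mem hk _ (by simp)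
      · have h4 := h2 v hv
        have h5 : v ⟨k + 1, hk⟩ = 0 := h3 v hv ⟨k + 1, hk⟩ (le_refl _)
        have h6 : ∀ j, sg (Function.update s ⟨k + 1, hk⟩ true j) * v j = sg (s j) * v j := by
          intro j
          by_cases hj : j = ⟨k + 1, hk⟩
          · rw [hj, h5, mul_zero, mul_zero]
          · rw [Function.update_of_ne hj]
        refine ⟨fun j => ?_, ?_⟩
        · rw [h6]
          exact h4.1 j
        · simp only [h6]
          exact h4.2
    · intro v hv j hj
      rcases List.mem_cons.1 hv with rfl | hv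
      · unfold ev
        rw [if_neg (by omega)]
      · exact h3 v hv j (by omega)

theorem oc_Sm (d k : ℕ) (hk : k + 1 ≤ d) :
    On (Sm (Fc (d := d)) (k + 1) 2) (oc d (k + 1)) := by
  refine (oc_Oc d k hk).mono ?_
  rintro l ⟨h1, ⟨s, h2⟩, _⟩
  exact ⟨h1, ⟨s, h2⟩, fun u hu v hv => Fc_dist s (h2 u hu) (h2 v hv)⟩

theorem oc_len (d k : ℕ) (hk : k + 1 ≤ d) :
    On (fun l => l.length = k + 1) (oc d (k + 1)) :=
  (oc_Oc d k hk).mono (fun _ h => h.1)

theorem gs_nil (p : ℕ) : gs p [] = 1 := by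
  rw [gs_eq]
  exact ⟨[], trivial, List.Perm.refl _⟩

/-- **Ky Fan's combinatorial theorem**, weak form: a labelling of the octahedral sphere by
`±1, ±2, …` which is antipodal has, in every scale, either two near points with opposite labels
or `d` near points with labels of pairwise different absolute values. -/
theorem fan_small (n : ℕ) (f : (Fin (n + 1) → ℝ) → ℕ)
    (hf : ∀ x : Fin (n + 1) → ℝ, ∑ j, |x j| = 1 → f (-x) = fl (f x)) (δ : ℝ) (hδ : 0 < δ) :
    ∃ l : List (Fin (n + 1) → ℝ), (∀ x ∈ l, ∑ j, |x j| = 1) ∧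
      (∀ x ∈ l, ∀ y ∈ l, dist x y < δ) ∧
      ((∃ x ∈ l, ∃ y ∈ l, f x / 2 = f y / 2 ∧ f x ≠ f y) ∨
        (l.length = n + 1 ∧ (l.map (fun x => f x / 2)).Nodup)) := by
  have hq1 : (n / (n + 1) : ℝ) < 1 := by
    rw [div_lt_one (by positivity)]
    linarith
  obtain ⟨N, hN⟩ := exists_pow_lt_of_lt_one (show (0 : ℝ) < δ / 2 by positivity) hq1
  have hN' : (n / (n + 1) : ℝ) ^ N * 2 < δ := by linarith
  set c : ℕ → Ch (Fin (n + 1) → ℝ) := fun k => (sd k)^[N] (oc (n + 1) k) with hc
  have hS : ∀ k, k ≤ n → On (Sm (Fc (d := n + 1)) (k + 1) ((n / (n + 1) : ℝ) ^ N * 2))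
      (c (k + 1)) := by
    intro k hk
    exact sd_iter_Sm _ Fc_convex n (k + 1) (by omega) (by norm_num) (oc_Sm (n + 1) k (by omega)) N
  by_contra hcon
  push Not at hcon
  have hnc : ∀ k, k ≤ n → On (fun l => l ≠ [] ∧ ∀ x ∈ l, ∀ y ∈ l, f x / 2 = f y / 2 → f x = f y)
      (c (k + 1)) := by
    intro k hk
    refine (hS k hk).mono ?_
    rintro l ⟨h1, ⟨s, h2⟩, h3⟩
    refine ⟨?_, ?_⟩
    · intro h0
      rw [h0] at h1
      simp at h1
    · have h4 := hcon l (fun x hx => Fc_abs s (h2 x hx))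
        (fun x hx y hy => lt_of_le_of_lt (h3 x hx y hy) hN')
      exact fun x hx y hy h => h4.1 x hx y hy h
  have hsum : ∀ k, k ≤ n → al f 0 (c (k + 1)) + al f 1 (c (k + 1)) = 1 := by
    intro k hk
    induction k with
    | zero =>
      rw [← al_D f 0 (hnc 0 hk)]
      have : D (c 1) = one [] := by
        rw [hc]
        simp only
        rw [D_sd_iter 0 N (oc_len (n + 1) 0 (by omega)), oc_D_one, sd_zero_iter]
      rw [this]
      unfold al
      rw [lin_one, List.map_nil, gs_nil]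
    | succ k ih =>
      rw [← al_D f 0 (hnc (k + 1) hk)]
      have : D (c (k + 2)) = c (k + 1) + nu (c (k + 1)) := by
        rw [hc]
        simp only
        rw [D_sd_iter (k + 1) N (oc_len (n + 1) (k + 1) (by omega)), oc_D, sd_iter_add,
          nu_sd_iter]
      rw [this, map_add, al_nu f 0]
      · exact ih (by omega)
      · refine (hS k (by omega)).mono ?_
        rintro l ⟨h1, ⟨s, h2⟩, h3⟩ x hx
        exact hf x (Fc_abs s (h2 x hx))
  have hfin := hsum n le_rfl
  have hz : ∀ p, al f p (c (n + 1)) = 0 := by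
    intro p
    have := lin_congr (f := al f p) (g := 0) (P := _) ?_ (hS n le_rfl)
    · simpa using this
    · rintro l ⟨h1, ⟨s, h2⟩, h3⟩
      unfold al
      rw [lin_one, LinearMap.zero_apply]
      by_contra hne
      have h4 := hcon l (fun x hx => Fc_abs s (h2 x hx))
        (fun x hx y hy => lt_of_le_of_lt (h3 x hx y hy) hN')
      apply h4.2 h1
      have := gs_nodup p _ hne
      rw [List.map_map] at this
      exact this
  rw [hz 0, hz 1] at hfin
  exact absurd hfin (by decide)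

end Pool.Agent.OrthoFan
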