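import Mathlib

/-!
# Totally disconnected compact spaces: countable sums and free involutions
-/

namespace Pool.Agent.OrthoFan

open Set Filter Topology

/-- A compact Hausdorff space that is a countable union of closed totally disconnected sets is
totally disconnected. -/
theorem td_of_cover {X : Type*} [TopologicalSpace X] [CompactSpace X] [T2Space X] {ι : Type*}
    [Countable ι] (F : ι → Set X) (hF : ∀ i, IsClosed (F i)) (hU : ⋃ i, F i = univ)
    (hTD : ∀ i, IsTotallyDisconnected (F i)) : TotallyDisconnectedSpace X := by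
  refine ⟨?_⟩
  intro C _ hpre p hp p' hp'
  by_contra hne
  set K : Set X := closure C with hK
  have hKp : IsPreconnected K := hpre.closure
  have hpK : p ∈ K := subset_closure hp
  have hpK' : p' ∈ K := subset_closure hp'
  have hKc : IsCompact K := isClosed_closure.isCompact
  have hKs : CompactSpace K := isCompact_iff_compactSpace.1 hKc
  have hKpre : PreconnectedSpace K := isPreconnected_iff_preconnectedSpace.1 hKp
  have hKne : Nonempty K := ⟨⟨p, hpK⟩⟩
  -- Baire
  obtain ⟨i, x, hx⟩ := nonempty_interior_of_iUnion_of_closed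
    (f := fun i => ((↑) : K → X) ⁻¹' F i) (fun i => (hF i).preimage continuous_subtype_val)
    (by rw [← preimage_iUnion, hU, preimage_univ])
  -- another point
  obtain ⟨x', hx'⟩ : ∃ x' : K, x' ≠ x := by
    by_cases h : (⟨p, hpK⟩ : K) = x
    · refine ⟨⟨p', hpK'⟩, fun h' => ?_⟩
      rw [← h] at h'
      exact hne (congrArg Subtype.val h').symm
    · exact ⟨_, h⟩
  set O : Set K := interior (((↑) : K → X) ⁻¹' F i) ∩ {x'}ᶜ with hO
  have hOo : IsOpen O := isOpen_interior.inter isOpen_compl_singleton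
  have hxO : x ∈ O := ⟨hx, fun h => hx' h.symm⟩
  obtain ⟨L, hLn, hLc, hLO⟩ := exists_mem_nhds_isClosed_subset (hOo.mem_nhds hxO)
  have hLcomp : CompactSpace L := isCompact_iff_compactSpace.1 hLc.isCompact
  have hLtd : TotallyDisconnectedSpace L := by
    refine ⟨?_⟩
    intro D _ hD a ha b hb
    have h1 : (fun z : L => ((z : K) : X)) '' D ⊆ F i := by
      rintro _ ⟨z, _, rfl⟩
      have h0 := interior_subset (hLO z.2).1
      exact h0
    have h2 : IsPreconnected ((fun z : L => ((z : K) : X)) '' D) :=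
      hD.image _ (continuous_subtype_val.comp continuous_subtype_val).continuousOn
    have h3 := hTD i _ h1 h2 (mem_image_of_mem _ ha) (mem_image_of_mem _ hb)
    exact Subtype.ext (Subtype.ext h3)
  have hxL : x ∈ L := mem_of_mem_nhds hLn
  have hxint : x ∈ interior L := mem_interior_iff_mem_nhds.2 hLn
  obtain ⟨V, hVc, hxV, hVsub⟩ := compact_exists_isClopen_in_isOpen
    (X := L) (x := ⟨x, hxL⟩) (U := ((↑) : L → K) ⁻¹' interior L)
    (isOpen_interior.preimage continuous_subtype_val) hxint
  -- the image of `V` is clopen in `K`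
  have hVcl : IsClosed (((↑) : L → K) '' V) := hLc.isClosedMap_subtype_val _ hVc.1
  have hVop : IsOpen (((↑) : L → K) '' V) := by
    obtain ⟨G, hG, hGV⟩ := isOpen_induced_iff.1 hVc.2
    have : ((↑) : L → K) '' V = G ∩ interior L := by
      ext z
      constructor
      · rintro ⟨w, hw, rfl⟩
        refine ⟨?_, hVsub hw⟩
        rw [← hGV] at hw
        exact hw
      · rintro ⟨h1, h2⟩
        refine ⟨⟨z, interior_subset h2⟩, ?_, rfl⟩
        rw [← hGV]
        exact h1
    rw [this]
    exact hG.inter isOpen_interior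
  have huniv := (show IsClopen (((↑) : L → K) '' V) from ⟨hVcl, hVop⟩).eq_univ ⟨x, ⟨⟨x, hxL⟩, hxV, rfl⟩⟩
  have : x' ∈ ((↑) : L → K) '' V := by
    rw [huniv]
    trivial
  obtain ⟨w, _, hw⟩ := this
  exact (hLO w.2).2 hw

/-- A free involution of a compact totally disconnected space has a clopen fundamental set. -/
theorem exists_split {X : Type*} [TopologicalSpace X] [CompactSpace X] [T2Space X]
    [TotallyDisconnectedSpace X] (ν : X → X) (hν : Continuous ν) (hνν : ∀ x, ν (ν x) = x)
    (hfree : ∀ x, ν x ≠ x) : ∃ P : Set X, IsClopen P ∧ ∀ x, x ∈ P ↔ ν x ∉ P := by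
  classical
  have h1 : ∀ x : X, ∃ V : Set X, IsClopen V ∧ x ∈ V ∧ ∀ y ∈ V, ν y ∉ V := by
    intro x
    obtain ⟨V, hV, hxV, hsub⟩ := compact_exists_isClopen_in_isOpen (X := X) (x := x) (U := {ν x}ᶜ)
      isOpen_compl_singleton (fun h => hfree x h.symm)
    refine ⟨V \ ν ⁻¹' V, hV.diff (hV.preimage hν), ⟨hxV, fun h => ?_⟩, ?_⟩
    · exact hsub h rfl
    · rintro y ⟨_, h3⟩ ⟨h4, _⟩
      exact h3 h4
  choose V hVc hxV hVd using h1
  obtain ⟨s, hs⟩ := isCompact_univ.elim_finite_subcover V (fun x => (hVc x).2)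
    (fun x _ => mem_iUnion.2 ⟨x, hxV x⟩)
  have key : ∀ t : Finset X, ∃ P : Set X, IsClopen P ∧ (∀ y ∈ P, ν y ∉ P) ∧
      ∀ x ∈ t, ∀ y ∈ V x, y ∈ P ∨ ν y ∈ P := by
    intro t
    induction t using Finset.induction_on with
    | empty => exact ⟨∅, isClopen_empty, by simp, by simp⟩
    | insert a t ha ih =>
      obtain ⟨P, hP, hPd, hPc⟩ := ih
      refine ⟨P ∪ (V a \ ν ⁻¹' P), hP.union ((hVc a).diff (hP.preimage hν)), ?_, ?_⟩
      · rintro y (h2 | ⟨h2, h3⟩) (h4 | ⟨h4, h5⟩)
        · exact hPd y h2 h4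
        · apply h5
          show ν (ν y) ∈ P
          rwa [hνν]
        · exact h3 h4
        · exact hVd a y h2 h4
      · intro x hx y hy
        rcases Finset.mem_insert.1 hx with rfl | hx
        · by_cases h : ν y ∈ P
          · exact Or.inr (Or.inl h)
          · exact Or.inl (Or.inr ⟨hy, h⟩)
        · exact (hPc x hx y hy).imp Or.inl Or.inl
  obtain ⟨P, hP, hPd, hPc⟩ := key s
  refine ⟨P, hP, fun x => ⟨hPd x, fun h => ?_⟩⟩
  obtain ⟨z, hz, hxz⟩ := mem_iUnion₂.1 (hs (mem_univ x))
  exact (hPc z hz x hxz).resolve_right h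

end Pool.Agent.OrthoFan
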