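import Pool.Agent.H.MP_ef93d4_co.h56.Local
import Pool.Agent.H.MP_ef93d4_co.h56.Top

/-!
# Open sets without orthogonal pairs whose union is dense in the sphere
-/

namespace Pool.Agent.OrthoFan

open Set Filter Topology Module

variable {E : Type*} [NormedAddCommGroup E] [InnerProductSpace ℝ E] {ι : Type*}

/-- Open sets without orthogonal pairs of unit vectors, whose union is dense in the sphere. -/
structure GoodCov (s : Finset ι) (U : ι → Set E) : Prop where
  op : ∀ i, IsOpen (U i)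
  orth : ∀ i, ∀ x ∈ U i, ∀ y ∈ U i, ‖x‖ = 1 → ‖y‖ = 1 → inner ℝ x y ≠ 0
  dense : ∀ O : Set E, IsOpen O → (∃ y ∈ O, ‖y‖ = 1) → ∃ y ∈ O, ‖y‖ = 1 ∧ ∃ i ∈ s, y ∈ U i

/-- The closure of the symmetrised `i`-th set. -/
def Bs (U : ι → Set E) (i : ι) : Set E := closure {x | ‖x‖ = 1 ∧ (x ∈ U i ∨ -x ∈ U i)}

theorem Bs_closed (U : ι → Set E) (i : ι) : IsClosed (Bs U i) := isClosed_closure

theorem Bs_norm {U : ι → Set E} {i : ι} {x : E} (hx : x ∈ Bs U i) : ‖x‖ = 1 := by
  have hcl : IsClosed {x : E | ‖x‖ = 1} := isClosed_eq continuous_norm continuous_const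
  exact closure_minimal (fun y hy => hy.1) hcl hx

theorem Bs_neg {U : ι → Set E} {i : ι} {x : E} (hx : x ∈ Bs U i) : -x ∈ Bs U i := by
  have h : MapsTo (fun y : E => -y) {x | ‖x‖ = 1 ∧ (x ∈ U i ∨ -x ∈ U i)}
      {x | ‖x‖ = 1 ∧ (x ∈ U i ∨ -x ∈ U i)} := by
    rintro y ⟨h1, h2⟩
    refine ⟨by rw [norm_neg]; exact h1, ?_⟩
    rw [neg_neg]
    exact h2.symm
  exact h.closure continuous_neg hx

theorem Bs_orth {U : ι → Set E} (hop : ∀ i, IsOpen (U i))
    (horth : ∀ i, ∀ x ∈ U i, ∀ y ∈ U i, ‖x‖ = 1 → ‖y‖ = 1 → inner ℝ x y ≠ 0) {i : ι} {x y : E}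
    (hx : x ∈ Bs U i) (hy : y ∈ U i) (hy1 : ‖y‖ = 1) : inner ℝ x y ≠ 0 := by
  intro h0
  have h1 : ∃ᶠ w in 𝓝 x, ‖w‖ = 1 ∧ (w ∈ U i ∨ -w ∈ U i) := mem_closure_iff_frequently.1 hx
  have h2 : ∀ᶠ w in 𝓝 x, sec y w ∈ U i := (sec_tendsto hy1 h0) ((hop i).mem_nhds hy)
  obtain ⟨w, ⟨hw1, hw2⟩, hw3, hw4⟩ := (h1.and_eventually (h2.and (sec_norm hy1 h0))).exists
  have h5 := sec_inner (y := y) hw1
  rcases hw2 with hw2 | hw2
  · exact horth i _ hw2 _ hw3 hw1 hw4 h5
  · refine horth i _ hw2 _ hw3 (by rw [norm_neg]; exact hw1) hw4 ?_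
    rw [inner_neg_left, h5, neg_zero]

theorem exists_nonfacial [FiniteDimensional ℝ E] {d : ℕ} (hE : finrank ℝ E = d + 1) (hd : 1 ≤ d)
    {s : Finset ι} {U : ι → Set E} (hG : GoodCov s U) :
    ∃ x : E, ‖x‖ = 1 ∧ (∃ t ⊆ s, t.card = d ∧ ∀ i ∈ t, x ∈ Bs U i) ∧
      ∀ O : Set E, IsOpen O → (∃ y ∈ O, ‖y‖ = 1 ∧ inner ℝ x y = 0) →
        ∃ y ∈ O, ‖y‖ = 1 ∧ inner ℝ x y = 0 ∧ ∃ i ∈ s, y ∈ U i := by
  classical
  set Z : Set E := {y | ∀ i ∈ s, y ∉ U i} with hZ
  have hZc : IsClosed Z := by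
    have : Z = (⋃ i ∈ s, U i)ᶜ := by
      ext y
      simp only [hZ, mem_setOf_eq, mem_compl_iff, mem_iUnion, not_exists]
    rw [this]
    exact (isOpen_biUnion (fun i _ => hG.op i)).isClosed_compl
  have hZt : Thin Z := by
    intro O hO hex
    obtain ⟨y, h1, h2, i, h3, h4⟩ := hG.dense O hO hex
    exact ⟨y, h1, h2, fun h => h i h3 h4⟩
  set T : Set E := {x | ∃ t ∈ s.powersetCard d, ∀ i ∈ t, x ∈ Bs U i} with hT
  have hTcl : IsClosed T := by
    have : T = ⋃ t ∈ (s.powersetCard d : Set (Finset ι)), ⋂ i ∈ (t : Set ι), Bs U i := by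
      ext x
      simp only [hT, mem_setOf_eq, mem_iUnion, mem_iInter, Finset.mem_coe, exists_prop]
    rw [this]
    exact (Finset.finite_toSet _).isClosed_biUnion
      (fun t _ => isClosed_biInter (fun i _ => Bs_closed U i))
  have hTnorm : ∀ x ∈ T, ‖x‖ = 1 := by
    rintro x ⟨t, ht, hx⟩
    rw [Finset.mem_powersetCard] at ht
    have : t.Nonempty := by
      rw [← Finset.card_pos, ht.2]
      omega
    obtain ⟨i, hi⟩ := this
    exact Bs_norm (hx i hi)
  have hTneg : ∀ x ∈ T, -x ∈ T := by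
    rintro x ⟨t, ht, hx⟩
    exact ⟨t, ht, fun i hi => Bs_neg (hx i hi)⟩
  have hTcomp : IsCompact T := by
    refine (isCompact_sphere (0 : E) 1).of_isClosed_subset hTcl ?_
    intro x hx
    rw [mem_sphere_zero_iff_norm]
    exact hTnorm x hx
  have hTs : CompactSpace T := isCompact_iff_compactSpace.1 hTcomp
  -- it is enough to find a point of `T` in no set `Wset`
  suffices hmain : ∃ x ∈ T, ∀ k n : ℕ,
      x ∉ Wset Z (TopologicalSpace.denseSeq E k) (1 / ((n : ℝ) + 1)) by
    obtain ⟨x, hxT, hxW⟩ := hmain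
    refine ⟨x, hTnorm x hxT, ?_, ?_⟩
    · obtain ⟨t, ht, hx⟩ := hxT
      rw [Finset.mem_powersetCard] at ht
      exact ⟨t, ht.1, ht.2, hx⟩
    · intro O hO hex
      by_contra hcon
      push Not at hcon
      obtain ⟨y, hyO, hy1, hxy⟩ := hex
      obtain ⟨ε, hε, hball⟩ := Metric.isOpen_iff.1 hO y hyO
      obtain ⟨n, hn⟩ := exists_nat_one_div_lt (show (0 : ℝ) < ε / 2 by linarith)
      have hpos : (0 : ℝ) < 1 / ((n : ℝ) + 1) := by positivity
      obtain ⟨q, hq⟩ := (TopologicalSpace.denseRange_denseSeq E).exists_dist_lt y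
        (show (0 : ℝ) < 1 / ((n : ℝ) + 1) / 2 by linarith)
      refine hxW q n ⟨hTnorm x hxT, ⟨y, hy1, hxy, hq.le⟩, ?_⟩
      intro y' hy1' hxy' hyq' i hi hyi
      refine hcon y' (hball ?_) hy1' hxy' i hi hyi
      rw [Metric.mem_ball]
      have := dist_triangle_right y' y (TopologicalSpace.denseSeq E q)
      linarith
  by_contra hcon
  push Not at hcon
  -- `T` is totally disconnected
  have hTtd : TotallyDisconnectedSpace T := by
    refine td_of_cover (ι := ℕ × ℕ) (fun p => ((↑) : T → E) ⁻¹'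
      Wset Z (TopologicalSpace.denseSeq E p.1) (1 / ((p.2 : ℝ) + 1))) ?_ ?_ ?_
    · intro p
      exact (Wset_closed hZc _ _).preimage continuous_subtype_val
    · rw [eq_univ_iff_forall]
      intro x
      obtain ⟨k, n, h⟩ := hcon x x.2
      exact mem_iUnion.2 ⟨(k, n), h⟩
    · intro p D hD hDp a ha b hb
      have h1 : ((↑) : T → E) '' D ⊆ Wset Z (TopologicalSpace.denseSeq E p.1)
          (1 / ((p.2 : ℝ) + 1)) := by
        rintro _ ⟨z, hz, rfl⟩
        exact hD hz
      have h2 : IsPreconnected (((↑) : T → E) '' D) :=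
        hDp.image _ continuous_subtype_val.continuousOn
      exact Subtype.ext (Wset_td hZt _ (by positivity) _ h1 h2 (mem_image_of_mem _ ha)
        (mem_image_of_mem _ hb))
  obtain ⟨P, hPc, hPi⟩ := exists_split (X := T) (fun x => ⟨-(x : E), hTneg x x.2⟩)
    (by fun_prop) (fun x => Subtype.ext (neg_neg _)) (by
      intro x hx
      have h1 : -(x : E) = x := congrArg Subtype.val hx
      have h2 := hTnorm x x.2
      have h3 : (x : E) = 0 := by
        have h4 : (x : E) + x = 0 := by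
          nth_rewrite 1 [← h1]
          exact neg_add_cancel _
        have h5 : (2 : ℝ) • (x : E) = 0 := by rw [two_smul, h4]
        exact (smul_eq_zero.1 h5).resolve_left (by norm_num)
      rw [h3, norm_zero] at h2
      norm_num at h2)
  set P' : Set E := ((↑) : T → E) '' P with hP'
  have hP'cl : IsClosed P' := hTcl.isClosedMap_subtype_val _ hPc.1
  have hP'T : P' ⊆ T := by
    rintro _ ⟨z, _, rfl⟩
    exact z.2
  have hP'comp : IsCompact P' := hTcomp.of_isClosed_subset hP'cl hP'T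
  have hP'1 : ∀ x ∈ T, x ∈ P' ∨ -x ∈ P' := by
    intro x hx
    by_cases h : (⟨x, hx⟩ : T) ∈ P
    · exact Or.inl ⟨_, h, rfl⟩
    · right
      by_contra h2
      apply h
      rw [hPi]
      intro h3
      exact h2 ⟨_, h3, rfl⟩
  have hP'2 : ∀ x ∈ P', -x ∉ P' := by
    rintro _ ⟨x, hx, rfl⟩ ⟨y, hy, hxy⟩
    have : y = ⟨-(x : E), hTneg x x.2⟩ := Subtype.ext hxy
    rw [this] at hy
    exact (hPi x).1 hx hy
  have hdisj : Disjoint P' (-P') := by
    rw [Set.disjoint_left]
    intro x hx hx'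
    exact hP'2 x hx hx'
  obtain ⟨δ, hδ, hdδ⟩ := hdisj.exists_cthickenings hP'comp hP'cl.neg
  have hneg_cth : ∀ x, x ∈ Metric.cthickening δ (-P') ↔ -x ∈ Metric.cthickening δ P' := by
    intro x
    rw [Metric.mem_cthickening_iff, Metric.mem_cthickening_iff]
    have : Metric.infEDist x (-P') = Metric.infEDist (-x) P' := by
      have h1 : (-P' : Set E) = (fun y : E => -y) '' P' := by
        rw [Set.image_neg_eq_neg]
      have h2 : Metric.infEDist (-(-x)) ((fun y : E => -y) '' P') = Metric.infEDist (-x) P' :=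
        Metric.infEDist_image (Φ := fun y : E => -y) (isometry_neg) 
      rw [neg_neg] at h2
      rw [h1, h2]
    rw [this]
  -- base points
  have hbase : ∀ i, ∃ a : E, (∃ y ∈ Bs U i, True) → a ∈ U i ∧ ‖a‖ = 1 := by
    intro i
    by_cases h : ∃ y ∈ U i, ‖y‖ = 1
    · obtain ⟨y, hy⟩ := h
      exact ⟨y, fun _ => hy⟩
    · refine ⟨0, ?_⟩
      rintro ⟨y, hy, _⟩
      exfalso
      have hem : {x : E | ‖x‖ = 1 ∧ (x ∈ U i ∨ -x ∈ U i)} = ∅ := by
        rw [eq_empty_iff_forall_notMem]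
        rintro z ⟨hz1, hz2 | hz2⟩
        · exact h ⟨z, hz2, hz1⟩
        · exact h ⟨-z, hz2, by rw [norm_neg]; exact hz1⟩
      unfold Bs at hy
      rw [hem, closure_empty] at hy
      exact hy
  choose a ha using hbase
  have hane : ∀ i (y : E), y ∈ Bs U i → inner ℝ (a i) y ≠ 0 := by
    intro i y hy
    obtain ⟨h1, h2⟩ := ha i ⟨y, hy, trivial⟩
    rw [real_inner_comm]
    exact Bs_orth hG.op hG.orth hy h1 h2
  have hBcov : ∀ x : E, ‖x‖ = 1 → ∃ i ∈ s, x ∈ Bs U i := by
    intro x hx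
    by_contra h
    push Not at h
    have hop : IsOpen (⋂ i ∈ s, (Bs U i)ᶜ) :=
      isOpen_biInter_finset (fun i _ => (Bs_closed U i).isOpen_compl)
    obtain ⟨y, hy, hy1, i, hi, hyi⟩ := hG.dense _ hop ⟨x, mem_iInter₂.2 h, hx⟩
    exact (mem_iInter₂.1 hy i hi) (subset_closure ⟨hy1, Or.inl hyi⟩)
  let C : Option s → Set E := fun o => match o with
    | none => Metric.cthickening δ P'
    | some i => (Bs U i ∩ {y | 0 ≤ inner ℝ (a i) y}) ∩
        (Metric.thickening δ P' ∪ Metric.thickening δ (-P'))ᶜ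
  have hsym : ∀ x, x ∈ Metric.thickening δ P' ∪ Metric.thickening δ (-P') →
      -x ∈ Metric.thickening δ P' ∪ Metric.thickening δ (-P') := by
    have hnegt : ∀ x, x ∈ Metric.thickening δ P' → -x ∈ Metric.thickening δ (-P') := by
      intro x hx
      rw [Metric.mem_thickening_iff] at hx ⊢
      obtain ⟨z, hz, hxz⟩ := hx
      refine ⟨-z, by rwa [Set.neg_mem_neg], by rwa [dist_neg_neg]⟩
    have hnegt' : ∀ x, x ∈ Metric.thickening δ (-P') → -x ∈ Metric.thickening δ P' := by
      intro x hx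
      rw [Metric.mem_thickening_iff] at hx ⊢
      obtain ⟨z, hz, hxz⟩ := hx
      exact ⟨-z, hz, by rwa [dist_neg_neg]⟩
    rintro x (hx | hx)
    · exact Or.inr (hnegt x hx)
    · exact Or.inl (hnegt' x hx)
  obtain ⟨x, hx, t', ht', hxt⟩ := fan_sphere d hE C
    (by
      rintro (_ | i)
      · exact Metric.isClosed_cthickening
      · refine IsClosed.inter (IsClosed.inter (Bs_closed U i) ?_) ?_
        · exact isClosed_le (g := fun y => inner ℝ (a i) y) continuous_const
            (continuous_const.inner continuous_id)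
        · exact (Metric.isOpen_thickening.union Metric.isOpen_thickening).isClosed_compl)
    (by
      rintro (_ | i) y hy h1 h2
      · have h3 : y ∈ Metric.cthickening δ (-P') := (hneg_cth y).2 h2
        exact Set.disjoint_left.1 hdδ h1 h3
      · have h3 : 0 ≤ inner ℝ (a i) y := h1.1.2
        have h4 : 0 ≤ inner ℝ (a i) (-y) := h2.1.2
        rw [inner_neg_right] at h4
        exact hane i y h1.1.1 (by linarith))
    (by
      intro y hy
      by_cases hyt : y ∈ Metric.thickening δ P' ∪ Metric.thickening δ (-P')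
      · refine ⟨none, ?_⟩
        rcases hyt with h | h
        · exact Or.inl (Metric.thickening_subset_cthickening _ _ h)
        · exact Or.inr ((hneg_cth y).1 (Metric.thickening_subset_cthickening _ _ h))
      · obtain ⟨i, hi, hyi⟩ := hBcov y hy
        refine ⟨some ⟨i, hi⟩, ?_⟩
        rcases le_total 0 (inner ℝ (a i) y) with h | h
        · exact Or.inl ⟨⟨hyi, h⟩, hyt⟩
        · refine Or.inr ⟨⟨Bs_neg hyi, ?_⟩, ?_⟩
          · show 0 ≤ inner ℝ (a i) (-y)
            rw [inner_neg_right]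
            linarith
          · intro h2
            apply hyt
            have := hsym _ h2
            rwa [neg_neg] at this)
  -- the indices of the old sets
  set t : Finset ι := (t'.eraseNone).map ⟨Subtype.val, Subtype.val_injective⟩ with ht
  have htc : d ≤ t.card := by
    rw [ht, Finset.card_map]
    have h1 : t'.card ≤ t'.eraseNone.card + 1 := by
      have h2 : t' ⊆ insert none (t'.eraseNone.map Function.Embedding.some) := by
        intro o ho
        rcases o with _ | i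
        · exact Finset.mem_insert_self _ _
        · refine Finset.mem_insert_of_mem ?_
          rw [Finset.mem_map]
          exact ⟨i, Finset.mem_eraseNone.2 ho, rfl⟩
      calc t'.card ≤ _ := Finset.card_le_card h2
        _ ≤ (t'.eraseNone.map Function.Embedding.some).card + 1 := Finset.card_insert_le _ _
        _ = _ := by rw [Finset.card_map]
    omega
  have hts : t ⊆ s := by
    intro i hi
    rw [ht, Finset.mem_map] at hi
    obtain ⟨j, _, rfl⟩ := hi
    exact j.2
  have htx : ∀ i ∈ t, x ∈ Bs U i ∧ x ∉ Metric.thickening δ P' ∪ Metric.thickening δ (-P') := by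
    intro i hi
    rw [ht, Finset.mem_map] at hi
    obtain ⟨j, hj, rfl⟩ := hi
    rw [Finset.mem_eraseNone] at hj
    rcases hxt _ hj with h | h
    · exact ⟨h.1.1, h.2⟩
    · refine ⟨?_, fun h2 => h.2 (hsym _ h2)⟩
      have := Bs_neg h.1.1
      rwa [neg_neg] at this
  obtain ⟨t0, ht0, ht0c⟩ := Finset.exists_subset_card_eq htc
  have hxT : x ∈ T := by
    refine ⟨t0, ?_, fun i hi => (htx i (ht0 hi)).1⟩
    rw [Finset.mem_powersetCard]
    exact ⟨ht0.trans hts, ht0c⟩
  have htne : t.Nonempty := by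
    rw [← Finset.card_pos]
    omega
  obtain ⟨i, hi⟩ := htne
  apply (htx i hi).2
  rcases hP'1 x hxT with h | h
  · exact Or.inl (Metric.self_subset_thickening hδ _ h)
  · right
    have h' : x ∈ -P' := h
    exact Metric.self_subset_thickening hδ _ h'

/-- Open sets without orthogonal pairs with union dense in the sphere of a space of dimension `d`:
there are at least `1 + d (d - 1) / 2` of them. -/
theorem open_cover (d : ℕ) {E : Type*} [NormedAddCommGroup E] [InnerProductSpace ℝ E]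
    [FiniteDimensional ℝ E] (hE : finrank ℝ E = d + 1) {ι : Type*} (s : Finset ι)
    (U : ι → Set E) (hG : GoodCov s U) : 2 + d * (d + 1) ≤ 2 * s.card := by
  classical
  induction d generalizing E s with
  | zero =>
    have hne : ∃ y : E, ‖y‖ = 1 := by
      have : Nontrivial E := Module.nontrivial_of_finrank_pos (R := ℝ) (by rw [hE]; norm_num)
      exact exists_norm_eq E zero_le_one
    obtain ⟨y, hy⟩ := hne
    obtain ⟨_, _, _, i, hi, _⟩ := hG.dense univ isOpen_univ ⟨y, trivial, hy⟩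
    have := Finset.card_pos.2 ⟨i, hi⟩
    omega
  | succ d ih =>
    obtain ⟨x, hx, ⟨t, hts, htc, hxB⟩, hdense⟩ := exists_nonfacial hE (by omega) hG
    have hx0 : x ≠ 0 := by
      intro h
      rw [h, norm_zero] at hx
      norm_num at hx
    have hfr : finrank ℝ (ℝ ∙ x)ᗮ = d + 1 := by
      have h1 := Submodule.finrank_add_finrank_orthogonal (ℝ ∙ x)
      rw [finrank_span_singleton hx0, hE] at h1
      omega
    have hxy : ∀ y : (ℝ ∙ x)ᗮ, inner ℝ x (y : E) = 0 := by
      intro y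
      have := y.2
      rw [Submodule.mem_orthogonal_singleton_iff_inner_right] at this
      exact this
    have hih := ih hfr (s \ t) (fun i => ((↑) : (ℝ ∙ x)ᗮ → E) ⁻¹' U i)
      ⟨fun i => (hG.op i).preimage continuous_subtype_val,
        fun i y hy z hz hy1 hz1 => hG.orth i _ hy _ hz hy1 hz1, by
        intro O hO hex
        obtain ⟨O', hO', rfl⟩ := isOpen_induced_iff.1 hO
        obtain ⟨y, hyO, hy1⟩ := hex
        obtain ⟨z, hzO, hz1, hxz, i, hi, hzi⟩ := hdense O' hO' ⟨y, hyO, hy1, hxy y⟩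
        have hzmem : z ∈ (ℝ ∙ x)ᗮ := by
          rw [Submodule.mem_orthogonal_singleton_iff_inner_right]
          exact hxz
        refine ⟨⟨z, hzmem⟩, hzO, hz1, i, ?_, hzi⟩
        rw [Finset.mem_sdiff]
        refine ⟨hi, fun hit => ?_⟩
        exact Bs_orth hG.op hG.orth (hxB i hit) hzi hz1 hxz⟩
    rw [Finset.card_sdiff_of_subset hts, htc] at hih
    have hle : t.card ≤ s.card := Finset.card_le_card hts
    rw [htc] at hle
    have : (d + 1) * (d + 1 + 1) = d * (d + 1) + 2 * (d + 1) := by ring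
    omega

end Pool.Agent.OrthoFan
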