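import Pool.Agent.H.MP_ef93d4_co.h56.Chain

/-!
# Counting alternating simplices

Labels are natural numbers; `2 i` stands for `+i` and `2 i + 1` for `-i`.
-/

namespace Pool.Agent.OrthoFan

/-- The sum of `F` over all lists that arise by deleting one entry. -/
def dsum {A : Type*} (F : List A → ZMod 2) : List A → ZMod 2
  | [] => 0
  | b :: l => F l + dsum (fun t => F (b :: t)) l

theorem dsum_congr {A : Type*} {F G : List A → ZMod 2} {l : List A}
    (h : ∀ t, t.Sublist l → F t = G t) : dsum F l = dsum G l := by
  induction l generalizing F G with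
  | nil => rfl
  | cons b l ih =>
    simp only [dsum]
    rw [h l (List.sublist_cons_self b l), ih (fun t ht => h _ (ht.cons_cons b))]

theorem dsum_zero {A : Type*} (l : List A) : dsum (fun _ => 0) l = 0 := by
  induction l with
  | nil => rfl
  | cons b l ih =>
    simp only [dsum]
    rw [ih, add_zero]

theorem dsum_perm {A : Type*} {l l' : List A} (h : l.Perm l') :
    ∀ F : List A → ZMod 2, (∀ t t' : List A, t.Perm t' → F t = F t') → dsum F l = dsum F l' := by
  induction h with
  | nil => intro F _; rfl
  | cons x h ih =>
    intro F hF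
    simp only [dsum]
    rw [hF _ _ h, ih _ (fun t t' ht => hF _ _ (ht.cons x))]
  | swap x y l =>
    intro F hF
    simp only [dsum]
    have : (fun t => F (x :: y :: t)) = (fun t => F (y :: x :: t)) := by
      funext t
      exact hF _ _ (List.Perm.swap y x t)
    rw [this]
    ring
  | trans _ _ ih1 ih2 =>
    intro F hF
    rw [ih1 F hF, ih2 F hF]

/-- A list of labels alternates, starting with parity `p`, with increasing absolute values. -/
def alt (p : ℕ) : List ℕ → Prop
  | [] => True
  | x :: l => x % 2 = p % 2 ∧ (∀ y ∈ l, x / 2 < y / 2) ∧ alt (p + 1) l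

instance decAlt : ∀ (p : ℕ) (l : List ℕ), Decidable (alt p l)
  | _, [] => isTrue trivial
  | p, x :: l => by
    unfold alt
    have := decAlt (p + 1) l
    infer_instance

/-- The indicator function of `alt`. -/
def good (p : ℕ) (l : List ℕ) : ZMod 2 := if alt p l then 1 else 0

theorem alt_mod (p q : ℕ) (h : p % 2 = q % 2) (l : List ℕ) : alt p l ↔ alt q l := by
  induction l generalizing p q with
  | nil => exact Iff.rfl
  | cons x l ih =>
    unfold alt
    rw [h, ih (p + 1) (q + 1) (by omega)]

theorem good_mod (p q : ℕ) (h : p % 2 = q % 2) (l : List ℕ) : good p l = good q l := by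
  unfold good
  simp only [alt_mod p q h l]

theorem good_cons (p x : ℕ) (l : List ℕ) : good p (x :: l) =
    if x % 2 = p % 2 ∧ (∀ y ∈ l, x / 2 < y / 2) then good (p + 1) l else 0 := by
  unfold good
  by_cases h1 : x % 2 = p % 2 ∧ (∀ y ∈ l, x / 2 < y / 2)
  · rw [if_pos h1]
    by_cases h2 : alt (p + 1) l
    · rw [if_pos h2, if_pos ⟨h1.1, h1.2, h2⟩]
    · rw [if_neg h2, if_neg (fun h => h2 h.2.2)]
  · rw [if_neg h1, if_neg (fun h => h1 ⟨h.1, h.2.1⟩)]

theorem good_dup (p x : ℕ) (l : List ℕ) : good p (x :: x :: l) = 0 := by
  rw [good_cons, if_neg]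
  intro h
  exact lt_irrefl _ (h.2 x (List.mem_cons_self))

/-- The key parity identity for sorted lists of labels without complementary pair. -/
theorem dsum_good (p : ℕ) (l : List ℕ) (hs : l.Pairwise (· ≤ ·))
    (hc : ∀ x ∈ l, ∀ y ∈ l, x / 2 = y / 2 → x = y) (hne : l ≠ []) :
    dsum (good p) l = good p l + good (p + 1) l := by
  induction l generalizing p with
  | nil => exact absurd rfl hne
  | cons x l ih =>
    rw [List.pairwise_cons] at hs
    rcases l with _ | ⟨y, l⟩
    · simp only [dsum, good_cons]
      unfold good
      simp only [alt]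
      rcases Nat.mod_two_eq_zero_or_one x with h | h <;>
        rcases Nat.mod_two_eq_zero_or_one p with h' | h' <;>
        simp [h, h', Nat.add_mod]
    · by_cases hxy : x / 2 < y / 2
      · have hlt : ∀ z ∈ y :: l, x / 2 < z / 2 := by
          intro z hz
          rcases List.mem_cons.1 hz with rfl | hz
          · exact hxy
          · have h1 : y ≤ z := (List.pairwise_cons.1 hs.2).1 z hz
            exact lt_of_lt_of_le hxy (Nat.div_le_div_right h1)
        have ih' := fun q => ih q hs.2 (fun a ha b hb => hc a (List.mem_cons_of_mem x ha) b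
          (List.mem_cons_of_mem x hb)) (by simp)
        have key : dsum (fun t => good p (x :: t)) (y :: l) =
            if x % 2 = p % 2 then dsum (good (p + 1)) (y :: l) else 0 := by
          by_cases hp : x % 2 = p % 2
          · rw [if_pos hp]
            apply dsum_congr
            intro t ht
            rw [good_cons, if_pos ⟨hp, fun z hz => hlt z (ht.subset hz)⟩]
          · rw [if_neg hp, ← dsum_zero (y :: l)]
            apply dsum_congr
            intro t _
            rw [good_cons, if_neg (fun h => hp h.1)]
        have e1 : dsum (good p) (x :: y :: l) = good p (y :: l) +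
            dsum (fun t => good p (x :: t)) (y :: l) := rfl
        rw [e1, key, ih' (p + 1), good_cons p x, good_cons (p + 1) x]
        have h3 : good (p + 1 + 1) (y :: l) = good p (y :: l) := good_mod _ _ (by omega) _
        by_cases hp : x % 2 = p % 2
        · rw [if_pos hp, if_pos ⟨hp, hlt⟩, if_neg (by omega), h3]
          have : ∀ a b : ZMod 2, a + (b + a) = b + 0 := by decide
          exact this _ _
        · rw [if_neg hp, if_neg (fun h => hp h.1), if_pos ⟨by omega, hlt⟩, h3]
          ring
      · have h1 : x ≤ y := hs.1 y (List.mem_cons_self)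
        have h2 : x / 2 = y / 2 := le_antisymm (Nat.div_le_div_right h1) (not_lt.1 hxy)
        have h3 : x = y := hc x (List.mem_cons_self) y
          (List.mem_cons_of_mem x (List.mem_cons_self)) h2
        subst h3
        have e1 : dsum (good p) (x :: x :: l) = good p (x :: l) + (good p (x :: l) +
            dsum (fun t => good p (x :: x :: t)) l) := rfl
        have e2 : dsum (fun t => good p (x :: x :: t)) l = 0 := by
          rw [← dsum_zero l]
          apply dsum_congr
          intro t _
          exact good_dup p x t
        rw [e1, e2, good_dup, good_dup]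
        have : ∀ a : ZMod 2, a + (a + 0) = 0 + 0 := by decide
        exact this _

/-- `good` of the sorted list. -/
noncomputable def gs (p : ℕ) (l : List ℕ) : ZMod 2 := good p (l.insertionSort (· ≤ ·))

theorem gs_perm (p : ℕ) {l l' : List ℕ} (h : l.Perm l') : gs p l = gs p l' := by
  unfold gs
  congr 1
  apply List.Perm.eq_of_pairwise (le := (· ≤ ·))
  · intro a b _ _ h1 h2
    exact le_antisymm h1 h2
  · exact List.pairwise_insertionSort _ _
  · exact List.pairwise_insertionSort _ _
  · exact (List.perm_insertionSort _ l).trans (h.trans (List.perm_insertionSort _ l').symm)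

theorem gs_sorted (p : ℕ) {l : List ℕ} (h : l.Pairwise (· ≤ ·)) : gs p l = good p l := by
  unfold gs
  rw [List.Pairwise.insertionSort_eq h]

theorem dsum_gs (p : ℕ) (l : List ℕ)
    (hc : ∀ x ∈ l, ∀ y ∈ l, x / 2 = y / 2 → x = y) (hne : l ≠ []) :
    dsum (gs p) l = gs p l + gs (p + 1) l := by
  set M := l.insertionSort (· ≤ ·) with hM
  have hMs : M.Pairwise (· ≤ ·) := List.pairwise_insertionSort _ _
  have hp : l.Perm M := (List.perm_insertionSort _ l).symm
  rw [dsum_perm hp (gs p) (fun t t' h => gs_perm p h)]
  rw [dsum_congr (G := good p) (fun t ht => gs_sorted p (hMs.sublist ht))]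
  rw [dsum_good p M hMs (fun x hx y hy => hc x (hp.mem_iff.2 hx) y (hp.mem_iff.2 hy)) ?_]
  · unfold gs
    rfl
  · intro h
    rw [h] at hp
    exact hne hp.eq_nil

/-- An alternating list of labels has pairwise distinct absolute values. -/
theorem alt_nodup (p : ℕ) (l : List ℕ) (h : alt p l) : (l.map (fun x => x / 2)).Nodup := by
  induction l generalizing p with
  | nil => simp
  | cons x l ih =>
    rw [List.map_cons, List.nodup_cons]
    refine ⟨?_, ih _ h.2.2⟩
    intro hmem
    rw [List.mem_map] at hmem
    obtain ⟨y, hy, hxy⟩ := hmem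
    have := h.2.1 y hy
    omega

theorem gs_nodup (p : ℕ) (l : List ℕ) (h : gs p l ≠ 0) : (l.map (fun x => x / 2)).Nodup := by
  unfold gs good at h
  split_ifs at h with h1
  · have h2 := alt_nodup p _ h1
    exact (((List.perm_insertionSort _ l).map _).nodup_iff).1 h2
  · exact absurd rfl h

/-- Changing all signs. -/
def fl (x : ℕ) : ℕ := if x % 2 = 0 then x + 1 else x - 1

theorem fl_div (x : ℕ) : fl x / 2 = x / 2 := by
  unfold fl
  split_ifs <;> omega

theorem fl_mod (x : ℕ) : fl x % 2 = (x + 1) % 2 := by
  unfold fl
  split_ifs <;> omega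

theorem alt_fl (p : ℕ) (l : List ℕ) : alt p (l.map fl) ↔ alt (p + 1) l := by
  induction l generalizing p with
  | nil => exact Iff.rfl
  | cons x l ih =>
    rw [List.map_cons]
    unfold alt
    rw [ih (p + 1), fl_div, fl_mod]
    refine and_congr (by omega) (and_congr ?_ Iff.rfl)
    constructor
    · intro h y hy
      have := h (fl y) (List.mem_map_of_mem hy)
      rwa [fl_div] at this
    · intro h y hy
      rw [List.mem_map] at hy
      obtain ⟨z, hz, rfl⟩ := hy
      rw [fl_div]
      exact h z hz

/-- `good` of the sorted list, by existence of an alternating reordering. -/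
theorem gs_eq (p : ℕ) (l : List ℕ) : gs p l = 1 ↔ ∃ M : List ℕ, alt p M ∧ M.Perm l := by
  unfold gs good
  constructor
  · intro h
    split_ifs at h with h1
    · exact ⟨_, h1, List.perm_insertionSort _ l⟩
    · exact absurd h (by decide)
  · rintro ⟨M, hM, hp⟩
    have hsort : M.Pairwise (· ≤ ·) := by
      clear hp
      induction M generalizing p with
      | nil => exact List.Pairwise.nil
      | cons x M ih =>
        rw [List.pairwise_cons]
        refine ⟨fun y hy => ?_, ih (p + 1) hM.2.2⟩
        have := hM.2.1 y hy
        omega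
    have : l.insertionSort (· ≤ ·) = M := by
      apply List.Perm.eq_of_pairwise (le := (· ≤ ·))
      · intro a b _ _ h1 h2
        exact le_antisymm h1 h2
      · exact List.pairwise_insertionSort _ _
      · exact hsort
      · exact (List.perm_insertionSort _ l).trans hp.symm
    rw [this, if_pos hM]

theorem gs_fl (p : ℕ) (l : List ℕ) : gs p (l.map fl) = gs (p + 1) l := by
  have h : gs p (l.map fl) = 1 ↔ gs (p + 1) l = 1 := by
    rw [gs_eq, gs_eq]
    constructor
    · rintro ⟨M, hM, hp⟩
      refine ⟨M.map fl, (alt_fl (p + 1) M).2 ((alt_mod _ _ (by omega) M).1 hM), ?_⟩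
      have := hp.map fl
      refine this.trans ?_
      rw [List.map_map]
      have : fl ∘ fl = id := by
        funext x
        simp only [Function.comp, fl, id]
        split_ifs <;> omega
      rw [this, List.map_id]
    · rintro ⟨M, hM, hp⟩
      exact ⟨M.map fl, (alt_fl p M).2 hM, hp.map fl⟩
  have h2 : ∀ a b : ZMod 2, (a = 1 ↔ b = 1) → a = b := by decide
  exact h2 _ _ h

variable {V : Type*}

/-- The number modulo 2 of alternating simplices. -/
noncomputable def al (f : V → ℕ) (p : ℕ) : Ch V →ₗ[ZMod 2] ZMod 2 := lin (fun l => gs p (l.map f))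

theorem lin_bd (F : List V → ZMod 2) (l : List V) : lin F (bd l) = dsum F l := by
  induction l generalizing F with
  | nil => simp [bd, dsum]
  | cons b l ih =>
    rw [bd, map_add, lin_one, dsum, ← ih (fun t => F (b :: t))]
    congr 1
    have h : (lin F ∘ₗ cone b : Ch V →ₗ[ZMod 2] ZMod 2) = lin (fun t => F (b :: t)) := by
      apply hom_ext
      intro l
      simp only [LinearMap.comp_apply, cone_one, lin_one]
    exact LinearMap.congr_fun h _

theorem dsum_map (f : V → ℕ) (F : List ℕ → ZMod 2) (l : List V) :
    dsum (fun t => F (t.map f)) l = dsum F (l.map f) := by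
  induction l generalizing F with
  | nil => rfl
  | cons b l ih =>
    simp only [dsum, List.map_cons]
    rw [ih (fun t => F (f b :: t))]

/-- The parity identity for a chain without complementary edges. -/
theorem al_D (f : V → ℕ) (p : ℕ) {c : Ch V}
    (hc : On (fun l => l ≠ [] ∧ ∀ x ∈ l, ∀ y ∈ l, f x / 2 = f y / 2 → f x = f y) c) :
    al f p (D c) = al f p c + al f (p + 1) c := by
  have h := lin_congr (f := al f p ∘ₗ D) (g := al f p + al f (p + 1)) (P := _) ?_ hc
  · simpa only [LinearMap.comp_apply, LinearMap.add_apply] using h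
  · intro l hl
    simp only [LinearMap.comp_apply, LinearMap.add_apply, D_one]
    unfold al
    rw [lin_bd, lin_one, lin_one, dsum_map f (gs p) l]
    apply dsum_gs
    · intro x hx y hy hxy
      rw [List.mem_map] at hx hy
      obtain ⟨a, ha, rfl⟩ := hx
      obtain ⟨b, hb, rfl⟩ := hy
      exact hl.2 a ha b hb hxy
    · intro h0
      exact hl.1 (List.map_eq_nil_iff.1 h0)

theorem al_nu [Neg V] (f : V → ℕ) (p : ℕ) {c : Ch V}
    (hc : On (fun l => ∀ x ∈ l, f (-x) = fl (f x)) c) :
    al f p (nu c) = al f (p + 1) c := by
  have h := lin_congr (f := al f p ∘ₗ nu) (g := al f (p + 1)) (P := _) ?_ hc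
  · simpa only [LinearMap.comp_apply] using h
  · intro l hl
    simp only [LinearMap.comp_apply, nu_one]
    unfold al
    rw [lin_one, lin_one, List.map_map, ← gs_fl]
    rw [List.map_map]
    congr 1
    apply List.map_congr_left
    intro x hx
    exact hl x hx

theorem al_mod (f : V → ℕ) (p q : ℕ) (h : p % 2 = q % 2) (c : Ch V) : al f p c = al f q c := by
  have : al f p = al f q := by
    apply hom_ext
    intro l
    unfold al
    rw [lin_one, lin_one]
    unfold gs
    exact good_mod p q h _
  rw [this]

end Pool.Agent.OrthoFan
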