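import Pool.Agent.H.MP_ef93d4_co.h56.Equator
import Pool.Agent.H.MP_ef93d4_co.h56.NotTd

/-!
# Rigidity of open four-colourings of the two-dimensional sphere
-/

namespace Pool.Agent.OrthoFan

open Set Filter Topology Module

variable {E : Type*} [NormedAddCommGroup E] [InnerProductSpace ℝ E] {ι : Type*}

/-- The four closed pairs of opposite octants, in coordinates. -/
def oct (i : Fin 4) (f g h : ℝ) : Prop :=
  match i with
  | 0 => 0 ≤ f * g ∧ 0 ≤ g * h ∧ 0 ≤ f * h
  | 1 => f * g ≤ 0 ∧ 0 ≤ g * h ∧ f * h ≤ 0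
  | 2 => f * g ≤ 0 ∧ g * h ≤ 0 ∧ 0 ≤ f * h
  | 3 => 0 ≤ f * g ∧ g * h ≤ 0 ∧ f * h ≤ 0

/-- Orthonormal triples. -/
structure Frame (a b c : E) : Prop where
  na : ‖a‖ = 1
  nb : ‖b‖ = 1
  nc : ‖c‖ = 1
  ab : inner ℝ a b = 0
  bc : inner ℝ b c = 0
  ac : inner ℝ a c = 0

/-- The frame is adapted to the four colours `e 0, …, e 3` on `Q`. -/
def Adp (V : ι → Set E) (e : Fin 4 → ι) (Q : Set E) (a b c : E) : Prop :=
  ∀ i, ∀ u ∈ Q, ‖u‖ = 1 → u ∈ V (e i) → oct i (inner ℝ u a) (inner ℝ u b) (inner ℝ u c)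

/-- The directions of colour `j`. -/
def Omg (V : ι → Set E) (a : E) (j : ι) : Set E := {m | ‖m‖ = 1 ∧ inner ℝ m a = 0 ∧ Om V a j m}

theorem Om_pos {s : Finset ι} {V : ι → Set E} (hG : RegCov s V) {a : E} (ha : ‖a‖ = 1) {j : ι}
    {m m' : E} (hm : m ∈ Omg V a j) (hm' : m' ∈ Omg V a j) : 0 < inner ℝ m m' := by
  have haa : inner ℝ a a = 1 := by rw [real_inner_self_eq_norm_sq, ha, one_pow]
  obtain ⟨hm1, hma, O, hO, hmO, hOV⟩ := hm
  obtain ⟨hm'1, hm'a, O', hO', hm'O, hO'V⟩ := hm'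
  have ham : inner ℝ a m = 0 := by rw [real_inner_comm]; exact hma
  have key : ∀ m'' ∈ O', inner ℝ m'' a = 0 → ¬ inner ℝ m m'' < 0 := by
    intro m'' hm'' hm''a hlt
    set μ := -inner ℝ m m'' with hμ
    have hμ0 : 0 < μ := by linarith
    have ham'' : inner ℝ a m'' = 0 := by rw [real_inner_comm]; exact hm''a
    have hne1 : (1 : ℝ) • m + (1 : ℝ) • a ≠ 0 := by
      intro h
      have := congrArg (fun z => inner ℝ z a) h
      simp only [inner_add_left, real_inner_smul_left, hma, haa, inner_zero_left] at this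
      norm_num at this
    have hne2 : (1 : ℝ) • m'' + μ • a ≠ 0 := by
      intro h
      have := congrArg (fun z => inner ℝ z a) h
      simp only [inner_add_left, real_inner_smul_left, hm''a, haa, inner_zero_left] at this
      linarith
    have hp1 := inv_pos.2 (norm_pos_iff.2 hne1)
    have hp2 := inv_pos.2 (norm_pos_iff.2 hne2)
    have h1 := hOV m hmO hma (‖(1 : ℝ) • m + (1 : ℝ) • a‖⁻¹ * 1)
      (‖(1 : ℝ) • m + (1 : ℝ) • a‖⁻¹ * 1) (by rw [mul_one]; exact hp1)
      (by rw [mul_one]; exact hp1) (by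
        rw [mul_smul, mul_smul, ← smul_add]
        exact norm_unit hne1)
    have h2 := hO'V m'' hm'' hm''a (‖(1 : ℝ) • m'' + μ • a‖⁻¹ * 1)
      (‖(1 : ℝ) • m'' + μ • a‖⁻¹ * μ) (by rw [mul_one]; exact hp2)
      (mul_pos hp2 hμ0) (by
        rw [mul_smul, mul_smul, ← smul_add]
        exact norm_unit hne2)
    rw [mul_smul, mul_smul, ← smul_add] at h1
    rw [mul_smul, mul_smul, ← smul_add] at h2
    refine hG.orth j _ h1 _ h2 (norm_unit hne1) (norm_unit hne2) ?_
    rw [real_inner_smul_left, inner_smul_right, inner_add_left, inner_add_right, inner_add_right,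
      real_inner_smul_left, real_inner_smul_left, inner_smul_right, inner_smul_right,
      inner_smul_right, real_inner_smul_left, real_inner_smul_left, inner_smul_right, hma, haa,
      ham'', hμ]
    ring
  rcases lt_trichotomy 0 (inner ℝ m m') with h | h | h
  · exact h
  · exfalso
    have hc : Tendsto (fun ε : ℝ => m' - ε • m) (𝓝[>] 0) (𝓝 m') := by
      have : Continuous (fun ε : ℝ => m' - ε • m) := by fun_prop
      have h2 := this.tendsto 0
      simp only [zero_smul, sub_zero] at h2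
      exact h2.mono_left nhdsWithin_le_nhds
    obtain ⟨ε, hε1, hε2⟩ := ((hc.eventually (hO'.mem_nhds hm'O)).and self_mem_nhdsWithin).exists
    have hε0 : 0 < ε := hε2
    refine key _ hε1 ?_ ?_
    · rw [inner_sub_left, real_inner_smul_left, hma, hm'a]
      ring
    · rw [inner_sub_right, inner_smul_right, ← h, real_inner_self_eq_norm_sq, hm1]
      linarith
  · exact absurd h (key m' hm'O hm'a)

theorem half {s : Finset ι} {V : ι → Set E} (hG : RegCov s V) {a : E} (ha : ‖a‖ = 1) {j : ι}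
    {m b : E} (hm : m ∈ Omg V a j) (hb : b ∈ closure (Omg V a j)) : 0 ≤ inner ℝ m b := by
  have hcl : IsClosed {b : E | 0 ≤ inner ℝ m b} := isClosed_le continuous_const (by fun_prop)
  exact closure_minimal (fun m' hm' => (Om_pos hG ha hm hm').le) hcl hb

section

variable [FiniteDimensional ℝ E]

theorem approach (hE : finrank ℝ E = 3) {s : Finset ι} (hs : s.card = 4) {V : ι → Set E}
    (hG : RegCov s V) {a : E} (ha : ‖a‖ = 1)
    (hex : ∀ j ∈ s, ∃ e : E, ‖e‖ = 1 ∧ inner ℝ e a = 0 ∧ Om V a j e) {p q : E} (hp : ‖p‖ = 1)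
    (hq : ‖q‖ = 1) (hpq : inner ℝ p q = 0) (hpa : inner ℝ p a = 0) (hqa : inner ℝ q a = 0)
    {O : Set E} (hO : IsOpen O) (hpO : p ∈ O) :
    ∃ m ∈ O, 0 < inner ℝ m p ∧ 0 < inner ℝ m q ∧ ∃ j ∈ s, m ∈ Omg V a j := by
  have ho1 : IsOpen {m : E | 0 < inner ℝ m p} := isOpen_lt continuous_const (by fun_prop)
  have ho2 : IsOpen {m : E | 0 < inner ℝ m q} := isOpen_lt continuous_const (by fun_prop)
  have hpp : inner ℝ p p = 1 := by rw [real_inner_self_eq_norm_sq, hp, one_pow]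
  have hqq : inner ℝ q q = 1 := by rw [real_inner_self_eq_norm_sq, hq, one_pow]
  have hqp : inner ℝ q p = 0 := by rw [real_inner_comm]; exact hpq
  have ht := (tilt p q hp).eventually ((hO.inter ho1).mem_nhds ⟨hpO, by
    show 0 < inner ℝ p p
    rw [hpp]
    norm_num⟩)
  obtain ⟨ε, ⟨hε1, hε3⟩, hε2⟩ := (ht.and self_mem_nhdsWithin).exists
  have hε0 : 0 < ε := hε2
  have hne : p + ε • q ≠ 0 := by
    intro h
    have := congrArg (fun z => inner ℝ z p) h
    simp only [inner_add_left, real_inner_smul_left, hpp, hqp, inner_zero_left] at this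
    norm_num at this
  have hps := inv_pos.2 (norm_pos_iff.2 hne)
  obtain ⟨m, ⟨⟨hmO, hm1⟩, hm2⟩, hmn, hma, j, hj, hmj⟩ := Om_dense hE hs hG ha hex
    ((hO.inter ho1).inter ho2) (q := ‖p + ε • q‖⁻¹ • (p + ε • q)) ⟨⟨hε1, hε3⟩, by
      show 0 < inner ℝ (‖p + ε • q‖⁻¹ • (p + ε • q)) q
      rw [real_inner_smul_left, inner_add_left, real_inner_smul_left, hpq, hqq]
      exact mul_pos hps (by linarith)⟩ (norm_unit hne) (by
      rw [real_inner_smul_left, inner_add_left, real_inner_smul_left, hpa, hqa]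
      ring)
  exact ⟨m, hmO, hm1, hm2, j, hj, hmn, hma, hmj⟩

/-- The four classes of directions are the quadrants of an orthonormal pair. -/
theorem quadrants_aux (hE : finrank ℝ E = 3) {s : Finset ι} (hs : s.card = 4) {V : ι → Set E}
    (hG : RegCov s V) {a : E} (ha : ‖a‖ = 1)
    (hex : ∀ j ∈ s, ∃ e : E, ‖e‖ = 1 ∧ inner ℝ e a = 0 ∧ Om V a j e) {b c : E} (hb : ‖b‖ = 1)
    (hc : ‖c‖ = 1) (hbc : inner ℝ b c = 0) (hba : inner ℝ b a = 0) (hca : inner ℝ c a = 0)
    {j1 j2 j3 j4 : ι} (hj1 : j1 ∈ s) (hj2 : j2 ∈ s) (hj3 : j3 ∈ s) (hj4 : j4 ∈ s)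
    (h12 : j1 ≠ j2) (h31 : j3 ≠ j1) (h32 : j3 ≠ j2) (h41 : j4 ≠ j1) (h42 : j4 ≠ j2)
    (h34 : j3 ≠ j4) (hall : ∀ m ∈ s, m = j1 ∨ m = j2 ∨ m = j3 ∨ m = j4)
    (hb1 : b ∈ closure (Omg V a j1)) (hb2 : b ∈ closure (Omg V a j2))
    (hc3 : c ∈ closure (Omg V a j3)) :
    ∃ e : Fin 4 → ι, Function.Injective e ∧ (∀ i, e i ∈ s) ∧
      (∀ m ∈ Omg V a (e 0), 0 ≤ inner ℝ m b ∧ 0 ≤ inner ℝ m c) ∧
      (∀ m ∈ Omg V a (e 1), inner ℝ m b ≤ 0 ∧ inner ℝ m c ≤ 0) ∧
      (∀ m ∈ Omg V a (e 2), inner ℝ m b ≤ 0 ∧ 0 ≤ inner ℝ m c) ∧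
      (∀ m ∈ Omg V a (e 3), 0 ≤ inner ℝ m b ∧ inner ℝ m c ≤ 0) := by
  have hcb : inner ℝ c b = 0 := by rw [real_inner_comm]; exact hbc
  have AP : ∀ (p q : E), ‖p‖ = 1 → ‖q‖ = 1 → inner ℝ p q = 0 → inner ℝ p a = 0 →
      inner ℝ q a = 0 → ∀ J : ι → Prop, (∀ m : E, 0 < inner ℝ m p → 0 < inner ℝ m q → ∀ j ∈ s,
        m ∈ Omg V a j → J j) → ∀ O : Set E, IsOpen O → p ∈ O →
        ∃ m ∈ O, ∃ j ∈ s, J j ∧ m ∈ Omg V a j := by
    intro p q hp hq hpq hpa hqa J hJ O hO hpO
    obtain ⟨m, hmO, h1, h2, j, hj, hmj⟩ := approach hE hs hG ha hex hp hq hpq hpa hqa hO hpO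
    exact ⟨m, hmO, j, hj, hJ m h1 h2 j hj hmj, hmj⟩
  have APc : ∀ (p q : E), ‖p‖ = 1 → ‖q‖ = 1 → inner ℝ p q = 0 → inner ℝ p a = 0 →
      inner ℝ q a = 0 → ∀ j0 : ι, (∀ m : E, 0 < inner ℝ m p → 0 < inner ℝ m q → ∀ j ∈ s,
        m ∈ Omg V a j → j = j0) → p ∈ closure (Omg V a j0) := by
    intro p q hp hq hpq hpa hqa j0 hJ
    rw [mem_closure_iff]
    intro O hO hpO
    obtain ⟨m, hmO, j, _, hj0, hmj⟩ := AP p q hp hq hpq hpa hqa (fun j => j = j0) hJ O hO hpO
    rw [hj0] at hmj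
    exact ⟨m, hmO, hmj⟩
  have K1 : ∀ m ∈ Omg V a j1, 0 ≤ inner ℝ m b := fun m hm => half hG ha hm hb1
  have K2 : ∀ m ∈ Omg V a j2, 0 ≤ inner ℝ m b := fun m hm => half hG ha hm hb2
  have K3 : ∀ m ∈ Omg V a j3, 0 ≤ inner ℝ m c := fun m hm => half hG ha hm hc3
  have nb : ‖-b‖ = 1 := by rwa [norm_neg]
  have nc : ‖-c‖ = 1 := by rwa [norm_neg]
  have nba : inner ℝ (-b) a = 0 := by rw [inner_neg_left, hba, neg_zero]
  have nca : inner ℝ (-c) a = 0 := by rw [inner_neg_left, hca, neg_zero]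
  -- `-b`, `-c` are limits of class `j4`
  have hnb4 : -b ∈ closure (Omg V a j4) := by
    refine APc (-b) (-c) nb nc (by rw [inner_neg_left, inner_neg_right, hbc]; ring) nba nca j4 ?_
    intro m h1 h2 j hj hmj
    rw [inner_neg_right] at h1 h2
    rcases hall j hj with rfl | rfl | rfl | rfl
    · have := K1 m hmj; linarith
    · have := K2 m hmj; linarith
    · have := K3 m hmj; linarith
    · rfl
  have hnc4 : -c ∈ closure (Omg V a j4) := by
    refine APc (-c) (-b) nc nb (by rw [inner_neg_left, inner_neg_right, hcb]; ring) nca nba j4 ?_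
    intro m h1 h2 j hj hmj
    rw [inner_neg_right] at h1 h2
    rcases hall j hj with rfl | rfl | rfl | rfl
    · have := K1 m hmj; linarith
    · have := K2 m hmj; linarith
    · have := K3 m hmj; linarith
    · rfl
  have K4b : ∀ m ∈ Omg V a j4, inner ℝ m b ≤ 0 := by
    intro m hm
    have := half hG ha hm hnb4
    rw [inner_neg_right] at this
    linarith
  have K4c : ∀ m ∈ Omg V a j4, inner ℝ m c ≤ 0 := by
    intro m hm
    have := half hG ha hm hnc4
    rw [inner_neg_right] at this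
    linarith
  have hnb3 : -b ∈ closure (Omg V a j3) := by
    refine APc (-b) c nb hc (by rw [inner_neg_left, hbc]; ring) nba hca j3 ?_
    intro m h1 h2 j hj hmj
    rw [inner_neg_right] at h1
    rcases hall j hj with rfl | rfl | rfl | rfl
    · have := K1 m hmj; linarith
    · have := K2 m hmj; linarith
    · rfl
    · have := K4c m hmj; linarith
  have K3b : ∀ m ∈ Omg V a j3, inner ℝ m b ≤ 0 := by
    intro m hm
    have := half hG ha hm hnb3
    rw [inner_neg_right] at this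
    linarith
  have hc12 : c ∈ closure (Omg V a j1) ∨ c ∈ closure (Omg V a j2) := by
    by_contra hcon
    push Not at hcon
    obtain ⟨m, hmO, j, _, hj, hmj⟩ := AP c b hc hb hcb hca hba (fun j => j = j1 ∨ j = j2)
      (by
        intro m h1 h2 j hj hmj
        rcases hall j hj with rfl | rfl | rfl | rfl
        · exact Or.inl rfl
        · exact Or.inr rfl
        · have := K3b m hmj; linarith
        · have := K4b m hmj; linarith)
      ((closure (Omg V a j1))ᶜ ∩ (closure (Omg V a j2))ᶜ)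
      (isClosed_closure.isOpen_compl.inter isClosed_closure.isOpen_compl) hcon
    rcases hj with rfl | rfl
    · exact hmO.1 (subset_closure hmj)
    · exact hmO.2 (subset_closure hmj)
  rcases hc12 with hc1 | hc2
  · have K1c : ∀ m ∈ Omg V a j1, 0 ≤ inner ℝ m c := fun m hm => half hG ha hm hc1
    have hnc2 : -c ∈ closure (Omg V a j2) := by
      refine APc (-c) b nc hb (by rw [inner_neg_left, hcb]; ring) nca hba j2 ?_
      intro m h1 h2 j hj hmj
      rw [inner_neg_right] at h1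
      rcases hall j hj with rfl | rfl | rfl | rfl
      · have := K1c m hmj; linarith
      · rfl
      · have := K3 m hmj; linarith
      · have := K4b m hmj; linarith
    refine ⟨![j1, j4, j3, j2], ?_, ?_, ?_, ?_, ?_, ?_⟩
    · intro x y hxy
      fin_cases x <;> fin_cases y <;> simp_all
    · intro i
      fin_cases i
      · exact hj1
      · exact hj4
      · exact hj3
      · exact hj2
    · exact fun m hm => ⟨K1 m hm, K1c m hm⟩
    · exact fun m hm => ⟨K4b m hm, K4c m hm⟩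
    · exact fun m hm => ⟨K3b m hm, K3 m hm⟩
    · intro m hm
      refine ⟨K2 m hm, ?_⟩
      have := half hG ha hm hnc2
      rw [inner_neg_right] at this
      linarith
  · have K2c : ∀ m ∈ Omg V a j2, 0 ≤ inner ℝ m c := fun m hm => half hG ha hm hc2
    have hnc1 : -c ∈ closure (Omg V a j1) := by
      refine APc (-c) b nc hb (by rw [inner_neg_left, hcb]; ring) nca hba j1 ?_
      intro m h1 h2 j hj hmj
      rw [inner_neg_right] at h1
      rcases hall j hj with rfl | rfl | rfl | rfl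
      · rfl
      · have := K2c m hmj; linarith
      · have := K3 m hmj; linarith
      · have := K4b m hmj; linarith
    refine ⟨![j2, j4, j3, j1], ?_, ?_, ?_, ?_, ?_, ?_⟩
    · intro x y hxy
      fin_cases x <;> fin_cases y <;> simp_all
    · intro i
      fin_cases i
      · exact hj2
      · exact hj4
      · exact hj3
      · exact hj1
    · exact fun m hm => ⟨K2 m hm, K2c m hm⟩
    · exact fun m hm => ⟨K4b m hm, K4c m hm⟩
    · exact fun m hm => ⟨K3b m hm, K3 m hm⟩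
    · intro m hm
      refine ⟨K1 m hm, ?_⟩
      have := half hG ha hm hnc1
      rw [inner_neg_right] at this
      linarith

theorem quadrants (hE : finrank ℝ E = 3) {s : Finset ι} (hs : s.card = 4) {V : ι → Set E}
    (hG : RegCov s V) {a : E} (ha : ‖a‖ = 1)
    (hex : ∀ j ∈ s, ∃ e : E, ‖e‖ = 1 ∧ inner ℝ e a = 0 ∧ Om V a j e) :
    ∃ b c : E, ‖b‖ = 1 ∧ ‖c‖ = 1 ∧ inner ℝ b c = 0 ∧ inner ℝ b a = 0 ∧ inner ℝ c a = 0 ∧
    ∃ e : Fin 4 → ι, Function.Injective e ∧ (∀ i, e i ∈ s) ∧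
      (∀ m ∈ Omg V a (e 0), 0 ≤ inner ℝ m b ∧ 0 ≤ inner ℝ m c) ∧
      (∀ m ∈ Omg V a (e 1), inner ℝ m b ≤ 0 ∧ inner ℝ m c ≤ 0) ∧
      (∀ m ∈ Omg V a (e 2), inner ℝ m b ≤ 0 ∧ 0 ≤ inner ℝ m c) ∧
      (∀ m ∈ Omg V a (e 3), 0 ≤ inner ℝ m b ∧ inner ℝ m c ≤ 0) := by
  classical
  have hcirc := (circle_conti hE ha).pre
  obtain ⟨j1, hj1⟩ : s.Nonempty := by
    rw [← Finset.card_pos, hs]
    norm_num
  obtain ⟨j0, hj0, hj01⟩ : ∃ j0 ∈ s, j0 ≠ j1 := by
    by_contra hcon
    push Not at hcon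
    have : s ⊆ {j1} := fun x hx => Finset.mem_singleton.2 (hcon x hx)
    have := Finset.card_le_card this
    rw [hs, Finset.card_singleton] at this
    omega
  set B : Set E := ⋃ j ∈ s.filter (fun j => j ≠ j1), closure (Omg V a j) with hBd
  have hBc : IsClosed B := by
    have : B = ⋃ j ∈ (s.filter (fun j => j ≠ j1) : Set ι), closure (Omg V a j) := by
      simp only [hBd, Finset.mem_coe]
    rw [this]
    exact (Finset.finite_toSet _).isClosed_biUnion (fun _ _ => isClosed_closure)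
  have hcov : {m : E | ‖m‖ = 1 ∧ inner ℝ m a = 0} ⊆ closure (Omg V a j1) ∪ B := by
    rintro q ⟨hq, hqa⟩
    by_contra hcon
    obtain ⟨m, hmO, hmn, hma, j, hj, hmj⟩ := Om_dense hE hs hG ha hex
      (isClosed_closure.union hBc).isOpen_compl hcon hq hqa
    apply hmO
    by_cases hjj : j = j1
    · rw [hjj] at hmj
      exact Or.inl (subset_closure ⟨hmn, hma, hmj⟩)
    · right
      refine mem_iUnion₂.2 ⟨j, Finset.mem_filter.2 ⟨hj, hjj⟩, subset_closure ⟨hmn, hma, hmj⟩⟩
  obtain ⟨e1, he1, he1a, he1O⟩ := hex j1 hj1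
  obtain ⟨e0, he0, he0a, he0O⟩ := hex j0 hj0
  obtain ⟨b, ⟨hb, hba⟩, hb1, hbB⟩ := (isPreconnected_closed_iff.1 hcirc) _ _ isClosed_closure hBc
    hcov ⟨e1, ⟨he1, he1a⟩, subset_closure ⟨he1, he1a, he1O⟩⟩
    ⟨e0, ⟨he0, he0a⟩, mem_iUnion₂.2 ⟨j0, Finset.mem_filter.2 ⟨hj0, hj01⟩,
      subset_closure ⟨he0, he0a, he0O⟩⟩⟩
  obtain ⟨j2, hj2f, hb2⟩ := mem_iUnion₂.1 hbB
  obtain ⟨hj2, hj21⟩ := Finset.mem_filter.1 hj2f
  obtain ⟨j3, hj3, j4, hj4, h34, h31, h32, h41, h42, hall⟩ := others hs hj1 hj2 hj21.symm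
  obtain ⟨c, hc, hac, hbc⟩ := exists_orth2 (by rw [hE]) a b
  have hca : inner ℝ c a = 0 := by rw [real_inner_comm]; exact hac
  have hcb : inner ℝ c b = 0 := by rw [real_inner_comm]; exact hbc
  have hc34 : c ∈ closure (Omg V a j3) ∨ c ∈ closure (Omg V a j4) := by
    by_contra hcon
    push Not at hcon
    obtain ⟨m, hmO, h1, h2, j, hj, hmj⟩ := approach hE hs hG ha hex hc
      (q := -b) (by rwa [norm_neg]) (by rw [inner_neg_right, hcb, neg_zero]) hca
      (by rw [inner_neg_left, hba, neg_zero])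
      (O := (closure (Omg V a j3))ᶜ ∩ (closure (Omg V a j4))ᶜ)
      (isClosed_closure.isOpen_compl.inter isClosed_closure.isOpen_compl) hcon
    rw [inner_neg_right] at h2
    rcases hall j hj with rfl | rfl | rfl | rfl
    · have := half hG ha hmj hb1; linarith
    · have := half hG ha hmj hb2; linarith
    · exact hmO.1 (subset_closure hmj)
    · exact hmO.2 (subset_closure hmj)
  refine ⟨b, c, hb, hc, hbc, hba, hca, ?_⟩
  rcases hc34 with h | h
  · exact quadrants_aux hE hs hG ha hex hb hc hbc hba hca hj1 hj2 hj3 hj4 hj21.symm h31 h32 h41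
      h42 h34 hall hb1 hb2 h
  · exact quadrants_aux hE hs hG ha hex hb hc hbc hba hca hj1 hj2 hj4 hj3 hj21.symm h41 h42 h31
      h32 h34.symm (fun m hm => by
        rcases hall m hm with h | h | h | h
        · exact Or.inl h
        · exact Or.inr (Or.inl h)
        · exact Or.inr (Or.inr (Or.inr h))
        · exact Or.inr (Or.inr (Or.inl h))) hb1 hb2 h

/-- From directions to points. -/
theorem lift_sign (hE : finrank ℝ E = 3) {s : Finset ι} (hs : s.card = 4) {V : ι → Set E}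
    (hG : RegCov s V) {a : E} (ha : ‖a‖ = 1)
    (hex : ∀ j ∈ s, ∃ e : E, ‖e‖ = 1 ∧ inner ℝ e a = 0 ∧ Om V a j e) {j : ι} (hj : j ∈ s) {b : E}
    (hba : inner ℝ b a = 0) (hm : ∀ m ∈ Omg V a j, 0 ≤ inner ℝ m b) {u : E} (hu : ‖u‖ = 1)
    (huV : u ∈ V j) (hua : 0 < inner ℝ u a) : 0 ≤ inner ℝ u b := by
  by_contra hneg
  push Not at hneg
  have haa : inner ℝ a a = 1 := by rw [real_inner_self_eq_norm_sq, ha, one_pow]
  have hab : inner ℝ a b = 0 := by rw [real_inner_comm]; exact hba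
  set α := inner ℝ u a with hα
  set p := u - α • a with hp
  have hpb : inner ℝ p b = inner ℝ u b := by
    rw [hp, inner_sub_left, real_inner_smul_left, hab]
    ring
  have hpa : inner ℝ p a = 0 := by
    rw [hp, inner_sub_left, real_inner_smul_left, haa, ← hα]
    ring
  have hp0 : p ≠ 0 := by
    intro h
    rw [h, inner_zero_left] at hpb
    linarith
  have hpn : 0 < ‖p‖ := norm_pos_iff.2 hp0
  have hpu : u = p + α • a := by rw [hp]; abel
  have hnorm : ‖p‖ ^ 2 + α ^ 2 = 1 := by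
    have h1 : ‖u‖ ^ 2 = ‖p‖ ^ 2 + α ^ 2 := by
      nth_rewrite 1 [hpu]
      rw [norm_add_sq_real, inner_smul_right, hpa, norm_smul, ha, Real.norm_eq_abs, mul_one,
        sq_abs]
      ring
    rw [← h1, hu, one_pow]
  have hcont : Continuous (fun m : E => ‖p‖ • m + α • a) := by fun_prop
  have hO : IsOpen ((fun m : E => ‖p‖ • m + α • a) ⁻¹' V j ∩ {m : E | inner ℝ m b < 0}) :=
    ((hG.op j).preimage hcont).inter (isOpen_lt (by fun_prop) continuous_const)
  have hq : ‖p‖⁻¹ • p ∈ (fun m : E => ‖p‖ • m + α • a) ⁻¹' V j ∩ {m : E | inner ℝ m b < 0} := by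
    refine ⟨?_, ?_⟩
    · show ‖p‖ • (‖p‖⁻¹ • p) + α • a ∈ V j
      rw [smul_smul, mul_inv_cancel₀ hpn.ne', one_smul, ← hpu]
      exact huV
    · show inner ℝ (‖p‖⁻¹ • p) b < 0
      rw [real_inner_smul_left, hpb]
      exact mul_neg_of_pos_of_neg (inv_pos.2 hpn) hneg
  obtain ⟨m, ⟨hm1, hm2⟩, hmn, hma, j', hj', hmj⟩ := Om_dense hE hs hG ha hex hO hq (norm_unit hp0)
    (by rw [real_inner_smul_left, hpa, mul_zero])
  have hn1 : ‖‖p‖ • m + α • a‖ = 1 := by
    have h1 : ‖‖p‖ • m + α • a‖ ^ 2 = 1 := by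
      rw [norm_add_sq_real, real_inner_smul_left, inner_smul_right, hma, norm_smul, norm_smul, ha,
        hmn, norm_norm, Real.norm_eq_abs, mul_one, mul_one, sq_abs, ← hnorm]
      ring
    have h2 : 0 ≤ ‖‖p‖ • m + α • a‖ := norm_nonneg _
    nlinarith
  have h1 : ‖p‖ • m + α • a ∈ V j' := by
    obtain ⟨O', _, hmO', hO'V⟩ := hmj
    exact hO'V m hmO' hma _ _ hpn hua hn1
  by_cases hjj : j' = j
  · rw [hjj] at hmj
    have := hm m ⟨hmn, hma, hmj⟩
    have hm2' : inner ℝ m b < 0 := hm2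
    linarith
  · exact hG.disj j' hj' j hj hjj _ hn1 h1 hm1

theorem adp_exists (hE : finrank ℝ E = 3) {s : Finset ι} (hs : s.card = 4) {V : ι → Set E}
    (hG : RegCov s V) : ∃ e : Fin 4 → ι, Function.Injective e ∧ (∀ i, e i ∈ s) ∧
      ∃ a b c : E, Frame a b c ∧ Adp V e univ a b c := by
  classical
  -- a continuum in two closures
  obtain ⟨t, hts, htc, P, hP, hP1, hPt⟩ := exists_multi hE (by norm_num) hG.toGoodCov
  obtain ⟨i, j, hij, ht⟩ := Finset.card_eq_two.1 htc
  have hi : i ∈ t := by rw [ht]; simp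
  have hj : j ∈ t := by rw [ht]; simp
  -- two independent points
  obtain ⟨x1, hx1, x2, hx2, hne, hne'⟩ : ∃ x1 ∈ P, ∃ x2 ∈ P, x2 ≠ x1 ∧ x2 ≠ -x1 := by
    obtain ⟨x, hx, y, hy, hxy⟩ := hP.nd
    by_cases h : y = -x
    · obtain ⟨P', hP's, hP'⟩ := hP.loc (O := {y}ᶜ) isOpen_compl_singleton ⟨x, hx, hxy⟩
      obtain ⟨z, hz, w, hw, hzw⟩ := hP'.nd
      by_cases hzx : z = x
      · refine ⟨x, hx, w, (hP's hw).1, ?_, ?_⟩
        · intro h2
          exact hzw (hzx.trans h2.symm)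
        · rw [← h]
          exact (hP's hw).2
      · refine ⟨x, hx, z, (hP's hz).1, hzx, ?_⟩
        rw [← h]
        exact (hP's hz).2
    · exact ⟨x, hx, y, hy, hxy.symm, h⟩
  obtain ⟨k, hk, l, hl, hkl, _, _, _, _, hall⟩ := others hs (hts hi) (hts hj) hij
  obtain ⟨a, ha, hx1a, hx2a⟩ := exists_orth2 (by rw [hE]) x1 x2
  obtain ⟨⟨m, hm, hma, hm2⟩, hx0⟩ := two_sectors hE hG (hts hi) (hts hj) hk hl hij hkl hall hP.pre
    (hPt i hi) (hPt j hj) hx1 hx2 (hP1 x1 hx1) (hP1 x2 hx2) hne hne' ha hx1a hx2a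
  have hx12 : x1 + x2 ≠ 0 := fun h => hne' (by rw [eq_neg_iff_add_eq_zero, add_comm]; exact h)
  have hn := norm_unit hx12
  have hna : inner ℝ (‖x1 + x2‖⁻¹ • (x1 + x2)) a = 0 := by
    rw [real_inner_smul_left, inner_add_left, hx1a, hx2a]
    ring
  have hex : ∀ j ∈ s, ∃ e : E, ‖e‖ = 1 ∧ inner ℝ e a = 0 ∧ Om V a j e := by
    have neg_ok : ∀ {e : E} {j : ι}, ‖e‖ = 1 → inner ℝ e a = 0 → Om V a j (-e) →
        ∃ e : E, ‖e‖ = 1 ∧ inner ℝ e a = 0 ∧ Om V a j e := by
      intro e j h1 h2 h3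
      exact ⟨-e, by rwa [norm_neg], by rw [inner_neg_left, h2, neg_zero], h3⟩
    intro j' hj'
    rcases hall j' hj' with rfl | rfl | rfl | rfl
    · rcases hx0 with h | h
      · exact ⟨_, hn, hna, h.1⟩
      · exact neg_ok hn hna h.2
    · rcases hx0 with h | h
      · exact neg_ok hn hna h.2
      · exact ⟨_, hn, hna, h.1⟩
    · rcases hm2 with h | h
      · exact ⟨_, hm, hma, h.1⟩
      · exact neg_ok hm hma h.2
    · rcases hm2 with h | h
      · exact neg_ok hm hma h.2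
      · exact ⟨_, hm, hma, h.1⟩
  obtain ⟨b, c, hb, hc, hbc, hba, hca, e, he, hes, h0, h1, h2, h3⟩ := quadrants hE hs hG ha hex
  refine ⟨e, he, hes, a, b, c, ⟨ha, hb, hc, by rw [real_inner_comm]; exact hba, hbc,
    by rw [real_inner_comm]; exact hca⟩, ?_⟩
  have nba : inner ℝ (-b) a = 0 := by rw [inner_neg_left, hba, neg_zero]
  have nca : inner ℝ (-c) a = 0 := by rw [inner_neg_left, hca, neg_zero]
  have LS : ∀ (j : ι), j ∈ s → ∀ b : E, inner ℝ b a = 0 → (∀ m ∈ Omg V a j, 0 ≤ inner ℝ m b) →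
      ∀ u : E, ‖u‖ = 1 → u ∈ V j → 0 ≤ inner ℝ u a * inner ℝ u b := by
    intro j hj b hba hmb u hu huV
    rcases lt_trichotomy (inner ℝ u a) 0 with h | h | h
    · have h2 := lift_sign hE hs hG ha hex hj hba hmb (u := -u) (by rwa [norm_neg])
        (hG.sym j _ huV) (by rw [inner_neg_left]; linarith)
      rw [inner_neg_left] at h2
      nlinarith
    · exact absurd huV (equator_Z hG ha hex hu h hj)
    · have h2 := lift_sign hE hs hG ha hex hj hba hmb hu huV h
      exact mul_nonneg h.le h2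
  have hprod : ∀ f g h : ℝ, f ≠ 0 → 0 ≤ (f * g) * (f * h) → 0 ≤ g * h := by
    intro f g h hf hfg
    have h1 : (f * g) * (f * h) = f ^ 2 * (g * h) := by ring
    rw [h1] at hfg
    have h2 : 0 < f ^ 2 := by positivity
    exact nonneg_of_mul_nonneg_right hfg h2
  intro i u _ hu huV
  have hua : inner ℝ u a ≠ 0 := fun h => equator_Z hG ha hex hu h (hes i) huV
  fin_cases i
  · have e1 := LS (e 0) (hes 0) b hba (fun m hm => (h0 m hm).1) u hu huV
    have e2 := LS (e 0) (hes 0) c hca (fun m hm => (h0 m hm).2) u hu huV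
    exact ⟨e1, hprod _ _ _ hua (mul_nonneg e1 e2), e2⟩
  · have e1 := LS (e 1) (hes 1) (-b) nba (fun m hm => by
      rw [inner_neg_right]; linarith [(h1 m hm).1]) u hu huV
    have e2 := LS (e 1) (hes 1) (-c) nca (fun m hm => by
      rw [inner_neg_right]; linarith [(h1 m hm).2]) u hu huV
    rw [inner_neg_right] at e1 e2
    refine ⟨by linarith, hprod _ _ _ hua ?_, by linarith⟩
    nlinarith
  · have e1 := LS (e 2) (hes 2) (-b) nba (fun m hm => by
      rw [inner_neg_right]; linarith [(h2 m hm).1]) u hu huV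
    have e2 := LS (e 2) (hes 2) c hca (fun m hm => (h2 m hm).2) u hu huV
    rw [inner_neg_right] at e1
    have e3 := hprod _ _ _ hua (mul_nonneg e1 e2)
    refine ⟨by linarith, ?_, e2⟩
    have e3' : 0 ≤ -(inner ℝ u b * inner ℝ u c) := by
      have : -(inner ℝ u b * inner ℝ u c) = -inner ℝ u b * inner ℝ u c := by ring
      rw [this]
      exact e3
    have e4 : inner ℝ u b * inner ℝ u c ≤ 0 := by linarith
    exact e4
  · have e1 := LS (e 3) (hes 3) b hba (fun m hm => (h3 m hm).1) u hu huV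
    have e2 := LS (e 3) (hes 3) (-c) nca (fun m hm => by
      rw [inner_neg_right]; linarith [(h3 m hm).2]) u hu huV
    rw [inner_neg_right] at e2
    have e3 := hprod _ _ _ hua (mul_nonneg e1 e2)
    refine ⟨e1, ?_, by linarith⟩
    have e3' : 0 ≤ -(inner ℝ u b * inner ℝ u c) := by
      have : -(inner ℝ u b * inner ℝ u c) = inner ℝ u b * -inner ℝ u c := by ring
      rw [this]
      exact e3
    have e4 : inner ℝ u b * inner ℝ u c ≤ 0 := by linarith
    exact e4

end

/-- A frame adapted to some enumeration of the colours gives frames adapted to all. -/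
theorem adp_perm {V : ι → Set E} {e : Fin 4 → ι} {Q : Set E}
    (h : ∃ a b c : E, Frame a b c ∧ Adp V e Q a b c) (σ : Equiv.Perm (Fin 4)) :
    ∃ a b c : E, Frame a b c ∧ Adp V (e ∘ σ) Q a b c := by
  have hgen : ∀ (e : Fin 4 → ι) (i : Fin 3), (∃ a b c : E, Frame a b c ∧ Adp V e Q a b c) →
      ∃ a b c : E, Frame a b c ∧ Adp V (e ∘ Equiv.swap i.castSucc i.succ) Q a b c := by
    rintro e i ⟨a, b, c, hF, hA⟩
    fin_cases i
    · -- swap 0 1
      refine ⟨-a, c, b, ⟨by rw [norm_neg]; exact hF.na, hF.nc, hF.nb,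
        by rw [inner_neg_left, hF.ac, neg_zero], by rw [real_inner_comm]; exact hF.bc,
        by rw [inner_neg_left, hF.ab, neg_zero]⟩, ?_⟩
      intro i u hu hn huV
      rw [inner_neg_right]
      have h1 := hA _ u hu hn huV
      fin_cases i
      · obtain ⟨p, q, r⟩ := h1
        exact ⟨by linarith, by linarith, by linarith⟩
      · obtain ⟨p, q, r⟩ := h1
        exact ⟨by linarith, by linarith, by linarith⟩
      · obtain ⟨p, q, r⟩ := h1
        exact ⟨by linarith, by linarith, by linarith⟩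
      · obtain ⟨p, q, r⟩ := h1
        exact ⟨by linarith, by linarith, by linarith⟩
    · -- swap 1 2
      refine ⟨b, a, c, ⟨hF.nb, hF.na, hF.nc, by rw [real_inner_comm]; exact hF.ab, hF.ac, hF.bc⟩,
        ?_⟩
      intro i u hu hn huV
      have h1 := hA _ u hu hn huV
      fin_cases i
      · obtain ⟨p, q, r⟩ := h1
        exact ⟨by linarith, by linarith, by linarith⟩
      · obtain ⟨p, q, r⟩ := h1
        exact ⟨by linarith, by linarith, by linarith⟩
      · obtain ⟨p, q, r⟩ := h1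
        exact ⟨by linarith, by linarith, by linarith⟩
      · obtain ⟨p, q, r⟩ := h1
        exact ⟨by linarith, by linarith, by linarith⟩
    · -- swap 2 3
      refine ⟨a, c, b, ⟨hF.na, hF.nc, hF.nb, hF.ac, by rw [real_inner_comm]; exact hF.bc, hF.ab⟩,
        ?_⟩
      intro i u hu hn huV
      have h1 := hA _ u hu hn huV
      fin_cases i
      · obtain ⟨p, q, r⟩ := h1
        exact ⟨by linarith, by linarith, by linarith⟩
      · obtain ⟨p, q, r⟩ := h1
        exact ⟨by linarith, by linarith, by linarith⟩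
      · obtain ⟨p, q, r⟩ := h1
        exact ⟨by linarith, by linarith, by linarith⟩
      · obtain ⟨p, q, r⟩ := h1
        exact ⟨by linarith, by linarith, by linarith⟩
  have hσ : σ ∈ Submonoid.closure (Set.range fun i : Fin 3 ↦ Equiv.swap i.castSucc i.succ) := by
    rw [Equiv.Perm.mclosure_swap_castSucc_succ]
    trivial
  revert h
  generalize e = e'
  revert e'
  induction hσ using Submonoid.closure_induction with
  | mem σ hx =>
    obtain ⟨i, rfl⟩ := hx
    intro e' h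
    exact hgen e' i h
  | one =>
    intro e' h
    exact h
  | mul σ τ _ _ h1 h2 =>
    intro e' h
    exact h2 (e' ∘ σ) (h1 e' h)

/-- **Rigidity**: an open four-colouring of the two-dimensional sphere is octahedral. -/
theorem rigid [FiniteDimensional ℝ E] (hE : finrank ℝ E = 3) {s : Finset ι} (hs : s.card = 4)
    {U : ι → Set E} (hG : SymCov s U) {e : Fin 4 → ι} (he : Function.Injective e)
    (hes : ∀ i, e i ∈ s) : ∃ a b c : E, Frame a b c ∧ Adp U e univ a b c := by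
  classical
  obtain ⟨e', he', hes', h⟩ := adp_exists hE hs hG.toReg
  -- the two enumerations differ by a permutation
  have hcard : Fintype.card s = Fintype.card (Fin 4) := by simp [hs]
  have b1 : Function.Bijective (fun i : Fin 4 => (⟨e i, hes i⟩ : s)) := by
    rw [Fintype.bijective_iff_injective_and_card]
    exact ⟨fun x y hxy => he (congrArg Subtype.val hxy), hcard.symm⟩
  have b2 : Function.Bijective (fun i : Fin 4 => (⟨e' i, hes' i⟩ : s)) := by
    rw [Fintype.bijective_iff_injective_and_card]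
    exact ⟨fun x y hxy => he' (congrArg Subtype.val hxy), hcard.symm⟩
  let σ : Equiv.Perm (Fin 4) := (Equiv.ofBijective _ b1).trans (Equiv.ofBijective _ b2).symm
  have hσ : e' ∘ σ = e := by
    funext i
    have h1 : (Equiv.ofBijective _ b2) (σ i) = (Equiv.ofBijective _ b1) i := by
      simp [σ]
    exact congrArg Subtype.val h1
  obtain ⟨a, b, c, hF, hA⟩ := adp_perm h σ
  rw [hσ] at hA
  refine ⟨a, b, c, hF, fun i u hu hn huV => hA i u hu hn (hG.sub_Rg (hes i) huV)⟩

end Pool.Agent.OrthoFan
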