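import Pool.Agent.H.MP_ef93d4_co.h56.Cross

/-!
# Four colours on the two-dimensional sphere: the sector lemma
-/

namespace Pool.Agent.OrthoFan

open Set Filter Topology Module

variable {E : Type*} [NormedAddCommGroup E] [InnerProductSpace ℝ E] {ι : Type*}

/-- The unit vectors of a convex cone form a preconnected set. -/
theorem cone_pre {C : Set E} (hC : Convex ℝ C) (h0 : (0 : E) ∉ C)
    (hr : ∀ u ∈ C, ∀ r : ℝ, 0 < r → r • u ∈ C) : IsPreconnected {u : E | ‖u‖ = 1 ∧ u ∈ C} := by
  have : {u : E | ‖u‖ = 1 ∧ u ∈ C} = (fun u : E => ‖u‖⁻¹ • u) '' C := by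
    ext u
    constructor
    · rintro ⟨h1, h2⟩
      refine ⟨u, h2, ?_⟩
      show ‖u‖⁻¹ • u = u
      rw [h1, inv_one, one_smul]
    · rintro ⟨v, hv, rfl⟩
      have hv0 : v ≠ 0 := fun h => h0 (h ▸ hv)
      exact ⟨norm_unit hv0, hr v hv _ (inv_pos.2 (norm_pos_iff.2 hv0))⟩
  rw [this]
  refine hC.isPreconnected.image _ ?_
  refine ContinuousOn.smul (ContinuousOn.inv₀ continuous_norm.continuousOn ?_) continuousOn_id
  intro v hv
  exact (norm_pos_iff.2 (fun h => h0 (h ▸ hv))).ne'

/-- In dimension three the orthogonal complement of two independent vectors is a line. -/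
theorem orth_unique [FiniteDimensional ℝ E] (hE : finrank ℝ E = 3) {x1 x2 a w : E}
    (hlin : ∀ s t : ℝ, s • x1 + t • x2 = 0 → s = 0 ∧ t = 0) (ha : ‖a‖ = 1)
    (h1a : inner ℝ x1 a = 0) (h2a : inner ℝ x2 a = 0) (h1w : inner ℝ x1 w = 0)
    (h2w : inner ℝ x2 w = 0) : w = (inner ℝ a w) • a := by
  by_contra hne
  set w' := w - (inner ℝ a w) • a with hw'
  have hw0 : w' ≠ 0 := sub_ne_zero.2 hne
  have haa : inner ℝ a a = 1 := by rw [real_inner_self_eq_norm_sq, ha, one_pow]
  have e1 : inner ℝ x1 w' = 0 := by rw [hw', inner_sub_right, inner_smul_right, h1w, h1a]; ring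
  have e2 : inner ℝ x2 w' = 0 := by rw [hw', inner_sub_right, inner_smul_right, h2w, h2a]; ring
  have e3 : inner ℝ a w' = 0 := by rw [hw', inner_sub_right, inner_smul_right, haa]; ring
  have hli : LinearIndependent ℝ ![x1, x2, a, w'] := by
    rw [Fintype.linearIndependent_iff]
    intro g hg
    rw [Fin.sum_univ_four] at hg
    simp only [Matrix.cons_val_zero, Matrix.cons_val_one, Matrix.cons_val] at hg
    have k2 : g 2 = 0 := by
      have h := congrArg (fun z => inner ℝ a z) hg
      simp only [inner_add_right, inner_smul_right, inner_zero_right] at h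
      rw [real_inner_comm, h1a, real_inner_comm, h2a, haa, e3] at h
      linarith
    have k3 : g 3 = 0 := by
      have h := congrArg (fun z => inner ℝ w' z) hg
      simp only [inner_add_right, inner_smul_right, inner_zero_right] at h
      rw [real_inner_comm, e1, real_inner_comm, e2, real_inner_comm, e3,
        real_inner_self_eq_norm_sq] at h
      have hpos : 0 < ‖w'‖ ^ 2 := by
        have := norm_pos_iff.2 hw0
        positivity
      have h5 : g 3 * ‖w'‖ ^ 2 = 0 := by linarith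
      exact (mul_eq_zero.1 h5).resolve_right hpos.ne'
    rw [k2, k3, zero_smul, zero_smul, add_zero, add_zero] at hg
    obtain ⟨k0, k1⟩ := hlin _ _ hg
    intro i
    fin_cases i
    · exact k0
    · exact k1
    · exact k2
    · exact k3
  have := hli.fintype_card_le_finrank
  rw [hE, Fintype.card_fin] at this
  omega

theorem indep_of_unit {x1 x2 : E} (h1 : ‖x1‖ = 1) (h2 : ‖x2‖ = 1) (hne : x2 ≠ x1)
    (hne' : x2 ≠ -x1) (s t : ℝ) (h : s • x1 + t • x2 = 0) : s = 0 ∧ t = 0 := by
  have hc1 : inner ℝ x1 x2 < 1 := (inner_lt_one_iff_real_of_norm_eq_one h1 h2).2 hne.symm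
  have hc2 : -1 < inner ℝ x1 x2 := by
    have h3 : inner ℝ x1 (-x2) < 1 :=
      (inner_lt_one_iff_real_of_norm_eq_one h1 (by rwa [norm_neg])).2 (fun h => hne' (by
        rw [h, neg_neg]))
    rw [inner_neg_right] at h3
    linarith
  have e1 := congrArg (fun z => inner ℝ x1 z) h
  have e2 := congrArg (fun z => inner ℝ x2 z) h
  simp only [inner_add_right, inner_smul_right, inner_zero_right, real_inner_self_eq_norm_sq, h1,
    h2] at e1 e2
  rw [real_inner_comm] at e2
  set c := inner ℝ x1 x2 with hc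
  have e3 : t * (1 - c ^ 2) = 0 := by
    have : t * (1 - c ^ 2) = (s * c + t * 1 ^ 2) - c * (s * 1 ^ 2 + t * c) := by ring
    rw [this, e1, e2]
    ring
  have h4 : 0 < 1 - c ^ 2 := by nlinarith
  have ht : t = 0 := (mul_eq_zero.1 e3).resolve_right h4.ne'
  rw [ht] at e1
  exact ⟨by linarith, ht⟩

/-- If a continuum or preconnected set has points on both sides of a hyperplane, it meets it. -/
theorem pre_cross {P : Set E} (hP : IsPreconnected P) {x1 x2 u : E} (h1 : x1 ∈ P) (h2 : x2 ∈ P)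
    (h : inner ℝ u x1 * inner ℝ u x2 < 0) : ∃ x ∈ P, inner ℝ u x = 0 := by
  have hcont : ContinuousOn (fun x : E => inner ℝ u x) P :=
    (continuous_const.inner continuous_id).continuousOn
  rcases mul_neg_iff.1 h with ⟨h3, h4⟩ | ⟨h3, h4⟩
  · exact hP.intermediate_value h2 h1 hcont ⟨h4.le, h3.le⟩
  · exact hP.intermediate_value h1 h2 hcont ⟨h3.le, h4.le⟩

section

variable [FiniteDimensional ℝ E]

/-- In the region swept by a preconnected subset of `B i ∩ B j` only other colours occur. -/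
theorem sweep_not {s : Finset ι} {V : ι → Set E} (hG : RegCov s V) {i : ι} {P : Set E}
    (hP : IsPreconnected P) (hPi : P ⊆ Bs V i) {x1 x2 : E} (h1 : x1 ∈ P) (h2 : x2 ∈ P)
    {u : E} (hu : ‖u‖ = 1) (h : inner ℝ u x1 * inner ℝ u x2 < 0) : u ∉ V i ∧ u ∉ Bs V i := by
  have key : ∀ v : E, ‖v‖ = 1 → inner ℝ v x1 * inner ℝ v x2 < 0 → v ∉ V i := by
    intro v hv hvx hvi
    obtain ⟨x, hx, hvx⟩ := pre_cross hP h1 h2 hvx
    have := hG.toGoodCov.orthB (hPi hx) hvi hv
    rw [real_inner_comm] at this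
    exact this hvx
  refine ⟨key u hu h, fun hB => ?_⟩
  have ho : IsOpen {v : E | inner ℝ v x1 * inner ℝ v x2 < 0} := by
    have hc : Continuous (fun v : E => inner ℝ v x1 * inner ℝ v x2) := by fun_prop
    exact isOpen_lt hc continuous_const
  obtain ⟨w, hw, hw1, hwi⟩ := mem_closure_iff.1 hB _ ho h
  have hwV : w ∈ V i := by
    rcases hwi with h | h
    · exact h
    · have := hG.sym i _ h
      rwa [neg_neg] at this
  exact key w hw1 hw hwV

theorem Bs_sub_closure {s : Finset ι} {V : ι → Set E} (hG : SymCov s V) {k l : ι} (hk : k ∈ s)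
    (hl : l ∈ s) (hkl : k ≠ l) : Bs V k ⊆ closure {v : E | ‖v‖ = 1 ∧ v ∉ Bs V l} := by
  apply closure_mono
  rintro v ⟨hv, h⟩
  refine ⟨hv, ?_⟩
  rcases h with h | h
  · exact hG.not_Bs hk hl hkl h
  · have := hG.sym k _ h
    rw [neg_neg] at this
    exact hG.not_Bs hk hl hkl this

/-- **Sector lemma.** -/
theorem sector (hE : finrank ℝ E = 3) {s : Finset ι} {V : ι → Set E} (hG : RegCov s V)
    {i j k l : ι} (hk : k ∈ s) (hl : l ∈ s) (hkl : k ≠ l)
    (hs : ∀ m ∈ s, m = i ∨ m = j ∨ m = k ∨ m = l) {P : Set E} (hP : IsPreconnected P)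
    (hPi : P ⊆ Bs V i) (hPj : P ⊆ Bs V j) {x1 x2 a : E} (h1 : x1 ∈ P) (h2 : x2 ∈ P)
    (hn1 : ‖x1‖ = 1) (hn2 : ‖x2‖ = 1) (hne : x2 ≠ x1) (hne' : x2 ≠ -x1) (ha : ‖a‖ = 1)
    (h1a : inner ℝ x1 a = 0) (h2a : inner ℝ x2 a = 0) :
    ({u : E | ‖u‖ = 1 ∧ 0 < inner ℝ u x1 ∧ inner ℝ u x2 < 0 ∧ 0 < inner ℝ u a} ⊆ V k ∧
      {u : E | ‖u‖ = 1 ∧ inner ℝ u x1 < 0 ∧ 0 < inner ℝ u x2 ∧ 0 < inner ℝ u a} ⊆ V l) ∨
    ({u : E | ‖u‖ = 1 ∧ 0 < inner ℝ u x1 ∧ inner ℝ u x2 < 0 ∧ 0 < inner ℝ u a} ⊆ V l ∧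
      {u : E | ‖u‖ = 1 ∧ inner ℝ u x1 < 0 ∧ 0 < inner ℝ u x2 ∧ 0 < inner ℝ u a} ⊆ V k) := by
  have hlin := indep_of_unit hn1 hn2 hne hne'
  -- only the colours `k`, `l`
  have honly : ∀ u : E, ‖u‖ = 1 → inner ℝ u x1 * inner ℝ u x2 < 0 → u ∈ Bs V k ∨ u ∈ Bs V l := by
    intro u hu hux
    obtain ⟨m, hm, hum⟩ := hG.toGoodCov.cover hu
    rcases hs m hm with rfl | rfl | rfl | rfl
    · exact absurd hum (sweep_not hG hP hPi h1 h2 hu hux).2
    · exact absurd hum (sweep_not hG hP hPj h1 h2 hu hux).2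
    · exact Or.inl hum
    · exact Or.inr hum
  set G : Set E := {u : E | inner ℝ u x1 * inner ℝ u x2 < 0 ∧ inner ℝ u a ≠ 0} with hGdef
  have hGo : IsOpen G := by
    have hc : Continuous (fun v : E => inner ℝ v x1 * inner ℝ v x2) := by fun_prop
    have hc2 : Continuous (fun v : E => inner ℝ v a) := by fun_prop
    exact (isOpen_lt hc continuous_const).inter (isOpen_ne_fun hc2 continuous_const)
  have hx12o : IsOpen {v : E | inner ℝ v x1 * inner ℝ v x2 < 0} := by
    have hc : Continuous (fun v : E => inner ℝ v x1 * inner ℝ v x2) := by fun_prop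
    exact isOpen_lt hc continuous_const
  have hcross := crossing (by rw [hE]) (Wk s V) (Wk_closed hG.toGoodCov)
    (fun p => Wset_swept (Zs_thin hG.toGoodCov) _ (by positivity)) hGo (Bs_closed V k)
    (Bs_closed V l) (fun u hu hu1 => honly u hu1 hu.1)
    (by
      intro u hu hu1 huk hul
      apply fac_mem hu1
      intro hn
      obtain ⟨w, hw1, hwu, hwx⟩ := exists_orth2 (by rw [hE]) u (x1 + x2)
      have hwx' : inner ℝ w x1 = -inner ℝ w x2 := by
        rw [real_inner_comm, inner_add_right] at hwx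
        linarith
      have hw0 : inner ℝ w x1 ≠ 0 := by
        intro h0
        have h0' : inner ℝ w x2 = 0 := by linarith
        have hwa := orth_unique hE hlin ha h1a h2a (by rw [real_inner_comm]; exact h0)
          (by rw [real_inner_comm]; exact h0')
        rw [hwa, inner_smul_right] at hwu
        rcases mul_eq_zero.1 hwu with h | h
        · rw [h, zero_smul] at hwa
          rw [hwa, norm_zero] at hw1
          norm_num at hw1
        · exact hu.2 h
      have hwG : inner ℝ w x1 * inner ℝ w x2 < 0 := by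
        have : inner ℝ w x1 * inner ℝ w x2 = -(inner ℝ w x1) ^ 2 := by
          have h5 : inner ℝ w x2 = -inner ℝ w x1 := by linarith
          rw [h5]
          ring
        rw [this]
        have : 0 < (inner ℝ w x1) ^ 2 := by positivity
        linarith
      obtain ⟨y, hyG, hy1, huy, m, hm, hym⟩ := hn _ hx12o ⟨w, hwG, hw1, hwu⟩
      rcases hs m hm with rfl | rfl | rfl | rfl
      · exact (sweep_not hG hP hPi h1 h2 hy1 hyG).1 hym
      · exact (sweep_not hG hP hPj h1 h2 hy1 hyG).1 hym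
      · exact hG.toGoodCov.orthB huk hym hy1 huy
      · exact hG.toGoodCov.orthB hul hym hy1 huy)
    (fun u _ _ huk _ => Bs_sub_closure hG.toSymCov hk hl hkl huk)
    (fun u _ _ _ hul => Bs_sub_closure hG.toSymCov hl hk hkl.symm hul)
  -- the colour is unique and the point is in the open set
  have hreg : ∀ u ∈ G, ‖u‖ = 1 → (u ∈ V k ∧ u ∉ Bs V l) ∨ (u ∈ V l ∧ u ∉ Bs V k) := by
    intro u hu hu1
    have hi := (sweep_not hG hP hPi h1 h2 hu1 hu.1).2
    have hj := (sweep_not hG hP hPj h1 h2 hu1 hu.1).2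
    rcases honly u hu1 hu.1 with h | h
    · have hul : u ∉ Bs V l := fun h' => hcross u hu hu1 ⟨h, h'⟩
      left
      refine ⟨hG.reg k hk u hu1 ?_, hul⟩
      intro m hm hmk
      rcases hs m hm with rfl | rfl | rfl | rfl
      · exact hi
      · exact hj
      · exact absurd rfl hmk
      · exact hul
    · have huk : u ∉ Bs V k := fun h' => hcross u hu hu1 ⟨h', h⟩
      right
      refine ⟨hG.reg l hl u hu1 ?_, huk⟩
      intro m hm hml
      rcases hs m hm with rfl | rfl | rfl | rfl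
      · exact hi
      · exact hj
      · exact huk
      · exact absurd rfl hml
  -- a sector is monochromatic
  have hmono : ∀ S : Set E, IsPreconnected S → (∀ u ∈ S, u ∈ G ∧ ‖u‖ = 1) → S ⊆ V k ∨ S ⊆ V l := by
    intro S hS hSG
    by_cases h : (S ∩ Bs V k).Nonempty ∧ (S ∩ Bs V l).Nonempty
    · obtain ⟨u, huS, huk, hul⟩ := (isPreconnected_closed_iff.1 hS) _ _ (Bs_closed V k)
        (Bs_closed V l) (fun u hu => honly u (hSG u hu).2 (hSG u hu).1.1) h.1 h.2
      exact absurd ⟨huk, hul⟩ (hcross u (hSG u huS).1 (hSG u huS).2)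
    · rw [not_and_or, not_nonempty_iff_eq_empty, not_nonempty_iff_eq_empty] at h
      rcases h with h | h
      · right
        intro u hu
        rcases hreg u (hSG u hu).1 (hSG u hu).2 with h3 | h3
        · exfalso
          have : u ∈ S ∩ Bs V k := ⟨hu, mem_Bs (hSG u hu).2 h3.1⟩
          rw [h] at this
          exact this
        · exact h3.1
      · left
        intro u hu
        rcases hreg u (hSG u hu).1 (hSG u hu).2 with h3 | h3
        · exact h3.1
        · exfalso
          have : u ∈ S ∩ Bs V l := ⟨hu, mem_Bs (hSG u hu).2 h3.1⟩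
          rw [h] at this
          exact this
  have hpre1 : IsPreconnected
      {u : E | ‖u‖ = 1 ∧ 0 < inner ℝ u x1 ∧ inner ℝ u x2 < 0 ∧ 0 < inner ℝ u a} := by
    apply cone_pre (C := {u : E | 0 < inner ℝ u x1 ∧ inner ℝ u x2 < 0 ∧ 0 < inner ℝ u a})
    · rintro u ⟨p1, p2, p3⟩ v ⟨q1, q2, q3⟩ s t hs0 ht0 hst
      simp only [mem_setOf_eq, inner_add_left, real_inner_smul_left]
      rcases eq_or_lt_of_le hs0 with h | h
      · rw [← h, zero_add] at hst
        rw [← h, hst]
        simp only [zero_mul, one_mul, zero_add]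
        exact ⟨q1, q2, q3⟩
      · refine ⟨?_, ?_, ?_⟩
        · have := mul_pos h p1
          have := mul_nonneg ht0 q1.le
          linarith
        · have := mul_neg_of_pos_of_neg h p2
          have := mul_nonpos_of_nonneg_of_nonpos ht0 q2.le
          linarith
        · have := mul_pos h p3
          have := mul_nonneg ht0 q3.le
          linarith
    · rintro ⟨h, _⟩
      rw [inner_zero_left] at h
      exact lt_irrefl _ h
    · rintro u ⟨p1, p2, p3⟩ r hr
      simp only [mem_setOf_eq, real_inner_smul_left]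
      exact ⟨mul_pos hr p1, mul_neg_of_pos_of_neg hr p2, mul_pos hr p3⟩
  have hpre2 : IsPreconnected
      {u : E | ‖u‖ = 1 ∧ inner ℝ u x1 < 0 ∧ 0 < inner ℝ u x2 ∧ 0 < inner ℝ u a} := by
    apply cone_pre (C := {u : E | inner ℝ u x1 < 0 ∧ 0 < inner ℝ u x2 ∧ 0 < inner ℝ u a})
    · rintro u ⟨p1, p2, p3⟩ v ⟨q1, q2, q3⟩ s t hs0 ht0 hst
      simp only [mem_setOf_eq, inner_add_left, real_inner_smul_left]
      rcases eq_or_lt_of_le hs0 with h | h
      · rw [← h, zero_add] at hst
        rw [← h, hst]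
        simp only [zero_mul, one_mul, zero_add]
        exact ⟨q1, q2, q3⟩
      · refine ⟨?_, ?_, ?_⟩
        · have := mul_neg_of_pos_of_neg h p1
          have := mul_nonpos_of_nonneg_of_nonpos ht0 q1.le
          linarith
        · have := mul_pos h p2
          have := mul_nonneg ht0 q2.le
          linarith
        · have := mul_pos h p3
          have := mul_nonneg ht0 q3.le
          linarith
    · rintro ⟨h, _⟩
      rw [inner_zero_left] at h
      exact lt_irrefl _ h
    · rintro u ⟨p1, p2, p3⟩ r hr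
      simp only [mem_setOf_eq, real_inner_smul_left]
      exact ⟨mul_neg_of_pos_of_neg hr p1, mul_pos hr p2, mul_pos hr p3⟩
  -- two orthogonal points
  set m : E := ‖x1 - x2‖⁻¹ • (x1 - x2) with hm
  have hx12 : x1 - x2 ≠ 0 := sub_ne_zero.2 hne.symm
  have hm1 : ‖m‖ = 1 := norm_unit hx12
  have hc1 : inner ℝ x1 x2 < 1 := (inner_lt_one_iff_real_of_norm_eq_one hn1 hn2).2 hne.symm
  have hpos : 0 < ‖x1 - x2‖⁻¹ := inv_pos.2 (norm_pos_iff.2 hx12)
  have hmx1 : 0 < inner ℝ m x1 := by
    rw [hm, real_inner_smul_left, inner_sub_left, real_inner_self_eq_norm_sq, hn1,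
      real_inner_comm x1 x2]
    exact mul_pos hpos (by linarith)
  have hmx2 : inner ℝ m x2 < 0 := by
    rw [hm, real_inner_smul_left, inner_sub_left, real_inner_self_eq_norm_sq, hn2]
    exact mul_neg_of_pos_of_neg hpos (by linarith)
  have hma : inner ℝ m a = 0 := by
    rw [hm, real_inner_smul_left, inner_sub_left, h1a, h2a]
    ring
  have hax1 : inner ℝ a x1 = 0 := by rw [real_inner_comm]; exact h1a
  have hax2 : inner ℝ a x2 = 0 := by rw [real_inner_comm]; exact h2a
  have haa : inner ℝ a a = 1 := by rw [real_inner_self_eq_norm_sq, ha, one_pow]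
  have hmm : inner ℝ m m = 1 := by rw [real_inner_self_eq_norm_sq, hm1, one_pow]
  have ham0 : a + m ≠ 0 := by
    intro h
    have := congrArg (fun z => inner ℝ z a) h
    simp only [inner_add_left, haa, hma, inner_zero_left] at this
    norm_num at this
  have ham0' : a - m ≠ 0 := by
    intro h
    have := congrArg (fun z => inner ℝ z a) h
    simp only [inner_sub_left, haa, hma, inner_zero_left] at this
    norm_num at this
  have hp := inv_pos.2 (norm_pos_iff.2 ham0)
  have hp' := inv_pos.2 (norm_pos_iff.2 ham0')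
  have hu1 : ‖a + m‖⁻¹ • (a + m) ∈
      {u : E | ‖u‖ = 1 ∧ 0 < inner ℝ u x1 ∧ inner ℝ u x2 < 0 ∧ 0 < inner ℝ u a} := by
    refine ⟨norm_unit ham0, ?_, ?_, ?_⟩
    · rw [real_inner_smul_left, inner_add_left, hax1, zero_add]
      exact mul_pos hp hmx1
    · rw [real_inner_smul_left, inner_add_left, hax2, zero_add]
      exact mul_neg_of_pos_of_neg hp hmx2
    · rw [real_inner_smul_left, inner_add_left, haa, hma, add_zero, mul_one]
      exact hp
  have hv1 : ‖a - m‖⁻¹ • (a - m) ∈
      {u : E | ‖u‖ = 1 ∧ inner ℝ u x1 < 0 ∧ 0 < inner ℝ u x2 ∧ 0 < inner ℝ u a} := by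
    refine ⟨norm_unit ham0', ?_, ?_, ?_⟩
    · rw [real_inner_smul_left, inner_sub_left, hax1, zero_sub]
      exact mul_neg_of_pos_of_neg hp' (by linarith)
    · rw [real_inner_smul_left, inner_sub_left, hax2, zero_sub]
      exact mul_pos hp' (by linarith)
    · rw [real_inner_smul_left, inner_sub_left, haa, hma, sub_zero, mul_one]
      exact hp'
  have huv : inner ℝ (‖a + m‖⁻¹ • (a + m)) (‖a - m‖⁻¹ • (a - m)) = 0 := by
    rw [real_inner_smul_left, inner_smul_right, inner_add_left, inner_sub_right, inner_sub_right,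
      haa, hmm, hma, real_inner_comm m a, hma]
    ring
  rcases hmono _ hpre1 (fun u hu => ⟨⟨mul_neg_of_pos_of_neg hu.2.1 hu.2.2.1, hu.2.2.2.ne'⟩, hu.1⟩)
    with hA | hA <;>
    rcases hmono _ hpre2 (fun u hu => ⟨⟨mul_neg_of_neg_of_pos hu.2.1 hu.2.2.1, hu.2.2.2.ne'⟩, hu.1⟩)
      with hB | hB
  · exact absurd huv (hG.orth k _ (hA hu1) _ (hB hv1) hu1.1 hv1.1)
  · exact Or.inl ⟨hA, hB⟩
  · exact Or.inr ⟨hA, hB⟩
  · exact absurd huv (hG.orth l _ (hA hu1) _ (hB hv1) hu1.1 hv1.1)

end

end Pool.Agent.OrthoFan
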