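import Mathlib

/-!
# Colourings of the circle and of the two-dimensional sphere without nearly orthogonal pairs
-/

namespace Pool.Agent.OrthoFan

open Finset

section

variable {E : Type*} [NormedAddCommGroup E] [InnerProductSpace ℝ E]

/-- Two unit vectors near one line are not nearly orthogonal. -/
theorem cap_pair (v x y : E) (q : ℝ) (_hq : 0 ≤ q) (hv : inner ℝ v v = 1) (hx : ‖x‖ = 1)
    (hy : ‖y‖ = 1) (h1 : q ≤ (inner ℝ x v) ^ 2) (h2 : q ≤ (inner ℝ y v) ^ 2) :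
    2 * q - 1 ≤ |inner ℝ x y| := by
  set t := inner ℝ x v with ht
  set s := inner ℝ y v with hs
  have hxx : inner ℝ x x = 1 := by rw [real_inner_self_eq_norm_sq, hx, one_pow]
  have hyy : inner ℝ y y = 1 := by rw [real_inner_self_eq_norm_sq, hy, one_pow]
  have e1 : inner ℝ (x - t • v) (y - s • v) = inner ℝ x y - t * s := by
    rw [inner_sub_left, inner_sub_right, inner_sub_right, inner_smul_left, inner_smul_left,
      inner_smul_right, inner_smul_right, hv, ← ht, real_inner_comm y v, ← hs]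
    simp only [conj_trivial]
    ring
  have e2 : ‖x - t • v‖ ^ 2 = 1 - t ^ 2 := by
    rw [← real_inner_self_eq_norm_sq, inner_sub_left, inner_sub_right, inner_sub_right,
      inner_smul_left, inner_smul_left, inner_smul_right, inner_smul_right, hv,
      real_inner_comm x v, ← ht, hxx]
    simp only [conj_trivial]
    ring
  have e3 : ‖y - s • v‖ ^ 2 = 1 - s ^ 2 := by
    rw [← real_inner_self_eq_norm_sq, inner_sub_left, inner_sub_right, inner_sub_right,
      inner_smul_left, inner_smul_left, inner_smul_right, inner_smul_right, hv,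
      real_inner_comm y v, ← hs, hyy]
    simp only [conj_trivial]
    ring
  have e4 : |inner ℝ x y - t * s| ≤ 1 - q := by
    rw [← e1]
    refine (abs_real_inner_le_norm _ _).trans ?_
    nlinarith [sq_nonneg (‖x - t • v‖ - ‖y - s • v‖)]
  have e5 : q ≤ |t * s| := by
    rw [abs_mul]
    have h3 : q ≤ |t| ^ 2 := by rwa [sq_abs]
    have h4 : q ≤ |s| ^ 2 := by rwa [sq_abs]
    have h5 := abs_nonneg t
    have h6 := abs_nonneg s
    rcases le_total |t| |s| with h | h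
    · nlinarith
    · nlinarith
  have e6 : |t * s| ≤ |inner ℝ x y| + |inner ℝ x y - t * s| := by
    have := abs_sub_abs_le_abs_sub (t * s) (inner ℝ x y)
    rw [abs_sub_comm] at this
    linarith
  linarith

/-- If fourth moments are large compared with second moments, some line is near. -/
theorem exists_large {ι : Type*} (s : Finset ι) (t : ι → ℝ) (a q : ℝ) (ha : 0 < a)
    (h2 : ∑ i ∈ s, t i ^ 2 = a) (h4 : ∑ i ∈ s, t i ^ 4 = q * a) : ∃ i ∈ s, q ≤ t i ^ 2 := by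
  by_contra hcon
  push Not at hcon
  have hne : ∃ i ∈ s, 0 < t i ^ 2 := by
    by_contra h0
    push Not at h0
    have : ∑ i ∈ s, t i ^ 2 ≤ 0 := Finset.sum_nonpos h0
    linarith
  have h5 : ∑ i ∈ s, t i ^ 4 < ∑ i ∈ s, q * t i ^ 2 := by
    obtain ⟨i, hi, hpos⟩ := hne
    refine Finset.sum_lt_sum (fun j hj => ?_) ⟨i, hi, ?_⟩
    · nlinarith [hcon j hj, sq_nonneg (t j)]
    · nlinarith [hcon i hi]
  rw [← Finset.mul_sum, h2, h4] at h5
  exact lt_irrefl _ h5

/-- A colouring by lines. -/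
theorem colour_of_lines {m : ℕ} (v : Fin m → E) (hv : ∀ i, inner ℝ (v i) (v i) = 1) (a q : ℝ)
    (hm : 0 < m) (ha : 0 < a) (hq : 0 ≤ q)
    (h2 : ∀ x : E, ‖x‖ = 1 → ∑ i, (inner ℝ x (v i)) ^ 2 = a)
    (h4 : ∀ x : E, ‖x‖ = 1 → ∑ i, (inner ℝ x (v i)) ^ 4 = q * a) :
    ∃ c : E → Fin m, ∀ x y : E, ‖x‖ = 1 → ‖y‖ = 1 → c x = c y → 2 * q - 1 ≤ |inner ℝ x y| := by
  have h : ∀ x : E, ∃ i : Fin m, ‖x‖ = 1 → q ≤ (inner ℝ x (v i)) ^ 2 := by
    intro x
    by_cases hx : ‖x‖ = 1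
    · obtain ⟨i, _, hi⟩ := exists_large Finset.univ (fun i => inner ℝ x (v i)) a q ha
        (h2 x hx) (h4 x hx)
      exact ⟨i, fun _ => hi⟩
    · exact ⟨⟨0, hm⟩, fun h => absurd h hx⟩
  choose c hc using h
  refine ⟨c, fun x y hx hy hxy => ?_⟩
  have hy' := hc y hy
  rw [← hxy] at hy'
  exact cap_pair (v (c x)) x y q hq (hv _) hx hy (hc x hx) hy'

end

theorem norm2 (x : EuclideanSpace ℝ (Fin 2)) : ‖x‖ ^ 2 = x 0 ^ 2 + x 1 ^ 2 := by
  rw [EuclideanSpace.norm_sq_eq]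
  simp [Fin.sum_univ_two]

theorem norm3 (x : EuclideanSpace ℝ (Fin 3)) : ‖x‖ ^ 2 = x 0 ^ 2 + x 1 ^ 2 + x 2 ^ 2 := by
  rw [EuclideanSpace.norm_sq_eq]
  simp [Fin.sum_univ_three]

theorem inner2 (x y : EuclideanSpace ℝ (Fin 2)) : inner ℝ x y = x 0 * y 0 + x 1 * y 1 := by
  rw [PiLp.inner_apply]
  simp [Fin.sum_univ_two, mul_comm]

theorem inner3 (x y : EuclideanSpace ℝ (Fin 3)) :
    inner ℝ x y = x 0 * y 0 + x 1 * y 1 + x 2 * y 2 := by
  rw [PiLp.inner_apply]
  simp [Fin.sum_univ_three, mul_comm]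

/-- Three lines of the plane at angles `π/3`. -/
noncomputable def tri (i : Fin 3) : EuclideanSpace ℝ (Fin 2) :=
  match i with
  | 0 => !₂[1, 0]
  | 1 => !₂[1 / 2, Real.sqrt 3 / 2]
  | 2 => !₂[1 / 2, -(Real.sqrt 3 / 2)]

theorem circle_colouring : ∃ c : EuclideanSpace ℝ (Fin 2) → Fin 3,
    ∀ x y : EuclideanSpace ℝ (Fin 2), ‖x‖ = 1 → ‖y‖ = 1 → c x = c y → 1 / 2 ≤ |inner ℝ x y| := by
  have h3 : Real.sqrt 3 ^ 2 = 3 := Real.sq_sqrt (by norm_num)
  obtain ⟨c, hc⟩ := colour_of_lines tri (by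
      intro i
      fin_cases i
      · rw [inner2]; simp [tri]
      · rw [inner2]; simp [tri]; nlinarith
      · rw [inner2]; simp [tri]; nlinarith) (3 / 2) (3 / 4) (by norm_num) (by norm_num)
    (by norm_num)
    (by
      intro x hx
      have hn := norm2 x
      rw [hx] at hn
      rw [Fin.sum_univ_three, inner2, inner2, inner2]
      simp only [tri, Fin.isValue, PiLp.toLp_apply, Matrix.cons_val_zero, Matrix.cons_val_one,
        Matrix.cons_val_fin_one]
      generalize Real.sqrt 3 = r at *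
      generalize x 0 = a at *
      generalize x 1 = b at *
      have : r ^ 2 * b ^ 2 = 3 * b ^ 2 := by rw [h3]
      nlinarith)
    (by
      intro x hx
      have hn := norm2 x
      rw [hx] at hn
      rw [Fin.sum_univ_three, inner2, inner2, inner2]
      simp only [tri, Fin.isValue, PiLp.toLp_apply, Matrix.cons_val_zero, Matrix.cons_val_one,
        Matrix.cons_val_fin_one]
      generalize Real.sqrt 3 = r at *
      generalize x 0 = a at *
      generalize x 1 = b at *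
      have e1 : (a * 1 + b * 0) ^ 4 + (a * (1 / 2) + b * (r / 2)) ^ 4 +
          (a * (1 / 2) + b * -(r / 2)) ^ 4 = a ^ 4 + (1 / 8) * (a ^ 4 + 6 * a ^ 2 * b ^ 2 * r ^ 2 +
            b ^ 4 * (r ^ 2) ^ 2) := by ring
      rw [e1, h3]
      have e2 : b ^ 2 = 1 - a ^ 2 := by linarith
      have e3 : b ^ 4 = (1 - a ^ 2) ^ 2 := by
        rw [← e2]
        ring
      rw [e3, e2]
      ring)
  refine ⟨c, fun x y hx hy h => ?_⟩
  have := hc x y hx hy h
  norm_num at this ⊢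
  exact this

/-- The six diagonals of the icosahedron, with `g ^ 2 = g + 1` and `r ^ 2 = 1 / (g + 2)`. -/
noncomputable def ico (g r : ℝ) (i : Fin 6) : EuclideanSpace ℝ (Fin 3) :=
  match i with
  | 0 => !₂[0, r, r * g]
  | 1 => !₂[0, r, -(r * g)]
  | 2 => !₂[r, r * g, 0]
  | 3 => !₂[r, -(r * g), 0]
  | 4 => !₂[r * g, 0, r]
  | 5 => !₂[-(r * g), 0, r]

theorem sphere_colouring : ∃ c : EuclideanSpace ℝ (Fin 3) → Fin 6,
    ∀ x y : EuclideanSpace ℝ (Fin 3), ‖x‖ = 1 → ‖y‖ = 1 → c x = c y → 1 / 5 ≤ |inner ℝ x y| := by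
  obtain ⟨g, hg, hg0⟩ : ∃ g : ℝ, g ^ 2 = g + 1 ∧ 0 < g := by
    refine ⟨(1 + Real.sqrt 5) / 2, ?_, by positivity⟩
    have h5 : Real.sqrt 5 ^ 2 = 5 := Real.sq_sqrt (by norm_num)
    nlinarith
  obtain ⟨r, hr⟩ : ∃ r : ℝ, r ^ 2 * (g + 2) = 1 := by
    refine ⟨Real.sqrt (g + 2)⁻¹, ?_⟩
    rw [Real.sq_sqrt (by positivity), inv_mul_cancel₀ (by positivity)]
  have hr2 : r ^ 2 * (1 + g ^ 2) = 1 := by
    rw [hg]
    linarith
  obtain ⟨c, hc⟩ := colour_of_lines (ico g r) (by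
      intro i
      fin_cases i <;> (rw [inner3]; simp [ico]; nlinarith)) 2 (3 / 5) (by norm_num) (by norm_num)
    (by norm_num)
    (by
      intro x hx
      have hn := norm3 x
      rw [hx] at hn
      rw [Fin.sum_univ_six]
      simp only [inner3, ico, Fin.isValue, PiLp.toLp_apply, Matrix.cons_val_zero,
        Matrix.cons_val_one, Matrix.cons_val, Matrix.cons_val_fin_one]
      generalize x 0 = a at *
      generalize x 1 = b at *
      generalize x 2 = d at *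
      have : (a * 0 + b * r + d * (r * g)) ^ 2 + (a * 0 + b * r + d * -(r * g)) ^ 2 +
          (a * r + b * (r * g) + d * 0) ^ 2 + (a * r + b * -(r * g) + d * 0) ^ 2 +
          (a * (r * g) + b * 0 + d * r) ^ 2 + (a * -(r * g) + b * 0 + d * r) ^ 2 =
          2 * (r ^ 2 * (1 + g ^ 2)) * (a ^ 2 + b ^ 2 + d ^ 2) := by ring
      rw [this, hr2, ← hn]
      ring)
    (by
      intro x hx
      have hn := norm3 x
      rw [hx] at hn
      rw [Fin.sum_univ_six]
      simp only [inner3, ico, Fin.isValue, PiLp.toLp_apply, Matrix.cons_val_zero,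
        Matrix.cons_val_one, Matrix.cons_val, Matrix.cons_val_fin_one]
      generalize x 0 = a at *
      generalize x 1 = b at *
      generalize x 2 = d at *
      have e1 : (a * 0 + b * r + d * (r * g)) ^ 4 + (a * 0 + b * r + d * -(r * g)) ^ 4 +
          (a * r + b * (r * g) + d * 0) ^ 4 + (a * r + b * -(r * g) + d * 0) ^ 4 +
          (a * (r * g) + b * 0 + d * r) ^ 4 + (a * -(r * g) + b * 0 + d * r) ^ 4 =
          (r ^ 2) ^ 2 * (2 * (1 + (g ^ 2) ^ 2) * (a ^ 4 + b ^ 4 + d ^ 4) +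
            12 * g ^ 2 * (a ^ 2 * b ^ 2 + b ^ 2 * d ^ 2 + a ^ 2 * d ^ 2)) := by ring
      rw [e1]
      have e2 : 1 + (g ^ 2) ^ 2 = 3 * g ^ 2 := by
        rw [hg]
        nlinarith
      rw [e2]
      have e3 : (r ^ 2) ^ 2 * (2 * (3 * g ^ 2) * (a ^ 4 + b ^ 4 + d ^ 4) +
          12 * g ^ 2 * (a ^ 2 * b ^ 2 + b ^ 2 * d ^ 2 + a ^ 2 * d ^ 2)) =
          6 * ((r ^ 2) ^ 2 * g ^ 2) * (a ^ 2 + b ^ 2 + d ^ 2) ^ 2 := by ring
      rw [e3, ← hn]
      have e4 : (r ^ 2) ^ 2 * g ^ 2 = 1 / 5 := by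
        have h6 : (r ^ 2) ^ 2 * (1 + g ^ 2) ^ 2 = 1 := by
          have : (r ^ 2) ^ 2 * (1 + g ^ 2) ^ 2 = (r ^ 2 * (1 + g ^ 2)) ^ 2 := by ring
          rw [this, hr2, one_pow]
        have h7 : (1 + g ^ 2) ^ 2 = 5 * g ^ 2 := by nlinarith
        rw [h7] at h6
        linarith
      rw [e4]
      norm_num)
  refine ⟨c, fun x y hx hy h => ?_⟩
  have := hc x y hx hy h
  norm_num at this ⊢
  exact this

end Pool.Agent.OrthoFan
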