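import Pool.Agent.H.MP_ef93d4_co.h56.Parity

/-!
# Barycentric subdivision of mod 2 chains
-/

namespace Pool.Agent.OrthoFan

section Alg

variable {V : Type*} [AddCommGroup V] [Module ℝ V]

/-- The barycentre of a simplex. -/
noncomputable def bary (l : List V) : V := ((l.length : ℝ)⁻¹) • l.sum

/-- The barycentric subdivision of a simplex with `k` vertices. -/
noncomputable def sdF : ℕ → List V → Ch V
  | 0, l => one l
  | k + 1, l => cone (bary l) (lin (sdF k) (bd l))

/-- The barycentric subdivision of chains of simplices with `k` vertices. -/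
noncomputable def sd (k : ℕ) : Ch V →ₗ[ZMod 2] Ch V := lin (sdF k)

theorem sd_one (k : ℕ) (l : List V) : sd k (one l) = sdF k l := lin_one _ _

theorem sd_zero (c : Ch V) : sd 0 c = c := by
  have h : (sd 0 : Ch V →ₗ[ZMod 2] Ch V) = LinearMap.id := by
    apply hom_ext
    intro l
    rw [sd_one]
    rfl
  rw [h]
  rfl

theorem sdF_succ (k : ℕ) (l : List V) : sdF (k + 1) l = cone (bary l) (sd k (bd l)) := rfl

theorem D_sd (k : ℕ) {c : Ch V} (hc : On (fun l => l.length = k + 1) c) :
    D (sd (k + 1) c) = sd k (D c) := by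
  induction k generalizing c with
  | zero =>
    refine lin_congr (f := D ∘ₗ sd 1) (g := sd 0 ∘ₗ D) ?_ hc
    intro l _
    simp only [LinearMap.comp_apply, sd_one, D_one]
    rw [sdF_succ, D_cone, sd_zero, D_bd, map_zero, add_zero]
  | succ k ih =>
    refine lin_congr (f := D ∘ₗ sd (k + 1 + 1)) (g := sd (k + 1) ∘ₗ D) ?_ hc
    intro l hl
    simp only [LinearMap.comp_apply, sd_one, D_one]
    have h1 : On (fun t : List V => t.length = k + 1) (bd l) :=
      (bd_on l).mono (fun t ht => by omega)
    rw [sdF_succ, D_cone, ih h1, D_bd, map_zero, map_zero, add_zero]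

theorem bary_neg (l : List V) : bary (l.map (fun x => -x)) = -bary l := by
  unfold bary
  rw [List.length_map, ← smul_neg]
  congr 1
  induction l with
  | nil => simp
  | cons x l ih =>
    rw [List.map_cons, List.sum_cons, ih, List.sum_cons, neg_add]

theorem nu_sdF (k : ℕ) (l : List V) : nu (sdF k l) = sdF k (l.map (fun x => -x)) := by
  induction k generalizing l with
  | zero => exact nu_one l
  | succ k ih =>
    rw [sdF_succ, sdF_succ, nu_cone, bary_neg, ← nu_bd]
    congr 1
    have h : (nu ∘ₗ sd k : Ch V →ₗ[ZMod 2] Ch V) = sd k ∘ₗ nu := by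
      apply hom_ext
      intro l
      simp only [LinearMap.comp_apply, sd_one, nu_one, ih]
    exact LinearMap.congr_fun h _

theorem nu_sd (k : ℕ) (c : Ch V) : nu (sd k c) = sd k (nu c) := by
  have h : (nu ∘ₗ sd k : Ch V →ₗ[ZMod 2] Ch V) = sd k ∘ₗ nu := by
    apply hom_ext
    intro l
    simp only [LinearMap.comp_apply, sd_one, nu_one, nu_sdF]
  exact LinearMap.congr_fun h _

theorem bary_mem {K : Set V} (hK : Convex ℝ K) {l : List V} (hne : l ≠ [])
    (h : ∀ v ∈ l, v ∈ K) : bary l ∈ K := by
  induction l with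
  | nil => exact absurd rfl hne
  | cons a l ih =>
    rcases l with _ | ⟨b, l⟩
    · unfold bary
      simpa using h a (List.mem_cons_self)
    · have h1 := ih (by simp) (fun v hv => h v (List.mem_cons_of_mem a hv))
      have h2 := h a (List.mem_cons_self)
      set m : ℝ := ((b :: l).length : ℝ) with hm
      have hm0 : 0 < m := by
        rw [hm]
        simp only [List.length_cons]
        positivity
      have e : bary (a :: b :: l) = (1 / (m + 1)) • a + (m / (m + 1)) • bary (b :: l) := by
        unfold bary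
        rw [List.sum_cons, ← hm]
        have : ((a :: b :: l).length : ℝ) = m + 1 := by
          rw [hm]
          simp only [List.length_cons]
          push_cast
          ring
        rw [this, smul_add, smul_smul]
        congr 1
        · rw [one_div]
        · congr 1
          field_simp
      rw [e]
      refine hK h2 h1 (by positivity) (by positivity) ?_
      field_simp
      ring

theorem sdF_mem {K : Set V} (hK : Convex ℝ K) (k : ℕ) {l : List V} (hl : l.length = k)
    (h : ∀ v ∈ l, v ∈ K) : On (fun t => t.length = k ∧ ∀ v ∈ t, v ∈ K) (sdF k l) := by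
  induction k generalizing l with
  | zero => exact On.one ⟨hl, h⟩
  | succ k ih =>
    rw [sdF_succ]
    have hne : l ≠ [] := by
      intro h0
      rw [h0] at hl
      simp at hl
    have hb := bary_mem hK hne h
    have h1 : On (fun t => t.length = k ∧ ∀ v ∈ t, v ∈ K) (sd k (bd l)) := by
      refine On.map ?_ (bd_on l)
      intro t ht
      rw [sd_one]
      exact ih (by omega) (fun v hv => h v (ht.1.subset hv))
    refine On.map ?_ h1
    intro t ht
    rw [cone_one]
    refine On.one ⟨by simp [ht.1], ?_⟩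
    intro v hv
    rcases List.mem_cons.1 hv with rfl | hv
    · exact hb
    · exact ht.2 v hv

end Alg

section Mesh

variable {V : Type*} [NormedAddCommGroup V] [NormedSpace ℝ V]

theorem norm_sum_le (l : List V) (w : V) :
    ‖l.sum - (l.length : ℝ) • w‖ ≤ (l.map (fun v => ‖v - w‖)).sum := by
  induction l with
  | nil => simp
  | cons a l ih =>
    have e : (a :: l).sum - ((a :: l).length : ℝ) • w =
        (a - w) + (l.sum - (l.length : ℝ) • w) := by
      rw [List.sum_cons, List.length_cons]
      push_cast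
      rw [add_smul, one_smul]
      abel
    rw [e, List.map_cons, List.sum_cons]
    exact (norm_add_le _ _).trans (by linarith)

omit [NormedSpace ℝ V] in
theorem sum_erase_le [DecidableEq V] (l : List V) (w : V) (hw : w ∈ l) (r : ℝ)
    (h : ∀ v ∈ l, ‖v - w‖ ≤ r) :
    (l.map (fun v => ‖v - w‖)).sum ≤ ((l.length : ℝ) - 1) * r := by
  have hp := List.perm_cons_erase hw
  have h1 := (hp.map (fun v => ‖v - w‖)).sum_eq
  rw [h1, List.map_cons, List.sum_cons, sub_self, norm_zero, zero_add]
  have h2 : (l.length : ℝ) - 1 = (l.erase w).length := by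
    rw [List.length_erase_of_mem hw, Nat.cast_sub (List.length_pos_of_mem hw), Nat.cast_one]
  rw [h2]
  have h3 : ∀ x ∈ (l.erase w).map (fun v => ‖v - w‖), x ≤ r := by
    intro x hx
    rw [List.mem_map] at hx
    obtain ⟨v, hv, rfl⟩ := hx
    exact h v (List.mem_of_mem_erase hv)
  have h4 := List.sum_le_card_nsmul _ r h3
  rw [List.length_map, nsmul_eq_mul] at h4
  exact h4

theorem dist_bary {n : ℕ} {l : List V} (hl : l.length ≤ n + 1) {r : ℝ} (hr : 0 ≤ r) {w : V}
    (hw : w ∈ l) (h : ∀ v ∈ l, dist v w ≤ r) : dist w (bary l) ≤ (n / (n + 1) : ℝ) * r := by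
  classical
  have hpos : 0 < l.length := List.length_pos_of_mem hw
  have hm0 : (0 : ℝ) < l.length := by exact_mod_cast hpos
  have e : bary l - w = ((l.length : ℝ)⁻¹) • (l.sum - (l.length : ℝ) • w) := by
    unfold bary
    rw [smul_sub, smul_smul, inv_mul_cancel₀ hm0.ne', one_smul]
  have h1 : ‖bary l - w‖ ≤ ((l.length : ℝ)⁻¹) * (((l.length : ℝ) - 1) * r) := by
    rw [e, norm_smul, Real.norm_eq_abs, abs_of_pos (inv_pos.2 hm0)]
    refine mul_le_mul_of_nonneg_left ?_ (inv_pos.2 hm0).le
    exact (norm_sum_le l w).trans (sum_erase_le l w hw r (fun v hv => by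
      rw [← dist_eq_norm]
      exact h v hv))
  rw [dist_comm, dist_eq_norm]
  refine h1.trans ?_
  have hl' : (l.length : ℝ) ≤ n + 1 := by exact_mod_cast hl
  rw [← mul_assoc]
  refine mul_le_mul_of_nonneg_right ?_ hr
  rw [inv_mul_le_iff₀ hm0]
  have hn : (0 : ℝ) < (n : ℝ) + 1 := by positivity
  rw [mul_div_assoc', le_div_iff₀ hn]
  nlinarith

theorem sdF_mesh (n k : ℕ) (hk : k ≤ n + 1) {l : List V} (hl : l.length = k) {r : ℝ} (hr : 0 ≤ r)
    (h : ∀ u ∈ l, ∀ v ∈ l, dist u v ≤ r) :
    On (fun t => ∀ u ∈ t, ∀ v ∈ t, dist u v ≤ (n / (n + 1) : ℝ) * r) (sdF k l) := by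
  have hq : 0 ≤ (n / (n + 1) : ℝ) * r := by positivity
  induction k generalizing l with
  | zero =>
    refine On.one ?_
    rw [List.length_eq_zero_iff] at hl
    subst hl
    intro u hu
    simp at hu
  | succ k ih =>
    rw [sdF_succ]
    have hK : Convex ℝ (Metric.closedBall (bary l) ((n / (n + 1) : ℝ) * r)) :=
      convex_closedBall _ _
    have h1 : On (fun t => (∀ u ∈ t, ∀ v ∈ t, dist u v ≤ (n / (n + 1) : ℝ) * r) ∧
        ∀ u ∈ t, dist u (bary l) ≤ (n / (n + 1) : ℝ) * r) (sd k (bd l)) := by
      refine On.map ?_ (bd_on l)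
      intro t ht
      rw [sd_one]
      have ha := ih (l := t) (by omega) (by omega) (fun u hu v hv =>
        h u (ht.1.subset hu) v (ht.1.subset hv))
      have hb := sdF_mem hK k (l := t) (by omega) (fun v hv => by
        rw [Metric.mem_closedBall]
        exact dist_bary (n := n) (by omega) hr (ht.1.subset hv)
          (fun w hw => h w hw v (ht.1.subset hv)))
      intro s hs
      exact ⟨ha s hs, fun u hu => Metric.mem_closedBall.1 ((hb s hs).2 u hu)⟩
    refine On.map ?_ h1
    intro t ht
    rw [cone_one]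
    refine On.one ?_
    intro u hu v hv
    rcases List.mem_cons.1 hu with rfl | hu <;> rcases List.mem_cons.1 hv with rfl | hv
    · rw [dist_self]
      exact hq
    · rw [dist_comm]
      exact ht.2 v hv
    · exact ht.2 u hu
    · exact ht.1 u hu v hv

/-- Simplices with `k` vertices, inside one of the sets `K i`, with diameter at most `r`. -/
def Sm {ι : Type*} (K : ι → Set V) (k : ℕ) (r : ℝ) (l : List V) : Prop :=
  l.length = k ∧ (∃ i, ∀ v ∈ l, v ∈ K i) ∧ ∀ u ∈ l, ∀ v ∈ l, dist u v ≤ r

theorem sd_Sm {ι : Type*} (K : ι → Set V) (hK : ∀ i, Convex ℝ (K i)) (n k : ℕ) (hk : k ≤ n + 1)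
    {r : ℝ} (hr : 0 ≤ r) {c : Ch V} (hc : On (Sm K k r) c) :
    On (Sm K k ((n / (n + 1) : ℝ) * r)) (sd k c) := by
  refine On.map ?_ hc
  rintro l ⟨h1, ⟨i, h2⟩, h3⟩
  rw [sd_one]
  have ha := sdF_mem (hK i) k h1 h2
  have hb := sdF_mesh n k hk h1 hr h3
  intro t ht
  exact ⟨(ha t ht).1, ⟨i, (ha t ht).2⟩, hb t ht⟩

theorem sd_iter_Sm {ι : Type*} (K : ι → Set V) (hK : ∀ i, Convex ℝ (K i)) (n k : ℕ)
    (hk : k ≤ n + 1) {r : ℝ} (hr : 0 ≤ r) {c : Ch V} (hc : On (Sm K k r) c) (N : ℕ) :
    On (Sm K k ((n / (n + 1) : ℝ) ^ N * r)) ((sd k)^[N] c) := by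
  induction N with
  | zero => simpa using hc
  | succ N ih =>
    rw [Function.iterate_succ_apply', pow_succ', mul_assoc]
    exact sd_Sm K hK n k hk (by positivity) ih

theorem sd_iter_add (k N : ℕ) (c c' : Ch V) :
    (sd k)^[N] (c + c') = (sd k)^[N] c + (sd k)^[N] c' := by
  induction N with
  | zero => rfl
  | succ N ih => rw [Function.iterate_succ_apply', Function.iterate_succ_apply',
      Function.iterate_succ_apply', ih, map_add]

theorem nu_sd_iter (k N : ℕ) (c : Ch V) : nu ((sd k)^[N] c) = (sd k)^[N] (nu c) := by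
  induction N with
  | zero => rfl
  | succ N ih => rw [Function.iterate_succ_apply', Function.iterate_succ_apply', nu_sd, ih]

theorem sd_len (k : ℕ) {c : Ch V} (hc : On (fun l => l.length = k) c) :
    On (fun l => l.length = k) (sd k c) := by
  refine On.map ?_ hc
  intro l hl
  rw [sd_one]
  exact (sdF_mem (K := Set.univ) convex_univ k hl (fun v _ => Set.mem_univ v)).mono
    (fun t ht => ht.1)

theorem sd_iter_len (k N : ℕ) {c : Ch V} (hc : On (fun l => l.length = k) c) :
    On (fun l => l.length = k) ((sd k)^[N] c) := by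
  induction N with
  | zero => exact hc
  | succ N ih =>
    rw [Function.iterate_succ_apply']
    exact sd_len k ih

theorem D_sd_iter (k N : ℕ) {c : Ch V} (hc : On (fun l => l.length = k + 1) c) :
    D ((sd (k + 1))^[N] c) = (sd k)^[N] (D c) := by
  induction N with
  | zero => rfl
  | succ N ih =>
    rw [Function.iterate_succ_apply', Function.iterate_succ_apply',
      D_sd k (sd_iter_len (k + 1) N hc), ih]

theorem sd_zero_iter (N : ℕ) (c : Ch V) : (sd 0)^[N] c = c := by
  induction N with
  | zero => rfl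
  | succ N ih => rw [Function.iterate_succ_apply', ih, sd_zero]

end Mesh

end Pool.Agent.OrthoFan
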