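import Pool.Agent.H.MP_ef93d4_co.h56.OpenCover
import Pool.Agent.H.MP_ef93d4_co.h56.Conti

/-!
# Open colourings of the sphere: symmetric, disjoint, regular; facial points
-/

namespace Pool.Agent.OrthoFan

open Set Filter Topology Module

variable {E : Type*} [NormedAddCommGroup E] [InnerProductSpace ℝ E] {ι : Type*}

/-- A symmetric, pairwise disjoint good covering. -/
structure SymCov (s : Finset ι) (U : ι → Set E) : Prop extends GoodCov s U where
  sym : ∀ i, ∀ x ∈ U i, -x ∈ U i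
  disj : ∀ i ∈ s, ∀ j ∈ s, i ≠ j → ∀ x, ‖x‖ = 1 → x ∈ U i → x ∉ U j

/-- A regular covering: a point of the sphere in only one closure lies in the open set. -/
structure RegCov (s : Finset ι) (U : ι → Set E) : Prop extends SymCov s U where
  reg : ∀ i ∈ s, ∀ x, ‖x‖ = 1 → (∀ j ∈ s, j ≠ i → x ∉ Bs U j) → x ∈ U i

theorem mem_Bs {U : ι → Set E} {i : ι} {x : E} (hx : ‖x‖ = 1) (h : x ∈ U i) : x ∈ Bs U i :=
  subset_closure ⟨hx, Or.inl h⟩

theorem GoodCov.cover {s : Finset ι} {U : ι → Set E} (hG : GoodCov s U) {x : E} (hx : ‖x‖ = 1) :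
    ∃ i ∈ s, x ∈ Bs U i := by
  by_contra h
  push Not at h
  have hop : IsOpen (⋂ i ∈ s, (Bs U i)ᶜ) :=
    isOpen_biInter_finset (fun i _ => (Bs_closed U i).isOpen_compl)
  obtain ⟨y, hy, hy1, i, hi, hyi⟩ := hG.dense _ hop ⟨x, mem_iInter₂.2 h, hx⟩
  exact (mem_iInter₂.1 hy i hi) (subset_closure ⟨hy1, Or.inl hyi⟩)

theorem GoodCov.orthB {s : Finset ι} {U : ι → Set E} (hG : GoodCov s U) {i : ι} {x y : E}
    (hx : x ∈ Bs U i) (hy : y ∈ U i) (hy1 : ‖y‖ = 1) : inner ℝ x y ≠ 0 :=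
  Bs_orth hG.op hG.orth hx hy hy1

theorem SymCov.not_Bs {s : Finset ι} {U : ι → Set E} (hG : SymCov s U) {i j : ι} (hi : i ∈ s)
    (hj : j ∈ s) (hij : i ≠ j) {x : E} (h : x ∈ U i) : x ∉ Bs U j := by
  intro hB
  obtain ⟨w, hw, hwi⟩ := mem_closure_iff.1 hB (U i) (hG.op i) h
  have h1 : w ∈ U j := by
    rcases hwi.2 with h2 | h2
    · exact h2
    · have := hG.sym j _ h2
      rwa [neg_neg] at this
  exact hG.disj i hi j hj hij w hwi.1 hw h1

/-- The regularised sets. -/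
def Rg (s : Finset ι) (U : ι → Set E) (i : ι) : Set E := {x | ∀ j ∈ s, j ≠ i → x ∉ Bs U j}

theorem Rg_open (s : Finset ι) (U : ι → Set E) (i : ι) : IsOpen (Rg s U i) := by
  classical
  have : Rg s U i = ⋂ j ∈ s.filter (fun j => j ≠ i), (Bs U j)ᶜ := by
    ext x
    simp only [Rg, mem_iInter, Finset.mem_filter, mem_compl_iff]
    constructor
    · intro h j hj
      exact h j hj.1 hj.2
    · intro h j hj hne
      exact h j ⟨hj, hne⟩
  rw [this]
  exact isOpen_biInter_finset (fun j _ => (Bs_closed U j).isOpen_compl)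

theorem SymCov.sub_Rg {s : Finset ι} {U : ι → Set E} (hG : SymCov s U) {i : ι} (hi : i ∈ s) :
    U i ⊆ Rg s U i := by
  intro x hx j hj hne
  exact hG.not_Bs hi hj hne.symm hx

theorem SymCov.Rg_sub {s : Finset ι} {U : ι → Set E} (hG : SymCov s U) {i : ι} {x : E}
    (hx : ‖x‖ = 1) (h : x ∈ Rg s U i) : i ∈ s ∧ x ∈ Bs U i := by
  obtain ⟨k, hk, hxk⟩ := hG.cover hx
  by_cases hki : k = i
  · exact ⟨hki ▸ hk, hki ▸ hxk⟩
  · exact absurd hxk (h k hk hki)

theorem SymCov.Rg_neg {s : Finset ι} {U : ι → Set E} {i : ι} {x : E}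
    (h : x ∈ Rg s U i) : -x ∈ Rg s U i := by
  intro j hj hne hB
  have := Bs_neg hB
  rw [neg_neg] at this
  exact h j hj hne this

theorem SymCov.Bs_Rg {s : Finset ι} {U : ι → Set E} (hG : SymCov s U) {i : ι} (hi : i ∈ s) :
    Bs (Rg s U) i = Bs U i := by
  apply Subset.antisymm
  · refine closure_minimal ?_ (Bs_closed U i)
    rintro x ⟨hx, h | h⟩
    · exact (hG.Rg_sub hx h).2
    · have h2 := (hG.Rg_sub (by rw [norm_neg]; exact hx) h).2
      have h3 := Bs_neg h2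
      rwa [neg_neg] at h3
  · apply closure_mono
    rintro x ⟨hx, h | h⟩
    · exact ⟨hx, Or.inl (hG.sub_Rg hi h)⟩
    · exact ⟨hx, Or.inr (hG.sub_Rg hi h)⟩

theorem SymCov.toReg {s : Finset ι} {U : ι → Set E} (hG : SymCov s U) : RegCov s (Rg s U) where
  op := Rg_open s U
  orth := by
    intro i x hx y hy hx1 hy1 h0
    obtain ⟨hi, hxB⟩ := hG.Rg_sub hx1 hx
    have h1 : ∃ᶠ w in 𝓝 x, ‖w‖ = 1 ∧ (w ∈ U i ∨ -w ∈ U i) := mem_closure_iff_frequently.1 hxB
    have h2 : ∀ᶠ w in 𝓝 x, sec y w ∈ Rg s U i :=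
      (sec_tendsto hy1 h0) ((Rg_open s U i).mem_nhds hy)
    obtain ⟨w, ⟨hw1, hw2⟩, hw3, hw4⟩ := (h1.and_eventually (h2.and (sec_norm hy1 h0))).exists
    have h5 := sec_inner (y := y) hw1
    have h6 : w ∈ U i := by
      rcases hw2 with h | h
      · exact h
      · have := hG.sym i _ h
        rwa [neg_neg] at this
    have h7 := (hG.Rg_sub hw4 hw3).2
    have h8 := hG.orthB h7 h6 hw1
    rw [real_inner_comm] at h8
    exact h8 h5
  dense := by
    intro O hO hex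
    obtain ⟨y, hyO, hy1, i, hi, hyi⟩ := hG.dense O hO hex
    exact ⟨y, hyO, hy1, i, hi, hG.sub_Rg hi hyi⟩
  sym := fun i x hx => SymCov.Rg_neg hx
  disj := by
    intro i hi j hj hij x hx h1 h2
    have h3 := (hG.Rg_sub hx h1).2
    exact h2 i hi hij h3
  reg := by
    intro i hi x hx h j hj hne
    have := h j hj hne
    rwa [hG.Bs_Rg hj] at this

/-- From a good covering indexed by an initial segment to a symmetric disjoint one. -/
def Sy {m : ℕ} (U : Fin m → Set E) (i : Fin m) : Set E :=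
  {x | (x ∈ U i ∨ -x ∈ U i) ∧ ∀ j, j < i → x ∉ Bs U j}

theorem GoodCov.toSym {m : ℕ} {U : Fin m → Set E} (hG : GoodCov Finset.univ U) :
    SymCov Finset.univ (Sy U) where
  op := by
    intro i
    have : Sy U i = (U i ∪ (fun x => -x) ⁻¹' U i) ∩ ⋂ j ∈ Finset.univ.filter (fun j => j < i),
        (Bs U j)ᶜ := by
      ext x
      simp only [Sy, mem_inter_iff, mem_union, mem_preimage, mem_iInter, Finset.mem_filter,
        Finset.mem_univ, true_and, mem_compl_iff]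
      exact Iff.rfl
    rw [this]
    exact ((hG.op i).union ((hG.op i).preimage continuous_neg)).inter
      (isOpen_biInter_finset (fun j _ => (Bs_closed U j).isOpen_compl))
  orth := by
    intro i x hx y hy hx1 hy1 h0
    rcases hx.1 with h1 | h1 <;> rcases hy.1 with h2 | h2
    · exact hG.orth i _ h1 _ h2 hx1 hy1 h0
    · refine hG.orth i _ h1 _ h2 hx1 (by rwa [norm_neg]) ?_
      rw [inner_neg_right, h0, neg_zero]
    · refine hG.orth i _ h1 _ h2 (by rwa [norm_neg]) hy1 ?_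
      rw [inner_neg_left, h0, neg_zero]
    · refine hG.orth i _ h1 _ h2 (by rwa [norm_neg]) (by rwa [norm_neg]) ?_
      rw [inner_neg_left, inner_neg_right, h0, neg_zero, neg_zero]
  dense := by
    classical
    intro O hO hex
    have h1 : ∃ n : ℕ, ∃ (hn : n < m), ∃ y ∈ O, ‖y‖ = 1 ∧ (y ∈ U ⟨n, hn⟩ ∨ -y ∈ U ⟨n, hn⟩) := by
      obtain ⟨y, hyO, hy1, i, _, hyi⟩ := hG.dense O hO hex
      exact ⟨i, i.2, y, hyO, hy1, Or.inl hyi⟩
    obtain ⟨hn, y, hyO, hy1, hyi⟩ := Nat.find_spec h1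
    refine ⟨y, hyO, hy1, ⟨Nat.find h1, hn⟩, Finset.mem_univ _, hyi, ?_⟩
    intro j hj hB
    obtain ⟨w, hw, hwi⟩ := mem_closure_iff.1 hB O hO hyO
    exact Nat.find_min h1 (m := j) hj ⟨j.2, w, hw, hwi.1, hwi.2⟩
  sym := by
    rintro i x ⟨h1, h2⟩
    refine ⟨by rw [neg_neg]; exact h1.symm, fun j hj hB => ?_⟩
    have := Bs_neg hB
    rw [neg_neg] at this
    exact h2 j hj this
  disj := by
    intro i _ j _ hij x hx h1 h2
    rcases lt_or_gt_of_ne hij with h | h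
    · exact h2.2 i h (subset_closure ⟨hx, h1.1⟩)
    · exact h1.2 j h (subset_closure ⟨hx, h2.1⟩)

/-- The set of points in no open set. -/
def Zs (s : Finset ι) (U : ι → Set E) : Set E := {y | ∀ i ∈ s, y ∉ U i}

theorem Zs_closed {s : Finset ι} {U : ι → Set E} (hG : GoodCov s U) : IsClosed (Zs s U) := by
  have : Zs s U = (⋃ i ∈ s, U i)ᶜ := by
    ext y
    simp only [Zs, mem_compl_iff, mem_iUnion, not_exists]
    exact Iff.rfl
  rw [this]
  exact (isOpen_biUnion (fun i _ => hG.op i)).isClosed_compl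

theorem Zs_thin {s : Finset ι} {U : ι → Set E} (hG : GoodCov s U) : Thin (Zs s U) := by
  intro O hO hex
  obtain ⟨y, h1, h2, i, h3, h4⟩ := hG.dense O hO hex
  exact ⟨y, h1, h2, fun h => h i h3 h4⟩

/-- Nonfacial points: the union of the open sets is dense in the orthogonal great sphere. -/
def Nonfac (s : Finset ι) (U : ι → Set E) (x : E) : Prop :=
  ∀ O : Set E, IsOpen O → (∃ y ∈ O, ‖y‖ = 1 ∧ inner ℝ x y = 0) →
    ∃ y ∈ O, ‖y‖ = 1 ∧ inner ℝ x y = 0 ∧ ∃ i ∈ s, y ∈ U i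

section

variable [FiniteDimensional ℝ E]

/-- The countable family of closed sets that contains all facial points. -/
noncomputable def Wk (s : Finset ι) (U : ι → Set E) (p : ℕ × ℕ) : Set E :=
  Wset (Zs s U) (TopologicalSpace.denseSeq E p.1) (1 / ((p.2 : ℝ) + 1))

theorem Wk_closed {s : Finset ι} {U : ι → Set E} (hG : GoodCov s U) (p : ℕ × ℕ) :
    IsClosed (Wk s U p) := Wset_closed (Zs_closed hG) _ _

theorem Wk_td {s : Finset ι} {U : ι → Set E} (hG : GoodCov s U) (p : ℕ × ℕ) :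
    IsTotallyDisconnected (Wk s U p) := Wset_td (Zs_thin hG) _ (by positivity)

theorem fac_mem {s : Finset ι} {U : ι → Set E} {x : E} (hx : ‖x‖ = 1) (h : ¬ Nonfac s U x) :
    ∃ p, x ∈ Wk s U p := by
  unfold Nonfac at h
  push Not at h
  obtain ⟨O, hO, ⟨y, hyO, hy1, hxy⟩, hcon⟩ := h
  obtain ⟨ε, hε, hball⟩ := Metric.isOpen_iff.1 hO y hyO
  obtain ⟨n, hn⟩ := exists_nat_one_div_lt (show (0 : ℝ) < ε / 2 by linarith)
  have hpos : (0 : ℝ) < 1 / ((n : ℝ) + 1) := by positivity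
  obtain ⟨q, hq⟩ := (TopologicalSpace.denseRange_denseSeq E).exists_dist_lt y
    (show (0 : ℝ) < 1 / ((n : ℝ) + 1) / 2 by linarith)
  refine ⟨(q, n), hx, ⟨y, hy1, hxy, hq.le⟩, ?_⟩
  intro y' hy1' hxy' hyq' i hi hyi
  refine hcon y' (hball ?_) hy1' hxy' i hi hyi
  rw [Metric.mem_ball]
  have := dist_triangle_right y' y (TopologicalSpace.denseSeq E q)
  linarith

/-- A continuum in the unit sphere has nonfacial points in every open set that it meets. -/
theorem Conti.nonfac {s : Finset ι} {U : ι → Set E} (hG : GoodCov s U) {P : Set E} (hP : Conti P)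
    (hP1 : ∀ x ∈ P, ‖x‖ = 1) {O : Set E} (hO : IsOpen O) (h : (P ∩ O).Nonempty) :
    ∃ x ∈ P ∩ O, Nonfac s U x := by
  obtain ⟨P', hP'O, hP'⟩ := hP.loc hO h
  by_contra hcon
  push Not at hcon
  obtain ⟨p, P'', hP''s, hP''⟩ := hP'.cover (Wk s U) (Wk_closed hG) (by
    intro x hx
    exact mem_iUnion.2 (fac_mem (hP1 x (hP'O hx).1) (hcon x (hP'O hx))))
  obtain ⟨x, hx, y, hy, hxy⟩ := hP''.nd
  exact hxy (Wk_td hG p P'' (fun z hz => (hP''s hz).2) hP''.pre hx hy)

/-- A closed condition that holds at the nonfacial points of a continuum holds on it. -/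
theorem Conti.of_nonfac {s : Finset ι} {U : ι → Set E} (hG : GoodCov s U) {P : Set E}
    (hP : Conti P) (hP1 : ∀ x ∈ P, ‖x‖ = 1) {D : Set E} (hD : IsClosed D)
    (h : ∀ x ∈ P, Nonfac s U x → x ∈ D) : P ⊆ D := by
  intro x hx
  by_contra hxD
  obtain ⟨y, ⟨hyP, hyD⟩, hy⟩ := hP.nonfac hG hP1 hD.isOpen_compl ⟨x, hx, hxD⟩
  exact hyD (h y hyP hy)

theorem nonfac_count {d : ℕ} (hE : finrank ℝ E = d + 2) {s : Finset ι} {U : ι → Set E}
    (hG : GoodCov s U) {x : E} (hx : ‖x‖ = 1) (hn : Nonfac s U x) {t : Finset ι} (hts : t ⊆ s)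
    (ht : ∀ i ∈ t, x ∈ Bs U i) : 2 + d * (d + 1) + 2 * t.card ≤ 2 * s.card := by
  classical
  have hx0 : x ≠ 0 := by
    intro h
    rw [h, norm_zero] at hx
    norm_num at hx
  have hfr : finrank ℝ (ℝ ∙ x)ᗮ = d + 1 := by
    have h1 := Submodule.finrank_add_finrank_orthogonal (ℝ ∙ x)
    rw [finrank_span_singleton hx0, hE] at h1
    omega
  have hxy : ∀ y : (ℝ ∙ x)ᗮ, inner ℝ x (y : E) = 0 := by
    intro y
    have := y.2
    rw [Submodule.mem_orthogonal_singleton_iff_inner_right] at this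
    exact this
  have hih := open_cover d hfr (s \ t) (fun i => ((↑) : (ℝ ∙ x)ᗮ → E) ⁻¹' U i)
    ⟨fun i => (hG.op i).preimage continuous_subtype_val,
      fun i y hy z hz hy1 hz1 => hG.orth i _ hy _ hz hy1 hz1, by
      intro O hO hex
      obtain ⟨O', hO', rfl⟩ := isOpen_induced_iff.1 hO
      obtain ⟨y, hyO, hy1⟩ := hex
      obtain ⟨z, hzO, hz1, hxz, i, hi, hzi⟩ := hn O' hO' ⟨y, hyO, hy1, hxy y⟩
      have hzmem : z ∈ (ℝ ∙ x)ᗮ := by
        rw [Submodule.mem_orthogonal_singleton_iff_inner_right]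
        exact hxz
      refine ⟨⟨z, hzmem⟩, hzO, hz1, i, ?_, hzi⟩
      rw [Finset.mem_sdiff]
      refine ⟨hi, fun hit => ?_⟩
      exact Bs_orth hG.op hG.orth (ht i hit) hzi hz1 hxz⟩
  rw [Finset.card_sdiff_of_subset hts] at hih
  have hle : t.card ≤ s.card := Finset.card_le_card hts
  omega

/-- The points in at least `k` closures. -/
def Tk (s : Finset ι) (U : ι → Set E) (k : ℕ) : Set E :=
  {x | ‖x‖ = 1 ∧ ∃ t ∈ s.powersetCard k, ∀ i ∈ t, x ∈ Bs U i}

theorem Tk_closed (s : Finset ι) (U : ι → Set E) (k : ℕ) : IsClosed (Tk s U k) := by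
  have h1 : IsClosed {x : E | ‖x‖ = 1} := isClosed_eq continuous_norm continuous_const
  have h2 : IsClosed {x : E | ∃ t ∈ s.powersetCard k, ∀ i ∈ t, x ∈ Bs U i} := by
    have : {x : E | ∃ t ∈ s.powersetCard k, ∀ i ∈ t, x ∈ Bs U i} =
        ⋃ t ∈ (s.powersetCard k : Set (Finset ι)), ⋂ i ∈ (t : Set ι), Bs U i := by
      ext x
      simp only [mem_iUnion, mem_iInter, Finset.mem_coe, exists_prop]
      exact Iff.rfl
    rw [this]
    exact (Finset.finite_toSet _).isClosed_biUnion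
      (fun t _ => isClosed_biInter (fun i _ => Bs_closed U i))
  exact h1.inter h2

theorem sphere_comp {T : Set E} (hT : IsClosed T) (h1 : ∀ x ∈ T, ‖x‖ = 1) : IsCompact T := by
  refine (isCompact_sphere (0 : E) 1).of_isClosed_subset hT ?_
  intro x hx
  rw [mem_sphere_zero_iff_norm]
  exact h1 x hx

/-- The set of points in many closures is totally disconnected. -/
theorem Tk_td {d : ℕ} (hE : finrank ℝ E = d + 2) {s : Finset ι} {U : ι → Set E}
    (hG : GoodCov s U) {k : ℕ} (hk : 2 * s.card < 2 + d * (d + 1) + 2 * k) :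
    IsTotallyDisconnected (Tk s U k) := by
  by_contra h
  obtain ⟨P, hPT, hP⟩ := exists_conti_of_not_td (sphere_comp (Tk_closed s U k) (fun x hx => hx.1)) h
  obtain ⟨x, hx, _⟩ := hP.nd
  obtain ⟨y, ⟨hy, _⟩, hyn⟩ := hP.nonfac hG (fun z hz => (hPT hz).1) isOpen_univ ⟨x, hx, trivial⟩
  obtain ⟨hy1, t, ht, hyt⟩ := hPT hy
  rw [Finset.mem_powersetCard] at ht
  have := nonfac_count hE hG hy1 hyn ht.1 hyt
  rw [ht.2] at this
  omega

end

end Pool.Agent.OrthoFan
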