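import Pool.Agent.H.MP_ef93d4_co.h56.Agree

/-!
# Generic position is impossible: the continuum lies in three hyperplanes
-/

namespace Pool.Agent.OrthoFan

open Set Filter Topology Module

variable {E : Type*} [NormedAddCommGroup E] [InnerProductSpace ℝ E] {ι : Type*}

theorem lin_zero {P : ℝ → ℝ} (hc : Continuous P) (h : ∀ t, 0 ≤ t * P t) : P 0 = 0 := by
  apply le_antisymm
  · have ht := (hc.tendsto 0).mono_left (nhdsWithin_le_nhds (s := Iio 0))
    refine le_of_tendsto ht ?_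
    filter_upwards [self_mem_nhdsWithin] with t ht
    have ht0 : t < 0 := ht
    have h1 := h t
    by_contra h2
    push Not at h2
    have := mul_neg_of_neg_of_pos ht0 h2
    linarith
  · have ht := (hc.tendsto 0).mono_left (nhdsWithin_le_nhds (s := Ioi 0))
    refine ge_of_tendsto ht ?_
    filter_upwards [self_mem_nhdsWithin] with t ht
    have ht0 : 0 < t := ht
    exact nonneg_of_mul_nonneg_right (h t) ht0

theorem prod_vanish {M : Submodule ℝ E} {a b a' b' : E}
    (H : ∀ w ∈ M, 0 ≤ inner ℝ w a * inner ℝ w b * (inner ℝ w a' * inner ℝ w b')) {u d : E}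
    (hu : u ∈ M) (hd : d ∈ M) (h0 : inner ℝ u a = 0) (hb : inner ℝ u b ≠ 0)
    (hda : inner ℝ d a ≠ 0) : inner ℝ u a' * inner ℝ u b' = 0 := by
  have h1 := lin_zero (P := fun t : ℝ => inner ℝ d a * inner ℝ (u + t • d) b *
    (inner ℝ (u + t • d) a' * inner ℝ (u + t • d) b')) (by fun_prop) (by
    intro t
    have h2 := H (u + t • d) (M.add_mem hu (M.smul_mem t hd))
    have h3 : inner ℝ (u + t • d) a = t * inner ℝ d a := by
      rw [inner_add_left, real_inner_smul_left, h0, zero_add]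
    rw [h3] at h2
    calc (0 : ℝ) ≤ _ := h2
      _ = _ := by ring)
  simp only [zero_smul, add_zero] at h1
  exact (mul_eq_zero.1 h1).resolve_left (mul_ne_zero hda hb)

theorem kernel_match {M : Submodule ℝ E} {a b c a' b' c' Ki Kj : E} (hKi : Ki ∈ M) (hKj : Kj ∈ M)
    (hspan : ∀ u ∈ M, ∃ p q : ℝ, u = p • Ki + q • Kj)
    (Hab : ∀ w ∈ M, 0 ≤ inner ℝ w a * inner ℝ w b * (inner ℝ w a' * inner ℝ w b'))
    (Hac : ∀ w ∈ M, 0 ≤ inner ℝ w a * inner ℝ w c * (inner ℝ w a' * inner ℝ w c'))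
    (Hbc : ∀ w ∈ M, 0 ≤ inner ℝ w b * inner ℝ w c * (inner ℝ w b' * inner ℝ w c'))
    (hia : inner ℝ Ki a = 0) (hib : inner ℝ Ki b ≠ 0) (hic : inner ℝ Ki c ≠ 0)
    (hjb : inner ℝ Kj b = 0) (hja : inner ℝ Kj a ≠ 0) (hjc : inner ℝ Kj c ≠ 0)
    (hb' : ∃ u ∈ M, inner ℝ u b' ≠ 0) (hc' : ∃ u ∈ M, inner ℝ u c' ≠ 0) :
    inner ℝ Ki a' = 0 := by
  by_contra h
  have h1 := (mul_eq_zero.1 (prod_vanish Hab hKi hKj hia hib hja)).resolve_left h
  have h2 := (mul_eq_zero.1 (prod_vanish Hac hKi hKj hia hic hja)).resolve_left h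
  have h3 : inner ℝ Kj b' ≠ 0 := by
    intro h3
    obtain ⟨u, hu, hub⟩ := hb'
    obtain ⟨p, q, rfl⟩ := hspan u hu
    apply hub
    rw [inner_add_left, real_inner_smul_left, real_inner_smul_left, h1, h3]
    ring
  have h4 := (mul_eq_zero.1 (prod_vanish Hbc hKj hKi hjb hjc hib)).resolve_left h3
  obtain ⟨u, hu, huc⟩ := hc'
  obtain ⟨p, q, rfl⟩ := hspan u hu
  apply huc
  rw [inner_add_left, real_inner_smul_left, real_inner_smul_left, h2, h4]
  ring

/-- The algebra of the two possible turns. -/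
theorem eta_alg {α : ℝ} {ξ p l κ : Fin 3 → ℝ} (hξ : ∀ i, ξ i ≠ 0) (hl : ∀ i, l i ≠ 0)
    (h1 : ∀ i, p i * α + l i * ξ i + κ i = 0) (h2 : ∀ i j, i ≠ j → p i * p j = κ i * κ j) :
    ∃ η : ℝ, (η = 1 ∨ η = -1) ∧ ∀ i, p i = η * κ i := by
  have hboth : ∀ i, ¬ (p i = 0 ∧ κ i = 0) := by
    rintro i ⟨h3, h4⟩
    have h5 := h1 i
    rw [h3, h4] at h5
    have h6 : l i * ξ i = 0 := by linarith
    exact mul_ne_zero (hl i) (hξ i) h6
  have h01 := h2 0 1 (by decide)
  have h02 := h2 0 2 (by decide)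
  have h12 := h2 1 2 (by decide)
  have key : ∀ a b c a' b' c' : ℝ, a * b = a' * b' → a * c = a' * c' → b * c = b' * c' →
      ¬ (a = 0 ∧ a' = 0) → ¬ (b = 0 ∧ b' = 0) → ¬ (c = 0 ∧ c' = 0) → a' ≠ 0 ∧ a ≠ 0 := by
    intro a b c a' b' c' hab hac hbc ha hb hc
    constructor
    · intro h
      have ha0 : a ≠ 0 := fun h' => ha ⟨h', h⟩
      rw [h, zero_mul] at hab hac
      have hb0 := (mul_eq_zero.1 hab).resolve_left ha0
      have hc0 := (mul_eq_zero.1 hac).resolve_left ha0
      rw [hb0, zero_mul] at hbc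
      rcases mul_eq_zero.1 hbc.symm with h' | h'
      · exact hb ⟨hb0, h'⟩
      · exact hc ⟨hc0, h'⟩
    · intro h
      have ha0 : a' ≠ 0 := fun h' => ha ⟨h, h'⟩
      rw [h, zero_mul] at hab hac
      have hb0 := (mul_eq_zero.1 hab.symm).resolve_left ha0
      have hc0 := (mul_eq_zero.1 hac.symm).resolve_left ha0
      rw [hb0, zero_mul] at hbc
      rcases mul_eq_zero.1 hbc with h' | h'
      · exact hb ⟨h', hb0⟩
      · exact hc ⟨h', hc0⟩
  obtain ⟨hk0, hp0⟩ := key _ _ _ _ _ _ h01 h02 h12 (hboth 0) (hboth 1) (hboth 2)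
  obtain ⟨hk1, hp1⟩ := key _ _ _ _ _ _ ((mul_comm _ _).trans (h01.trans (mul_comm _ _))) h12 h02
    (hboth 1) (hboth 0) (hboth 2)
  obtain ⟨hk2, hp2⟩ := key _ _ _ _ _ _ ((mul_comm _ _).trans (h02.trans (mul_comm _ _)))
    ((mul_comm _ _).trans (h12.trans (mul_comm _ _))) h01 (hboth 2) (hboth 0) (hboth 1)
  have hsq : p 0 ^ 2 = κ 0 ^ 2 := by
    have h3 : (p 0 ^ 2 - κ 0 ^ 2) * (κ 1 * κ 2) = 0 := by
      have h4 : p 0 ^ 2 * (p 1 * p 2) = κ 0 ^ 2 * (κ 1 * κ 2) := by
        have : p 0 ^ 2 * (p 1 * p 2) = (p 0 * p 1) * (p 0 * p 2) := by ring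
        rw [this, h01, h02]
        ring
      rw [h12] at h4
      linarith
    have := (mul_eq_zero.1 h3).resolve_right (mul_ne_zero hk1 hk2)
    linarith
  have hp : p 0 = 1 * κ 0 ∨ p 0 = -1 * κ 0 := by
    rcases sq_eq_sq_iff_eq_or_eq_neg.1 hsq with h | h
    · left; linarith
    · right; linarith
  obtain ⟨η, hη, hpη⟩ : ∃ η : ℝ, (η = 1 ∨ η = -1) ∧ p 0 = η * κ 0 := by
    rcases hp with h | h
    · exact ⟨1, Or.inl rfl, h⟩
    · exact ⟨-1, Or.inr rfl, h⟩
  have hηη : η * η = 1 := by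
    rcases hη with rfl | rfl <;> norm_num
  refine ⟨η, hη, ?_⟩
  have hj : ∀ pj kj : ℝ, p 0 * pj = κ 0 * kj → pj = η * kj := by
    intro pj kj h
    rw [hpη] at h
    have h3 : κ 0 * (η * pj - kj) = 0 := by linear_combination h
    have h4 := (mul_eq_zero.1 h3).resolve_left hk0
    have h5 : kj = η * pj := by linarith
    rw [h5, ← mul_assoc, hηη, one_mul]
  intro i
  fin_cases i
  · exact hpη
  · exact hj _ _ h01
  · exact hj _ _ h02

section

variable [FiniteDimensional ℝ E]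

theorem Fr.zero (hE : finrank ℝ E = 4) {x : E} {F : Fin 3 → E} (h : Fr x F) {z : E}
    (h0 : inner ℝ z x = 0) (h1 : ∀ i, inner ℝ z (F i) = 0) : z = 0 := by
  rw [h.expand0 hE h0]
  exact Finset.sum_eq_zero (fun i _ => by rw [h1 i, zero_smul])

theorem Fr.parseval (hE : finrank ℝ E = 4) {x : E} {F : Fin 3 → E} (h : Fr x F) (y : E) :
    ‖y‖ ^ 2 = inner ℝ y x ^ 2 + ∑ i, inner ℝ y (F i) ^ 2 := by
  have h1 := h.expand hE y
  have h2 : inner ℝ y y = inner ℝ y x * inner ℝ y x + ∑ i, inner ℝ y (F i) * inner ℝ y (F i) := by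
    nth_rewrite 2 [h1]
    rw [inner_add_right, inner_smul_right, _root_.inner_sum]
    congr 1
    exact Finset.sum_congr rfl (fun i _ => by rw [inner_smul_right])
  rw [real_inner_self_eq_norm_sq] at h2
  rw [h2]
  simp only [sq]

/-- If no vector of the first frame is orthogonal to the common plane, then no vector of the
second frame is. -/
theorem axis_not_perp (hE : finrank ℝ E = 4) {s : Finset ι} {V : ι → Set E} (hG : SymCov s V)
    {e : Fin 4 → ι} {x1 x2 : E} {F1 F2 : Fin 3 → E} (hF1 : Fr x1 F1) (hF2 : Fr x2 F2)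
    (hW1 : Wad V e F1) (hW2 : Wad V e F2) (h1 : ∀ i, ∃ u ∈ Mp x1 x2, inner ℝ u (F1 i) ≠ 0)
    (i : Fin 3) : ∃ u ∈ Mp x1 x2, inner ℝ u (F2 i) ≠ 0 := by
  by_contra hperp
  push Not at hperp
  have hmem : ∀ j, j ≠ i → F2 j ∈ Mp x1 x2 := by
    intro j hj
    refine ⟨?_, hF2.Fx j⟩
    have hw : inner ℝ (F2 j) x1 • F2 i - inner ℝ (F2 i) x1 • F2 j ∈ Mp x1 x2 := by
      constructor
      · rw [inner_sub_left, real_inner_smul_left, real_inner_smul_left]
        ring
      · rw [inner_sub_left, real_inner_smul_left, real_inner_smul_left, hF2.Fx, hF2.Fx]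
        ring
    have := hperp _ hw
    rw [inner_sub_left, real_inner_smul_left, real_inner_smul_left, hF2.Fi, hF2.FF j i hj] at this
    linarith
  obtain ⟨d, hd, hdi⟩ := generic (Mp x1 x2)
    (fun k : Fin 3 ⊕ {j : Fin 3 // j ≠ i} => Sum.elim F1 (fun j => F2 j) k) (by
    rintro (k | k)
    · exact h1 k
    · refine ⟨F2 k, hmem k k.2, ?_⟩
      show inner ℝ (F2 k) (F2 k) ≠ 0
      rw [hF2.Fi]
      norm_num)
  have hd1 : ∀ k, inner ℝ d (F1 k) ≠ 0 := fun k => hdi (Sum.inl k)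
  have hd2 : ∀ k, k ≠ i → inner ℝ d (F2 k) ≠ 0 := fun k hk => hdi (Sum.inr ⟨k, hk⟩)
  have hSe : ∀ k, ∃ b : Bool, k ≠ i → 0 < sgn b * inner ℝ d (F2 k) := by
    intro k
    by_cases hk : k = i
    · exact ⟨true, fun h => absurd hk h⟩
    · obtain ⟨b, hb⟩ := exists_sgn (hd2 k hk)
      exact ⟨b, fun _ => hb⟩
  choose S0 hS0 using hSe
  obtain ⟨m, hm, hmd, hm1, hm2⟩ := exists_orth3 (by rw [hE]) d x1 x2
  have hd0 : d ≠ 0 := by
    rintro rfl
    exact hd1 0 (inner_zero_left _)
  have hmm : inner ℝ m m = 1 := by rw [real_inner_self_eq_norm_sq, hm, one_pow]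
  have hdm : inner ℝ d m = 0 := by rw [real_inner_comm]; exact hmd
  have hind : ∀ p q : ℝ, p • d + q • m = 0 → p = 0 ∧ q = 0 := by
    intro p q h
    have e1 := congrArg (fun z => inner ℝ z m) h
    simp only [inner_add_left, real_inner_smul_left, inner_zero_left, hmm, hdm] at e1
    have e2 := congrArg (fun z => inner ℝ z d) h
    simp only [inner_add_left, real_inner_smul_left, inner_zero_left, hmd,
      real_inner_self_eq_norm_sq] at e2
    have h3 : 0 < ‖d‖ ^ 2 := by
      have := norm_pos_iff.2 hd0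
      positivity
    refine ⟨?_, by linarith⟩
    have : p * ‖d‖ ^ 2 = 0 := by linarith
    exact (mul_eq_zero.1 this).resolve_right h3.ne'
  have hag : ∀ b : Bool, (∀ k, 0 < sgn (Function.update S0 i b k) * inner ℝ d (F1 k)) ∨
      (∀ k, sgn (Function.update S0 i b k) * inner ℝ d (F1 k) < 0) := by
    intro b
    refine agree hE hG hF1 hF2 hW1 hW2 hd.1 hd.2 hm1 hm2 hind hd1 ?_
    rw [eventually_all]
    intro k
    by_cases hk : k = i
    · refine Eventually.of_forall (fun t => ?_)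
      rw [hk, hperp (d + t • m) ((Mp x1 x2).add_mem hd ((Mp x1 x2).smul_mem t ⟨hm1, hm2⟩)),
        mul_zero]
    · rw [Function.update_of_ne hk]
      have hc : Continuous (fun t : ℝ => sgn (S0 k) * inner ℝ (d + t • m) (F2 k)) := by fun_prop
      have h0 : 0 < sgn (S0 k) * inner ℝ (d + (0 : ℝ) • m) (F2 k) := by
        rw [zero_smul, add_zero]
        exact hS0 k hk
      exact (((hc.tendsto 0).eventually (lt_mem_nhds h0)).filter_mono nhdsWithin_le_nhds).mono
        (fun _ h => h.le)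
  obtain ⟨j, hj⟩ : ∃ j : Fin 3, j ≠ i := by
    fin_cases i
    · exact ⟨1, by decide⟩
    · exact ⟨0, by decide⟩
    · exact ⟨0, by decide⟩
  rcases hag true with h | h <;> rcases hag false with h' | h'
  · have e1 := h i
    have e2 := h' i
    rw [Function.update_self] at e1 e2
    simp only [sgn_true, sgn_false] at e1 e2
    linarith
  · have e1 := h j
    have e2 := h' j
    rw [Function.update_of_ne hj] at e1 e2
    linarith
  · have e1 := h j
    have e2 := h' j
    rw [Function.update_of_ne hj] at e1 e2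
    linarith
  · have e1 := h i
    have e2 := h' i
    rw [Function.update_self] at e1 e2
    simp only [sgn_true, sgn_false] at e1 e2
    linarith

theorem match_one (hE : finrank ℝ E = 4) {s : Finset ι} {V : ι → Set E} (hG : SymCov s V)
    {e : Fin 4 → ι} {x1 x2 : E} {F1 F2 : Fin 3 → E} (hF1 : Fr x1 F1) (hF2 : Fr x2 F2)
    (hW1 : Wad V e F1) (hW2 : Wad V e F2) (hξ : ∀ i, inner ℝ x2 (F1 i) ≠ 0)
    (h1 : ∀ i, ∃ u ∈ Mp x1 x2, inner ℝ u (F1 i) ≠ 0)
    (h2 : ∀ i, ∃ u ∈ Mp x1 x2, inner ℝ u (F2 i) ≠ 0) {i j k : Fin 3} (hij : i ≠ j) (hik : i ≠ k)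
    (hjk : j ≠ k) (hall : ∀ l, l = i ∨ l = j ∨ l = k) :
    inner ℝ x2 (F1 k) * inner ℝ (F2 i) (F1 j) = inner ℝ x2 (F1 j) * inner ℝ (F2 i) (F1 k) := by
  have H : ∀ w ∈ Mp x1 x2, ∀ i j : Fin 3, 0 ≤ inner ℝ w (F1 i) * inner ℝ w (F1 j) *
      (inner ℝ w (F2 i) * inner ℝ w (F2 j)) :=
    fun w hw i j => products hE hG hF1 hF2 hW1 hW2 h1 h2 hw i j
  set Ki := inner ℝ x2 (F1 k) • F1 j - inner ℝ x2 (F1 j) • F1 k with hKi
  set Kj := inner ℝ x2 (F1 i) • F1 k - inner ℝ x2 (F1 k) • F1 i with hKj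
  have hFx2 : ∀ l, inner ℝ (F1 l) x2 = inner ℝ x2 (F1 l) := fun l => real_inner_comm _ _
  have mi : Ki ∈ Mp x1 x2 := by
    constructor
    · rw [hKi, inner_sub_left, real_inner_smul_left, real_inner_smul_left, hF1.Fx, hF1.Fx]
      ring
    · rw [hKi, inner_sub_left, real_inner_smul_left, real_inner_smul_left, hFx2, hFx2]
      ring
  have mj : Kj ∈ Mp x1 x2 := by
    constructor
    · rw [hKj, inner_sub_left, real_inner_smul_left, real_inner_smul_left, hF1.Fx, hF1.Fx]
      ring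
    · rw [hKj, inner_sub_left, real_inner_smul_left, real_inner_smul_left, hFx2, hFx2]
      ring
  have ii : inner ℝ Ki (F1 i) = 0 := by
    rw [hKi, inner_sub_left, real_inner_smul_left, real_inner_smul_left, hF1.FF j i hij.symm,
      hF1.FF k i hik.symm]
    ring
  have ij : inner ℝ Ki (F1 j) = inner ℝ x2 (F1 k) := by
    rw [hKi, inner_sub_left, real_inner_smul_left, real_inner_smul_left, hF1.Fi,
      hF1.FF k j hjk.symm]
    ring
  have ik : inner ℝ Ki (F1 k) = -inner ℝ x2 (F1 j) := by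
    rw [hKi, inner_sub_left, real_inner_smul_left, real_inner_smul_left, hF1.Fi,
      hF1.FF j k hjk]
    ring
  have jj : inner ℝ Kj (F1 j) = 0 := by
    rw [hKj, inner_sub_left, real_inner_smul_left, real_inner_smul_left, hF1.FF k j hjk.symm,
      hF1.FF i j hij]
    ring
  have ji : inner ℝ Kj (F1 i) = -inner ℝ x2 (F1 k) := by
    rw [hKj, inner_sub_left, real_inner_smul_left, real_inner_smul_left, hF1.Fi,
      hF1.FF k i hik.symm]
    ring
  have jk : inner ℝ Kj (F1 k) = inner ℝ x2 (F1 i) := by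
    rw [hKj, inner_sub_left, real_inner_smul_left, real_inner_smul_left, hF1.Fi,
      hF1.FF i k hik]
    ring
  have hz := kernel_match (a := F1 i) (b := F1 j) (c := F1 k) (a' := F2 i) (b' := F2 j)
    (c' := F2 k) mi mj ?_ (fun w hw => H w hw i j) (fun w hw => H w hw i k)
    (fun w hw => H w hw j k)
    ii (by rw [ij]; exact hξ k) (by rw [ik]; exact neg_ne_zero.2 (hξ j)) jj
    (by rw [ji]; exact neg_ne_zero.2 (hξ k)) (by rw [jk]; exact hξ i) (h2 j) (h2 k)
  · rw [hKi, inner_sub_left, real_inner_smul_left, real_inner_smul_left,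
      real_inner_comm (F2 i) (F1 j), real_inner_comm (F2 i) (F1 k)] at hz
    linarith
  · -- the span
    rintro u ⟨hu1, hu2⟩
    have hsum : inner ℝ u (F1 i) * inner ℝ x2 (F1 i) + inner ℝ u (F1 j) * inner ℝ x2 (F1 j) +
        inner ℝ u (F1 k) * inner ℝ x2 (F1 k) = 0 := by
      have e1 : inner ℝ u x2 = ∑ l, inner ℝ u (F1 l) * inner ℝ x2 (F1 l) := by
        have h3 := hF1.expand0 hE hu1
        nth_rewrite 1 [h3]
        rw [sum_inner]
        exact Finset.sum_congr rfl (fun l _ => by rw [real_inner_smul_left, hFx2])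
      have e2 : (Finset.univ : Finset (Fin 3)) = {i, j, k} := by
        ext l
        simp only [Finset.mem_univ, Finset.mem_insert, Finset.mem_singleton, true_iff]
        exact hall l
      rw [e2, Finset.sum_insert (by simp [hij, hik]), Finset.sum_insert (by simp [hjk]),
        Finset.sum_singleton, hu2] at e1
      linarith
    refine ⟨inner ℝ u (F1 j) / inner ℝ x2 (F1 k), -(inner ℝ u (F1 i) / inner ℝ x2 (F1 k)), ?_⟩
    rw [← sub_eq_zero]
    refine hF1.zero hE ?_ ?_
    · rw [inner_sub_left, inner_add_left, real_inner_smul_left, real_inner_smul_left, hu1, mi.1,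
        mj.1]
      ring
    · intro l
      rw [inner_sub_left, inner_add_left, real_inner_smul_left, real_inner_smul_left]
      rcases hall l with rfl | rfl | rfl
      · rw [ii, ji]
        field_simp [hξ k]
        ring
      · rw [ij, jj]
        field_simp [hξ k]
        ring
      · rw [ik, jk]
        field_simp [hξ l]
        linarith

/-- The turned frame. -/
noncomputable def Tn (x1 : E) (F1 : Fin 3 → E) (η : ℝ) (i : Fin 3) (x : E) : E :=
  F1 i - (inner ℝ x (F1 i) / (1 + η * inner ℝ x x1)) • (η • x1 + x)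

theorem turn (hE : finrank ℝ E = 4) {s : Finset ι} {V : ι → Set E} (hG : SymCov s V)
    {e : Fin 4 → ι} {x1 x2 : E} {F1 F2 : Fin 3 → E} (hF1 : Fr x1 F1) (hF2 : Fr x2 F2)
    (hW1 : Wad V e F1) (hW2 : Wad V e F2) (hξ : ∀ i, inner ℝ x2 (F1 i) ≠ 0) :
    ∃ b : Bool, ∀ i, Tn x1 F1 (sgn b) i x2 = F2 i ∨ Tn x1 F1 (sgn b) i x2 = -F2 i := by
  have hFx2 : ∀ l, inner ℝ (F1 l) x2 = inner ℝ x2 (F1 l) := fun l => real_inner_comm _ _
  have hFF : ∀ i l, inner ℝ (F1 l) (F2 i) = inner ℝ (F2 i) (F1 l) := fun _ _ => real_inner_comm _ _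
  have hx12 : inner ℝ x1 x2 = inner ℝ x2 x1 := real_inner_comm _ _
  have h1 : ∀ i, ∃ u ∈ Mp x1 x2, inner ℝ u (F1 i) ≠ 0 := by
    have key : ∀ i j : Fin 3, i ≠ j → ∃ u ∈ Mp x1 x2, inner ℝ u (F1 i) ≠ 0 := by
      intro i j hij
      refine ⟨inner ℝ x2 (F1 j) • F1 i - inner ℝ x2 (F1 i) • F1 j, ⟨?_, ?_⟩, ?_⟩
      · rw [inner_sub_left, real_inner_smul_left, real_inner_smul_left, hF1.Fx, hF1.Fx]
        ring
      · rw [inner_sub_left, real_inner_smul_left, real_inner_smul_left, hFx2, hFx2]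
        ring
      · rw [inner_sub_left, real_inner_smul_left, real_inner_smul_left, hF1.Fi,
          hF1.FF j i hij.symm]
        have := hξ j
        intro h
        apply this
        linarith
    intro i
    fin_cases i
    · exact key 0 1 (by decide)
    · exact key 1 0 (by decide)
    · exact key 2 0 (by decide)
  have h2 : ∀ i, ∃ u ∈ Mp x1 x2, inner ℝ u (F2 i) ≠ 0 :=
    axis_not_perp hE hG hF1 hF2 hW1 hW2 h1
  have MO : ∀ {i j k : Fin 3}, i ≠ j → i ≠ k → j ≠ k → (∀ l, l = i ∨ l = j ∨ l = k) →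
      inner ℝ x2 (F1 k) * inner ℝ (F2 i) (F1 j) = inner ℝ x2 (F1 j) * inner ℝ (F2 i) (F1 k) :=
    fun a b c d => match_one hE hG hF1 hF2 hW1 hW2 hξ h1 h2 a b c d
  -- the coefficients
  have hco : ∀ i, ∃ p l κ : ℝ, F2 i = p • x1 + l • F1 i + κ • x2 ∧
      (∀ j, j ≠ i → inner ℝ (F2 i) (F1 j) = κ * inner ℝ x2 (F1 j)) := by
    have key : ∀ {i j k : Fin 3}, i ≠ j → i ≠ k → j ≠ k → (∀ l, l = i ∨ l = j ∨ l = k) →
        ∃ p l κ : ℝ, F2 i = p • x1 + l • F1 i + κ • x2 ∧
          (∀ j, j ≠ i → inner ℝ (F2 i) (F1 j) = κ * inner ℝ x2 (F1 j)) := by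
      intro i j k hij hik hjk hall
      have hm := MO hij hik hjk hall
      set κ := inner ℝ (F2 i) (F1 j) / inner ℝ x2 (F1 j) with hκ
      have hκj : inner ℝ (F2 i) (F1 j) = κ * inner ℝ x2 (F1 j) := by
        rw [hκ]
        field_simp [hξ j]
      have hκk : inner ℝ (F2 i) (F1 k) = κ * inner ℝ x2 (F1 k) := by
        rw [hκj] at hm
        have h3 : inner ℝ x2 (F1 j) * (inner ℝ (F2 i) (F1 k) - κ * inner ℝ x2 (F1 k)) = 0 := by
          linear_combination -hm
        have := (mul_eq_zero.1 h3).resolve_left (hξ j)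
        linarith
      clear_value κ
      refine ⟨inner ℝ (F2 i) x1 - κ * inner ℝ x2 x1, inner ℝ (F2 i) (F1 i) - κ * inner ℝ x2 (F1 i),
        κ, ?_, ?_⟩
      · rw [← sub_eq_zero]
        refine hF1.zero hE ?_ ?_
        · rw [inner_sub_left, inner_add_left, inner_add_left, real_inner_smul_left,
            real_inner_smul_left, real_inner_smul_left, hF1.xx, hF1.Fx]
          ring
        · intro l
          rw [inner_sub_left, inner_add_left, inner_add_left, real_inner_smul_left,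
            real_inner_smul_left, real_inner_smul_left, hF1.xF]
          rcases hall l with rfl | rfl | rfl
          · rw [hF1.Fi]
            ring
          · rw [hF1.FF i l hij, hκj]
            ring
          · rw [hF1.FF i l hik, hκk]
            ring
      · intro l hl
        rcases hall l with rfl | rfl | rfl
        · exact absurd rfl hl
        · exact hκj
        · exact hκk
    intro i
    fin_cases i
    · exact key (i := 0) (j := 1) (k := 2) (by decide) (by decide) (by decide) (by decide)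
    · exact key (i := 1) (j := 0) (k := 2) (by decide) (by decide) (by decide) (by decide)
    · exact key (i := 2) (j := 0) (k := 1) (by decide) (by decide) (by decide) (by decide)
  choose p l κ hF2e hκ using hco
  set α := inner ℝ x2 x1 with hα
  have hx2x2 : inner ℝ x2 x2 = 1 := hF2.xx
  have e1 : ∀ i, p i * α + l i * inner ℝ x2 (F1 i) + κ i = 0 := by
    intro i
    have h3 := hF2.Fx i
    rw [hF2e i, inner_add_left, inner_add_left, real_inner_smul_left, real_inner_smul_left,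
      real_inner_smul_left, hx12, hFx2, hx2x2] at h3
    linarith
  have hFx1 : ∀ i, inner ℝ (F2 i) x1 = p i + κ i * α := by
    intro i
    rw [hF2e i, inner_add_left, inner_add_left, real_inner_smul_left, real_inner_smul_left,
      real_inner_smul_left, hF1.xx, hF1.Fx]
    ring
  have e2 : ∀ i j, i ≠ j → p i * p j = κ i * κ j := by
    intro i j hij
    have h3 := hF2.FF i j hij
    rw [hF2e j] at h3
    rw [inner_add_right, inner_add_right, inner_smul_right, inner_smul_right, inner_smul_right,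
      hF2.Fx, hFx1, hκ i j hij.symm] at h3
    have h4 := e1 j
    linear_combination h3 - κ i * h4
  have hl : ∀ i, l i ≠ 0 := by
    intro i hli
    obtain ⟨u, hu, hui⟩ := h2 i
    apply hui
    rw [hF2e i, hli, inner_add_right, inner_add_right, inner_smul_right, inner_smul_right,
      inner_smul_right, hu.1, hu.2]
    ring
  obtain ⟨η, hη, hpη⟩ := eta_alg hξ hl e1 e2
  obtain ⟨b, hb⟩ : ∃ b : Bool, sgn b = η := by
    rcases hη with rfl | rfl
    · exact ⟨true, rfl⟩
    · exact ⟨false, by simp⟩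
  have hηη : η * η = 1 := by
    rcases hη with rfl | rfl <;> norm_num
  refine ⟨b, fun i => ?_⟩
  rw [hb]
  have e3 : l i * l i = 1 := by
    have h3 := hF2.Fi i
    nth_rewrite 2 [hF2e i] at h3
    have h5 : inner ℝ (F2 i) (F1 i) = l i + κ i * inner ℝ x2 (F1 i) := by
      nth_rewrite 1 [hF2e i]
      rw [inner_add_left, inner_add_left, real_inner_smul_left, real_inner_smul_left,
        real_inner_smul_left, hF1.xF, hF1.Fi]
      ring
    rw [inner_add_right, inner_add_right, inner_smul_right, inner_smul_right, inner_smul_right,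
      hF2.Fx, hFx1, h5, hpη i] at h3
    have h4 := e1 i
    rw [hpη i] at h4
    linear_combination h3 - κ i * h4 - (κ i * κ i) * hηη
  have e4 : κ i * (1 + η * α) = -(l i * inner ℝ x2 (F1 i)) := by
    have h4 := e1 i
    rw [hpη i] at h4
    linear_combination h4
  have h1η : 1 + η * α ≠ 0 := by
    intro h
    rw [h, mul_zero] at e4
    have := mul_ne_zero (hl i) (hξ i)
    apply this
    linarith
  have e5 : inner ℝ x2 (F1 i) / (1 + η * α) = -(l i * κ i) := by
    rw [div_eq_iff h1η]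
    linear_combination l i * e4 - (inner ℝ x2 (F1 i)) * e3
  have e6 : Tn x1 F1 η i x2 = l i • F2 i := by
    have h7 : l i • F2 i = (l i * (η * κ i)) • x1 + (l i * l i) • F1 i + (l i * κ i) • x2 := by
      rw [hF2e i, hpη i]
      module
    rw [h7, e3]
    unfold Tn
    rw [← hα, e5]
    module
  rcases mul_self_eq_one_iff.1 e3 with h | h
  · left
    rw [e6, h, one_smul]
  · right
    rw [e6, h, neg_smul, one_smul]

/-- **The continuum lies in the three coordinate hyperplanes.** -/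
theorem prod_zero (hE : finrank ℝ E = 4) {s : Finset ι} {V : ι → Set E} (hG : SymCov s V)
    {T : Set E} (hTc : IsClosed T) (hTd : IsTotallyDisconnected T) {P : Set E} (hP : Conti P)
    {e : Fin 4 → ι} (hfr : ∀ x ∈ P, ∃ F, Fr x F ∧ Wad V e F)
    (hT : ∀ F : Fin 3 → E, Wad V e F → ∀ i, F i ∈ T ∧ -F i ∈ T) {x1 : E} {F1 : Fin 3 → E}
    (hF1 : Fr x1 F1) (hW1 : Wad V e F1) {x : E} (hx : x ∈ P) : ∃ i, inner ℝ x (F1 i) = 0 := by
  by_contra hcon
  push Not at hcon
  have hO : IsOpen {y : E | ∀ i, inner ℝ y (F1 i) ≠ 0} := by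
    have : {y : E | ∀ i, inner ℝ y (F1 i) ≠ 0} = ⋂ i, {y : E | inner ℝ y (F1 i) ≠ 0} := by
      ext y
      simp
    rw [this]
    exact isOpen_iInter_of_finite (fun i => isOpen_ne_fun (by fun_prop) continuous_const)
  obtain ⟨P', hP'O, hP'⟩ := hP.loc hO ⟨x, hx, hcon⟩
  have hden : ∀ (b : Bool), ∀ y ∈ P', 1 + sgn b * inner ℝ y x1 ≠ 0 := by
    intro b y hy h
    obtain ⟨F, hF, _⟩ := hfr y (hP'O hy).1
    have h1 := hF1.parseval hE y
    rw [hF.nx, Fin.sum_univ_three] at h1
    have h2 := (hP'O hy).2 0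
    have h3 : 0 < inner ℝ y (F1 0) ^ 2 := by positivity
    have h4 : inner ℝ y x1 ^ 2 = 1 := by
      have : sgn b * inner ℝ y x1 = -1 := by linarith
      have h5 : (sgn b * inner ℝ y x1) ^ 2 = 1 := by rw [this]; norm_num
      rw [mul_pow] at h5
      have h6 : sgn b ^ 2 = 1 := by rw [sq, sgn_sq]
      rw [h6, one_mul] at h5
      exact h5
    have h5 := sq_nonneg (inner ℝ y (F1 1))
    have h6 := sq_nonneg (inner ℝ y (F1 2))
    nlinarith
  have hcont : ∀ (b : Bool) (i : Fin 3), ContinuousOn (Tn x1 F1 (sgn b) i) P' := by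
    intro b i
    unfold Tn
    refine ContinuousOn.sub continuousOn_const ?_
    refine ContinuousOn.smul ?_ (by fun_prop)
    exact ContinuousOn.div (by fun_prop) (by fun_prop) (hden b)
  have hcl : ∀ b : Bool, IsClosed (P' ∩ {y | ∀ i, Tn x1 F1 (sgn b) i y ∈ T}) := by
    intro b
    have : P' ∩ {y | ∀ i, Tn x1 F1 (sgn b) i y ∈ T} =
        ⋂ i, (P' ∩ (Tn x1 F1 (sgn b) i) ⁻¹' T) := by
      rw [← inter_iInter]
      congr 1
      ext y
      simp
    rw [this]
    exact isClosed_iInter (fun i => (hcont b i).preimage_isClosed_of_isClosed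
      hP'.comp.isClosed hTc)
  obtain ⟨b, P'', hP''s, hP''⟩ := hP'.cover _ hcl (by
    intro y hy
    obtain ⟨F, hF, hW⟩ := hfr y (hP'O hy).1
    obtain ⟨b, hb⟩ := turn hE hG hF1 hF hW1 hW (hP'O hy).2
    refine mem_iUnion.2 ⟨b, hy, fun i => ?_⟩
    rcases hb i with h | h
    · rw [h]
      exact (hT F hW i).1
    · rw [h]
      exact (hT F hW i).2)
  obtain ⟨y, hy, z, hz, hyz⟩ := hP''.nd
  apply hyz
  have hcst : ∀ i, Tn x1 F1 (sgn b) i y = Tn x1 F1 (sgn b) i z := fun i =>
    hP''.const hTd ((hcont b i).mono (fun w hw => (hP''s hw).1))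
      (fun w hw => (hP''s hw).2.2 i) y hy z hz
  have hx1 : ∀ w ∈ P'', ∀ i, inner ℝ (Tn x1 F1 (sgn b) i w) x1 = -(sgn b * inner ℝ w (F1 i)) := by
    intro w hw i
    have hd := hden b w (hP''s hw).1
    unfold Tn
    rw [inner_sub_left, real_inner_smul_left, inner_add_left, real_inner_smul_left, hF1.Fx, hF1.xx]
    have h3 := sgn_sq b
    have h4 : inner ℝ w (F1 i) / (1 + sgn b * inner ℝ w x1) * (sgn b * 1 + inner ℝ w x1) =
        sgn b * inner ℝ w (F1 i) := by
      rw [div_mul_eq_mul_div, div_eq_iff hd]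
      linear_combination (-(inner ℝ w (F1 i)) * inner ℝ w x1) * h3
    rw [h4]
    ring
  have hxi : ∀ i, inner ℝ y (F1 i) = inner ℝ z (F1 i) := by
    intro i
    have h1 := hx1 y hy i
    have h2 := hx1 z hz i
    rw [hcst i, h2] at h1
    have h3 : sgn b * (inner ℝ y (F1 i) - inner ℝ z (F1 i)) = 0 := by linarith
    have := (mul_eq_zero.1 h3).resolve_left (sgn_ne b)
    linarith
  have hxd : ∀ w ∈ P'', inner ℝ (Tn x1 F1 (sgn b) 0 w) (F1 0) =
      1 - inner ℝ w (F1 0) ^ 2 / (1 + sgn b * inner ℝ w x1) := by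
    intro w hw
    unfold Tn
    rw [inner_sub_left, real_inner_smul_left, inner_add_left, real_inner_smul_left, hF1.xF,
      hF1.Fi]
    ring
  have hα : inner ℝ y x1 = inner ℝ z x1 := by
    have h1 := hxd y hy
    have h2 := hxd z hz
    rw [hcst 0, h2, hxi 0] at h1
    have hdy := hden b y (hP''s hy).1
    have hdz := hden b z (hP''s hz).1
    have h3 : inner ℝ z (F1 0) ^ 2 / (1 + sgn b * inner ℝ z x1) =
        inner ℝ z (F1 0) ^ 2 / (1 + sgn b * inner ℝ y x1) := by linarith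
    have h4 : inner ℝ z (F1 0) ^ 2 ≠ 0 := pow_ne_zero 2 ((hP'O (hP''s hz).1).2 0)
    rw [div_eq_div_iff hdz hdy] at h3
    have h5 := mul_left_cancel₀ h4 h3
    have h6 : sgn b * (inner ℝ y x1 - inner ℝ z x1) = 0 := by linarith
    have := (mul_eq_zero.1 h6).resolve_left (sgn_ne b)
    linarith
  rw [← sub_eq_zero]
  refine hF1.zero hE ?_ ?_
  · rw [inner_sub_left, hα, sub_self]
  · intro i
    rw [inner_sub_left, hxi i, sub_self]

end

end Pool.Agent.OrthoFan
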